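import Pool.Agent.Lib.MP_fdca68_pr.Basic

/-!
# The expected number of vertices touched by small cyclic sets is bounded
-/

namespace Pool.Agent.Lib.MP_fdca68_pr

open Finset SimpleGraph
open scoped Classical

/-- functions with a small range -/
theorem bx_count {ι α : Type*} [Fintype ι] [Fintype α] [DecidableEq α] [Nonempty α] (v : ℕ)
    (dp : DecidablePred (fun f : ι → α => (univ.image f).card ≤ v)) :
    (univ.filter (fun f : ι → α => (univ.image f).card ≤ v)).card ≤
      Fintype.card α ^ v * v ^ Fintype.card ι := by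
  have hsub : univ.filter (fun f : ι → α => (univ.image f).card ≤ v) ⊆
      (univ : Finset ((Fin v → α) × (ι → Fin v))).image (fun gh => gh.1 ∘ gh.2) := by
    intro f hf
    have hf := (Finset.mem_filter.mp hf).2
    have h1 : Nonempty (univ.image f ↪ Fin v) := by
      apply Function.Embedding.nonempty_of_card_le
      rw [Fintype.card_coe, Fintype.card_fin]
      exact hf
    obtain ⟨φ⟩ := h1
    have hmem : ∀ i, f i ∈ univ.image f := fun i => Finset.mem_image_of_mem f (Finset.mem_univ i)
    refine Finset.mem_image.mpr ⟨(fun x => if h : ∃ i, φ ⟨f i, hmem i⟩ = x then f h.choose else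
      Classical.arbitrary α, fun i => φ ⟨f i, hmem i⟩), Finset.mem_univ _, ?_⟩
    funext i
    simp only [Function.comp]
    have h : ∃ i', φ ⟨f i', hmem i'⟩ = φ ⟨f i, hmem i⟩ := ⟨i, rfl⟩
    rw [dif_pos h]
    have := h.choose_spec
    exact congrArg Subtype.val (φ.injective this)
  refine (Finset.card_le_card hsub).trans (Finset.card_image_le.trans ?_)
  rw [Finset.card_univ, Fintype.card_prod, Fintype.card_fun, Fintype.card_fun, Fintype.card_fin]

/-- the ends of a sequence of pairs -/
noncomputable def bxF {n j : ℕ} (f : Fin j → Edge n) : Fin j × Bool → Fin n :=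
  fun ib => if ib.2 then (Quot.out (f ib.1).1).1 else (Quot.out (f ib.1).1).2

theorem bxF_vts {n j : ℕ} (f : Fin j → Edge n) : vts (univ.image f) = univ.image (bxF f) := by
  ext v
  have key : ∀ e : Sym2 (Fin n), v ∈ e ↔ (v = (Quot.out e).1 ∨ v = (Quot.out e).2) := by
    intro e
    have : e = s((Quot.out e).1, (Quot.out e).2) := (Quot.out_eq e).symm
    constructor
    · intro h
      rw [this, Sym2.mem_iff] at h
      exact h
    · rintro (h | h)
      · rw [h]; exact Sym2.out_fst_mem e
      · rw [h]; exact Sym2.out_snd_mem e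
  unfold vts
  simp only [Finset.mem_filter, Finset.mem_univ, true_and, Finset.mem_image, exists_exists_eq_and]
  constructor
  · rintro ⟨i, hi⟩
    rcases (key _).mp hi with h | h
    · exact ⟨(i, true), by simp [bxF, h]⟩
    · exact ⟨(i, false), by simp [bxF, h]⟩
  · rintro ⟨⟨i, b⟩, hi⟩
    refine ⟨i, (key _).mpr ?_⟩
    cases b
    · right; simpa [bxF] using hi.symm
    · left; simpa [bxF] using hi.symm

theorem bxF_inj {n j : ℕ} : Function.Injective (bxF (n := n) (j := j)) := by
  intro f g h
  funext i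
  apply Subtype.ext
  have h1 := congrFun h (i, true)
  have h2 := congrFun h (i, false)
  simp only [bxF, if_true, Bool.false_eq_true, if_false] at h1 h2
  have e1 : (f i).1 = s((Quot.out (f i).1).1, (Quot.out (f i).1).2) := (Quot.out_eq _).symm
  have e2 : (g i).1 = s((Quot.out (g i).1).1, (Quot.out (g i).1).2) := (Quot.out_eq _).symm
  rw [e1, e2, h1, h2]

theorem bx_vts_card {n j : ℕ} (f : Fin j → Edge n) : (vts (univ.image f)).card ≤ 2 * j := by
  rw [bxF_vts]
  refine Finset.card_image_le.trans ?_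
  rw [Finset.card_univ, Fintype.card_prod, Fintype.card_fin, Fintype.card_bool]
  omega

/-- the possible cyclic sequences -/
noncomputable def bxSt (n c j : ℕ) : Finset ((Fin j → Edge n) × (Fin j → Fin c)) :=
  univ.filter (fun fk => Function.Injective fk.1 ∧
    (vts (univ.image fk.1)).card + (univ.image fk.2).card ≤ 2 * j)

theorem bx_St_card (n c j : ℕ) (hn : 0 < n) (hc : 0 < c) : (bxSt n c j).card ≤
    ∑ t ∈ Finset.range (j + 1), n ^ (j + t) * (j + t) ^ (2 * j) * (c ^ (j - t) * (j - t) ^ j) := by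
  have : Nonempty (Fin n) := ⟨⟨0, hn⟩⟩
  have : Nonempty (Fin c) := ⟨⟨0, hc⟩⟩
  have hsub : bxSt n c j ⊆ (Finset.range (j + 1)).biUnion (fun t =>
      (univ.filter (fun f : Fin j → Edge n => (vts (univ.image f)).card ≤ j + t)) ×ˢ
      (univ.filter (fun k : Fin j → Fin c => (univ.image k).card ≤ j - t))) := by
    rintro ⟨f, k⟩ hfk
    obtain ⟨-, h2⟩ := (Finset.mem_filter.mp hfk).2
    simp only at h2
    have h3 := bx_vts_card f
    have h4 : (univ.image k).card ≤ j := by
      refine Finset.card_image_le.trans ?_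
      rw [Finset.card_univ, Fintype.card_fin]
    refine Finset.mem_biUnion.mpr ⟨(vts (univ.image f)).card - j, ?_, ?_⟩
    · rw [Finset.mem_range]; omega
    · refine Finset.mem_product.mpr ⟨?_, ?_⟩
      · refine Finset.mem_filter.mpr ⟨Finset.mem_univ _, ?_⟩
        simp only
        omega
      · refine Finset.mem_filter.mpr ⟨Finset.mem_univ _, ?_⟩
        simp only
        omega
  refine (Finset.card_le_card hsub).trans (Finset.card_biUnion_le.trans ?_)
  refine Finset.sum_le_sum (fun t _ => ?_)
  rw [Finset.card_product]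
  refine Nat.mul_le_mul ?_ ?_
  · have h1 : (univ.filter (fun f : Fin j → Edge n => (vts (univ.image f)).card ≤ j + t)).card ≤
        (univ.filter (fun f : Fin j × Bool → Fin n => (univ.image f).card ≤ j + t)).card := by
      refine Finset.card_le_card_of_injOn bxF ?_ (bxF_inj.injOn)
      intro f hf
      have hf := (Finset.mem_filter.mp (Finset.mem_coe.mp hf)).2
      rw [bxF_vts] at hf
      exact Finset.mem_coe.mpr (Finset.mem_filter.mpr ⟨Finset.mem_univ _, hf⟩)
    refine h1.trans ?_
    have h2 := bx_count (ι := Fin j × Bool) (α := Fin n) (j + t) inferInstance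
    rw [Fintype.card_fin, Fintype.card_prod, Fintype.card_fin, Fintype.card_bool,
      Nat.mul_comm j 2] at h2
    refine le_of_eq_of_le ?_ h2
    congr
    exact Subsingleton.elim _ _
  · have h2 := bx_count (ι := Fin j) (α := Fin c) (j - t) inferInstance
    rw [Fintype.card_fin, Fintype.card_fin] at h2
    refine le_of_eq_of_le ?_ h2
    congr
    exact Subsingleton.elim _ _

/-- indicator of one coordinate -/
noncomputable def bxG {n c j : ℕ} (f : Fin j → Edge n) (k : Fin j → Fin c) (e : Edge n)
    (o : Option (Fin c)) : ℝ := if ∀ i, f i = e → o = some (k i) then (1 : ℝ) else 0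

/-- probability of a given coloured sequence -/
theorem bx_Ex {n c j : ℕ} (hc : 0 < c) (p : ℝ) (f : Fin j → Edge n) (hf : Function.Injective f)
    (k : Fin j → Fin c) :
    Ex n c p (fun ω => if ∀ i, ω (f i) = some (k i) then (1 : ℝ) else 0) = (p / c) ^ j := by
  have h1 : (fun ω : Conf n c => if ∀ i, ω (f i) = some (k i) then (1 : ℝ) else 0) =
      fun ω => ∏ e, bxG f k e (ω e) := by
    funext ω
    unfold bxG
    by_cases h : ∀ i, ω (f i) = some (k i)
    · rw [if_pos h, Finset.prod_eq_one]
      intro e _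
      rw [if_pos]
      rintro i rfl
      exact h i
    · rw [if_neg h]
      push Not at h
      obtain ⟨i, hi⟩ := h
      symm
      apply Finset.prod_eq_zero (Finset.mem_univ (f i))
      rw [if_neg]
      intro h
      exact hi (h i rfl)
  rw [h1, Ex_prod hc p (bxG f k)]
  have h2 : ∀ e : Edge n, ((1 - p) * bxG f k e none + (p / c) * ∑ l : Fin c,
      bxG f k e (some l)) = if e ∈ univ.image f then p / c else 1 := by
    intro e
    unfold bxG
    by_cases he : e ∈ univ.image f
    · obtain ⟨i, -, rfl⟩ := Finset.mem_image.mp he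
      rw [if_pos he, if_neg]
      · have h3 : ∀ l : Fin c, (∀ i', f i' = f i → some l = some (k i')) ↔ l = k i := by
          intro l
          constructor
          · intro h
            exact Option.some.inj (h i rfl)
          · rintro rfl i' hi'
            rw [hf hi']
        simp only [h3]
        simp
      · intro h
        have := h i rfl
        simp at this
    · rw [if_neg he, if_pos]
      · have h3 : ∀ l : Fin c, (∀ i', f i' = e → some l = some (k i')) := by
          intro l i' hi'
          exact absurd (Finset.mem_image.mpr ⟨i', Finset.mem_univ _, hi'⟩) he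
        have hcR : (c : ℝ) ≠ 0 := by exact_mod_cast hc.ne'
        have h4 : ∀ l : Fin c, (if ∀ i', f i' = e → some l = some (k i') then (1 : ℝ) else 0) = 1 :=
          fun l => if_pos (h3 l)
        rw [Finset.sum_congr rfl (fun l _ => h4 l), Finset.sum_const, Finset.card_univ,
          Fintype.card_fin, nsmul_eq_mul]
        field_simp
        ring
      · intro i' hi'
        exact absurd (Finset.mem_image.mpr ⟨i', Finset.mem_univ _, hi'⟩) he
  rw [Finset.prod_congr rfl (fun e _ => h2 e), Finset.prod_ite_mem, Finset.univ_inter,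
    Finset.prod_const, Finset.card_image_of_injective _ hf, Finset.card_univ, Fintype.card_fin]

theorem bx_Bad_le {n c : ℕ} (s : ℕ) (ω : Conf n c) :
    (Bad s ω).card ≤ ∑ j ∈ Finset.range (s + 1), ∑ fk ∈ bxSt n c j,
      if ∀ i, ω (fk.1 i) = some (fk.2 i) then 2 * j else 0 := by
  have hsub : Bad s ω ⊆ (Finset.range (s + 1)).biUnion (fun j =>
      ((bxSt n c j).filter (fun fk => ∀ i, ω (fk.1 i) = some (fk.2 i))).biUnion
        (fun fk => vts (univ.image fk.1))) := by
    intro v hv
    obtain ⟨S, hS, ⟨hpres, hcard⟩, hvS⟩ := (Finset.mem_filter.mp hv).2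
    refine Finset.mem_biUnion.mpr ⟨S.card, Finset.mem_range.mpr (by omega), ?_⟩
    have h1 : ∀ i : Fin S.card, ∃ k : Fin c, ω (S.equivFin.symm i).1 = some k := fun i =>
      Option.ne_none_iff_exists'.mp (hpres _ (S.equivFin.symm i).2)
    choose k hk using h1
    have himg : univ.image (fun i : Fin S.card => (S.equivFin.symm i).1) = S := by
      ext e
      rw [Finset.mem_image]
      constructor
      · rintro ⟨i, -, rfl⟩
        exact (S.equivFin.symm i).2
      · intro he
        exact ⟨S.equivFin ⟨e, he⟩, Finset.mem_univ _, by simp⟩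
    refine Finset.mem_biUnion.mpr ⟨(fun i => (S.equivFin.symm i).1, k), ?_, ?_⟩
    · refine Finset.mem_filter.mpr ⟨Finset.mem_filter.mpr ⟨Finset.mem_univ _, ?_, ?_⟩, hk⟩
      · intro i i' h
        exact S.equivFin.symm.injective (Subtype.ext h)
      · simp only [himg]
        refine le_trans (Nat.add_le_add_left (Finset.card_le_card ?_) _) hcard
        intro l hl
        obtain ⟨i, -, rfl⟩ := Finset.mem_image.mp hl
        exact Finset.mem_filter.mpr ⟨Finset.mem_univ _, _, (S.equivFin.symm i).2, hk i⟩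
    · simp only [himg]
      exact hvS
  refine (Finset.card_le_card hsub).trans (Finset.card_biUnion_le.trans ?_)
  refine Finset.sum_le_sum (fun j _ => ?_)
  refine Finset.card_biUnion_le.trans ?_
  rw [Finset.sum_filter]
  refine Finset.sum_le_sum (fun fk _ => ?_)
  split_ifs
  · exact bx_vts_card fk.1
  · exact le_rfl

theorem Ex_Bad (s : ℕ) (lam κ : ℝ) (hl : 0 < lam) (hκ : 0 < κ) :
    ∃ Cs : ℝ, 0 < Cs ∧ ∀ n c : ℕ, 0 < c → (n : ℝ) ≤ κ * c → ∀ p : ℝ, 0 ≤ p → p ≤ 1 → n * p ≤ lam →
      Ex n c p (fun ω => ((Bad s ω).card : ℝ)) ≤ Cs := by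
  refine ⟨1 + ∑ j ∈ Finset.range (s + 1), 2 * (j : ℝ) * ∑ t ∈ Finset.range (j + 1),
    ((j + t : ℕ) : ℝ) ^ (2 * j) * ((j - t : ℕ) : ℝ) ^ j * (lam ^ j * κ ^ t), by positivity, ?_⟩
  intro n c hc hnc p h0 h1 hnp
  have hcR : (0 : ℝ) < c := by exact_mod_cast hc
  rcases Nat.eq_zero_or_pos n with hn | hn
  · subst hn
    have : ∀ ω : Conf 0 c, ((Bad s ω).card : ℝ) = 0 := by
      intro ω
      have : Bad s ω = ∅ := by
        ext v; exact v.elim0
      rw [this]; simp
    simp only [this]
    rw [Ex_const hc]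
    positivity
  have hstep : Ex n c p (fun ω => ((Bad s ω).card : ℝ)) ≤
      Ex n c p (fun ω => ∑ j ∈ Finset.range (s + 1), (2 * (j : ℝ)) * ∑ fk ∈ bxSt n c j,
        (if ∀ i, ω (fk.1 i) = some (fk.2 i) then (1 : ℝ) else 0)) := by
    refine Ex_mono h0 h1 (fun ω => ?_)
    have := bx_Bad_le s ω
    have h2 : ((Bad s ω).card : ℝ) ≤ ((∑ j ∈ Finset.range (s + 1), ∑ fk ∈ bxSt n c j,
      if ∀ i, ω (fk.1 i) = some (fk.2 i) then 2 * j else 0 : ℕ) : ℝ) := by exact_mod_cast this
    refine h2.trans (le_of_eq ?_)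
    push_cast
    refine Finset.sum_congr rfl (fun j _ => ?_)
    rw [Finset.mul_sum]
    refine Finset.sum_congr rfl (fun fk _ => ?_)
    split_ifs <;> simp
  refine hstep.trans ?_
  rw [Ex_sum]
  have hj : ∀ j ∈ Finset.range (s + 1), Ex n c p (fun ω => (2 * (j : ℝ)) * ∑ fk ∈ bxSt n c j,
        (if ∀ i, ω (fk.1 i) = some (fk.2 i) then (1 : ℝ) else 0)) ≤
      2 * (j : ℝ) * ∑ t ∈ Finset.range (j + 1),
        ((j + t : ℕ) : ℝ) ^ (2 * j) * ((j - t : ℕ) : ℝ) ^ j * (lam ^ j * κ ^ t) := by
    intro j _
    rw [Ex_mul, Ex_sum]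
    refine mul_le_mul_of_nonneg_left ?_ (by positivity)
    have h2 : ∑ fk ∈ bxSt n c j, Ex n c p (fun ω =>
        (if ∀ i, ω (fk.1 i) = some (fk.2 i) then (1 : ℝ) else 0)) =
        (bxSt n c j).card * (p / c) ^ j := by
      rw [Finset.sum_congr rfl (fun fk hfk => bx_Ex hc p fk.1 (Finset.mem_filter.mp hfk).2.1 fk.2),
        Finset.sum_const, nsmul_eq_mul]
    rw [h2]
    have h3 : ((bxSt n c j).card : ℝ) ≤ ((∑ t ∈ Finset.range (j + 1),
      n ^ (j + t) * (j + t) ^ (2 * j) * (c ^ (j - t) * (j - t) ^ j) : ℕ) : ℝ) := by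
      exact_mod_cast bx_St_card n c j hn hc
    refine (mul_le_mul_of_nonneg_right h3 (by positivity)).trans ?_
    rw [Nat.cast_sum, Finset.sum_mul]
    refine Finset.sum_le_sum (fun t ht => ?_)
    rw [Finset.mem_range] at ht
    have htj : t ≤ j := by omega
    have h4 : (((n ^ (j + t) * (j + t) ^ (2 * j) * (c ^ (j - t) * (j - t) ^ j) : ℕ)) : ℝ) *
        (p / c) ^ j = ((j + t : ℕ) : ℝ) ^ (2 * j) * ((j - t : ℕ) : ℝ) ^ j *
        (((n : ℝ) * p) ^ j * ((n : ℝ) / c) ^ t) := by
      have hcc : (c : ℝ) ^ (j - t) * (c : ℝ) ^ t = (c : ℝ) ^ j := by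
        rw [← pow_add]; congr 1; omega
      rw [Nat.cast_mul, Nat.cast_mul, Nat.cast_mul, Nat.cast_pow, Nat.cast_pow, Nat.cast_pow,
        Nat.cast_pow, div_pow, div_pow, mul_pow, pow_add, ← hcc]
      field_simp
    rw [h4]
    refine mul_le_mul_of_nonneg_left ?_ (by positivity)
    refine mul_le_mul ?_ ?_ (by positivity) (by positivity)
    · exact pow_le_pow_left₀ (by positivity) hnp j
    · refine pow_le_pow_left₀ (by positivity) ?_ t
      rw [div_le_iff₀ hcR]
      exact hnc
  have := Finset.sum_le_sum hj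
  linarith

end Pool.Agent.Lib.MP_fdca68_pr
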