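import Pool.Agent.Lib.MP_fdca68_pr.Defs

/-!
# Basic facts: probability on configurations, graph interface
-/

namespace Pool.Agent.Lib.MP_fdca68_pr

open Finset SimpleGraph
open scoped Classical

variable {n c : ℕ} {p : ℝ}

/-! ### Probability -/

theorem wt_nonneg (h0 : 0 ≤ p) (h1 : p ≤ 1) (ω : Conf n c) : 0 ≤ wt n c p ω := by
  unfold wt
  refine Finset.prod_nonneg fun e _ => ?_
  split_ifs
  · linarith
  · positivity

/-- product formula -/
theorem Ex_prod (hc : 0 < c) (p : ℝ) (g : Edge n → Option (Fin c) → ℝ) :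
    Ex n c p (fun ω => ∏ e, g e (ω e)) =
      ∏ e, ((1 - p) * g e none + (p / c) * ∑ k, g e (some k)) := by
  have h1 : ∀ e : Edge n, ((1 - p) * g e none + (p / c) * ∑ k, g e (some k)) =
      ∑ a : Option (Fin c), (if a = none then 1 - p else p / c) * g e a := by
    intro e
    rw [Fintype.sum_option, Finset.mul_sum]
    simp
  simp_rw [h1]
  rw [Finset.prod_univ_sum]
  unfold Ex wt
  rw [Fintype.piFinset_univ]
  refine Finset.sum_congr rfl fun ω _ => ?_
  rw [← Finset.prod_mul_distrib]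

theorem sum_wt (hc : 0 < c) (p : ℝ) : ∑ ω : Conf n c, wt n c p ω = 1 := by
  have h := Ex_prod (n := n) hc p (fun _ _ => 1)
  unfold Ex at h
  simp only [Finset.prod_const_one, mul_one] at h
  rw [h]
  refine Finset.prod_eq_one fun e _ => ?_
  have : (c : ℝ) ≠ 0 := by exact_mod_cast hc.ne'
  simp
  field_simp
  ring

theorem Pr_eq_Ex (A : Set (Conf n c)) :
    Pr n c p A = Ex n c p (fun ω => if ω ∈ A then 1 else 0) := by
  unfold Pr Ex
  refine Finset.sum_congr rfl fun ω _ => ?_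
  by_cases h : ω ∈ A <;> simp [h]

theorem Ex_add (f g : Conf n c → ℝ) :
    Ex n c p (fun ω => f ω + g ω) = Ex n c p f + Ex n c p g := by
  unfold Ex
  rw [← Finset.sum_add_distrib]
  exact Finset.sum_congr rfl fun ω _ => by ring

theorem Ex_sub (f g : Conf n c → ℝ) :
    Ex n c p (fun ω => f ω - g ω) = Ex n c p f - Ex n c p g := by
  unfold Ex
  rw [← Finset.sum_sub_distrib]
  exact Finset.sum_congr rfl fun ω _ => by ring

theorem Ex_mul (a : ℝ) (f : Conf n c → ℝ) :
    Ex n c p (fun ω => a * f ω) = a * Ex n c p f := by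
  unfold Ex
  rw [Finset.mul_sum]
  exact Finset.sum_congr rfl fun ω _ => by ring

theorem Ex_const (hc : 0 < c) (a : ℝ) : Ex n c p (fun _ => a) = a := by
  unfold Ex
  rw [← Finset.sum_mul, sum_wt hc, one_mul]

theorem Ex_sum {ι : Type*} (s : Finset ι) (f : ι → Conf n c → ℝ) :
    Ex n c p (fun ω => ∑ i ∈ s, f i ω) = ∑ i ∈ s, Ex n c p (f i) := by
  unfold Ex
  rw [Finset.sum_comm]
  exact Finset.sum_congr rfl fun ω _ => by rw [Finset.mul_sum]

theorem Ex_mono (h0 : 0 ≤ p) (h1 : p ≤ 1) {f g : Conf n c → ℝ} (h : ∀ ω, f ω ≤ g ω) :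
    Ex n c p f ≤ Ex n c p g := by
  unfold Ex
  exact Finset.sum_le_sum fun ω _ => mul_le_mul_of_nonneg_left (h ω) (wt_nonneg h0 h1 ω)

theorem Ex_nonneg (h0 : 0 ≤ p) (h1 : p ≤ 1) {f : Conf n c → ℝ} (h : ∀ ω, 0 ≤ f ω) :
    0 ≤ Ex n c p f := by
  unfold Ex
  exact Finset.sum_nonneg fun ω _ => mul_nonneg (wt_nonneg h0 h1 ω) (h ω)

theorem Pr_nonneg (h0 : 0 ≤ p) (h1 : p ≤ 1) (A : Set (Conf n c)) : 0 ≤ Pr n c p A := by
  rw [Pr_eq_Ex]
  exact Ex_nonneg h0 h1 fun ω => by split_ifs <;> norm_num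

theorem Pr_le_one (hc : 0 < c) (h0 : 0 ≤ p) (h1 : p ≤ 1) (A : Set (Conf n c)) :
    Pr n c p A ≤ 1 := by
  have h2 : Ex n c p (fun _ => (1 : ℝ)) = 1 := Ex_const hc 1
  rw [Pr_eq_Ex]
  refine le_trans (Ex_mono h0 h1 fun ω => ?_) h2.le
  by_cases h : ω ∈ A <;> simp [h]

theorem Pr_mono (h0 : 0 ≤ p) (h1 : p ≤ 1) {A B : Set (Conf n c)} (h : A ⊆ B) :
    Pr n c p A ≤ Pr n c p B := by
  rw [Pr_eq_Ex, Pr_eq_Ex]
  refine Ex_mono h0 h1 fun ω => ?_
  by_cases hA : ω ∈ A
  · simp [hA, h hA]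
  · simp only [hA, if_false]; split_ifs <;> norm_num

theorem Pr_union_le (h0 : 0 ≤ p) (h1 : p ≤ 1) (A B : Set (Conf n c)) :
    Pr n c p (A ∪ B) ≤ Pr n c p A + Pr n c p B := by
  rw [Pr_eq_Ex, Pr_eq_Ex, Pr_eq_Ex, ← Ex_add]
  refine Ex_mono h0 h1 fun ω => ?_
  by_cases hA : ω ∈ A <;> by_cases hB : ω ∈ B <;> simp [hA, hB]

theorem Pr_compl (hc : 0 < c) (A : Set (Conf n c)) : Pr n c p Aᶜ = 1 - Pr n c p A := by
  have h2 : Ex n c p (fun _ => (1 : ℝ)) = 1 := Ex_const hc 1
  rw [Pr_eq_Ex, Pr_eq_Ex]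
  nth_rewrite 2 [← h2]
  rw [← Ex_sub]
  congr 1
  funext ω
  by_cases hA : ω ∈ A <;> simp [hA]

theorem Pr_biUnion_le (h0 : 0 ≤ p) (h1 : p ≤ 1) {ι : Type*} (s : Finset ι)
    (A : ι → Set (Conf n c)) : Pr n c p {ω | ∃ i ∈ s, ω ∈ A i} ≤ ∑ i ∈ s, Pr n c p (A i) := by
  simp_rw [Pr_eq_Ex]
  rw [← Ex_sum]
  refine Ex_mono h0 h1 fun ω => ?_
  have hnn : ∀ i ∈ s, (0 : ℝ) ≤ (if ω ∈ A i then 1 else 0) := fun i _ => by
    split_ifs <;> norm_num
  split_ifs with h
  · obtain ⟨i, hi, hω⟩ := h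
    have := Finset.single_le_sum hnn hi
    simpa [hω] using this
  · exact Finset.sum_nonneg hnn

/-- Markov's inequality -/
theorem markov (h0 : 0 ≤ p) (h1 : p ≤ 1) {f : Conf n c → ℝ} (hf : ∀ ω, 0 ≤ f ω) {a : ℝ}
    (ha : 0 < a) : Pr n c p {ω | a ≤ f ω} ≤ Ex n c p f / a := by
  rw [le_div_iff₀ ha, Pr_eq_Ex, mul_comm, ← Ex_mul]
  refine Ex_mono h0 h1 fun ω => ?_
  by_cases h : a ≤ f ω
  · simp [h]
  · simpa [h] using hf ω

theorem bas_congr {f g : Conf n c → ℝ} (h : ∀ ω, f ω = g ω) : Ex n c p f = Ex n c p g := by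
  have : f = g := funext h
  rw [this]

/-- general product formula -/
theorem bas_prod (hc : 0 < c) (p : ℝ) (S S' : Finset (Edge n)) (hd : Disjoint S S')
    (g h : Option (Fin c) → ℝ) :
    Ex n c p (fun ω => (∏ e ∈ S, g (ω e)) * ∏ e ∈ S', h (ω e)) =
      ((1 - p) * g none + (p / c) * ∑ k, g (some k)) ^ S.card *
        ((1 - p) * h none + (p / c) * ∑ k, h (some k)) ^ S'.card := by
  have hc' : (c : ℝ) ≠ 0 := by exact_mod_cast hc.ne'
  have key : ∀ F G : Edge n → ℝ, (∏ e ∈ S, F e) * ∏ e ∈ S', G e =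
      ∏ e, (if e ∈ S then F e else if e ∈ S' then G e else 1) := by
    intro F G
    have h2 : ∏ e, (if e ∈ S then F e else if e ∈ S' then G e else 1) =
        ∏ e ∈ S ∪ S', (if e ∈ S then F e else if e ∈ S' then G e else 1) := by
      symm
      refine Finset.prod_subset (Finset.subset_univ _) fun e _ he => ?_
      rw [Finset.mem_union, not_or] at he
      simp [he.1, he.2]
    rw [h2, Finset.prod_union hd]
    congr 1
    · exact Finset.prod_congr rfl fun e he => by simp [he]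
    · refine Finset.prod_congr rfl fun e he => ?_
      have : e ∉ S := fun h3 => (Finset.disjoint_left.mp hd) h3 he
      simp [he, this]
  refine (bas_congr fun ω => key (fun e => g (ω e)) (fun e => h (ω e))).trans ?_
  refine (Ex_prod hc p (fun (e : Edge n) (a : Option (Fin c)) =>
        if e ∈ S then g a else if e ∈ S' then h a else 1)).trans ?_
  rw [← Finset.prod_const, ← Finset.prod_const, key]
  refine Finset.prod_congr rfl fun e _ => ?_
  by_cases h3 : e ∈ S
  · simp [h3]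
  · by_cases h4 : e ∈ S'
    · simp [h3, h4]
    · simp [h3, h4]
      field_simp
      ring

/-- some edges present, some absent -/
theorem Pr_pres_abs (hc : 0 < c) (S S' : Finset (Edge n)) (hd : Disjoint S S') :
    Pr n c p {ω | (∀ e ∈ S, ω e ≠ none) ∧ ∀ e ∈ S', ω e = none} =
      p ^ S.card * (1 - p) ^ S'.card := by
  have hc' : (c : ℝ) ≠ 0 := by exact_mod_cast hc.ne'
  have h := bas_prod (n := n) hc p S S' hd (fun a => if a = none then 0 else 1)
    (fun a => if a = none then 1 else 0)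
  rw [Pr_eq_Ex]
  refine (bas_congr fun ω => ?_).trans (h.trans ?_)
  · by_cases h3 : ω ∈ {ω : Conf n c | (∀ e ∈ S, ω e ≠ none) ∧ ∀ e ∈ S', ω e = none}
    · rw [if_pos h3, Finset.prod_eq_one, Finset.prod_eq_one, mul_one]
      · intro e he; rw [if_pos (h3.2 e he)]
      · intro e he; rw [if_neg (h3.1 e he)]
    · rw [if_neg h3]
      rw [Set.mem_ofPred_eq, not_and_or] at h3
      rcases h3 with h3 | h3
      · push Not at h3
        obtain ⟨e, he, h4⟩ := h3
        rw [Finset.prod_eq_zero he (by rw [if_pos h4]), zero_mul]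
      · push Not at h3
        obtain ⟨e, he, h4⟩ := h3
        rw [Finset.prod_eq_zero (s := S') he (by rw [if_neg h4]), mul_zero]
  · simp
    left
    field_simp

theorem Pr_pres (hc : 0 < c) (S : Finset (Edge n)) :
    Pr n c p {ω | ∀ e ∈ S, ω e ≠ none} = p ^ S.card := by
  have h := Pr_pres_abs (n := n) (p := p) hc S ∅ (Finset.disjoint_empty_right _)
  simpa using h

/-- one factor bound -/
theorem bas_few (hc : 0 < c) (h0 : 0 ≤ p) (h1 : p ≤ 1) (S S' : Finset (Edge n))
    (hd : Disjoint S S') (P : Option (Fin c) → Prop) [DecidablePred P] (hP : ¬ P none) (t : ℝ) (z : ℝ)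
    (hz : 0 < z) (hz1 : z ≤ 1) :
    Pr n c p {ω | (∀ e ∈ S, ω e ≠ none) ∧
        ((S'.filter (fun e => P (ω e))).card : ℝ) ≤ t} ≤
      p ^ S.card * (Real.exp (t * Real.log z⁻¹) *
        Real.exp (-(p * (((Finset.univ.filter (fun k => P (some k))).card : ℝ) / c) *
          (1 - z) * S'.card))) := by
  have hc' : (c : ℝ) ≠ 0 := by exact_mod_cast hc.ne'
  have hcpos : (0 : ℝ) < c := by exact_mod_cast hc
  set a : ℝ := ((Finset.univ.filter (fun k => P (some k))).card : ℝ) with ha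
  have ha0 : 0 ≤ a := by positivity
  have hac : a ≤ c := by
    rw [ha]
    have := Finset.card_filter_le (Finset.univ : Finset (Fin c)) (fun k => P (some k))
    rw [Finset.card_univ, Fintype.card_fin] at this
    exact_mod_cast this
  have hlz : 0 ≤ Real.log z⁻¹ := Real.log_nonneg (one_le_inv_iff₀.mpr ⟨hz, hz1⟩)
  have h := bas_prod (n := n) hc p S S' hd (fun b => if b = none then 0 else 1)
    (fun b => if P b then z else 1)
  have hq : ((1 - p) * (if P none then z else 1) + (p / c) * ∑ k : Fin c,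
      (if P (some k) then z else 1)) = 1 - p * (a / c) * (1 - z) := by
    rw [if_neg hP, Finset.sum_ite, Finset.sum_const, Finset.sum_const, nsmul_eq_mul,
      nsmul_eq_mul]
    have h3 : ((Finset.univ.filter (fun k => ¬ P (some k))).card : ℝ) = c - a := by
      have h4 := Finset.card_filter_add_card_filter_not (s := (Finset.univ : Finset (Fin c)))
        (fun k => P (some k))
      rw [Finset.card_univ, Fintype.card_fin] at h4
      have h5 : a + ((Finset.univ.filter (fun k => ¬ P (some k))).card : ℝ) = c := by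
        rw [ha]; exact_mod_cast h4
      linarith
    rw [h3, ← ha]
    field_simp
    ring
  have hg : ((1 - p) * (if (none : Option (Fin c)) = none then (0 : ℝ) else 1) +
      (p / c) * ∑ k : Fin c, (if (some k : Option (Fin c)) = none then (0 : ℝ) else 1)) = p := by
    simp
    field_simp
  rw [show ((1 - p) * (fun b : Option (Fin c) => if P b then z else 1) none +
    (p / c) * ∑ k : Fin c, (fun b : Option (Fin c) => if P b then z else 1) (some k)) =
    1 - p * (a / c) * (1 - z) from hq, show ((1 - p) * (fun b : Option (Fin c) =>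
    if b = none then (0 : ℝ) else 1) none + (p / c) * ∑ k : Fin c, (fun b : Option (Fin c) =>
    if b = none then (0 : ℝ) else 1) (some k)) = p from hg] at h
  have hstep : Pr n c p {ω | (∀ e ∈ S, ω e ≠ none) ∧
        ((S'.filter (fun e => P (ω e))).card : ℝ) ≤ t} ≤
      Real.exp (t * Real.log z⁻¹) * Ex n c p (fun ω =>
        (∏ e ∈ S, if ω e = none then (0 : ℝ) else 1) * ∏ e ∈ S', if P (ω e) then z else 1) := by
    rw [Pr_eq_Ex, ← Ex_mul]
    refine Ex_mono h0 h1 fun ω => ?_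
    have hnn : 0 ≤ Real.exp (t * Real.log z⁻¹) *
        ((∏ e ∈ S, if ω e = none then (0 : ℝ) else 1) * ∏ e ∈ S', if P (ω e) then z else 1) := by
      refine mul_nonneg (Real.exp_pos _).le (mul_nonneg ?_ ?_)
      · exact Finset.prod_nonneg fun e _ => by split_ifs <;> norm_num
      · exact Finset.prod_nonneg fun e _ => by split_ifs <;> linarith
    by_cases hω : ω ∈ {ω : Conf n c | (∀ e ∈ S, ω e ≠ none) ∧
        ((S'.filter (fun e => P (ω e))).card : ℝ) ≤ t}
    · rw [if_pos hω]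
      obtain ⟨h3, h4⟩ := hω
      rw [Finset.prod_eq_one (fun e he => by rw [if_neg (h3 e he)]), one_mul,
        Finset.prod_ite, Finset.prod_const, Finset.prod_const_one, mul_one]
      have h5 : z ^ (S'.filter (fun e => P (ω e))).card =
          Real.exp (-(((S'.filter (fun e => P (ω e))).card : ℝ) * Real.log z⁻¹)) := by
        rw [Real.log_inv, mul_neg, neg_neg, ← Real.log_pow, Real.exp_log (by positivity)]
      rw [h5, ← Real.exp_add, Real.one_le_exp_iff]
      nlinarith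
    · rw [if_neg hω]; exact hnn
  refine hstep.trans ?_
  rw [h]
  have h6 : (1 - p * (a / c) * (1 - z)) ^ S'.card ≤
      Real.exp (-(p * (a / c) * (1 - z) * S'.card)) := by
    have h7 : 0 ≤ 1 - p * (a / c) * (1 - z) := by
      have h8 : a / c ≤ 1 := (div_le_one hcpos).mpr hac
      have h9 : 0 ≤ a / c := by positivity
      have h10 : p * (a / c) ≤ 1 := mul_le_one₀ h1 h9 h8
      have h11 : 0 ≤ p * (a / c) := by positivity
      nlinarith
    have h8 : 1 - p * (a / c) * (1 - z) ≤ Real.exp (-(p * (a / c) * (1 - z))) := by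
      have := Real.add_one_le_exp (-(p * (a / c) * (1 - z)))
      linarith
    calc (1 - p * (a / c) * (1 - z)) ^ S'.card ≤
        (Real.exp (-(p * (a / c) * (1 - z)))) ^ S'.card := by gcongr
      _ = _ := by rw [← Real.exp_nat_mul]; congr 1; ring
  calc Real.exp (t * Real.log z⁻¹) * (p ^ S.card * (1 - p * (a / c) * (1 - z)) ^ S'.card)
      ≤ Real.exp (t * Real.log z⁻¹) * (p ^ S.card *
        Real.exp (-(p * (a / c) * (1 - z) * S'.card))) := by gcongr
    _ = _ := by ring

/-- the edges of `S` are present and at most `t` edges of `S'` are present -/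
theorem Pr_pres_few (hc : 0 < c) (h0 : 0 ≤ p) (h1 : p ≤ 1) (S S' : Finset (Edge n))
    (hd : Disjoint S S') (t : ℝ) (z : ℝ) (hz : 0 < z) (hz1 : z ≤ 1) :
    Pr n c p {ω | (∀ e ∈ S, ω e ≠ none) ∧
        ((S'.filter (fun e => ω e ≠ none)).card : ℝ) ≤ t} ≤
      p ^ S.card * (Real.exp (t * Real.log z⁻¹) * Real.exp (-(p * (1 - z) * S'.card))) := by
  have h := bas_few (n := n) hc h0 h1 S S' hd (fun a => a ≠ none) (by simp) t z hz hz1
  have hc' : (c : ℝ) ≠ 0 := by exact_mod_cast hc.ne'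
  refine h.trans (le_of_eq ?_)
  congr 5
  simp [hc']

/-- at most `t` edges of `S'` are present with a colour in `A` and not in a forbidden set -/
theorem Pr_few_col (hc : 0 < c) (h0 : 0 ≤ p) (h1 : p ≤ 1) (S' : Finset (Edge n))
    (A : Finset (Fin c)) (t : ℝ) (z : ℝ) (hz : 0 < z) (hz1 : z ≤ 1) :
    Pr n c p {ω | ((S'.filter (fun e => ∃ k ∈ A, ω e = some k)).card : ℝ) ≤ t} ≤
      Real.exp (t * Real.log z⁻¹) * Real.exp (-(p * (A.card / c) * (1 - z) * S'.card)) := by
  have h := bas_few (n := n) hc h0 h1 ∅ S' (Finset.disjoint_empty_left _)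
    (fun a => ∃ k ∈ A, a = some k) (by simp) t z hz hz1
  simpa using h

/-! ### Graph interface -/

theorem col_coe (ω : Conf n c) (e : Edge n) : col ω e.1 = ω e := by
  unfold col
  rw [dif_neg e.2]

theorem gr_adj (ω : Conf n c) (u v : Fin n) : (gr ω).Adj u v ↔ col ω s(u, v) ≠ none := Iff.rfl

theorem mem_gr_edgeSet (ω : Conf n c) (e : Sym2 (Fin n)) :
    e ∈ (gr ω).edgeSet ↔ col ω e ≠ none := by
  induction e with
  | _ u v => rw [mem_edgeSet]; rfl

theorem bas_ncard_le (s : Set (Fin n)) : s.ncard ≤ n := by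
  have := Set.ncard_le_ncard (Set.subset_univ s) Set.finite_univ
  rwa [Set.ncard_univ, Nat.card_eq_fintype_card, Fintype.card_fin] at this

theorem T_le (ω : Conf n c) : T ω ≤ n := by
  unfold T
  refine csSup_le' ?_
  rintro m ⟨H, -, -, rfl⟩
  exact bas_ncard_le _

theorem bas_T_bdd (ω : Conf n c) : BddAbove {m : ℕ | ∃ H : (gr ω).Subgraph, H.coe.IsTree ∧
    Set.InjOn (col ω) H.edgeSet ∧ H.verts.ncard = m} := by
  refine ⟨n, ?_⟩
  rintro m ⟨H, -, -, rfl⟩
  exact bas_ncard_le _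

/-- components of rainbow subgraphs contain rainbow trees -/
theorem le_T {ω : Conf n c} {F : SimpleGraph (Fin n)} (h : RB ω F) (v : Fin n) :
    (F.connectedComponentMk v).supp.ncard ≤ T ω := by
  set C := F.connectedComponentMk v with hC
  obtain ⟨T', hT', htree⟩ := C.connected_toSimpleGraph.exists_isTree_le
  let H : (gr ω).Subgraph :=
    { verts := C.supp
      Adj := fun a b => ∃ (ha : a ∈ C.supp) (hb : b ∈ C.supp), T'.Adj ⟨a, ha⟩ ⟨b, hb⟩
      adj_sub := by
        rintro a b ⟨ha, hb, hab⟩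
        exact h.1 (hT' hab)
      edge_vert := by
        rintro a b ⟨ha, -, -⟩
        exact ha
      symm := ⟨by
        rintro a b ⟨ha, hb, hab⟩
        exact ⟨hb, ha, hab.symm⟩⟩ }
  have hH : H.coe = T' := by
    ext a b
    simp only [Subgraph.coe_adj]
    constructor
    · rintro ⟨ha, hb, hab⟩
      exact hab
    · intro hab
      exact ⟨a.2, b.2, hab⟩
  refine le_csSup (bas_T_bdd ω) ⟨H, ?_, ?_, rfl⟩
  · rw [hH]; exact htree
  · refine h.2.mono ?_
    intro e he
    induction e with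
    | _ a b =>
      rw [Subgraph.mem_edgeSet] at he
      obtain ⟨ha, hb, hab⟩ := he
      exact hT' hab

theorem L_le (K : ℕ) (ω : Conf n c) : L K ω ≤ n := by
  unfold L
  refine csSup_le' ?_
  rintro m ⟨H, -, rfl⟩
  exact bas_ncard_le _

theorem bas_L_bdd (K : ℕ) (ω : Conf n c) : BddAbove {m : ℕ | ∃ F : SimpleGraph (Fin n),
    RB ω F ∧ (bigV F K).ncard = m} := by
  refine ⟨n, ?_⟩
  rintro m ⟨H, -, rfl⟩
  exact bas_ncard_le _

theorem le_L {ω : Conf n c} {F : SimpleGraph (Fin n)} (h : RB ω F) (K : ℕ) :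
    (bigV F K).ncard ≤ L K ω :=
  le_csSup (bas_L_bdd K ω) ⟨F, h, rfl⟩

theorem exists_L (K : ℕ) (ω : Conf n c) :
    ∃ F : SimpleGraph (Fin n), RB ω F ∧ (bigV F K).ncard = L K ω := by
  have hne : {m : ℕ | ∃ F : SimpleGraph (Fin n), RB ω F ∧ (bigV F K).ncard = m}.Nonempty :=
    ⟨_, ⊥, ⟨bot_le, by simp⟩, rfl⟩
  exact Nat.sSup_mem hne (bas_L_bdd K ω)

theorem T_le_L (K : ℕ) (ω : Conf n c) : T ω ≤ L K ω + K := by
  by_cases hne : {m : ℕ | ∃ H : (gr ω).Subgraph, H.coe.IsTree ∧
    Set.InjOn (col ω) H.edgeSet ∧ H.verts.ncard = m}.Nonempty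
  · obtain ⟨H, h1, h2, h3⟩ := Nat.sSup_mem hne (bas_T_bdd ω)
    change H.verts.ncard = T ω at h3
    by_cases hK : T ω < K
    · omega
    · push Not at hK
      have hRB : RB ω H.spanningCoe := by
        refine ⟨H.spanningCoe_le, ?_⟩
        refine h2.mono ?_
        intro e he
        induction e with
        | _ a b => exact he
      have hsub : ∀ v ∈ H.verts, H.verts ⊆ (H.spanningCoe.connectedComponentMk v).supp := by
        intro v hv w hw
        rw [ConnectedComponent.mem_supp_iff, ConnectedComponent.eq]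
        have hr : H.coe.Reachable ⟨w, hw⟩ ⟨v, hv⟩ := h1.connected.preconnected _ _
        exact hr.map ⟨Subtype.val, fun {a b} hab => hab⟩
      have hV : H.verts ⊆ bigV H.spanningCoe K := by
        intro v hv
        have h4 := Set.ncard_le_ncard (hsub v hv) (Set.toFinite _)
        exact hK.trans (h3 ▸ h4)
      have h5 := Set.ncard_le_ncard hV (Set.toFinite _)
      have h6 := le_L hRB K
      omega
  · rw [Set.not_nonempty_iff_eq_empty] at hne
    have : T ω = 0 := by
      unfold T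
      rw [hne]
      simp
    omega

theorem L_anti {K K' : ℕ} (h : K ≤ K') (ω : Conf n c) : L K' ω ≤ L K ω := by
  obtain ⟨F, hF, h1⟩ := exists_L K' ω
  rw [← h1]
  refine le_trans (Set.ncard_le_ncard ?_ (Set.toFinite _)) (le_L hF K)
  intro v hv
  exact h.trans hv

end Pool.Agent.Lib.MP_fdca68_pr
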