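import Mathlib

/-!
# Calculus for the expansion lemma
-/

namespace Pool.Agent.Lib.MP_fdca68_pr

open Real

/-- the rate function, maximised over `lam`: it is negative and decreasing in `a` -/
noncomputable def hrate (a : ℝ) : ℝ := -a * log (1 - a / 2) - a - (1 - a) * log (1 - a)

theorem calc_cont : ContinuousOn hrate (Set.Icc 0 1) := by
  unfold hrate
  have h1 : ContinuousOn (fun a : ℝ => log (1 - a / 2)) (Set.Icc 0 1) := by
    apply ContinuousOn.log
    · fun_prop
    · intro x hx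
      have := hx.2
      have : (0:ℝ) < 1 - x / 2 := by linarith
      exact this.ne'
  have h2 : Continuous (fun a : ℝ => (1 - a) * log (1 - a)) :=
    Real.continuous_mul_log.comp (by fun_prop : Continuous (fun a : ℝ => 1 - a))
  exact ((continuousOn_id.neg.mul h1).sub continuousOn_id).sub h2.continuousOn

theorem calc_deriv {a : ℝ} (h0 : 0 < a) (h1 : a < 1) :
    HasDerivAt hrate (log (1 - a / (2 - a)) + a / (2 - a)) a := by
  have hp1 : (0:ℝ) < 1 - a / 2 := by linarith
  have hp2 : (0:ℝ) < 1 - a := by linarith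
  have hp3 : (0:ℝ) < 2 - a := by linarith
  have d1 : HasDerivAt (fun x : ℝ => 1 - x / 2) (-(1 / 2)) a := by
    simpa using ((hasDerivAt_id a).div_const 2).const_sub 1
  have d2 : HasDerivAt (fun x : ℝ => 1 - x) (-1) a := by
    simpa using (hasDerivAt_id a).const_sub 1
  have d3 : HasDerivAt (fun x : ℝ => log (1 - x / 2)) (-(1 / 2) / (1 - a / 2)) a :=
    d1.log hp1.ne'
  have d4 : HasDerivAt (fun x : ℝ => log (1 - x)) (-1 / (1 - a)) a := d2.log hp2.ne'
  have d5 : HasDerivAt (fun x : ℝ => -x) (-1) a := (hasDerivAt_id a).neg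
  have d6 := ((d5.mul d3).sub (hasDerivAt_id a)).sub (d2.mul d4)
  have hfun : hrate = ((((fun x : ℝ => -x) * fun x : ℝ => log (1 - x / 2)) - id) -
      ((fun x : ℝ => 1 - x) * fun x : ℝ => log (1 - x))) := by
    funext x
    simp [hrate]
  rw [hfun]
  have e1 : 1 - a / (2 - a) = (1 - a) / (1 - a / 2) := by
    field_simp
    ring
  have e2 : -1 * log (1 - a / 2) + -a * (-(1 / 2) / (1 - a / 2)) - 1 -
      (-1 * log (1 - a) + (1 - a) * (-1 / (1 - a))) = log (1 - a / (2 - a)) + a / (2 - a) := by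
    rw [e1, Real.log_div hp2.ne' hp1.ne']
    field_simp
    ring
  rw [← e2]
  exact d6

theorem calc_anti : StrictAntiOn hrate (Set.Icc 0 1) := by
  apply strictAntiOn_of_deriv_neg (convex_Icc 0 1) calc_cont
  intro x hx
  rw [interior_Icc] at hx
  obtain ⟨h0, h1⟩ := hx
  rw [(calc_deriv h0 h1).deriv]
  have hp3 : (0:ℝ) < 2 - x := by linarith
  have hs0 : 0 < x / (2 - x) := by positivity
  have hs1 : x / (2 - x) < 1 := by
    rw [div_lt_one hp3]; linarith
  have := Real.log_lt_sub_one_of_pos (x := 1 - x / (2 - x)) (by linarith) (by linarith)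
  linarith

theorem calc_zero : hrate 0 = 0 := by simp [hrate]

theorem hrate_neg {a : ℝ} (h0 : 0 < a) (h1 : a ≤ 1) : hrate a < 0 := by
  have := calc_anti (a := 0) (b := a) ⟨le_refl _, zero_le_one⟩ ⟨h0.le, h1⟩ h0
  rwa [calc_zero] at this

theorem hrate_anti {a b : ℝ} (h0 : 0 ≤ a) (hab : a ≤ b) (h1 : b ≤ 1) : hrate b ≤ hrate a :=
  calc_anti.antitoneOn ⟨h0, hab.trans h1⟩ ⟨h0.trans hab, h1⟩ hab

/-- for every `lam`: the first moment exponent is at most `hrate a` -/
theorem rate_le {lam a : ℝ} (hl : 0 < lam) (h0 : 0 ≤ a) (h1 : a ≤ 1) :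
    a * log lam - lam * (a - a ^ 2 / 2) - (1 - a) * log (1 - a) ≤ hrate a := by
  have hp1 : (0:ℝ) < 1 - a / 2 := by linarith
  have h := Real.log_le_sub_one_of_pos (mul_pos hl hp1)
  rw [Real.log_mul hl.ne' hp1.ne'] at h
  have h2 := mul_le_mul_of_nonneg_left h h0
  unfold hrate
  nlinarith [h2]

theorem calc_choose {n m : ℕ} (hmn : m ≤ n) :
    (n.choose m : ℝ) * ((m : ℝ) ^ m * ((n - m : ℕ) : ℝ) ^ (n - m)) ≤ (n : ℝ) ^ n := by
  have h := add_pow (m : ℝ) ((n - m : ℕ) : ℝ) n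
  have hs : (m : ℝ) + ((n - m : ℕ) : ℝ) = n := by
    rw [← Nat.cast_add, Nat.add_sub_cancel' hmn]
  rw [hs] at h
  rw [h]
  have hmem : m ∈ Finset.range (n + 1) := Finset.mem_range.2 (by omega)
  have := Finset.single_le_sum (f := fun i => (m : ℝ) ^ i * ((n - m : ℕ) : ℝ) ^ (n - i) *
    (n.choose i : ℝ)) (fun i _ => by positivity) hmem
  calc (n.choose m : ℝ) * ((m : ℝ) ^ m * ((n - m : ℕ) : ℝ) ^ (n - m))
      = (m : ℝ) ^ m * ((n - m : ℕ) : ℝ) ^ (n - m) * (n.choose m : ℝ) := by ring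
    _ ≤ _ := this

/-- `C(n,m) m^m λ^m / n^m · e^{-λ n (a - a²/2)} ≤ e^{n hrate a}` with `a = m / n` -/
theorem choose_rate {n m : ℕ} (hm : 0 < m) (hmn : m ≤ n) {lam : ℝ} (hl : 0 < lam) :
    (n.choose m : ℝ) * ((m : ℝ) * (lam / n)) ^ m *
      exp (-(lam * n * ((m : ℝ) / n - ((m : ℝ) / n) ^ 2 / 2))) ≤ exp (n * hrate ((m : ℝ) / n)) := by
  have hn : 0 < n := lt_of_lt_of_le hm hmn
  have hnR : (0:ℝ) < n := by exact_mod_cast hn
  have hmR : (0:ℝ) < m := by exact_mod_cast hm
  have ha0 : (0:ℝ) ≤ (m : ℝ) / n := by positivity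
  have ha1 : (m : ℝ) / n ≤ 1 := by
    rw [div_le_one hnR]; exact_mod_cast hmn
  -- first bound
  have key : (n.choose m : ℝ) * ((m : ℝ) * (lam / n)) ^ m ≤
      exp (n * ((m : ℝ) / n * log lam - (1 - (m : ℝ) / n) * log (1 - (m : ℝ) / n))) := by
    have hexp : exp (n * ((m : ℝ) / n * log lam - (1 - (m : ℝ) / n) * log (1 - (m : ℝ) / n))) =
        lam ^ m / (1 - (m : ℝ) / n) ^ (n - m) := by
      have e1 : (n:ℝ) * ((m : ℝ) / n * log lam - (1 - (m : ℝ) / n) * log (1 - (m : ℝ) / n)) =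
          m * log lam - ((n - m : ℕ) : ℝ) * log (1 - (m : ℝ) / n) := by
        rw [Nat.cast_sub hmn]
        field_simp
      rw [e1, Real.exp_sub, Real.exp_nat_mul, Real.exp_log hl]
      congr 1
      rcases Nat.lt_or_ge m n with h | h
      · have : (0:ℝ) < 1 - (m : ℝ) / n := by
          have : (m : ℝ) / n < 1 := by
            rw [div_lt_one hnR]; exact_mod_cast h
          linarith
        rw [Real.exp_nat_mul, Real.exp_log this]
      · have : n - m = 0 := by omega
        rw [this]; simp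
    rw [hexp]
    have hpos : (0:ℝ) < (1 - (m : ℝ) / n) ^ (n - m) := by
      rcases Nat.lt_or_ge m n with h | h
      · have : (0:ℝ) < 1 - (m : ℝ) / n := by
          have : (m : ℝ) / n < 1 := by
            rw [div_lt_one hnR]; exact_mod_cast h
          linarith
        positivity
      · have : n - m = 0 := by omega
        rw [this]; simp
    rw [le_div_iff₀ hpos]
    have hc := calc_choose hmn
    have e2 : (1 - (m : ℝ) / n) ^ (n - m) = ((n - m : ℕ) : ℝ) ^ (n - m) / (n : ℝ) ^ (n - m) := by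
      rw [← div_pow, Nat.cast_sub hmn]
      congr 1
      field_simp
    have e3 : (n : ℝ) ^ n = (n : ℝ) ^ m * (n : ℝ) ^ (n - m) := by
      rw [← pow_add, Nat.add_sub_cancel' hmn]
    rw [e2, mul_pow, div_pow]
    rw [e3] at hc
    have hnm : (0:ℝ) < (n : ℝ) ^ m * (n : ℝ) ^ (n - m) := by positivity
    have : (n.choose m : ℝ) * ((m : ℝ) ^ m * (lam ^ m / (n : ℝ) ^ m)) *
        (((n - m : ℕ) : ℝ) ^ (n - m) / (n : ℝ) ^ (n - m)) =
        lam ^ m * (((n.choose m : ℝ) * ((m : ℝ) ^ m * ((n - m : ℕ) : ℝ) ^ (n - m))) /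
          ((n : ℝ) ^ m * (n : ℝ) ^ (n - m))) := by
      field_simp
    rw [this]
    have h1 : ((n.choose m : ℝ) * ((m : ℝ) ^ m * ((n - m : ℕ) : ℝ) ^ (n - m))) /
          ((n : ℝ) ^ m * (n : ℝ) ^ (n - m)) ≤ 1 := by
      rw [div_le_one hnm]; exact hc
    have h2 : (0:ℝ) < lam ^ m := by positivity
    nlinarith [mul_le_mul_of_nonneg_left h1 h2.le]
  calc (n.choose m : ℝ) * ((m : ℝ) * (lam / n)) ^ m *
      exp (-(lam * n * ((m : ℝ) / n - ((m : ℝ) / n) ^ 2 / 2)))
      ≤ exp (n * ((m : ℝ) / n * log lam - (1 - (m : ℝ) / n) * log (1 - (m : ℝ) / n))) *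
        exp (-(lam * n * ((m : ℝ) / n - ((m : ℝ) / n) ^ 2 / 2))) :=
        mul_le_mul_of_nonneg_right key (exp_pos _).le
    _ = exp (n * ((m : ℝ) / n * log lam - lam * ((m : ℝ) / n - ((m : ℝ) / n) ^ 2 / 2) -
          (1 - (m : ℝ) / n) * log (1 - (m : ℝ) / n))) := by
        rw [← Real.exp_add]
        congr 1
        ring
    _ ≤ exp (n * hrate ((m : ℝ) / n)) := by
        apply Real.exp_le_exp.2
        exact mul_le_mul_of_nonneg_left (rate_le hl ha0 ha1) hnR.le

/-- partial binomial sums -/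
theorem sum_choose_le (n : ℕ) (t z : ℝ) (hz : 0 < z) (hz1 : z ≤ 1) :
    (∑ r ∈ (Finset.range (n + 1)).filter (fun r : ℕ => (r : ℝ) ≤ t), (n.choose r : ℝ)) ≤
      exp (t * log z⁻¹) * exp (z * n) := by
  have hlz : log z ≤ 0 := Real.log_nonpos hz.le hz1
  calc (∑ r ∈ (Finset.range (n + 1)).filter (fun r : ℕ => (r : ℝ) ≤ t), (n.choose r : ℝ))
      ≤ ∑ r ∈ (Finset.range (n + 1)).filter (fun r : ℕ => (r : ℝ) ≤ t),
          exp (t * log z⁻¹) * (z ^ r * (n.choose r : ℝ)) := by
        apply Finset.sum_le_sum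
        intro r hr
        have hr2 : (r : ℝ) ≤ t := (Finset.mem_filter.1 hr).2
        have h1 : (1:ℝ) ≤ exp (t * log z⁻¹) * z ^ r := by
          have : z ^ r = exp (r * log z) := by
            rw [Real.exp_nat_mul, Real.exp_log hz]
          rw [this, ← Real.exp_add, Real.log_inv]
          apply Real.one_le_exp
          nlinarith
        have h2 : (0:ℝ) ≤ n.choose r := by positivity
        nlinarith
    _ ≤ ∑ r ∈ Finset.range (n + 1), exp (t * log z⁻¹) * (z ^ r * (n.choose r : ℝ)) := by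
        apply Finset.sum_le_sum_of_subset_of_nonneg (Finset.filter_subset _ _)
        intro i _ _
        positivity
    _ = exp (t * log z⁻¹) * (z + 1) ^ n := by
        rw [← Finset.mul_sum, add_pow]
        simp
    _ ≤ exp (t * log z⁻¹) * exp (z * n) := by
        apply mul_le_mul_of_nonneg_left _ (exp_pos _).le
        have h := Real.add_one_le_exp z
        calc (z + 1) ^ n ≤ (exp z) ^ n := pow_le_pow_left₀ (by linarith) h n
          _ = exp (z * n) := by
            rw [← Real.exp_nat_mul, mul_comm]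

end Pool.Agent.Lib.MP_fdca68_pr
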