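import Pool.Agent.Lib.MP_fdca68_pr.LinkDefs

/-!
# The clean graph: no vertices of large degree, no large colour classes, no bad vertices
-/

namespace Pool.Agent.Lib.MP_fdca68_pr

open Finset SimpleGraph
open scoped Classical

variable {n c : ℕ}

/-- the edges kept in the clean graph -/
noncomputable def cln_good (ω : Conf n c) (Δ Δc s : ℕ) : Finset (Edge n) :=
  univ.filter (fun e => ω e ≠ none ∧ (∀ v ∈ e.1, dg ω v ≤ Δ) ∧ (∀ v ∈ e.1, v ∉ Bad s ω) ∧
    ∀ k, ω e = some k → cls ω k ≤ Δc)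

theorem cln_mem_good (ω : Conf n c) (Δ Δc s : ℕ) (e : Edge n) :
    e ∈ cln_good ω Δ Δc s ↔ ω e ≠ none ∧ (∀ v ∈ e.1, dg ω v ≤ Δ) ∧
      (∀ v ∈ e.1, v ∉ Bad s ω) ∧ ∀ k, ω e = some k → cls ω k ≤ Δc := by
  simp [cln_good]

theorem cln_eg_adj (P : Finset (Edge n)) (u v : Fin n) :
    (eg P).Adj u v ↔ ∃ h : ¬ (s(u, v)).IsDiag, (⟨s(u, v), h⟩ : Edge n) ∈ P := by
  unfold eg
  rw [SimpleGraph.fromEdgeSet_adj]
  constructor
  · rintro ⟨⟨e, he, heq⟩, hne⟩
    have h : ¬ (s(u, v)).IsDiag := by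
      rw [Sym2.mk_isDiag_iff]
      exact hne
    refine ⟨h, ?_⟩
    have : (⟨s(u, v), h⟩ : Edge n) = e := Subtype.ext heq.symm
    rw [this]
    exact he
  · rintro ⟨h, hP⟩
    refine ⟨⟨⟨s(u, v), h⟩, hP, rfl⟩, ?_⟩
    intro huv
    exact h (by rw [Sym2.mk_isDiag_iff]; exact huv)

theorem cln_mem_eg (P : Finset (Edge n)) (e : Edge n) : e.1 ∈ (eg P).edgeSet ↔ e ∈ P := by
  unfold eg
  rw [SimpleGraph.edgeSet_fromEdgeSet]
  constructor
  · rintro ⟨⟨e', he', heq⟩, _⟩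
    rw [← Subtype.ext heq]
    exact he'
  · intro he
    exact ⟨⟨e, he, rfl⟩, e.2⟩

/-- elementary: the part of a sum above a threshold -/
theorem cln_thresh {ι : Type*} (s : Finset ι) (f : ι → ℕ) (D : ℕ) (hD : 0 < D) (M : ℝ)
    (h : ∑ i ∈ s, (f i : ℝ) ^ 2 ≤ M) :
    ∑ i ∈ s.filter (fun i => ¬ f i ≤ D), (f i : ℝ) ≤ M / D := by
  have hD' : (0 : ℝ) < D := by exact_mod_cast hD
  rw [le_div_iff₀ hD', Finset.sum_mul]
  refine le_trans ?_ h
  refine le_trans (Finset.sum_le_sum (g := fun i => (f i : ℝ) ^ 2) ?_) ?_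
  · intro i hi
    have h1 := (Finset.mem_filter.mp hi).2
    push Not at h1
    have h2 : (D : ℝ) ≤ f i := by exact_mod_cast h1.le
    have h3 : (0 : ℝ) ≤ f i := Nat.cast_nonneg _
    nlinarith
  · exact Finset.sum_le_sum_of_subset_of_nonneg (Finset.filter_subset _ _)
      (fun _ _ _ => by positivity)

/-- elementary: Cauchy-Schwarz for a sum over few indices -/
theorem cln_cs {ι : Type*} (s B : Finset ι) (hB : B ⊆ s) (f : ι → ℕ) (C ξ x : ℝ)
    (hx : 0 ≤ x) (hC : 0 ≤ C) (hξ : 0 ≤ ξ)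
    (h : ∑ i ∈ s, (f i : ℝ) ^ 2 ≤ C * x) (h3 : (B.card : ℝ) ≤ ξ * x) :
    ∑ i ∈ B, (f i : ℝ) ≤ Real.sqrt (ξ * C) * x := by
  have h1 : (∑ i ∈ B, (f i : ℝ)) ^ 2 ≤ B.card * ∑ i ∈ B, (f i : ℝ) ^ 2 := sq_sum_le_card_mul_sum_sq
  have h2 : ∑ i ∈ B, (f i : ℝ) ^ 2 ≤ C * x :=
    (Finset.sum_le_sum_of_subset_of_nonneg hB (fun _ _ _ => by positivity)).trans h
  have h4 : (∑ i ∈ B, (f i : ℝ)) ^ 2 ≤ (Real.sqrt (ξ * C) * x) ^ 2 := by
    rw [mul_pow, Real.sq_sqrt (mul_nonneg hξ hC)]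
    refine h1.trans ?_
    calc (B.card : ℝ) * ∑ i ∈ B, (f i : ℝ) ^ 2 ≤ (ξ * x) * (C * x) :=
          mul_le_mul h3 h2 (Finset.sum_nonneg fun _ _ => by positivity) (mul_nonneg hξ hx)
      _ = ξ * C * x ^ 2 := by ring
  exact le_of_sq_le_sq h4 (mul_nonneg (Real.sqrt_nonneg _) hx)

theorem exists_clean (ω : Conf n c) (C ξ : ℝ) (Δ Δc s : ℕ) (hC : 0 < C) (hξ : 0 < ξ)
    (hΔ : 0 < Δ) (hΔc : 0 < Δc)
    (h1 : ∑ v, (dg ω v : ℝ) ^ 2 ≤ C * n) (h2 : ∑ k, (cls ω k : ℝ) ^ 2 ≤ C * n)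
    (h3 : ((Bad s ω).card : ℝ) ≤ ξ * n) :
    ∃ Gs : SimpleGraph (Fin n), Gs ≤ gr ω ∧
      ((univ.filter (fun e : Edge n => ω e ≠ none ∧ e.1 ∉ Gs.edgeSet)).card : ℝ) ≤
        (C / Δ + C / Δc + Real.sqrt (ξ * C)) * n ∧
      (∀ v, (Gs.neighborSet v).ncard ≤ Δ) ∧
      (∀ v ∈ Gs.support, v ∉ Bad s ω) ∧
      (∀ e : Edge n, e.1 ∈ Gs.edgeSet → ∀ k, ω e = some k → cls ω k ≤ Δc) := by
  set P := cln_good ω Δ Δc s with hP
  refine ⟨eg P, ?_, ?_, ?_, ?_, ?_⟩
  · intro u v huv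
    rw [cln_eg_adj] at huv
    obtain ⟨h, hm⟩ := huv
    rw [hP, cln_mem_good] at hm
    rw [gr_adj]
    have := col_coe ω (⟨s(u, v), h⟩ : Edge n)
    rw [this]
    exact hm.1
  · have hsub : (univ.filter (fun e : Edge n => ω e ≠ none ∧ e.1 ∉ (eg P).edgeSet)) ⊆
        ((univ.filter (fun v => ¬ dg ω v ≤ Δ)).biUnion
          (fun v => univ.filter (fun e : Edge n => ω e ≠ none ∧ v ∈ e.1))) ∪
        (((Bad s ω).biUnion
          (fun v => univ.filter (fun e : Edge n => ω e ≠ none ∧ v ∈ e.1))) ∪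
        ((univ.filter (fun k => ¬ cls ω k ≤ Δc)).biUnion
          (fun k => univ.filter (fun e : Edge n => ω e = some k)))) := by
      intro e he
      rw [Finset.mem_filter, cln_mem_eg, hP, cln_mem_good] at he
      obtain ⟨_, hne, hng⟩ := he
      rw [Finset.mem_union, Finset.mem_union, Finset.mem_biUnion, Finset.mem_biUnion,
        Finset.mem_biUnion]
      by_cases ha : ∀ v ∈ e.1, dg ω v ≤ Δ
      · by_cases hb : ∀ v ∈ e.1, v ∉ Bad s ω
        · by_cases hk : ∀ k, ω e = some k → cls ω k ≤ Δc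
          · exact absurd ⟨hne, ha, hb, hk⟩ hng
          · push Not at hk
            obtain ⟨k, hk1, hk2⟩ := hk
            refine Or.inr (Or.inr ⟨k, ?_, ?_⟩)
            · rw [Finset.mem_filter]
              exact ⟨Finset.mem_univ _, by omega⟩
            · rw [Finset.mem_filter]
              exact ⟨Finset.mem_univ _, hk1⟩
        · push Not at hb
          obtain ⟨v, hv1, hv2⟩ := hb
          refine Or.inr (Or.inl ⟨v, hv2, ?_⟩)
          rw [Finset.mem_filter]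
          exact ⟨Finset.mem_univ _, hne, hv1⟩
      · push Not at ha
        obtain ⟨v, hv1, hv2⟩ := ha
        refine Or.inl ⟨v, ?_, ?_⟩
        · rw [Finset.mem_filter]
          exact ⟨Finset.mem_univ _, by omega⟩
        · rw [Finset.mem_filter]
          exact ⟨Finset.mem_univ _, hne, hv1⟩
    have hcard : ((univ.filter (fun e : Edge n => ω e ≠ none ∧ e.1 ∉ (eg P).edgeSet)).card : ℝ) ≤
        ∑ v ∈ univ.filter (fun v => ¬ dg ω v ≤ Δ), (dg ω v : ℝ) +
        (∑ v ∈ Bad s ω, (dg ω v : ℝ) +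
        ∑ k ∈ univ.filter (fun k => ¬ cls ω k ≤ Δc), (cls ω k : ℝ)) := by
      have e1 := Finset.card_le_card hsub
      have e2 := e1.trans ((Finset.card_union_le _ _).trans
        (Nat.add_le_add Finset.card_biUnion_le ((Finset.card_union_le _ _).trans
          (Nat.add_le_add Finset.card_biUnion_le Finset.card_biUnion_le))))
      unfold dg cls
      exact_mod_cast e2
    refine hcard.trans ?_
    have a1 := cln_thresh univ (fun v => dg ω v) Δ hΔ (C * n) h1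
    have a2 := cln_thresh univ (fun k => cls ω k) Δc hΔc (C * n) h2
    have a3 := cln_cs univ (Bad s ω) (Finset.subset_univ _) (fun v => dg ω v) C ξ n
      (Nat.cast_nonneg _) hC.le hξ.le h1 h3
    have b1 : C * n / Δ = C / Δ * n := by ring
    have b2 : C * n / Δc = C / Δc * n := by ring
    rw [b1] at a1
    rw [b2] at a2
    have b3 : (C / Δ + C / Δc + Real.sqrt (ξ * C)) * n =
      C / Δ * n + C / Δc * n + Real.sqrt (ξ * C) * n := by ring
    rw [b3]
    linarith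
  · intro v
    by_cases hv : ((eg P).neighborSet v).Nonempty
    · obtain ⟨u, hu⟩ := hv
      have hd : dg ω v ≤ Δ := by
        rw [SimpleGraph.mem_neighborSet, cln_eg_adj] at hu
        obtain ⟨h, hm⟩ := hu
        rw [hP, cln_mem_good] at hm
        exact hm.2.1 v (Sym2.mem_mk_left v u)
      refine le_trans ?_ hd
      unfold dg
      rw [← Set.ncard_coe_finset]
      have key : ∀ w ∈ (eg P).neighborSet v, ∃ e : Edge n, e.1 = s(v, w) ∧ ω e ≠ none := by
        intro w hw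
        rw [SimpleGraph.mem_neighborSet, cln_eg_adj] at hw
        obtain ⟨h, hm⟩ := hw
        rw [hP, cln_mem_good] at hm
        exact ⟨⟨s(v, w), h⟩, rfl, hm.1⟩
      have : Nonempty (Edge n) := by
        obtain ⟨e, _⟩ := key u hu
        exact ⟨e⟩
      choose! φ hφ1 hφ2 using key
      refine Set.ncard_le_ncard_of_injOn φ ?_ ?_ (Set.toFinite _)
      · intro w hw
        rw [Finset.mem_coe, Finset.mem_filter]
        refine ⟨Finset.mem_univ _, hφ2 w hw, ?_⟩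
        rw [hφ1 w hw]
        exact Sym2.mem_mk_left v w
      · intro w hw w' hw' hww
        have e1 := hφ1 w hw
        have e2 := hφ1 w' hw'
        rw [hww, e2] at e1
        exact (Sym2.congr_right.mp e1).symm
    · rw [Set.not_nonempty_iff_eq_empty] at hv
      rw [hv, Set.ncard_empty]
      exact Nat.zero_le _
  · intro v hv
    rw [SimpleGraph.mem_support] at hv
    obtain ⟨u, hu⟩ := hv
    rw [cln_eg_adj] at hu
    obtain ⟨h, hm⟩ := hu
    rw [hP, cln_mem_good] at hm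
    exact hm.2.2.1 v (Sym2.mem_mk_left v u)
  · intro e he
    rw [cln_mem_eg, hP, cln_mem_good] at he
    exact he.2.2.2

end Pool.Agent.Lib.MP_fdca68_pr
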