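import Pool.Agent.Lib.MP_fdca68_pr.LinkDefs

/-!
# Coincidences produce cyclic sets
-/

namespace Pool.Agent.Lib.MP_fdca68_pr

open Finset SimpleGraph
open scoped Classical

variable {n c : ℕ} {ω : Conf n c} {F Gs : SimpleGraph (Fin n)} {r s Kp : ℕ}

/-- standing hypotheses -/
structure Std (ω : Conf n c) (F Gs : SimpleGraph (Fin n)) (r s Kp : ℕ) : Prop where
  rb : RB ω F
  acy : F.IsAcyclic
  size : ∀ v ∈ F.support, (F.connectedComponentMk v).supp.ncard ≤ Kp
  le : Gs ≤ gr ω
  bad : ∀ v ∈ Gs.support, v ∉ Bad s ω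
  hs : 2 * Kp + 2 * r ≤ s

/-! ### Auxiliary definitions and counting lemmas -/

/-- vertices of the component of `a` -/
noncomputable def coi_VC (F : SimpleGraph (Fin n)) (a : Fin n) : Finset (Fin n) :=
  univ.filter (fun v => F.Reachable a v)

/-- edges of the component of `a` -/
noncomputable def coi_CE (F : SimpleGraph (Fin n)) (a : Fin n) : Finset (Edge n) :=
  univ.filter (fun e => e.1 ∈ F.edgeSet ∧ ∃ v ∈ e.1, F.Reachable a v)

theorem coi_mem_VC {a v : Fin n} : v ∈ coi_VC F a ↔ F.Reachable a v := by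
  simp [coi_VC]

theorem coi_mem_CE {a : Fin n} {e : Edge n} :
    e ∈ coi_CE F a ↔ e.1 ∈ F.edgeSet ∧ ∃ v ∈ e.1, F.Reachable a v := by
  simp [coi_CE]

theorem coi_CE_all {a : Fin n} {e : Edge n} (he : e ∈ coi_CE F a) :
    ∀ v ∈ e.1, F.Reachable a v := by
  rw [coi_mem_CE] at he
  obtain ⟨hF, w, hw, hr⟩ := he
  obtain ⟨e, hd⟩ := e
  induction e using Sym2.ind with
  | _ p q =>
    simp only [SimpleGraph.mem_edgeSet] at hF
    simp only [Sym2.mem_iff] at hw ⊢
    rintro v (rfl | rfl) <;> rcases hw with rfl | rfl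
    · exact hr
    · exact hr.trans hF.symm.reachable
    · exact hr.trans hF.reachable
    · exact hr

theorem coi_card_VC (a : Fin n) :
    (coi_VC F a).card = (F.connectedComponentMk a).supp.ncard := by
  rw [← Set.ncard_coe_finset]
  congr 1
  ext v
  simp only [Finset.mem_coe, coi_mem_VC, ConnectedComponent.mem_supp_iff,
    ConnectedComponent.eq]
  exact ⟨fun h => h.symm, fun h => h.symm⟩

/-- a component of a forest is a tree -/
theorem coi_tree (hF : F.IsAcyclic) (a : Fin n) :
    (coi_VC F a).card = (coi_CE F a).card + 1 := by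
  set C := F.connectedComponentMk a with hC
  have hT := hF.isTree_connectedComponent C
  have h1 := hT.card_edgeFinset
  have h2 : Fintype.card C = (coi_VC F a).card := by
    rw [coi_card_VC, ← hC, Set.ncard_eq_toFinset_card', Set.toFinset_card]
    exact Fintype.card_congr (Equiv.subtypeEquivRight (fun v => Iff.rfl))
  have h3 : (coi_CE F a).card = ((coi_CE F a).image Subtype.val).card :=
    (Finset.card_image_of_injective _ Subtype.val_injective).symm
  have h4 : C.toSimpleGraph.edgeFinset.card =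
      (C.toSimpleGraph.edgeFinset.image (Sym2.map Subtype.val)).card :=
    (Finset.card_image_of_injective _ (Sym2.map.injective Subtype.val_injective)).symm
  rw [← h2, ← h1, h3, h4]
  congr 2
  ext z
  simp only [Finset.mem_image, SimpleGraph.mem_edgeFinset]
  induction z using Sym2.ind with
  | _ p q =>
    constructor
    · rintro ⟨e, he, hz⟩
      induction e using Sym2.ind with
      | _ u w =>
        simp only [SimpleGraph.mem_edgeSet] at he
        simp only [Sym2.map_mk] at hz
        have hadj : F.Adj u.1 w.1 := by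
          simpa [ConnectedComponent.toSimpleGraph] using he
        have hu : F.Reachable a u.1 := by
          have h9 : F.connectedComponentMk u.1 = C := u.2
          exact (ConnectedComponent.exact (h9.trans hC)).symm
        refine ⟨⟨s(u.1, w.1), by simpa using hadj.ne⟩, ?_, hz⟩
        rw [coi_mem_CE]
        exact ⟨hadj, u.1, by simp, hu⟩
    · rintro ⟨e, he, hz⟩
      have hall := coi_CE_all he
      rw [coi_mem_CE] at he
      rw [hz] at he hall
      have hadj : F.Adj p q := he.1
      have hp : F.Reachable a p := hall p (by simp)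
      have hq : F.Reachable a q := hall q (by simp)
      have hp' : p ∈ C := ConnectedComponent.sound hp.symm
      have hq' : q ∈ C := ConnectedComponent.sound hq.symm
      refine ⟨s(⟨p, hp'⟩, ⟨q, hq'⟩), ?_, by simp⟩
      simp only [SimpleGraph.mem_edgeSet]
      exact (ConnectedComponent.toSimpleGraph_adj C hp' hq').2 hadj

theorem coi_card_CE_le (h : Std ω F Gs r s Kp) {a : Fin n} (ha : a ∈ F.support) :
    (coi_CE F a).card ≤ Kp := by
  have h1 := coi_tree h.acy a
  have h2 := h.size a ha
  rw [← coi_card_VC] at h2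
  omega

theorem coi_mem_vts {S : Finset (Edge n)} {v : Fin n} : v ∈ vts S ↔ ∃ e ∈ S, v ∈ e.1 := by
  simp [vts]

theorem coi_vts_union (S S' : Finset (Edge n)) : vts (S ∪ S') = vts S ∪ vts S' := by
  ext v
  simp only [coi_mem_vts, Finset.mem_union]
  constructor
  · rintro ⟨e, he | he, hv⟩
    · exact Or.inl ⟨e, he, hv⟩
    · exact Or.inr ⟨e, he, hv⟩
  · rintro (⟨e, he, hv⟩ | ⟨e, he, hv⟩)
    · exact ⟨e, Or.inl he, hv⟩
    · exact ⟨e, Or.inr he, hv⟩

theorem coi_vts_CE (a : Fin n) : vts (coi_CE F a) ⊆ coi_VC F a := by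
  intro v hv
  rw [coi_mem_vts] at hv
  obtain ⟨e, he, hv⟩ := hv
  rw [coi_mem_VC]
  exact coi_CE_all he v hv

theorem coi_mem_cols {S : Finset (Edge n)} {k : Fin c} : k ∈ cols ω S ↔ ∃ e ∈ S, ω e = some k := by
  simp [cols]

/-- the number of colours is at most the size of any subset carrying all colours -/
theorem coi_cols_le {S S' : Finset (Edge n)} (h : ∀ e ∈ S, ∃ e' ∈ S', ω e' = ω e) :
    (cols ω S).card ≤ S'.card := by
  have : (cols ω S).image some ⊆ S'.image ω := by
    intro k hk
    simp only [Finset.mem_image] at hk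
    obtain ⟨k', hk', rfl⟩ := hk
    rw [coi_mem_cols] at hk'
    obtain ⟨e, he, hek⟩ := hk'
    obtain ⟨e', he', h'⟩ := h e he
    exact Finset.mem_image.2 ⟨e', he', by rw [h', hek]⟩
  calc (cols ω S).card = ((cols ω S).image some).card :=
        (Finset.card_image_of_injective _ (Option.some_injective _)).symm
    _ ≤ (S'.image ω).card := Finset.card_le_card this
    _ ≤ S'.card := Finset.card_image_le

theorem coi_cols_le' (S : Finset (Edge n)) : (cols ω S).card ≤ S.card :=
  coi_cols_le fun e he => ⟨e, he, rfl⟩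

theorem coi_cols_le1 {S : Finset (Edge n)} {e f : Edge n} (he : e ∈ S) (hf : f ∈ S) (hne : f ≠ e)
    (hef : ω f = ω e) : (cols ω S).card + 1 ≤ S.card := by
  have h1 : (cols ω S).card ≤ (S.erase e).card := by
    refine coi_cols_le fun g hg => ?_
    by_cases h : g = e
    · exact ⟨f, Finset.mem_erase.2 ⟨hne, hf⟩, by rw [h, hef]⟩
    · exact ⟨g, Finset.mem_erase.2 ⟨h, hg⟩, rfl⟩
  have h2 := Finset.card_erase_add_one he
  omega

/-- no cyclic set of present edges with at most `s` edges touches the support of `Gs` -/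
theorem coi_no_cyc (h : Std ω F Gs r s Kp) {S : Finset (Edge n)} (hp : ∀ e ∈ S, ω e ≠ none)
    (hs : S.card ≤ s) {v : Fin n} (hv : v ∈ vts S) (hG : v ∈ Gs.support) :
    2 * S.card < (vts S).card + (cols ω S).card := by
  by_contra hcon
  push Not at hcon
  apply h.bad v hG
  simp only [Bad, Finset.mem_filter, Finset.mem_univ, true_and]
  exact ⟨S, hs, ⟨hp, hcon⟩, hv⟩

theorem coi_pres_F (h : Std ω F Gs r s Kp) {e : Edge n} (he : e.1 ∈ F.edgeSet) : ω e ≠ none := by
  have h1 : e.1 ∈ (gr ω).edgeSet := SimpleGraph.edgeSet_subset_edgeSet.2 h.rb.1 he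
  rw [mem_gr_edgeSet, col_coe] at h1
  exact h1

theorem coi_pres_G (h : Std ω F Gs r s Kp) {e : Edge n} (he : e.1 ∈ Gs.edgeSet) : ω e ≠ none := by
  have h1 : e.1 ∈ (gr ω).edgeSet := SimpleGraph.edgeSet_subset_edgeSet.2 h.le he
  rw [mem_gr_edgeSet, col_coe] at h1
  exact h1

theorem coi_supp {G : SimpleGraph (Fin n)} {e : Edge n} (he : e.1 ∈ G.edgeSet) {v : Fin n}
    (hv : v ∈ e.1) : v ∈ G.support := by
  obtain ⟨e, hd⟩ := e
  induction e using Sym2.ind with
  | _ p q =>
    simp only [SimpleGraph.mem_edgeSet] at he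
    simp only [Sym2.mem_iff] at hv
    rcases hv with rfl | rfl
    · exact ⟨q, he⟩
    · exact ⟨p, he.symm⟩

theorem coi_link_supp {x y : Fin n} {E : Finset (Edge n)} (hE : Link F Gs r x y E) :
    x ∈ Gs.support := by
  have := hE.hx
  rw [coi_mem_vts] at this
  obtain ⟨e, he, hx⟩ := this
  exact coi_supp (hE.inG e he) hx

theorem coi_disj_CE {x y : Fin n} {E : Finset (Edge n)} (hE : Link F Gs r x y E) (a : Fin n) :
    Disjoint E (coi_CE F a) := by
  rw [Finset.disjoint_left]
  intro e he he'
  rw [coi_mem_CE] at he'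
  exact hE.notF e he he'.1

theorem coi_mem_CE_of {f : Edge n} (hf : f.1 ∈ F.edgeSet) {v a : Fin n} (hv : v ∈ f.1)
    (ha : F.Reachable a v) : f ∈ coi_CE F a := by
  rw [coi_mem_CE]
  exact ⟨hf, v, hv, ha⟩

/-- one link and one component -/
theorem coi_one (h : Std ω F Gs r s Kp) {x y : Fin n} {E : Finset (Edge n)}
    (hE : Link F Gs r x y E) {a : Fin n} (ha : a ∈ F.support) :
    2 * (E.card + (coi_CE F a).card) <
      (vts E \ coi_VC F a).card + ((coi_CE F a).card + 1) +
        (cols ω (E ∪ coi_CE F a)).card := by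
  have hcard : (E ∪ coi_CE F a).card = E.card + (coi_CE F a).card :=
    Finset.card_union_of_disjoint (coi_disj_CE hE a)
  have h1 := coi_card_CE_le h ha
  have h2 := hE.card_le
  have h3 := h.hs
  have h4 := coi_no_cyc h (S := E ∪ coi_CE F a) (v := x) (by
    intro e he
    rcases Finset.mem_union.1 he with he | he
    · exact coi_pres_G h (hE.inG e he)
    · rw [coi_mem_CE] at he
      exact coi_pres_F h he.1) (by omega)
    (by rw [coi_vts_union]; exact Finset.mem_union_left _ hE.hx) (coi_link_supp hE)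
  have h5 : (vts (E ∪ coi_CE F a)).card ≤ (vts E \ coi_VC F a).card + (coi_VC F a).card := by
    rw [coi_vts_union]
    calc (vts E ∪ vts (coi_CE F a)).card ≤ ((vts E \ coi_VC F a) ∪ coi_VC F a).card := by
          apply Finset.card_le_card
          intro v hv
          by_cases hva : v ∈ coi_VC F a
          · exact Finset.mem_union_right _ hva
          · rcases Finset.mem_union.1 hv with hv | hv
            · exact Finset.mem_union_left _ (Finset.mem_sdiff.2 ⟨hv, hva⟩)
            · exact absurd (coi_vts_CE a hv) hva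
      _ ≤ _ := Finset.card_union_le _ _
  have h6 := coi_tree h.acy a
  omega

theorem link_inj (h : Std ω F Gs r s Kp) {x y : Fin n} {E : Finset (Edge n)}
    (hE : Link F Gs r x y E) : Set.InjOn ω (E : Set (Edge n)) := by
  intro e he f hf hef
  by_contra hne
  have h1 := hE.card_le
  have h2 := h.hs
  have h4 := coi_no_cyc h (S := E) (v := x) (fun e he => coi_pres_G h (hE.inG e he)) (by omega)
    hE.hx (coi_link_supp hE)
  have h5 := hE.vcard
  have h6 := coi_cols_le1 (ω := ω) (Finset.mem_coe.1 hf) (Finset.mem_coe.1 he) hne hef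
  omega

theorem link_other (h : Std ω F Gs r s Kp) {x y : Fin n} {E : Finset (Edge n)}
    (hE : Link F Gs r x y E) : ¬ F.Reachable x y := by
  intro hxy
  have h1 := coi_one h hE hE.xF
  have h2 := coi_cols_le' (ω := ω) (E ∪ coi_CE F x)
  have hcard : (E ∪ coi_CE F x).card = E.card + (coi_CE F x).card :=
    Finset.card_union_of_disjoint (coi_disj_CE hE x)
  have h3 : (vts E \ coi_VC F x).card + 2 ≤ (vts E).card := by
    have h4 : ({x, y} : Finset (Fin n)) ⊆ vts E ∩ coi_VC F x := by
      intro v hv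
      simp only [Finset.mem_insert, Finset.mem_singleton] at hv
      rw [Finset.mem_inter, coi_mem_VC]
      rcases hv with rfl | rfl
      · exact ⟨hE.hx, Reachable.refl _⟩
      · exact ⟨hE.hy, hxy⟩
    have h5 := Finset.card_le_card h4
    rw [Finset.card_pair hE.ne] at h5
    have h6 := Finset.card_sdiff_add_card_inter (vts E) (coi_VC F x)
    omega
  have h4 := hE.vcard
  omega

theorem coi_link_col (h : Std ω F Gs r s Kp) {x y : Fin n} {E : Finset (Edge n)}
    (hE : Link F Gs r x y E) {e f : Edge n} (he : e ∈ E) (hf : f.1 ∈ F.edgeSet)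
    (hef : ω f = ω e) {v : Fin n} (hv : v ∈ f.1) {a : Fin n} (ha : a ∈ vts E)
    (haF : a ∈ F.support) : ¬ F.Reachable a v := by
  intro hav
  have h1 := coi_one h hE haF
  have hfC : f ∈ coi_CE F a := coi_mem_CE_of hf hv hav
  have hne : f ≠ e := by
    rintro rfl
    exact hE.notF f he hf
  have h2 := coi_cols_le1 (ω := ω) (S := E ∪ coi_CE F a) (Finset.mem_union_left _ he)
    (Finset.mem_union_right _ hfC) hne hef
  have hcard : (E ∪ coi_CE F a).card = E.card + (coi_CE F a).card :=
    Finset.card_union_of_disjoint (coi_disj_CE hE a)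
  have h3 : (vts E \ coi_VC F a).card + 1 ≤ (vts E).card := by
    have h4 : ({a} : Finset (Fin n)) ⊆ vts E ∩ coi_VC F a := by
      intro v hv
      simp only [Finset.mem_singleton] at hv
      rw [Finset.mem_inter, coi_mem_VC, hv]
      exact ⟨ha, Reachable.refl _⟩
    have h5 := Finset.card_le_card h4
    rw [Finset.card_singleton] at h5
    have h6 := Finset.card_sdiff_add_card_inter (vts E) (coi_VC F a)
    omega
  have h4 := hE.vcard
  omega

theorem link_col (h : Std ω F Gs r s Kp) {x y : Fin n} {E : Finset (Edge n)}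
    (hE : Link F Gs r x y E) {e f : Edge n} (he : e ∈ E) (hf : f.1 ∈ F.edgeSet)
    (hef : ω f = ω e) {v : Fin n} (hv : v ∈ f.1) :
    ¬ F.Reachable x v ∧ ¬ F.Reachable y v :=
  ⟨coi_link_col h hE he hf hef hv hE.hx hE.xF, coi_link_col h hE he hf hef hv hE.hy hE.yF⟩

variable {x y x' y' : Fin n} {E E' : Finset (Edge n)}

theorem coi_disj_links (hd : Disjoint (vts E) (vts E')) : Disjoint E E' := by
  rw [Finset.disjoint_left]
  intro e he he'
  obtain ⟨e, hdg⟩ := e
  induction e using Sym2.ind with
  | _ p q =>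
    have h1 : p ∈ vts E := by
      rw [coi_mem_vts]
      exact ⟨_, he, by simp⟩
    have h2 : p ∈ vts E' := by
      rw [coi_mem_vts]
      exact ⟨_, he', by simp⟩
    exact Finset.disjoint_left.1 hd h1 h2

/-- two links and two components -/
theorem coi_two (h : Std ω F Gs r s Kp) (hE : Link F Gs r x y E) (hE' : Link F Gs r x' y' E')
    (hd : Disjoint (vts E) (vts E')) {a b : Fin n} (ha : a ∈ F.support) (hb : b ∈ F.support)
    (hab : ¬ F.Reachable a b) :
    2 * (E.card + E'.card + (coi_CE F a).card + (coi_CE F b).card) <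
      (vts E \ (coi_VC F a ∪ coi_VC F b)).card + (vts E' \ (coi_VC F a ∪ coi_VC F b)).card +
        ((coi_CE F a).card + 1) + ((coi_CE F b).card + 1) +
        (cols ω ((E ∪ E') ∪ (coi_CE F a ∪ coi_CE F b))).card ∧
    ((E ∪ E') ∪ (coi_CE F a ∪ coi_CE F b)).card =
      E.card + E'.card + (coi_CE F a).card + (coi_CE F b).card := by
  have hab' : Disjoint (coi_CE F a) (coi_CE F b) := by
    rw [Finset.disjoint_left]
    intro e he he'
    have h1 := coi_CE_all he
    have h2 := coi_CE_all he'
    rw [coi_mem_CE] at he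
    obtain ⟨_, v, hv, _⟩ := he
    exact hab ((h1 v hv).trans (h2 v hv).symm)
  have hcard : ((E ∪ E') ∪ (coi_CE F a ∪ coi_CE F b)).card =
      E.card + E'.card + (coi_CE F a).card + (coi_CE F b).card := by
    rw [Finset.card_union_of_disjoint, Finset.card_union_of_disjoint (coi_disj_links hd),
      Finset.card_union_of_disjoint hab']
    · ring
    · rw [Finset.disjoint_union_left, Finset.disjoint_union_right, Finset.disjoint_union_right]
      exact ⟨⟨coi_disj_CE hE a, coi_disj_CE hE b⟩, coi_disj_CE hE' a, coi_disj_CE hE' b⟩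
  refine ⟨?_, hcard⟩
  have h1 := coi_card_CE_le h ha
  have h1' := coi_card_CE_le h hb
  have h2 := hE.card_le
  have h2' := hE'.card_le
  have h3 := h.hs
  have h4 := coi_no_cyc h (S := (E ∪ E') ∪ (coi_CE F a ∪ coi_CE F b)) (v := x) (by
    intro e he
    rcases Finset.mem_union.1 he with he | he
    · rcases Finset.mem_union.1 he with he | he
      · exact coi_pres_G h (hE.inG e he)
      · exact coi_pres_G h (hE'.inG e he)
    · rcases Finset.mem_union.1 he with he | he
      · rw [coi_mem_CE] at he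
        exact coi_pres_F h he.1
      · rw [coi_mem_CE] at he
        exact coi_pres_F h he.1) (by omega)
    (by
      rw [coi_vts_union, coi_vts_union]
      exact Finset.mem_union_left _ (Finset.mem_union_left _ hE.hx)) (coi_link_supp hE)
  have h5 : (vts ((E ∪ E') ∪ (coi_CE F a ∪ coi_CE F b))).card ≤
      (vts E \ (coi_VC F a ∪ coi_VC F b)).card + (vts E' \ (coi_VC F a ∪ coi_VC F b)).card +
        ((coi_VC F a).card + (coi_VC F b).card) := by
    rw [coi_vts_union, coi_vts_union, coi_vts_union]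
    calc ((vts E ∪ vts E') ∪ (vts (coi_CE F a) ∪ vts (coi_CE F b))).card
        ≤ (((vts E \ (coi_VC F a ∪ coi_VC F b)) ∪ (vts E' \ (coi_VC F a ∪ coi_VC F b))) ∪
            (coi_VC F a ∪ coi_VC F b)).card := by
          apply Finset.card_le_card
          intro v hv
          by_cases hva : v ∈ coi_VC F a ∪ coi_VC F b
          · exact Finset.mem_union_right _ hva
          · apply Finset.mem_union_left
            rcases Finset.mem_union.1 hv with hv | hv
            · rcases Finset.mem_union.1 hv with hv | hv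
              · exact Finset.mem_union_left _ (Finset.mem_sdiff.2 ⟨hv, hva⟩)
              · exact Finset.mem_union_right _ (Finset.mem_sdiff.2 ⟨hv, hva⟩)
            · rcases Finset.mem_union.1 hv with hv | hv
              · exact absurd (Finset.mem_union_left _ (coi_vts_CE a hv)) hva
              · exact absurd (Finset.mem_union_right _ (coi_vts_CE b hv)) hva
      _ ≤ _ := (Finset.card_union_le _ _).trans
          (add_le_add (Finset.card_union_le _ _) (Finset.card_union_le _ _))
  have h6 := coi_tree h.acy a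
  have h6' := coi_tree h.acy b
  omega

theorem coi_sdiff1 {A B : Finset (Fin n)} {u : Fin n} (hu : u ∈ A) (hu' : u ∈ B) :
    (A \ B).card + 1 ≤ A.card := by
  have h4 : ({u} : Finset (Fin n)) ⊆ A ∩ B := by
    intro v hv
    simp only [Finset.mem_singleton] at hv
    rw [Finset.mem_inter, hv]
    exact ⟨hu, hu'⟩
  have h5 := Finset.card_le_card h4
  rw [Finset.card_singleton] at h5
  have h6 := Finset.card_sdiff_add_card_inter A B
  omega

theorem coi_sdiff2 {A B : Finset (Fin n)} {u v : Fin n} (huv : u ≠ v) (hu : u ∈ A) (hu' : u ∈ B)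
    (hv : v ∈ A) (hv' : v ∈ B) : (A \ B).card + 2 ≤ A.card := by
  have h4 : ({u, v} : Finset (Fin n)) ⊆ A ∩ B := by
    intro w hw
    simp only [Finset.mem_insert, Finset.mem_singleton] at hw
    rw [Finset.mem_inter]
    rcases hw with rfl | rfl
    · exact ⟨hu, hu'⟩
    · exact ⟨hv, hv'⟩
  have h5 := Finset.card_le_card h4
  rw [Finset.card_pair huv] at h5
  have h6 := Finset.card_sdiff_add_card_inter A B
  omega

theorem links_other (h : Std ω F Gs r s Kp) (hE : Link F Gs r x y E) (hE' : Link F Gs r x' y' E')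
    (hxx : F.Reachable x x') (hd : Disjoint (vts E) (vts E')) : ¬ F.Reachable y y' := by
  intro hyy
  obtain ⟨h1, hcard⟩ := coi_two h hE hE' hd hE.xF hE.yF (link_other h hE)
  have h2 := coi_cols_le' (ω := ω) ((E ∪ E') ∪ (coi_CE F x ∪ coi_CE F y))
  have h3 := coi_sdiff2 (A := vts E) (B := coi_VC F x ∪ coi_VC F y) hE.ne hE.hx
    (Finset.mem_union_left _ (coi_mem_VC.2 (Reachable.refl _))) hE.hy
    (Finset.mem_union_right _ (coi_mem_VC.2 (Reachable.refl _)))
  have h4 := coi_sdiff2 (A := vts E') (B := coi_VC F x ∪ coi_VC F y) hE'.ne hE'.hx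
    (Finset.mem_union_left _ (coi_mem_VC.2 hxx)) hE'.hy
    (Finset.mem_union_right _ (coi_mem_VC.2 hyy))
  have h5 := hE.vcard
  have h6 := hE'.vcard
  omega

theorem links_col1 (h : Std ω F Gs r s Kp) (hE : Link F Gs r x y E) (hE' : Link F Gs r x' y' E')
    (hxx : F.Reachable x x') (hd : Disjoint (vts E) (vts E')) {e' f : Edge n} (he' : e' ∈ E')
    (hf : f.1 ∈ F.edgeSet) (hef : ω f = ω e') {v : Fin n} (hv : v ∈ f.1) :
    ¬ F.Reachable y v := by
  intro hyv
  obtain ⟨h1, hcard⟩ := coi_two h hE hE' hd hE.xF hE.yF (link_other h hE)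
  have hne : f ≠ e' := by
    rintro rfl
    exact hE'.notF f he' hf
  have h2 := coi_cols_le1 (ω := ω) (S := (E ∪ E') ∪ (coi_CE F x ∪ coi_CE F y))
    (Finset.mem_union_left _ (Finset.mem_union_right _ he'))
    (Finset.mem_union_right _ (Finset.mem_union_right _ (coi_mem_CE_of hf hv hyv))) hne hef
  have h3 := coi_sdiff2 (A := vts E) (B := coi_VC F x ∪ coi_VC F y) hE.ne hE.hx
    (Finset.mem_union_left _ (coi_mem_VC.2 (Reachable.refl _))) hE.hy
    (Finset.mem_union_right _ (coi_mem_VC.2 (Reachable.refl _)))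
  have h4 := coi_sdiff1 (A := vts E') (B := coi_VC F x ∪ coi_VC F y) hE'.hx
    (Finset.mem_union_left _ (coi_mem_VC.2 hxx))
  have h5 := hE.vcard
  have h6 := hE'.vcard
  omega

theorem links_col2 (h : Std ω F Gs r s Kp) (hE : Link F Gs r x y E) (hE' : Link F Gs r x' y' E')
    (hxx : F.Reachable x x') (hd : Disjoint (vts E) (vts E')) {e e' f f' : Edge n} (he : e ∈ E)
    (he' : e' ∈ E') (hf : f.1 ∈ F.edgeSet) (hf' : f'.1 ∈ F.edgeSet) (hef : ω f = ω e)
    (hef' : ω f' = ω e') {v v' : Fin n} (hv : v ∈ f.1) (hv' : v' ∈ f'.1) :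
    ¬ F.Reachable v v' := by
  intro hvv
  have hvF : v ∈ F.support := coi_supp hf hv
  obtain ⟨h1, hcard⟩ := coi_two h hE hE' hd hE.xF hvF (link_col h hE he hf hef hv).1
  have hfC : f ∈ coi_CE F v := coi_mem_CE_of hf hv (Reachable.refl _)
  have hfC' : f' ∈ coi_CE F v := coi_mem_CE_of hf' hv' hvv
  have hEE := coi_disj_links hd
  have hee : e ≠ e' := by
    rintro rfl
    exact Finset.disjoint_left.1 hEE he he'
  set S := (E ∪ E') ∪ (coi_CE F x ∪ coi_CE F v) with hS
  have heS : e ∈ S := Finset.mem_union_left _ (Finset.mem_union_left _ he)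
  have heS' : e' ∈ S := Finset.mem_union_left _ (Finset.mem_union_right _ he')
  have hfS : f ∈ S := Finset.mem_union_right _ (Finset.mem_union_right _ hfC)
  have hfS' : f' ∈ S := Finset.mem_union_right _ (Finset.mem_union_right _ hfC')
  have hF : ∀ g : Edge n, g.1 ∈ F.edgeSet → g ≠ e ∧ g ≠ e' := by
    intro g hg
    constructor
    · rintro rfl
      exact hE.notF g he hg
    · rintro rfl
      exact hE'.notF g he' hg
  have h2 : (cols ω S).card ≤ ((S.erase e).erase e').card := by
    refine coi_cols_le fun g hg => ?_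
    by_cases h1 : g = e
    · exact ⟨f, Finset.mem_erase.2 ⟨(hF f hf).2, Finset.mem_erase.2 ⟨(hF f hf).1, hfS⟩⟩,
        by rw [h1, hef]⟩
    · by_cases h2 : g = e'
      · exact ⟨f', Finset.mem_erase.2 ⟨(hF f' hf').2, Finset.mem_erase.2 ⟨(hF f' hf').1, hfS'⟩⟩,
          by rw [h2, hef']⟩
      · exact ⟨g, Finset.mem_erase.2 ⟨h2, Finset.mem_erase.2 ⟨h1, hg⟩⟩, rfl⟩
  have h2' := Finset.card_erase_add_one heS
  have h2'' := Finset.card_erase_add_one (s := S.erase e) (a := e')
    (Finset.mem_erase.2 ⟨hee.symm, heS'⟩)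
  have h3 := coi_sdiff1 (A := vts E) (B := coi_VC F x ∪ coi_VC F v) hE.hx
    (Finset.mem_union_left _ (coi_mem_VC.2 (Reachable.refl _)))
  have h4 := coi_sdiff1 (A := vts E') (B := coi_VC F x ∪ coi_VC F v) hE'.hx
    (Finset.mem_union_left _ (coi_mem_VC.2 hxx))
  have h5 := hE.vcard
  have h6 := hE'.vcard
  omega

end Pool.Agent.Lib.MP_fdca68_pr
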