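import Pool.Agent.Lib.MP_fdca68_pr.Basic

/-!
# Sprinkling: the law of `comb ω₁ ω₂`
-/

namespace Pool.Agent.Lib.MP_fdca68_pr

open Finset SimpleGraph
open scoped Classical

variable {n c : ℕ}

/-- weight of one pair -/
noncomputable def cpl_w (c : ℕ) (p : ℝ) (o : Option (Fin c)) : ℝ :=
  if o = none then 1 - p else p / c

theorem cpl_wt (p : ℝ) (ω : Conf n c) : wt n c p ω = ∏ e : Edge n, cpl_w c p (ω e) := rfl

theorem cpl_sum (hc : 0 < c) (p : ℝ) : ∑ b : Option (Fin c), cpl_w c p b = 1 := by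
  rw [Fintype.sum_option]
  have hc' : (c : ℝ) ≠ 0 := by positivity
  simp only [cpl_w, if_true, reduceCtorEq, if_false, Finset.sum_const, Finset.card_univ,
    Fintype.card_fin, nsmul_eq_mul]
  field_simp
  ring

theorem cpl_one (hc : 0 < c) (p₁ p₂ : ℝ) (o : Option (Fin c)) :
    ∑ a : Option (Fin c), ∑ b : Option (Fin c),
      (cpl_w c p₁ a * cpl_w c p₂ b * if a.or b = o then 1 else 0) =
      cpl_w c (p₁ + p₂ - p₁ * p₂) o := by
  have hc' : (c : ℝ) ≠ 0 := by positivity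
  have hs := cpl_sum hc p₂
  rw [Fintype.sum_option]
  have h1 : ∀ k : Fin c, ∑ b : Option (Fin c),
      (cpl_w c p₁ (some k) * cpl_w c p₂ b * if (some k).or b = o then (1 : ℝ) else 0) =
      cpl_w c p₁ (some k) * if some k = o then 1 else 0 := by
    intro k
    have : ∀ b : Option (Fin c), (cpl_w c p₁ (some k) * cpl_w c p₂ b *
        if (some k).or b = o then (1 : ℝ) else 0) =
        cpl_w c p₂ b * (cpl_w c p₁ (some k) * if some k = o then (1 : ℝ) else 0) := by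
      intro b
      by_cases hk : some k = o
      · rw [if_pos (show (some k).or b = o by simpa using hk), if_pos hk]; ring
      · rw [if_neg (show ¬ (some k).or b = o by simpa using hk), if_neg hk]; ring
    rw [Finset.sum_congr rfl fun b _ => this b, ← Finset.sum_mul, hs, one_mul]
  rw [Finset.sum_congr rfl fun k _ => h1 k]
  have h2 : ∑ b : Option (Fin c), (cpl_w c p₁ none * cpl_w c p₂ b *
      if (none : Option (Fin c)).or b = o then (1 : ℝ) else 0) =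
      cpl_w c p₁ none * cpl_w c p₂ o := by
    rw [Finset.sum_eq_single o]
    · rw [if_pos (Option.none_or), mul_one]
    · intro b _ hb
      rw [if_neg (by rw [Option.none_or]; exact hb), mul_zero]
    · simp
  rw [h2]
  cases o with
  | none => simp [cpl_w]; ring
  | some k =>
    have h3 : ∑ i : Fin c, (cpl_w c p₁ (some i) * if some i = some k then (1 : ℝ) else 0) =
        cpl_w c p₁ (some k) := by
      rw [Finset.sum_eq_single k]
      · simp
      · intro b _ hb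
        simp [hb]
      · simp
    rw [h3]
    simp only [cpl_w, if_true, reduceCtorEq, if_false]
    field_simp
    ring

theorem cpl_prod (g : Edge n → Option (Fin c) → Option (Fin c) → ℝ) :
    ∑ ω₁ : Conf n c, ∑ ω₂ : Conf n c, ∏ e, g e (ω₁ e) (ω₂ e) = ∏ e, ∑ a, ∑ b, g e a b := by
  have h1 : ∀ ω₁ : Conf n c, ∑ ω₂ : Conf n c, ∏ e, g e (ω₁ e) (ω₂ e) =
      ∏ e, ∑ b, g e (ω₁ e) b := by
    intro ω₁
    rw [Finset.prod_univ_sum, Fintype.piFinset_univ]
  rw [Finset.sum_congr rfl fun ω₁ _ => h1 ω₁]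
  rw [Finset.prod_univ_sum, Fintype.piFinset_univ]

theorem cpl_point (hc : 0 < c) (p₁ p₂ : ℝ) (ω : Conf n c) :
    ∑ ω₁ : Conf n c, ∑ ω₂ : Conf n c, (wt n c p₁ ω₁ * wt n c p₂ ω₂ *
      if comb ω₁ ω₂ = ω then 1 else 0) = wt n c (p₁ + p₂ - p₁ * p₂) ω := by
  have h1 : ∀ ω₁ ω₂ : Conf n c, (wt n c p₁ ω₁ * wt n c p₂ ω₂ *
      if comb ω₁ ω₂ = ω then (1 : ℝ) else 0) =
      ∏ e, (cpl_w c p₁ (ω₁ e) * cpl_w c p₂ (ω₂ e) *
        if (ω₁ e).or (ω₂ e) = ω e then (1 : ℝ) else 0) := by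
    intro ω₁ ω₂
    rw [cpl_wt, cpl_wt, Finset.prod_mul_distrib, Finset.prod_mul_distrib]
    congr 1
    by_cases h : comb ω₁ ω₂ = ω
    · rw [if_pos h]
      symm
      apply Finset.prod_eq_one
      intro e _
      rw [if_pos]
      rw [← h]
      rfl
    · rw [if_neg h]
      symm
      have : ∃ e, (ω₁ e).or (ω₂ e) ≠ ω e := by
        by_contra hcon
        push Not at hcon
        exact h (funext hcon)
      obtain ⟨e, he⟩ := this
      exact Finset.prod_eq_zero (Finset.mem_univ e) (if_neg he)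
  rw [Finset.sum_congr rfl fun ω₁ _ => Finset.sum_congr rfl fun ω₂ _ => h1 ω₁ ω₂]
  rw [cpl_prod (fun e a b => cpl_w c p₁ a * cpl_w c p₂ b * if a.or b = ω e then (1 : ℝ) else 0),
    cpl_wt]
  exact Finset.prod_congr rfl fun e _ => cpl_one hc p₁ p₂ (ω e)

theorem comb_law (hc : 0 < c) (p₁ p₂ : ℝ) (f : Conf n c → ℝ) :
    Ex n c p₁ (fun ω₁ => Ex n c p₂ (fun ω₂ => f (comb ω₁ ω₂))) =
      Ex n c (p₁ + p₂ - p₁ * p₂) f := by
  unfold Ex
  have h1 : ∀ ω₁ ω₂ : Conf n c, wt n c p₂ ω₂ * f (comb ω₁ ω₂) =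
      ∑ ω, wt n c p₂ ω₂ * (if comb ω₁ ω₂ = ω then 1 else 0) * f ω := by
    intro ω₁ ω₂
    rw [Finset.sum_eq_single (comb ω₁ ω₂)]
    · simp
    · intro b _ hb
      simp [hb.symm]
    · simp
  simp_rw [h1, Finset.mul_sum]
  have h2 : ∀ ω : Conf n c, wt n c (p₁ + p₂ - p₁ * p₂) ω * f ω =
      ∑ ω₁ : Conf n c, ∑ ω₂ : Conf n c,
        wt n c p₁ ω₁ * (wt n c p₂ ω₂ * (if comb ω₁ ω₂ = ω then 1 else 0) * f ω) := by
    intro ω
    rw [← cpl_point hc p₁ p₂ ω, Finset.sum_mul]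
    refine Finset.sum_congr rfl fun ω₁ _ => ?_
    rw [Finset.sum_mul]
    refine Finset.sum_congr rfl fun ω₂ _ => ?_
    ring
  simp_rw [h2]
  rw [Finset.sum_comm (s := (univ : Finset (Conf n c))) (t := (univ : Finset (Conf n c)))
    (f := fun ω ω₁ => ∑ ω₂ : Conf n c,
      wt n c p₁ ω₁ * (wt n c p₂ ω₂ * (if comb ω₁ ω₂ = ω then 1 else 0) * f ω))]
  refine Finset.sum_congr rfl fun ω₁ _ => ?_
  rw [Finset.sum_comm]

/-- if `A` contains `comb ω₁ ω₂` with conditional probability at most `b` for all `ω₁` outside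
a set `B`, then `Pr A ≤ Pr B + b` -/
theorem comb_pr_le (hc : 0 < c) {p₁ p₂ b : ℝ} (h10 : 0 ≤ p₁) (h11 : p₁ ≤ 1) (h20 : 0 ≤ p₂)
    (h21 : p₂ ≤ 1) (hb : 0 ≤ b) (A B : Set (Conf n c))
    (h : ∀ ω₁, ω₁ ∉ B → Pr n c p₂ {ω₂ | comb ω₁ ω₂ ∈ A} ≤ b) :
    Pr n c (p₁ + p₂ - p₁ * p₂) A ≤ Pr n c p₁ B + b := by
  rw [Pr_eq_Ex, ← comb_law hc p₁ p₂, Pr_eq_Ex]
  have h1 : b = Ex n c p₁ (fun _ => b) := (Ex_const hc b).symm
  calc Ex n c p₁ (fun ω₁ => Ex n c p₂ (fun ω₂ => if comb ω₁ ω₂ ∈ A then 1 else 0))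
      ≤ Ex n c p₁ (fun ω₁ => (if ω₁ ∈ B then 1 else 0) + b) := by
        apply Ex_mono h10 h11
        intro ω₁
        have h2 : Ex n c p₂ (fun ω₂ => if comb ω₁ ω₂ ∈ A then (1 : ℝ) else 0) =
            Pr n c p₂ {ω₂ | comb ω₁ ω₂ ∈ A} := by
          rw [Pr_eq_Ex]
          rfl
        rw [h2]
        by_cases hω : ω₁ ∈ B
        · rw [if_pos hω]
          have := Pr_le_one (n := n) hc h20 h21 {ω₂ | comb ω₁ ω₂ ∈ A}
          linarith
        · rw [if_neg hω, zero_add]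
          exact h ω₁ hω
    _ = Ex n c p₁ (fun ω => if ω ∈ B then 1 else 0) + b := by
        rw [Ex_add, ← h1]

end Pool.Agent.Lib.MP_fdca68_pr
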