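import Pool.Agent.Lib.MP_fdca68_pr.Basic

/-!
# Cutting an optimal rainbow forest into components of bounded size
-/

namespace Pool.Agent.Lib.MP_fdca68_pr

open Finset SimpleGraph
open scoped Classical

/-- the set of vertices reachable from `v` -/
def decC {n : ℕ} (G : SimpleGraph (Fin n)) (v : Fin n) : Set (Fin n) := {z | G.Reachable v z}

/-- the branch at `v` towards `u` -/
def decB {n : ℕ} (G : SimpleGraph (Fin n)) (v u : Fin n) : Set (Fin n) :=
  decC (G.deleteEdges {s(v, u)}) u

theorem dec_supp {n : ℕ} (G : SimpleGraph (Fin n)) (v : Fin n) :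
    (G.connectedComponentMk v).supp = decC G v := by
  ext z
  simp only [ConnectedComponent.mem_supp_iff, ConnectedComponent.eq, decC, Set.mem_ofPred_eq]
  exact ⟨fun h => h.symm, fun h => h.symm⟩

theorem decC_congr {n : ℕ} {G : SimpleGraph (Fin n)} {u v : Fin n} (h : G.Reachable u v) :
    decC G u = decC G v := by
  ext z
  exact ⟨fun h' => h.symm.trans h', fun h' => h.trans h'⟩

theorem decB_sub {n : ℕ} {G : SimpleGraph (Fin n)} (hG : G.IsAcyclic) {v u x : Fin n}
    (hux : G.Adj u x) (hvu : G.Adj v u) (hxv : x ≠ v) : decB G u x ⊂ decB G v u := by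
  have hb : ¬ (G.deleteEdges {s(u, x)}).Reachable u x :=
    isBridge_iff.mp ((isAcyclic_iff_forall_adj_isBridge.mp hG) hux)
  have hadj : (G.deleteEdges {s(v, u)}).Adj u x := by
    rw [deleteEdges_adj]
    refine ⟨hux, ?_⟩
    intro h
    rw [Set.mem_singleton_iff, Sym2.eq_iff] at h
    rcases h with ⟨h1, h2⟩ | ⟨h1, h2⟩
    · exact hvu.ne h1.symm
    · exact hxv h2
  have key : ∀ {a z : Fin n} (p : (G.deleteEdges {s(u, x)}).Walk a z),
      (G.deleteEdges {s(u, x)}).Reachable x a → (G.deleteEdges {s(v, u)}).Reachable u a →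
      (G.deleteEdges {s(v, u)}).Reachable u z := by
    intro a z p
    induction p with
    | nil => intro _ h; exact h
    | cons hab p ih =>
      rename_i a b z'
      intro h1 h2
      have h3 : (G.deleteEdges {s(u, x)}).Reachable x b := h1.trans hab.reachable
      refine ih h3 (h2.trans ?_)
      have hab' : G.Adj a b := (deleteEdges_adj.mp hab).1
      have : (G.deleteEdges {s(v, u)}).Adj a b := by
        rw [deleteEdges_adj]
        refine ⟨hab', ?_⟩
        intro h
        rw [Set.mem_singleton_iff, Sym2.eq_iff] at h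
        rcases h with ⟨h4, h5⟩ | ⟨h4, h5⟩
        · subst h5; exact hb h3.symm
        · subst h4; exact hb h1.symm
      exact this.reachable
  refine ⟨?_, ?_⟩
  · rintro z ⟨p⟩
    exact key p (Reachable.refl _) hadj.reachable
  · intro hsub
    have hu : u ∈ decB G u x := hsub (Reachable.refl _)
    exact hb (Reachable.symm hu)

theorem dec_cent {n : ℕ} {G : SimpleGraph (Fin n)} (hG : G.IsAcyclic) (K : ℕ) (x : Fin n)
    (h : ∀ u v, G.Adj u v → G.Reachable x u → (decB G v u).ncard < K ∨ (decB G u v).ncard < K) :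
    ∃ v, G.Reachable x v ∧ ∀ u, G.Adj v u → (decB G v u).ncard < K := by
  by_contra hcon
  push Not at hcon
  have key : ∀ m : ℕ, ∀ v u, G.Adj v u → G.Reachable x v → K ≤ (decB G v u).ncard →
      (decB G v u).ncard ≤ m → False := by
    intro m
    induction m with
    | zero =>
      intro v u hvu hxv hK h0
      have : (decB G v u).ncard = 0 := by omega
      rw [Set.ncard_eq_zero (Set.toFinite _)] at this
      have hu : u ∈ decB G v u := Reachable.refl _
      rw [this] at hu
      exact hu
    | succ m ih =>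
      intro v u hvu hxv hK hm
      have hxu : G.Reachable x u := hxv.trans hvu.reachable
      obtain ⟨y, hy, hKy⟩ := hcon u hxu
      have hyv : y ≠ v := by
        rintro rfl
        rcases h y u hvu hxv with h1 | h1
        · omega
        · omega
      have hss := decB_sub hG hy hvu hyv
      have hlt := Set.ncard_lt_ncard hss (Set.toFinite _)
      exact ih u y hy hxu hKy (by omega)
  obtain ⟨u, hu, hK⟩ := hcon x (Reachable.refl _)
  exact key _ x u hu (Reachable.refl _) hK le_rfl

theorem dec_deg {n : ℕ} {G : SimpleGraph (Fin n)} (K : ℕ) (hK : 1 ≤ K) (v : Fin n)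
    (h : ∀ u, G.Adj v u → (decB G v u).ncard < K) :
    (decC G v).ncard ≤ 1 + (univ.filter (fun u => G.Adj v u)).card * (K - 1) := by
  have hsub : decC G v ⊆ {v} ∪ ⋃ u ∈ (univ.filter (fun u => G.Adj v u)), decB G v u := by
    rintro z ⟨p⟩
    have hp := p.toPath.2
    generalize (p.toPath : G.Walk v z) = q at hp
    cases q with
    | nil => left; rfl
    | cons hvu q =>
      rename_i u
      right
      rw [Walk.cons_isPath_iff] at hp
      refine Set.mem_biUnion (x := u) ?_ ?_
      · simpa using hvu
      · rw [decB, decC, Set.mem_ofPred_eq, reachable_deleteEdges_iff_exists_walk]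
        refine ⟨q, fun h => hp.2 ?_⟩
        exact q.fst_mem_support_of_mem_edges h
  have h1 := Set.ncard_le_ncard hsub (Set.toFinite _)
  have h2 : ({v} ∪ ⋃ u ∈ (univ.filter (fun u => G.Adj v u)), decB G v u : Set (Fin n)).ncard ≤
      1 + (⋃ u ∈ (univ.filter (fun u => G.Adj v u)), decB G v u : Set (Fin n)).ncard := by
    refine (Set.ncard_union_le _ _).trans ?_
    rw [Set.ncard_singleton]
  have h3 : (⋃ u ∈ (univ.filter (fun u => G.Adj v u)), decB G v u : Set (Fin n)).ncard ≤
      ∑ u ∈ univ.filter (fun u => G.Adj v u), (decB G v u).ncard :=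
    Finset.set_ncard_biUnion_le _ _
  have h4 : ∑ u ∈ univ.filter (fun u => G.Adj v u), (decB G v u).ncard ≤
      ∑ u ∈ univ.filter (fun u => G.Adj v u), (K - 1) := by
    apply Finset.sum_le_sum
    intro u hu
    have := h u (by simpa using hu)
    omega
  rw [Finset.sum_const, smul_eq_mul] at h4
  omega

theorem dec_dg {n c : ℕ} (ω : Conf n c) {G : SimpleGraph (Fin n)} (hG : G ≤ gr ω) (v : Fin n) :
    (univ.filter (fun u => G.Adj v u)).card ≤ dg ω v := by
  unfold dg
  refine Finset.card_le_card_of_surjOn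
    (fun e => if h : v ∈ e.1 then Sym2.Mem.other h else v) ?_
  intro u hu
  have hvu : G.Adj v u := by simpa using hu
  have hgr : col ω s(v, u) ≠ none := hG hvu
  have hd : ¬ (s(v, u)).IsDiag := by simpa using hvu.ne
  refine ⟨⟨s(v, u), hd⟩, ?_, ?_⟩
  · simp only [Finset.coe_filter, Finset.mem_univ, true_and, Set.mem_ofPred_eq]
    refine ⟨?_, by simp⟩
    rw [col, dif_neg hd] at hgr
    exact hgr
  · have hm : v ∈ s(v, u) := by simp
    simp only [hm, dif_pos]
    have := Sym2.other_spec hm
    exact Sym2.congr_right.mp this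

theorem dec_walk {n : ℕ} {G G' : SimpleGraph (Fin n)} {w : Fin n}
    (h : ∀ a b, G'.Reachable w a → G.Adj a b → G'.Reachable w b) {z : Fin n}
    (hz : G.Reachable w z) : G'.Reachable w z := by
  have key : ∀ {a z : Fin n} (p : G.Walk a z), G'.Reachable w a → G'.Reachable w z := by
    intro a z p
    induction p with
    | nil => exact fun h => h
    | cons hab p ih => exact fun h1 => ih (h _ _ h1 hab)
  obtain ⟨p⟩ := hz
  exact key p (Reachable.refl _)

theorem dec_adj_del {n : ℕ} {G : SimpleGraph (Fin n)} {u v a b : Fin n} (hab : G.Adj a b)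
    (h : ¬ (G.deleteEdges {s(u, v)}).Adj a b) : (a = u ∧ b = v) ∨ (a = v ∧ b = u) := by
  rw [deleteEdges_adj] at h
  push Not at h
  have := h hab
  rw [Set.mem_singleton_iff, Sym2.eq_iff] at this
  exact this

theorem decomp {n c : ℕ} (ω : Conf n c) (K : ℕ) (hK : 2 ≤ K) (D : ℕ) (hD : 2 ≤ D) :
    ∃ F : SimpleGraph (Fin n), RB ω F ∧ F.IsAcyclic ∧
      (∀ v ∈ F.support, K ≤ (F.connectedComponentMk v).supp.ncard ∧
        (F.connectedComponentMk v).supp.ncard ≤ 1 + D * K) ∧
      L K ω ≤ F.support.ncard + K * ∑ v ∈ univ.filter (fun v => D < dg ω v), dg ω v := by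
  obtain ⟨F₀, hF₀, hL⟩ := exists_L K ω
  obtain ⟨F₁, hF₁⟩ := (Set.toFinite {F : SimpleGraph (Fin n) | F ≤ F₀ ∧
    bigV F₀ K ⊆ bigV F K}).exists_minimal ⟨F₀, le_rfl, subset_rfl⟩
  have hle : F₁ ≤ F₀ := hF₁.1.1
  have hbig : bigV F₀ K ⊆ bigV F₁ K := hF₁.1.2
  have hbig' : ∀ w ∈ bigV F₀ K, K ≤ (decC F₁ w).ncard := by
    intro w hw
    have := hbig hw
    rw [bigV, Set.mem_ofPred_eq, dec_supp] at this
    exact this
  have hdel : ∀ u v, F₁.Adj u v → ∃ w ∈ bigV F₀ K,
      (decC (F₁.deleteEdges {s(u, v)}) w).ncard < K := by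
    intro u v huv
    by_contra hcon
    push Not at hcon
    have hmem : F₁.deleteEdges {s(u, v)} ∈ {F : SimpleGraph (Fin n) | F ≤ F₀ ∧
        bigV F₀ K ⊆ bigV F K} := by
      refine ⟨(deleteEdges_le _).trans hle, ?_⟩
      intro w hw
      rw [bigV, Set.mem_ofPred_eq, dec_supp]
      exact hcon w hw
    have := hF₁.2 hmem (deleteEdges_le _) huv
    rw [deleteEdges_adj] at this
    exact this.2 rfl
  have hacy : F₁.IsAcyclic := by
    rw [isAcyclic_iff_forall_adj_isBridge]
    intro u v huv
    rw [isBridge_iff]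
    intro hr
    obtain ⟨w, hw, hlt⟩ := hdel u v huv
    have h1 := hbig' w hw
    have h2 : decC F₁ w ⊆ decC (F₁.deleteEdges {s(u, v)}) w := by
      intro z hz
      refine dec_walk ?_ hz
      intro a b ha hab
      by_cases h : (F₁.deleteEdges {s(u, v)}).Adj a b
      · exact ha.trans h.reachable
      · rcases dec_adj_del hab h with ⟨rfl, rfl⟩ | ⟨rfl, rfl⟩
        · exact ha.trans hr
        · exact ha.trans hr.symm
    have h3 := Set.ncard_le_ncard h2 (Set.toFinite _)
    omega
  have hside : ∀ u v, F₁.Adj u v → K ≤ (decC F₁ u).ncard ∧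
      ((decB F₁ v u).ncard < K ∨ (decB F₁ u v).ncard < K) := by
    intro u v huv
    obtain ⟨w, hw, hlt⟩ := hdel u v huv
    have h1 := hbig' w hw
    have h2 : (F₁.deleteEdges {s(u, v)}).Reachable w u ∨
        (F₁.deleteEdges {s(u, v)}).Reachable w v := by
      by_contra hcon
      push Not at hcon
      have h2 : decC F₁ w ⊆ decC (F₁.deleteEdges {s(u, v)}) w := by
        intro z hz
        refine dec_walk ?_ hz
        intro a b ha hab
        by_cases h : (F₁.deleteEdges {s(u, v)}).Adj a b
        · exact ha.trans h.reachable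
        · rcases dec_adj_del hab h with ⟨rfl, rfl⟩ | ⟨rfl, rfl⟩
          · exact absurd ha hcon.1
          · exact absurd ha hcon.2
      have h3 := Set.ncard_le_ncard h2 (Set.toFinite _)
      omega
    rcases h2 with h2 | h2
    · refine ⟨?_, Or.inl ?_⟩
      · rw [← decC_congr (h2.mono (deleteEdges_le _))]
        exact h1
      · rw [decB, Sym2.eq_swap, ← decC_congr h2]
        exact hlt
    · refine ⟨?_, Or.inr ?_⟩
      · rw [← decC_congr ((h2.mono (deleteEdges_le _)).trans huv.symm.reachable)]
        exact h1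
      · rw [decB, ← decC_congr h2]
        exact hlt
  -- the graph `F`
  let F : SimpleGraph (Fin n) :=
    { Adj := fun u v => F₁.Adj u v ∧ (decC F₁ u).ncard ≤ 1 + D * K
      symm := ⟨fun u v h => ⟨h.1.symm, by rw [decC_congr h.1.symm.reachable]; exact h.2⟩⟩
      loopless := ⟨fun v h => h.1.ne rfl⟩ }
  have hFle : F ≤ F₁ := fun u v h => h.1
  have hFC : ∀ v, (decC F₁ v).ncard ≤ 1 + D * K → decC F v = decC F₁ v := by
    intro v hv
    refine Set.Subset.antisymm (fun z hz => hz.mono hFle) ?_
    intro z hz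
    refine dec_walk ?_ hz
    intro a b ha hab
    have h1 : F₁.Reachable v a := ha.mono hFle
    have h2 : F.Adj a b := ⟨hab, by rw [← decC_congr h1]; exact hv⟩
    exact ha.trans h2.reachable
  refine ⟨F, ⟨hFle.trans (hle.trans hF₀.1), hF₀.2.mono (edgeSet_mono (hFle.trans hle))⟩,
    hacy.anti hFle, ?_, ?_⟩
  · intro v hv
    obtain ⟨w, hw⟩ := hv
    rw [dec_supp, hFC v hw.2]
    exact ⟨(hside v w hw.1).1, hw.2⟩
  · rw [← hL]
    let B : Fin n → Set (Fin n) := fun v => if (decC F₁ v).ncard ≤ K * dg ω v then decC F₁ v else ∅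
    have hsub : bigV F₀ K ⊆ F.support ∪ ⋃ v ∈ univ.filter (fun v => D < dg ω v), B v := by
      intro w hw
      have h1 := hbig' w hw
      by_cases hsz : (decC F₁ w).ncard ≤ 1 + D * K
      · left
        have h2 : ∃ z ∈ decC F₁ w, z ≠ w := by
          by_contra hcon
          push Not at hcon
          have h3 : decC F₁ w ⊆ {w} := fun z hz => hcon z hz
          have h4 := Set.ncard_le_ncard h3 (Set.toFinite _)
          rw [Set.ncard_singleton] at h4
          omega
        obtain ⟨z, ⟨p⟩, hzw⟩ := h2
        cases p with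
        | nil => exact absurd rfl hzw
        | cons hab p => exact ⟨_, hab, hsz⟩
      · right
        obtain ⟨v, hv, hbr⟩ := dec_cent hacy K w (fun u v huv _ => (hside u v huv).2)
        have h2 := dec_deg K (by omega) v hbr
        have h3 := dec_dg ω (hle.trans hF₀.1) v
        have h4 : decC F₁ w = decC F₁ v := decC_congr hv
        rw [h4] at hsz
        set d := (univ.filter (fun u => F₁.Adj v u)).card
        have h5 : D * K < d * (K - 1) := by omega
        have h6 : D < d := by
          by_contra hcon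
          push Not at hcon
          have : d * (K - 1) ≤ D * K := Nat.mul_le_mul hcon (Nat.sub_le _ _)
          omega
        have h7 : (decC F₁ v).ncard ≤ K * dg ω v := by
          calc (decC F₁ v).ncard ≤ 1 + d * (K - 1) := h2
            _ ≤ d + d * (K - 1) := by omega
            _ = d * K := by
              obtain ⟨k, rfl⟩ : ∃ k, K = k + 1 := ⟨K - 1, by omega⟩
              simp only [Nat.add_sub_cancel]
              ring
            _ ≤ dg ω v * K := Nat.mul_le_mul_right _ h3
            _ = K * dg ω v := Nat.mul_comm _ _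
        refine Set.mem_biUnion (x := v) ?_ ?_
        · simp only [Finset.coe_filter, Finset.mem_univ, true_and, Set.mem_ofPred_eq]
          omega
        · simp only [B, h7, if_true]
          exact hv.symm
    refine (Set.ncard_le_ncard hsub (Set.toFinite _)).trans ?_
    refine (Set.ncard_union_le _ _).trans ?_
    refine Nat.add_le_add_left ?_ _
    refine (Finset.set_ncard_biUnion_le _ _).trans ?_
    rw [Finset.mul_sum]
    apply Finset.sum_le_sum
    intro v _
    by_cases h : (decC F₁ v).ncard ≤ K * dg ω v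
    · simp only [B, h, if_true]
    · simp only [B, h, if_false, Set.ncard_empty]
      exact Nat.zero_le _

end Pool.Agent.Lib.MP_fdca68_pr
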