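import Mathlib

/-!
# Rainbow trees in randomly coloured sparse random graphs: definitions

`Conf n c` : configurations; every pair of distinct vertices of `Fin n` is either absent
(`none`) or present with a colour `some k`.
`wt n c p` : the law of `G_c(n,p)` : the pairs are independent, a pair is absent with
probability `1 - p` and has colour `k` with probability `p / c`.
-/

namespace Pool.Agent.Lib.MP_fdca68_pr

open Finset SimpleGraph
open scoped Classical

/-- pairs of distinct vertices -/
abbrev Edge (n : ℕ) := {e : Sym2 (Fin n) // ¬ e.IsDiag}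

/-- a configuration: for every pair of distinct vertices, absent or present with a colour -/
abbrev Conf (n c : ℕ) := Edge n → Option (Fin c)

/-- the probability of a configuration in `G_c(n,p)` -/
noncomputable def wt (n c : ℕ) (p : ℝ) (ω : Conf n c) : ℝ :=
  ∏ e : Edge n, (if ω e = none then 1 - p else p / c)

/-- expectation in `G_c(n,p)` -/
noncomputable def Ex (n c : ℕ) (p : ℝ) (f : Conf n c → ℝ) : ℝ := ∑ ω, wt n c p ω * f ω

/-- probability in `G_c(n,p)` -/
noncomputable def Pr (n c : ℕ) (p : ℝ) (A : Set (Conf n c)) : ℝ :=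
  ∑ ω, if ω ∈ A then wt n c p ω else 0

/-- the colour of a pair of vertices (`none` if the pair is not an edge) -/
noncomputable def col {n c : ℕ} (ω : Conf n c) (e : Sym2 (Fin n)) : Option (Fin c) :=
  if h : e.IsDiag then none else ω ⟨e, h⟩

/-- the underlying graph of a configuration -/
def gr {n c : ℕ} (ω : Conf n c) : SimpleGraph (Fin n) where
  Adj u v := col ω s(u, v) ≠ none
  symm := ⟨fun u v h => by rwa [Sym2.eq_swap]⟩
  loopless := ⟨fun v h => h (by simp [col])⟩

/-- the largest order of a rainbow tree: a subgraph which is a tree and whose edges have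
pairwise different colours; the order is the number of vertices -/
noncomputable def T {n c : ℕ} (ω : Conf n c) : ℕ :=
  sSup {m : ℕ | ∃ H : (gr ω).Subgraph, H.coe.IsTree ∧ Set.InjOn (col ω) H.edgeSet ∧
    H.verts.ncard = m}

/-! ### Internal notions -/

/-- vertices whose connected component in `F` has at least `K` vertices -/
def bigV {n : ℕ} (F : SimpleGraph (Fin n)) (K : ℕ) : Set (Fin n) :=
  {v | K ≤ (F.connectedComponentMk v).supp.ncard}

/-- `F` is a rainbow subgraph of the configuration -/
def RB {n c : ℕ} (ω : Conf n c) (F : SimpleGraph (Fin n)) : Prop :=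
  F ≤ gr ω ∧ Set.InjOn (col ω) F.edgeSet

/-- largest number of vertices in components of size at least `K` of a rainbow subgraph -/
noncomputable def L {n c : ℕ} (K : ℕ) (ω : Conf n c) : ℕ :=
  sSup {m : ℕ | ∃ F : SimpleGraph (Fin n), RB ω F ∧ (bigV F K).ncard = m}

/-- the present edges -/
noncomputable def pres {n c : ℕ} (ω : Conf n c) : Finset (Edge n) := univ.filter (fun e => ω e ≠ none)

/-- size of a colour class -/
noncomputable def cls {n c : ℕ} (ω : Conf n c) (k : Fin c) : ℕ :=
  (univ.filter (fun e : Edge n => ω e = some k)).card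

/-- degree of a vertex -/
noncomputable def dg {n c : ℕ} (ω : Conf n c) (v : Fin n) : ℕ :=
  (univ.filter (fun e : Edge n => ω e ≠ none ∧ v ∈ e.1)).card

/-- vertices touched by a set of pairs -/
noncomputable def vts {n : ℕ} (S : Finset (Edge n)) : Finset (Fin n) :=
  univ.filter (fun v => ∃ e ∈ S, v ∈ e.1)

/-- colours used on a set of pairs -/
noncomputable def cols {n c : ℕ} (ω : Conf n c) (S : Finset (Edge n)) : Finset (Fin c) :=
  univ.filter (fun k => ∃ e ∈ S, ω e = some k)

/-- a cyclic set: present edges, with at most twice as many nodes (vertices and colours) as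
edges -/
def Cyc {n c : ℕ} (ω : Conf n c) (S : Finset (Edge n)) : Prop :=
  (∀ e ∈ S, ω e ≠ none) ∧ (vts S).card + (cols ω S).card ≤ 2 * S.card

/-- vertices touched by a non-empty cyclic set with at most `s` edges -/
noncomputable def Bad {n c : ℕ} (s : ℕ) (ω : Conf n c) : Finset (Fin n) :=
  univ.filter (fun v => ∃ S : Finset (Edge n), S.card ≤ s ∧ Cyc ω S ∧ v ∈ vts S)

/-- number of present edges inside `A` -/
noncomputable def eIn {n c : ℕ} (ω : Conf n c) (A : Finset (Fin n)) : ℕ :=
  (univ.filter (fun e : Edge n => ω e ≠ none ∧ ∀ v ∈ e.1, v ∈ A)).card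

/-- number of present edges leaving `A` -/
noncomputable def eOut {n c : ℕ} (ω : Conf n c) (A : Finset (Fin n)) : ℕ :=
  (univ.filter (fun e : Edge n => ω e ≠ none ∧ (∃ v ∈ e.1, v ∈ A) ∧ (∃ v ∈ e.1, v ∉ A))).card

/-- `A` is covered, up to `r` roots, by injectively chosen edges `v -- f v` inside `A` -/
def Spn {n c : ℕ} (ω : Conf n c) (A : Finset (Fin n)) (r : ℝ) : Prop :=
  ∃ R : Finset (Fin n), R ⊆ A ∧ (R.card : ℝ) ≤ r ∧ ∃ f : Fin n → Fin n,
    (∀ v ∈ A \ R, f v ∈ A ∧ (gr ω).Adj v (f v)) ∧
    (∀ v ∈ A \ R, ∀ w ∈ A \ R, s(v, f v) = s(w, f w) → v = w)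

/-- the expansion property (first moment lemma): a set `A` of at least `ρ n` vertices which is
spanned up to `θ n` roots either has at least `|A| + θ n` inner edges or more than `θ n`
outgoing edges -/
def Expd {n c : ℕ} (ω : Conf n c) (ρ θ : ℝ) : Prop :=
  ∀ A : Finset (Fin n), ρ * n ≤ A.card → Spn ω A (θ * n) →
    (A.card + θ * n ≤ (eIn ω A : ℝ) ∨ θ * n < (eOut ω A : ℝ))

/-- put `ω₁` on top of `ω₂` -/
def comb {n c : ℕ} (ω₁ ω₂ : Conf n c) : Conf n c := fun e => (ω₁ e).or (ω₂ e)

end Pool.Agent.Lib.MP_fdca68_pr
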