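import Pool.Agent.Lib.MP_fdca68_pr.Basic

/-!
# Efron-Stein inequality for functions with bounded one-edge influence
-/

namespace Pool.Agent.Lib.MP_fdca68_pr

open Finset SimpleGraph
open scoped Classical

variable {n c : ℕ} {p : ℝ}

/-! ### Averaging over one coordinate -/

/-- the law of one coordinate -/
noncomputable def es_w (c : ℕ) (p : ℝ) (a : Option (Fin c)) : ℝ :=
  if a = none then 1 - p else p / c

theorem es_w_nonneg (h0 : 0 ≤ p) (h1 : p ≤ 1) (a : Option (Fin c)) : 0 ≤ es_w c p a := by
  unfold es_w
  split_ifs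
  · linarith
  · positivity

theorem es_w_sum (hc : 0 < c) : ∑ a, es_w c p a = 1 := by
  have hc' : (c : ℝ) ≠ 0 := by positivity
  rw [Fintype.sum_option]
  simp only [es_w, if_true, reduceCtorEq, if_false, Finset.sum_const, Finset.card_univ,
    Fintype.card_fin, nsmul_eq_mul]
  field_simp
  ring

/-- averaging over the coordinate `e` -/
noncomputable def es_E (p : ℝ) (e : Edge n) (f : Conf n c → ℝ) : Conf n c → ℝ :=
  fun ω => ∑ a, es_w c p a * f (Function.update ω e a)

theorem es_wt_update (e : Edge n) (ω : Conf n c) (a : Option (Fin c)) :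
    wt n c p ω * es_w c p a = wt n c p (Function.update ω e a) * es_w c p (ω e) := by
  unfold wt
  rw [← Finset.mul_prod_erase _ _ (Finset.mem_univ e),
    ← Finset.mul_prod_erase _ (fun e' => if Function.update ω e a e' = none then 1 - p else p / c)
      (Finset.mem_univ e)]
  have h : ∏ x ∈ univ.erase e, (if Function.update ω e a x = none then 1 - p else p / c) =
      ∏ x ∈ univ.erase e, (if ω x = none then 1 - p else p / c) := by
    refine Finset.prod_congr rfl fun x hx => ?_
    rw [Function.update_of_ne (Finset.ne_of_mem_erase hx)]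
  rw [h, Function.update_self]
  unfold es_w
  ring

theorem es_Ex_E (hc : 0 < c) (e : Edge n) (f : Conf n c → ℝ) :
    Ex n c p (es_E p e f) = Ex n c p f := by
  unfold Ex es_E
  have h1 : ∑ ω : Conf n c, wt n c p ω * ∑ a, es_w c p a * f (Function.update ω e a) =
      ∑ x : Conf n c × Option (Fin c),
        wt n c p (Function.update x.1 e x.2) * es_w c p (x.1 e) * f (Function.update x.1 e x.2) := by
    rw [Fintype.sum_prod_type]
    refine Finset.sum_congr rfl fun ω _ => ?_
    rw [Finset.mul_sum]
    refine Finset.sum_congr rfl fun a _ => ?_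
    rw [← es_wt_update, mul_assoc]
  have h2 : ∑ ω : Conf n c, wt n c p ω * f ω =
      ∑ x : Conf n c × Option (Fin c), wt n c p x.1 * es_w c p x.2 * f x.1 := by
    rw [Fintype.sum_prod_type]
    refine Finset.sum_congr rfl fun ω _ => ?_
    simp only []
    rw [← Finset.sum_mul, ← Finset.mul_sum, es_w_sum hc, mul_one]
  rw [h1, h2]
  refine Finset.sum_nbij' (fun x => (Function.update x.1 e x.2, x.1 e))
    (fun x => (Function.update x.1 e x.2, x.1 e)) (fun _ _ => Finset.mem_univ _)
    (fun _ _ => Finset.mem_univ _) ?_ ?_ ?_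
  · intro x _
    simp
  · intro x _
    simp
  · intro x _
    rfl

theorem es_E_update (e : Edge n) (f : Conf n c → ℝ) (ω : Conf n c) (a : Option (Fin c)) :
    es_E p e f (Function.update ω e a) = es_E p e f ω := by
  simp [es_E, Function.update_idem]

theorem es_E_const (hc : 0 < c) (e : Edge n) {f : Conf n c → ℝ} (ω : Conf n c)
    (hf : ∀ a, f (Function.update ω e a) = f ω) : es_E p e f ω = f ω := by
  unfold es_E
  simp_rw [hf]
  rw [← Finset.sum_mul, es_w_sum hc, one_mul]

theorem es_E_mul (e : Edge n) (f h : Conf n c → ℝ)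
    (hh : ∀ ω a, h (Function.update ω e a) = h ω) :
    es_E p e (fun ω => f ω * h ω) = fun ω => es_E p e f ω * h ω := by
  funext ω
  simp only [es_E, hh, Finset.sum_mul, mul_assoc]

theorem es_E_sub (e : Edge n) (f g : Conf n c → ℝ) (ω : Conf n c) :
    es_E p e (fun ω => f ω - g ω) ω = es_E p e f ω - es_E p e g ω := by
  simp only [es_E, mul_sub, Finset.sum_sub_distrib]

/-- orthogonality -/
theorem es_orth (hc : 0 < c) (e : Edge n) (f h : Conf n c → ℝ)
    (hh : ∀ ω a, h (Function.update ω e a) = h ω) :
    Ex n c p (fun ω => (f ω - es_E p e f ω) * h ω) = 0 := by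
  rw [← es_Ex_E hc e]
  rw [es_E_mul e _ _ hh]
  have h1 : ∀ ω, es_E p e (fun ω => f ω - es_E p e f ω) ω = 0 := by
    intro ω
    rw [es_E_sub, es_E_const hc e (f := es_E p e f) ω (fun a => es_E_update e f ω a), sub_self]
  simp_rw [h1]
  simp [Ex]

theorem es_var_le {ι : Type*} [Fintype ι] (w x : ι → ℝ) (y : ℝ) (hw : ∑ a, w a = 1) :
    ∑ a, w a * (x a - ∑ b, w b * x b) ^ 2 ≤ ∑ a, w a * (x a - y) ^ 2 := by
  set m := ∑ b, w b * x b with hm
  have h1 : ∑ a, w a * (x a - y) ^ 2 - ∑ a, w a * (x a - m) ^ 2 = (m - y) ^ 2 := by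
    rw [← Finset.sum_sub_distrib]
    have h2 : ∀ a, w a * (x a - y) ^ 2 - w a * (x a - m) ^ 2 =
        2 * (m - y) * (w a * x a) + (y ^ 2 - m ^ 2) * w a := by
      intro a
      ring
    simp_rw [h2]
    rw [Finset.sum_add_distrib, ← Finset.mul_sum, ← Finset.mul_sum, hw, ← hm]
    ring
  nlinarith [sq_nonneg (m - y)]

theorem es_step (hc : 0 < c) (h0 : 0 ≤ p) (h1 : p ≤ 1) (e : Edge n) (f : Conf n c → ℝ) (D : ℝ)
    (hD : ∀ ω, |f ω - f (Function.update ω e none)| ≤ D) :
    Ex n c p (fun ω => (f ω - es_E p e f ω) ^ 2) ≤ p * D ^ 2 := by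
  rw [← es_Ex_E hc e]
  calc _ ≤ Ex n c p (fun _ => p * D ^ 2) := by
        apply Ex_mono h0 h1
        intro ω
        have hc' : (c : ℝ) ≠ 0 := by positivity
        have h2 : es_E p e (fun ω => (f ω - es_E p e f ω) ^ 2) ω =
            ∑ a, es_w c p a * (f (Function.update ω e a) -
              ∑ b, es_w c p b * f (Function.update ω e b)) ^ 2 := by
          unfold es_E
          simp only [Function.update_idem]
        rw [h2]
        refine (es_var_le (es_w c p) (fun a => f (Function.update ω e a))
          (f (Function.update ω e none)) (es_w_sum hc)).trans ?_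
        rw [Fintype.sum_option]
        simp only [sub_self, ne_eq, OfNat.ofNat_ne_zero, not_false_eq_true, zero_pow, mul_zero,
          zero_add]
        calc _ ≤ ∑ k : Fin c, p / c * D ^ 2 := by
              refine Finset.sum_le_sum fun k _ => ?_
              have h3 := hD (Function.update ω e (some k))
              rw [Function.update_idem] at h3
              have h4 : (f (Function.update ω e (some k)) - f (Function.update ω e none)) ^ 2 ≤
                  D ^ 2 := sq_le_sq' (by linarith [(abs_le.mp h3).1]) (abs_le.mp h3).2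
              have h5 : es_w c p (some k) = p / c := by simp [es_w]
              rw [h5]
              exact mul_le_mul_of_nonneg_left h4 (by positivity)
          _ = p * D ^ 2 := by
              rw [Finset.sum_const, Finset.card_univ, Fintype.card_fin, nsmul_eq_mul]
              field_simp
    _ = p * D ^ 2 := Ex_const hc _

theorem es_ind (hc : 0 < c) (h0 : 0 ≤ p) (h1 : p ≤ 1) (D : ℝ) (S : Finset (Edge n)) :
    ∀ f : Conf n c → ℝ, (∀ ω ω', (∀ e ∈ S, ω e = ω' e) → f ω = f ω') →
    (∀ ω e, |f ω - f (Function.update ω e none)| ≤ D) →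
    Ex n c p (fun ω => (f ω - Ex n c p f) ^ 2) ≤ (S.card : ℝ) * p * D ^ 2 := by
  induction S using Finset.induction_on with
  | empty =>
    intro f hf _
    have h2 : ∀ ω, f ω = f (fun _ => none) := fun ω => hf _ _ (by simp)
    have h3 : Ex n c p f = f (fun _ => none) := by
      have : f = fun _ => f (fun _ => none) := funext h2
      rw [this]
      exact Ex_const hc _
    rw [h3]
    simp_rw [h2]
    simp [Ex]
  | insert e S he ih =>
    intro f hf hD
    set g := es_E p e f with hg
    have hgS : ∀ ω ω', (∀ e ∈ S, ω e = ω' e) → g ω = g ω' := by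
      intro ω ω' hω
      simp only [hg, es_E]
      refine Finset.sum_congr rfl fun a _ => ?_
      congr 1
      apply hf
      intro e' he'
      by_cases h : e' = e
      · subst h
        simp
      · rw [Function.update_of_ne h, Function.update_of_ne h]
        exact hω e' ((Finset.mem_insert.mp he').resolve_left h)
    have hD0 : 0 ≤ D := (abs_nonneg _).trans (hD (fun _ => none) e)
    have hgD : ∀ ω e', |g ω - g (Function.update ω e' none)| ≤ D := by
      intro ω e'
      by_cases h : e' = e
      · subst h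
        rw [hg, es_E_update, sub_self, abs_zero]
        exact hD0
      · have h2 : g ω - g (Function.update ω e' none) =
            ∑ a, es_w c p a * (f (Function.update ω e a) -
              f (Function.update (Function.update ω e a) e' none)) := by
          simp only [hg, es_E]
          rw [← Finset.sum_sub_distrib]
          refine Finset.sum_congr rfl fun a _ => ?_
          rw [Function.update_comm (Ne.symm h), mul_sub]
        rw [h2]
        refine (Finset.abs_sum_le_sum_abs _ _).trans ?_
        calc _ ≤ ∑ a, es_w c p a * D := by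
              refine Finset.sum_le_sum fun a _ => ?_
              rw [abs_mul, abs_of_nonneg (es_w_nonneg h0 h1 a)]
              exact mul_le_mul_of_nonneg_left (hD _ _) (es_w_nonneg h0 h1 a)
          _ = D := by rw [← Finset.sum_mul, es_w_sum hc, one_mul]
    have h2 := ih g hgS hgD
    have h3 : Ex n c p g = Ex n c p f := es_Ex_E hc e f
    have h4 := es_step hc h0 h1 e f D (fun ω => hD ω e)
    have h5 : Ex n c p (fun ω => (f ω - g ω) * (g ω - Ex n c p g)) = 0 := by
      apply es_orth hc e f
      intro ω a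
      simp only [hg, es_E_update]
    have h6 : Ex n c p (fun ω => (f ω - Ex n c p f) ^ 2) =
        Ex n c p (fun ω => (f ω - g ω) ^ 2) +
          (2 * Ex n c p (fun ω => (f ω - g ω) * (g ω - Ex n c p g)) +
            Ex n c p (fun ω => (g ω - Ex n c p g) ^ 2)) := by
      rw [← Ex_mul, ← Ex_add, ← Ex_add]
      congr 1
      funext ω
      rw [h3]
      ring
    rw [h6, h5, Finset.card_insert_of_notMem he]
    push_cast
    linarith

theorem efron_stein (hc : 0 < c) (h0 : 0 ≤ p) (h1 : p ≤ 1) (f : Conf n c → ℝ) (D : ℝ)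
    (hD : ∀ ω e, |f ω - f (Function.update ω e none)| ≤ D) :
    Ex n c p (fun ω => (f ω - Ex n c p f) ^ 2) ≤ (Fintype.card (Edge n) : ℝ) * p * D ^ 2 := by
  have h := es_ind hc h0 h1 D univ f (fun ω ω' hω => by
    have : ω = ω' := funext fun e => hω e (Finset.mem_univ e)
    rw [this]) hD
  rwa [Finset.card_univ] at h

theorem es_card_edge : Fintype.card (Edge n) ≤ n ^ 2 := by
  have h1 : Fintype.card (Edge n) ≤ Fintype.card {x : Fin n × Fin n // True} := by
    classical
    refine Fintype.card_le_of_injective (fun e => ⟨Quot.out e.1, trivial⟩) ?_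
    intro e e' h
    have h2 : Quot.out e.1 = Quot.out e'.1 := by
      simpa using h
    apply Subtype.ext
    rw [← Quot.out_eq e.1, ← Quot.out_eq e'.1, h2]
  refine h1.trans ?_
  simp [Fintype.card_prod, sq]

/-- concentration by Chebyshev's inequality -/
theorem conc (hc : 0 < c) (h0 : 0 ≤ p) (h1 : p ≤ 1) (f : Conf n c → ℝ) (D : ℝ)
    (hD : ∀ ω e, |f ω - f (Function.update ω e none)| ≤ D) {a : ℝ} (ha : 0 < a) :
    Pr n c p {ω | a ≤ |f ω - Ex n c p f|} ≤ (n : ℝ) ^ 2 * p * D ^ 2 / a ^ 2 := by
  have h2 : {ω : Conf n c | a ≤ |f ω - Ex n c p f|} ⊆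
      {ω | a ^ 2 ≤ (f ω - Ex n c p f) ^ 2} := by
    intro ω hω
    have hω' : a ≤ |f ω - Ex n c p f| := hω
    have : a ^ 2 ≤ |f ω - Ex n c p f| ^ 2 := pow_le_pow_left₀ ha.le hω' 2
    rwa [sq_abs] at this
  refine (Pr_mono h0 h1 h2).trans ?_
  refine (markov h0 h1 (f := fun ω => (f ω - Ex n c p f) ^ 2) (fun ω => sq_nonneg _)
    (a := a ^ 2) (by positivity)).trans ?_
  apply div_le_div_of_nonneg_right _ (by positivity)
  refine (efron_stein hc h0 h1 f D hD).trans ?_
  have h3 : (Fintype.card (Edge n) : ℝ) ≤ (n : ℝ) ^ 2 := by exact_mod_cast es_card_edge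
  have h4 : 0 ≤ p * D ^ 2 := by positivity
  nlinarith

end Pool.Agent.Lib.MP_fdca68_pr
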