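import Pool.Agent.Lib.MP_fdca68_pr.Basic
import Pool.Agent.Lib.MP_fdca68_pr.Calc

/-!
# The expansion property holds with high probability (first moment)
-/

namespace Pool.Agent.Lib.MP_fdca68_pr

open Finset SimpleGraph
open scoped Classical

/-- pairs with at least one end in `A` -/
noncomputable def exp_touch {n : ℕ} (A : Finset (Fin n)) : Finset (Edge n) :=
  univ.filter (fun e : Edge n => ∃ v ∈ e.1, v ∈ A)

theorem exp_card_touch {n : ℕ} (A : Finset (Fin n)) :
    (A.card : ℝ) * n - (A.card : ℝ) ^ 2 / 2 - A.card / 2 ≤ (exp_touch A).card := by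
  have hI : (A.offDiag.image (fun q : Fin n × Fin n => s(q.1, q.2))).card = A.card.choose 2 := Sym2.card_image_offDiag A
  have hX : ((A ×ˢ Aᶜ).image (fun q : Fin n × Fin n => s(q.1, q.2))).card =
      A.card * (n - A.card) := by
    rw [Finset.card_image_of_injOn, card_product, card_compl, Fintype.card_fin]
    rintro ⟨a, b⟩ hab ⟨a', b'⟩ hab' h
    simp only [coe_product, Set.mem_prod, mem_coe, mem_compl] at hab hab'
    simp only [Sym2.eq_iff] at h
    rcases h with ⟨h1, h2⟩ | ⟨h1, h2⟩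
    · exact Prod.ext h1 h2
    · exact absurd (h1 ▸ hab.1) hab'.2
  have hdis : Disjoint (A.offDiag.image (fun q : Fin n × Fin n => s(q.1, q.2)))
      ((A ×ˢ Aᶜ).image (fun q : Fin n × Fin n => s(q.1, q.2))) := by
    rw [Finset.disjoint_left]
    intro e he he'
    obtain ⟨⟨a, b⟩, hab, rfl⟩ := mem_image.mp he
    obtain ⟨⟨a', b'⟩, hab', h⟩ := mem_image.mp he'
    rw [mem_offDiag] at hab
    rw [mem_product, mem_compl] at hab'
    simp only [Sym2.eq_iff] at h
    rcases h with ⟨h1, h2⟩ | ⟨h1, h2⟩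
    · exact hab'.2 (h2 ▸ hab.2.1)
    · exact hab'.2 (h2 ▸ hab.1)
  have hsub : (A.offDiag.image (fun q : Fin n × Fin n => s(q.1, q.2))) ∪
      ((A ×ˢ Aᶜ).image (fun q : Fin n × Fin n => s(q.1, q.2))) ⊆
      (exp_touch A).image Subtype.val := by
    intro e he
    rw [mem_image]
    rcases mem_union.mp he with he | he
    · obtain ⟨⟨a, b⟩, hab, rfl⟩ := mem_image.mp he
      rw [mem_offDiag] at hab
      refine ⟨⟨s(a, b), by simpa using hab.2.2⟩, ?_, rfl⟩
      exact mem_filter.mpr ⟨mem_univ _, a, Sym2.mem_mk_left a b, hab.1⟩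
    · obtain ⟨⟨a, b⟩, hab, rfl⟩ := mem_image.mp he
      rw [mem_product, mem_compl] at hab
      have hne : a ≠ b := fun h => hab.2 (h ▸ hab.1)
      refine ⟨⟨s(a, b), by simpa using hne⟩, ?_, rfl⟩
      exact mem_filter.mpr ⟨mem_univ _, a, Sym2.mem_mk_left a b, hab.1⟩
  have h1 := card_le_card hsub
  rw [card_union_of_disjoint hdis, hI, hX] at h1
  have h2 := h1.trans card_image_le
  have hAn : A.card ≤ n := by simpa using card_le_univ A
  have h3 : ((A.card.choose 2 + A.card * (n - A.card) : ℕ) : ℝ) ≤ (exp_touch A).card := by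
    exact_mod_cast h2
  rw [Nat.cast_add, Nat.cast_choose_two, Nat.cast_mul, Nat.cast_sub hAn] at h3
  nlinarith [h3]

theorem exp_card_edge (n : ℕ) : (Fintype.card (Edge n) : ℝ) ≤ (n : ℝ) ^ 2 := by
  have h : Fintype.card (Edge n) = n.choose 2 := by
    have := Sym2.card_subtype_not_diag (α := Fin n)
    rw [Fintype.card_fin] at this
    exact this
  rw [h, Nat.cast_choose_two]
  have : (0 : ℝ) ≤ n := Nat.cast_nonneg n
  nlinarith [sq_nonneg (n : ℝ)]

/-- the event for a fixed set, fixed roots and fixed pointers -/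
def exp_ev {n c : ℕ} (A R : Finset (Fin n)) (f : Fin n → Fin n) (t : ℝ) : Set (Conf n c) :=
  {ω | (∀ v ∈ A \ R, f v ∈ A ∧ (gr ω).Adj v (f v)) ∧
    (∀ v ∈ A \ R, ∀ w ∈ A \ R, s(v, f v) = s(w, f w) → v = w) ∧
    (eIn ω A : ℝ) < A.card + t ∧ (eOut ω A : ℝ) ≤ t}

theorem exp_in_out {n c : ℕ} (ω : Conf n c) (A : Finset (Fin n)) :
    ((exp_touch A).filter (fun e => ω e ≠ none)).card ≤ eIn ω A + eOut ω A := by
  unfold eIn eOut
  refine (card_le_card ?_).trans (card_union_le _ _)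
  intro e he
  rw [mem_filter, exp_touch, mem_filter] at he
  rw [mem_union, mem_filter, mem_filter]
  by_cases h : ∀ v ∈ e.1, v ∈ A
  · exact Or.inl ⟨mem_univ _, he.2, h⟩
  · right
    push Not at h
    exact ⟨mem_univ _, he.2, he.1.2, h⟩

theorem exp_Pr_ev {n c : ℕ} {p : ℝ} (hc : 0 < c) (h0 : 0 ≤ p) (h1 : p ≤ 1)
    (A R : Finset (Fin n)) (hRA : R ⊆ A) (f : Fin n → Fin n) (t : ℝ) (hR : (R.card : ℝ) ≤ t)
    (z : ℝ) (hz : 0 < z) (hz1 : z ≤ 1) :
    Pr n c p (exp_ev A R f t) ≤ p ^ (A.card - R.card) *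
      (Real.exp (3 * t * Real.log z⁻¹) * Real.exp (-(p * ((A.card : ℝ) * n -
        (A.card : ℝ) ^ 2 / 2)) + 3 / 2 * (n * p) + z * (n * (n * p)))) := by
  have hpos : 0 ≤ p ^ (A.card - R.card) *
      (Real.exp (3 * t * Real.log z⁻¹) * Real.exp (-(p * ((A.card : ℝ) * n -
        (A.card : ℝ) ^ 2 / 2)) + 3 / 2 * (n * p) + z * (n * (n * p)))) := by positivity
  by_cases hv : (∀ v ∈ A \ R, f v ∈ A ∧ v ≠ f v) ∧
      (∀ v ∈ A \ R, ∀ w ∈ A \ R, s(v, f v) = s(w, f w) → v = w)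
  swap
  · have hempty : exp_ev (n := n) (c := c) A R f t = ∅ := by
      rw [Set.eq_empty_iff_forall_notMem]
      rintro ω ⟨h2, h3, -⟩
      exact hv ⟨fun v hv => ⟨(h2 v hv).1, (h2 v hv).2.ne⟩, h3⟩
    rw [hempty]
    have : Pr n c p ∅ = 0 := by
      unfold Pr
      simp
    rw [this]
    exact hpos
  obtain ⟨hv1, hv2⟩ := hv
  obtain ⟨S, hS⟩ : ∃ S : Finset (Edge n), S = univ.filter
    (fun e : Edge n => ∃ v ∈ A \ R, e.1 = s(v, f v)) := ⟨_, rfl⟩
  have hScard : S.card = A.card - R.card := by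
    rw [← card_sdiff_of_subset hRA]
    symm
    refine Finset.card_bij (fun v hv => (⟨s(v, f v), by simpa using (hv1 v hv).2⟩ : Edge n))
      ?_ ?_ ?_
    · intro v hv
      rw [hS, mem_filter]
      exact ⟨mem_univ _, v, hv, rfl⟩
    · intro v hv w hw h
      exact hv2 v hv w hw (congrArg Subtype.val h)
    · intro e he
      rw [hS, mem_filter] at he
      obtain ⟨-, v, hv, h⟩ := he
      exact ⟨v, hv, Subtype.ext h.symm⟩
  obtain ⟨S', hS'⟩ : ∃ S' : Finset (Edge n), S' = exp_touch A \ S := ⟨_, rfl⟩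
  have hsub : S ⊆ exp_touch A := by
    intro e he
    rw [hS, mem_filter] at he
    obtain ⟨-, v, hv, h⟩ := he
    rw [exp_touch, mem_filter]
    exact ⟨mem_univ _, v, by rw [h]; exact Sym2.mem_mk_left _ _, (mem_sdiff.mp hv).1⟩
  have hd : Disjoint S S' := by rw [hS']; exact disjoint_sdiff
  have hrm : R.card ≤ A.card := card_le_card hRA
  have hle : Pr n c p (exp_ev A R f t) ≤ Pr n c p {ω | (∀ e ∈ S, ω e ≠ none) ∧
      ((S'.filter (fun e => ω e ≠ none)).card : ℝ) ≤ 3 * t} := by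
    apply Pr_mono h0 h1
    rintro ω ⟨h2, h3, h4, h5⟩
    have hpres : ∀ e ∈ S, ω e ≠ none := by
      intro e he
      rw [hS, mem_filter] at he
      obtain ⟨-, v, hv, h⟩ := he
      have := (h2 v hv).2
      rw [gr_adj, ← h, col_coe] at this
      exact this
    refine ⟨hpres, ?_⟩
    have h6 : S'.filter (fun e => ω e ≠ none) =
        (exp_touch A).filter (fun e => ω e ≠ none) \ S := by
      rw [hS']
      ext e
      simp only [mem_filter, mem_sdiff]
      tauto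
    have h7 : S ⊆ (exp_touch A).filter (fun e => ω e ≠ none) := fun e he =>
      mem_filter.mpr ⟨hsub he, hpres e he⟩
    have h8 := exp_in_out ω A
    rw [h6, card_sdiff_of_subset h7, Nat.cast_sub (card_le_card h7), hScard, Nat.cast_sub hrm]
    have h9 : ((((exp_touch A).filter (fun e => ω e ≠ none)).card : ℕ) : ℝ) ≤
        (eIn ω A : ℝ) + eOut ω A := by exact_mod_cast h8
    linarith
  refine hle.trans ((Pr_pres_few hc h0 h1 S S' hd (3 * t) z hz hz1).trans ?_)
  rw [hScard]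
  refine mul_le_mul_of_nonneg_left ?_ (by positivity)
  refine mul_le_mul_of_nonneg_left ?_ (Real.exp_pos _).le
  rw [Real.exp_le_exp]
  have hS'card : (S'.card : ℝ) = (exp_touch A).card - (A.card - R.card) := by
    rw [hS', card_sdiff_of_subset hsub, Nat.cast_sub (card_le_card hsub), hScard,
      Nat.cast_sub hrm]
  have hlow := exp_card_touch A
  have hup : (S'.card : ℝ) ≤ (n : ℝ) ^ 2 := by
    refine le_trans ?_ (exp_card_edge n)
    exact_mod_cast card_le_univ S'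
  have hRnn : (0 : ℝ) ≤ R.card := Nat.cast_nonneg _
  have hAn : (A.card : ℝ) ≤ n := by
    have : A.card ≤ n := by simpa using card_le_univ A
    exact_mod_cast this
  have hA0 : (0 : ℝ) ≤ A.card := Nat.cast_nonneg _
  have hlow' : (A.card : ℝ) * n - (A.card : ℝ) ^ 2 / 2 - 3 / 2 * n ≤ S'.card := by
    rw [hS'card]
    linarith
  have e1 : p * ((A.card : ℝ) * n - (A.card : ℝ) ^ 2 / 2 - 3 / 2 * n) ≤ p * S'.card :=
    mul_le_mul_of_nonneg_left hlow' h0
  have e2 : p * z * S'.card ≤ p * z * (n : ℝ) ^ 2 :=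
    mul_le_mul_of_nonneg_left hup (by positivity)
  nlinarith [e1, e2]

theorem exp_sum_card (n : ℕ) (g : ℕ → ℝ) :
    ∑ A : Finset (Fin n), g A.card = ∑ m ∈ range (n + 1), (n.choose m : ℝ) * g m := by
  have h := Finset.sum_powerset_apply_card (x := (univ : Finset (Fin n))) g
  rw [powerset_univ, card_univ, Fintype.card_fin] at h
  rw [h]
  refine sum_congr rfl fun m _ => ?_
  rw [nsmul_eq_mul]

theorem exp_card_roots {n : ℕ} (A : Finset (Fin n)) (t w : ℝ) (hw : 0 < w) (hw1 : w ≤ 1) :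
    ((A.powerset.filter (fun R : Finset (Fin n) => (R.card : ℝ) ≤ t)).card : ℝ) ≤
      Real.exp (t * Real.log w⁻¹) * Real.exp (w * n) := by
  refine le_trans ?_ (sum_choose_le n t w hw hw1)
  have h1 : (A.powerset.filter (fun R : Finset (Fin n) => (R.card : ℝ) ≤ t)).card ≤
      ((univ : Finset (Finset (Fin n))).filter (fun R : Finset (Fin n) => (R.card : ℝ) ≤ t)).card :=
    card_le_card (filter_subset_filter _ (subset_univ _))
  have h2 := exp_sum_card n (fun m => if (m : ℝ) ≤ t then 1 else 0)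
  rw [← Finset.sum_filter, sum_const, nsmul_eq_mul, mul_one] at h2
  rw [sum_filter]
  have h3 : ((A.powerset.filter (fun R : Finset (Fin n) => (R.card : ℝ) ≤ t)).card : ℝ) ≤
    (((univ : Finset (Finset (Fin n))).filter
      (fun R : Finset (Fin n) => (R.card : ℝ) ≤ t)).card : ℝ) := by exact_mod_cast h1
  refine h3.trans (h2.le.trans (le_of_eq ?_))
  refine sum_congr rfl fun m _ => ?_
  split_ifs <;> simp

/-- the pointers used for `A` and `R` -/
noncomputable def exp_ptr {n : ℕ} (A R : Finset (Fin n)) : Finset (Fin n → Fin n) :=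
  Fintype.piFinset (fun v => if v ∈ A \ R then A else {v})

theorem exp_card_ptr {n : ℕ} (A R : Finset (Fin n)) (hRA : R ⊆ A) :
    (exp_ptr A R).card = A.card ^ (A.card - R.card) := by
  unfold exp_ptr
  rw [Fintype.card_piFinset]
  have h1 : ∀ v : Fin n, (if v ∈ A \ R then A else {v}).card =
      if v ∈ A \ R then A.card else 1 := by
    intro v
    split_ifs <;> simp
  simp_rw [h1]
  rw [Finset.prod_ite_mem, Finset.univ_inter, prod_const, card_sdiff_of_subset hRA]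

theorem exp_cover {n c : ℕ} {ρ θ : ℝ} (ω : Conf n c) (h : ¬ Expd ω ρ θ) :
    ∃ A ∈ (univ : Finset (Finset (Fin n))).filter (fun A => ρ * n ≤ A.card),
      ω ∈ {ω : Conf n c | ∃ R ∈ A.powerset.filter (fun R : Finset (Fin n) => (R.card : ℝ) ≤ θ * n),
        ω ∈ {ω : Conf n c | ∃ f ∈ exp_ptr A R, ω ∈ exp_ev A R f (θ * n)}} := by
  unfold Expd at h
  push Not at h
  obtain ⟨A, hA, ⟨R, hRA, hR, f, hf1, hf2⟩, h3, h4⟩ := h
  refine ⟨A, mem_filter.mpr ⟨mem_univ _, hA⟩, R, mem_filter.mpr ⟨mem_powerset.mpr hRA, hR⟩,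
    fun v => if v ∈ A \ R then f v else v, ?_, ?_⟩
  · unfold exp_ptr
    rw [Fintype.mem_piFinset]
    intro v
    by_cases hv : v ∈ A \ R
    · simp only [if_pos hv]
      exact (hf1 v hv).1
    · simp only [if_neg hv]
      exact mem_singleton_self v
  · refine ⟨?_, ?_, h3, h4⟩
    · intro v hv
      simp only [if_pos hv]
      exact hf1 v hv
    · intro v hv w hw hvw
      simp only [if_pos hv, if_pos hw] at hvw
      exact hf2 v hv w hw hvw

/-- the contribution of a set `A` -/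
theorem exp_Pr_A {n c : ℕ} {p : ℝ} (hc : 0 < c) (h0 : 0 < p) (h1 : p ≤ 1)
    (A : Finset (Fin n)) (hA : 0 < A.card) (t B : ℝ) (hB : 1 ≤ B) (hBA : 1 / (A.card * p) ≤ B)
    (z w : ℝ) (hz : 0 < z) (hz1 : z ≤ 1) (hw : 0 < w) (hw1 : w ≤ 1) :
    Pr n c p {ω : Conf n c | ∃ R ∈ A.powerset.filter (fun R : Finset (Fin n) => (R.card : ℝ) ≤ t),
        ω ∈ {ω : Conf n c | ∃ f ∈ exp_ptr A R, ω ∈ exp_ev A R f t}} ≤
      ((A.card : ℝ) * p) ^ A.card * Real.exp (-(p * ((A.card : ℝ) * n -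
        (A.card : ℝ) ^ 2 / 2))) * Real.exp (t * (Real.log B + 3 * Real.log z⁻¹ + Real.log w⁻¹) +
          3 / 2 * (n * p) + z * (n * (n * p)) + w * n) := by
  have hAp : 0 < (A.card : ℝ) * p := by
    have : (0 : ℝ) < A.card := by exact_mod_cast hA
    positivity
  have hB0 : 0 < B := by linarith
  have step : ∀ R ∈ A.powerset.filter (fun R : Finset (Fin n) => (R.card : ℝ) ≤ t),
      Pr n c p {ω : Conf n c | ∃ f ∈ exp_ptr A R, ω ∈ exp_ev A R f t} ≤
      ((A.card : ℝ) * p) ^ A.card * Real.exp (t * Real.log B) *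
      (Real.exp (3 * t * Real.log z⁻¹) * Real.exp (-(p * ((A.card : ℝ) * n -
        (A.card : ℝ) ^ 2 / 2)) + 3 / 2 * (n * p) + z * (n * (n * p)))) := by
    intro R hR
    rw [mem_filter, mem_powerset] at hR
    obtain ⟨hRA, hRt⟩ := hR
    refine (Pr_biUnion_le h0.le h1 _ _).trans ?_
    refine (sum_le_card_nsmul _ _ _ (fun f _ =>
      exp_Pr_ev hc h0.le h1 A R hRA f t hRt z hz hz1)).trans ?_
    rw [nsmul_eq_mul, exp_card_ptr A R hRA, Nat.cast_pow, ← mul_assoc, ← mul_pow]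
    refine mul_le_mul_of_nonneg_right ?_ (by positivity)
    have hrm : R.card ≤ A.card := card_le_card hRA
    have e1 : ((A.card : ℝ) * p) ^ A.card = ((A.card : ℝ) * p) ^ (A.card - R.card) *
        ((A.card : ℝ) * p) ^ R.card := by
      rw [← pow_add, Nat.sub_add_cancel hrm]
    have e2 : 1 ≤ ((A.card : ℝ) * p) ^ R.card * Real.exp (t * Real.log B) := by
      have e3 : B ^ R.card ≤ Real.exp (t * Real.log B) := by
        have : B ^ R.card = Real.exp (R.card * Real.log B) := by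
          rw [mul_comm, Real.exp_mul, Real.exp_log hB0, Real.rpow_natCast]
        rw [this, Real.exp_le_exp]
        exact mul_le_mul_of_nonneg_right hRt (Real.log_nonneg hB)
      have e4 : 1 ≤ ((A.card : ℝ) * p) * B := by
        rw [div_le_iff₀ hAp] at hBA
        linarith
      calc (1 : ℝ) ≤ (((A.card : ℝ) * p) * B) ^ R.card := one_le_pow₀ e4
        _ = ((A.card : ℝ) * p) ^ R.card * B ^ R.card := mul_pow _ _ _
        _ ≤ _ := mul_le_mul_of_nonneg_left e3 (by positivity)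
    rw [e1, mul_assoc]
    exact le_mul_of_one_le_right (by positivity) e2
  refine (Pr_biUnion_le h0.le h1 _ _).trans ?_
  refine (sum_le_card_nsmul _ _ _ step).trans ?_
  rw [nsmul_eq_mul]
  have hroots := exp_card_roots A t w hw hw1
  refine (mul_le_mul_of_nonneg_right hroots (by positivity)).trans (le_of_eq ?_)
  have e5 : Real.exp (t * (Real.log B + 3 * Real.log z⁻¹ + Real.log w⁻¹) +
          3 / 2 * (n * p) + z * (n * (n * p)) + w * n) = Real.exp (t * Real.log B) *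
          Real.exp (3 * t * Real.log z⁻¹) * Real.exp (t * Real.log w⁻¹) *
          Real.exp (3 / 2 * (n * p) + z * (n * (n * p))) * Real.exp (w * n) := by
    simp only [← Real.exp_add]
    congr 1
    ring
  have e6 : Real.exp (-(p * ((A.card : ℝ) * n -
        (A.card : ℝ) ^ 2 / 2)) + 3 / 2 * (n * p) + z * (n * (n * p))) =
      Real.exp (-(p * ((A.card : ℝ) * n - (A.card : ℝ) ^ 2 / 2))) *
      Real.exp (3 / 2 * (n * p) + z * (n * (n * p))) := by
    rw [← Real.exp_add]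
    congr 1
    ring
  rw [e5, e6]
  ring

/-- the union bound -/
theorem exp_union {n c : ℕ} {p : ℝ} (hc : 0 < c) (h0 : 0 < p) (h1 : p ≤ 1) (hn : 0 < n)
    (ρ θ B z w : ℝ) (hρ : 0 < ρ)
    (hB : 1 ≤ B) (hBA : 1 / (ρ * (n * p)) ≤ B)
    (hz : 0 < z) (hz1 : z ≤ 1) (hw : 0 < w) (hw1 : w ≤ 1) :
    Pr n c p {ω | ¬ Expd ω ρ θ} ≤ (n + 1) * (Real.exp (n * hrate ρ) *
      Real.exp (θ * n * (Real.log B + 3 * Real.log z⁻¹ + Real.log w⁻¹) +
          3 / 2 * (n * p) + z * (n * (n * p)) + w * n)) := by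
  have hn' : (0 : ℝ) < n := by exact_mod_cast hn
  have hcov : {ω : Conf n c | ¬ Expd ω ρ θ} ⊆
      {ω : Conf n c | ∃ A ∈ (univ : Finset (Finset (Fin n))).filter (fun A => ρ * n ≤ A.card),
      ω ∈ {ω : Conf n c | ∃ R ∈ A.powerset.filter (fun R : Finset (Fin n) => (R.card : ℝ) ≤ θ * n),
        ω ∈ {ω : Conf n c | ∃ f ∈ exp_ptr A R, ω ∈ exp_ev A R f (θ * n)}}} :=
    fun ω h => exp_cover ω h
  refine (Pr_mono h0.le h1 hcov).trans ((Pr_biUnion_le h0.le h1 _ _).trans ?_)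
  obtain ⟨G, hG⟩ : ∃ G : ℝ, G = Real.exp (θ * n * (Real.log B + 3 * Real.log z⁻¹ +
    Real.log w⁻¹) + 3 / 2 * (n * p) + z * (n * (n * p)) + w * n) := ⟨_, rfl⟩
  rw [← hG]
  have hG0 : 0 < G := by rw [hG]; exact Real.exp_pos _
  have hb : ∀ A ∈ (univ : Finset (Finset (Fin n))).filter (fun A => ρ * n ≤ A.card),
      Pr n c p {ω : Conf n c | ∃ R ∈ A.powerset.filter
        (fun R : Finset (Fin n) => (R.card : ℝ) ≤ θ * n),
        ω ∈ {ω : Conf n c | ∃ f ∈ exp_ptr A R, ω ∈ exp_ev A R f (θ * n)}} ≤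
      ((A.card : ℝ) * p) ^ A.card * Real.exp (-(p * ((A.card : ℝ) * n -
        (A.card : ℝ) ^ 2 / 2))) * G := by
    intro A hA
    rw [mem_filter] at hA
    have hA0 : (0 : ℝ) < A.card := lt_of_lt_of_le (by positivity) hA.2
    rw [hG]
    refine exp_Pr_A hc h0 h1 A (by exact_mod_cast hA0) (θ * n) B hB ?_ z w hz hz1 hw hw1
    refine le_trans ?_ hBA
    apply one_div_le_one_div_of_le (by positivity)
    calc ρ * (n * p) = ρ * n * p := by ring
      _ ≤ A.card * p := mul_le_mul_of_nonneg_right hA.2 h0.le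
  refine (sum_le_sum hb).trans ?_
  rw [sum_filter]
  have hsum := exp_sum_card n (fun m => if ρ * n ≤ m then
    ((m : ℝ) * p) ^ m * Real.exp (-(p * ((m : ℝ) * n - (m : ℝ) ^ 2 / 2))) * G else 0)
  refine hsum.le.trans ?_
  have hterm : ∀ m ∈ range (n + 1), (n.choose m : ℝ) * (if ρ * n ≤ m then
    ((m : ℝ) * p) ^ m * Real.exp (-(p * ((m : ℝ) * n - (m : ℝ) ^ 2 / 2))) * G else 0) ≤
      Real.exp (n * hrate ρ) * G := by
    intro m hm
    split_ifs with hmρ
    swap
    · rw [mul_zero]; positivity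
    have hmn : m ≤ n := Nat.lt_succ_iff.mp (mem_range.mp hm)
    have hm0 : (0 : ℝ) < m := lt_of_lt_of_le (by positivity) hmρ
    have hm1 : 0 < m := by exact_mod_cast hm0
    have hcr := choose_rate hm1 hmn (lam := n * p) (by positivity)
    have e1 : (m : ℝ) * (n * p / n) = m * p := by
      field_simp
    have e2 : n * p * n * ((m : ℝ) / n - ((m : ℝ) / n) ^ 2 / 2) =
        p * ((m : ℝ) * n - (m : ℝ) ^ 2 / 2) := by
      field_simp
    rw [e1, e2] at hcr
    have hdiv : ρ ≤ (m : ℝ) / n := by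
      rw [le_div_iff₀ hn']
      exact hmρ
    have hdiv1 : (m : ℝ) / n ≤ 1 := by
      rw [div_le_one hn']
      exact_mod_cast hmn
    have hanti := hrate_anti hρ.le hdiv hdiv1
    calc (n.choose m : ℝ) * (((m : ℝ) * p) ^ m *
          Real.exp (-(p * ((m : ℝ) * n - (m : ℝ) ^ 2 / 2))) * G) =
        (n.choose m : ℝ) * ((m : ℝ) * p) ^ m *
          Real.exp (-(p * ((m : ℝ) * n - (m : ℝ) ^ 2 / 2))) * G := by ring
      _ ≤ Real.exp (n * hrate ((m : ℝ) / n)) * G := mul_le_mul_of_nonneg_right hcr hG0.le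
      _ ≤ Real.exp (n * hrate ρ) * G := by
        refine mul_le_mul_of_nonneg_right ?_ hG0.le
        rw [Real.exp_le_exp]
        exact mul_le_mul_of_nonneg_left hanti hn'.le
  refine (sum_le_card_nsmul _ _ _ hterm).trans (le_of_eq ?_)
  rw [card_range, nsmul_eq_mul]
  push_cast
  ring

theorem exp_lim {b C ε : ℝ} (hb : 0 < b) (hC : 0 ≤ C) (hε : 0 < ε) {n : ℕ} (hn : 0 < n)
    (h : 4 * C / (b ^ 2 * ε) ≤ n) : ((n : ℝ) + 1) * (C * Real.exp (-(b * n))) ≤ ε := by
  have hn' : (1 : ℝ) ≤ n := by exact_mod_cast hn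
  have h1 := Real.quadratic_le_exp_of_nonneg (x := b * n) (by positivity)
  have h2 : (b * n) ^ 2 / 2 ≤ Real.exp (b * n) := by
    have : 0 ≤ b * n := by positivity
    linarith
  have h3 : Real.exp (-(b * n)) ≤ 2 / (b * n) ^ 2 := by
    rw [Real.exp_neg, inv_eq_one_div, div_le_div_iff₀ (Real.exp_pos _) (by positivity)]
    linarith
  rw [div_le_iff₀ (by positivity)] at h
  calc ((n : ℝ) + 1) * (C * Real.exp (-(b * n))) ≤ (2 * n) * (C * (2 / (b * n) ^ 2)) := by
        refine mul_le_mul (by linarith) (mul_le_mul_of_nonneg_left h3 hC) (by positivity)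
          (by positivity)
    _ = 4 * C / (b ^ 2 * n) := by
        field_simp
        ring
    _ ≤ ε := by
        rw [div_le_iff₀ (by positivity)]
        linarith

theorem expd_whp (ρ lam₀ lam₁ : ℝ) (hρ : 0 < ρ) (h0 : 0 < lam₀) (h01 : lam₀ ≤ lam₁) :
    ∃ θ : ℝ, 0 < θ ∧ ∀ ε : ℝ, 0 < ε → ∃ n₀ : ℕ, ∀ n ≥ n₀, ∀ c : ℕ, 0 < c → ∀ p : ℝ,
      lam₀ ≤ n * p → n * p ≤ lam₁ → Pr n c p {ω | ¬ Expd ω ρ θ} ≤ ε := by
  have h1pos : 0 < lam₁ := lt_of_lt_of_le h0 h01
  rcases le_or_gt ρ 1 with hρ1 | hρ1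
  swap
  · refine ⟨1, one_pos, fun ε hε => ⟨1, fun n hn c hc p hp1 hp2 => ?_⟩⟩
    have hemp : {ω : Conf n c | ¬ Expd ω ρ 1} = ∅ := by
      rw [Set.eq_empty_iff_forall_notMem]
      intro ω hω
      apply hω
      intro A hA
      exfalso
      have hAn : (A.card : ℝ) ≤ n := by
        have : A.card ≤ n := by simpa using card_le_univ A
        exact_mod_cast this
      have hn' : (1 : ℝ) ≤ n := by exact_mod_cast hn
      nlinarith
    rw [hemp]
    have : Pr n c p ∅ = 0 := by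
      unfold Pr
      simp
    rw [this]
    exact hε.le
  obtain ⟨η, hη⟩ : ∃ η : ℝ, η = - hrate ρ := ⟨_, rfl⟩
  have hη0 : 0 < η := by
    rw [hη]
    linarith [hrate_neg hρ hρ1]
  obtain ⟨z, hzdef⟩ : ∃ z : ℝ, z = min 1 (η / (4 * lam₁)) := ⟨_, rfl⟩
  obtain ⟨w, hwdef⟩ : ∃ w : ℝ, w = min 1 (η / 4) := ⟨_, rfl⟩
  obtain ⟨B, hBdef⟩ : ∃ B : ℝ, B = max 1 (1 / (ρ * lam₀)) := ⟨_, rfl⟩
  have hz : 0 < z := by rw [hzdef]; exact lt_min one_pos (by positivity)
  have hz1 : z ≤ 1 := by rw [hzdef]; exact min_le_left _ _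
  have hz2 : z * lam₁ ≤ η / 4 := by
    have : z ≤ η / (4 * lam₁) := by rw [hzdef]; exact min_le_right _ _
    calc z * lam₁ ≤ η / (4 * lam₁) * lam₁ := mul_le_mul_of_nonneg_right this h1pos.le
      _ = η / 4 := by field_simp
  have hw : 0 < w := by rw [hwdef]; exact lt_min one_pos (by positivity)
  have hw1 : w ≤ 1 := by rw [hwdef]; exact min_le_left _ _
  have hw2 : w ≤ η / 4 := by rw [hwdef]; exact min_le_right _ _
  have hB : 1 ≤ B := by rw [hBdef]; exact le_max_left _ _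
  have hB2 : 1 / (ρ * lam₀) ≤ B := by rw [hBdef]; exact le_max_right _ _
  obtain ⟨K, hK⟩ : ∃ K : ℝ, K = Real.log B + 3 * Real.log z⁻¹ + Real.log w⁻¹ := ⟨_, rfl⟩
  have hK0 : 0 ≤ K := by
    have a1 := Real.log_nonneg hB
    have a2 : 0 ≤ Real.log z⁻¹ := Real.log_nonneg ((one_le_inv₀ hz).mpr hz1)
    have a3 : 0 ≤ Real.log w⁻¹ := Real.log_nonneg ((one_le_inv₀ hw).mpr hw1)
    rw [hK]
    positivity
  have hK1 : 0 < 1 + K := by linarith
  refine ⟨η / (4 * (1 + K)), by positivity, fun ε hε => ?_⟩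
  obtain ⟨n₀, hn₀⟩ := exists_nat_ge (max (max 1 lam₁)
    (4 * Real.exp (3 / 2 * lam₁) / ((η / 4) ^ 2 * ε)))
  refine ⟨n₀, fun n hn c hc p hp1 hp2 => ?_⟩
  have hnn : (n₀ : ℝ) ≤ n := by exact_mod_cast hn
  have hn1 : (1 : ℝ) ≤ n := ((le_max_left _ _).trans (le_max_left _ _)).trans (hn₀.trans hnn)
  have hn2 : lam₁ ≤ n := ((le_max_right _ _).trans (le_max_left _ _)).trans (hn₀.trans hnn)
  have hn3 : 4 * Real.exp (3 / 2 * lam₁) / ((η / 4) ^ 2 * ε) ≤ n :=
    (le_max_right _ _).trans (hn₀.trans hnn)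
  have hnpos : 0 < n := by
    have : (0 : ℝ) < n := by linarith
    exact_mod_cast this
  have hnpos' : (0 : ℝ) < n := by exact_mod_cast hnpos
  have hp0 : 0 < p := by
    by_contra h
    push Not at h
    have : (n : ℝ) * p ≤ 0 := mul_nonpos_of_nonneg_of_nonpos hnpos'.le h
    linarith
  have hple : p ≤ 1 := by
    by_contra h
    push Not at h
    have : (n : ℝ) < n * p := by nlinarith
    linarith
  have hBA : 1 / (ρ * (n * p)) ≤ B := by
    refine le_trans ?_ hB2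
    apply one_div_le_one_div_of_le (by positivity)
    exact mul_le_mul_of_nonneg_left hp1 hρ.le
  have hmain := exp_union (c := c) hc hp0 hple hnpos ρ (η / (4 * (1 + K))) B z w hρ
    hB hBA hz hz1 hw hw1
  refine hmain.trans ?_
  refine le_trans ?_ (exp_lim (b := η / 4) (C := Real.exp (3 / 2 * lam₁)) (ε := ε)
    (by positivity) (Real.exp_pos _).le hε hnpos hn3)
  refine mul_le_mul_of_nonneg_left ?_ (by positivity)
  rw [← Real.exp_add, ← Real.exp_add, Real.exp_le_exp, ← hK]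
  have hr : hrate ρ = -η := by rw [hη]; ring
  rw [hr]
  have b1 : η / (4 * (1 + K)) * n * K ≤ η / 4 * n := by
    have : K / (1 + K) ≤ 1 := by
      rw [div_le_one hK1]
      linarith
    calc η / (4 * (1 + K)) * n * K = η / 4 * n * (K / (1 + K)) := by
          field_simp
      _ ≤ η / 4 * n * 1 := mul_le_mul_of_nonneg_left this (by positivity)
      _ = η / 4 * n := mul_one _
  have b2 : 3 / 2 * (n * p) ≤ 3 / 2 * lam₁ := by linarith
  have b3 : z * (n * (n * p)) ≤ η / 4 * n := by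
    calc z * (n * (n * p)) ≤ z * (n * lam₁) := by
          refine mul_le_mul_of_nonneg_left ?_ hz.le
          exact mul_le_mul_of_nonneg_left hp2 hnpos'.le
      _ = z * lam₁ * n := by ring
      _ ≤ η / 4 * n := mul_le_mul_of_nonneg_right hz2 hnpos'.le
  have b4 : w * n ≤ η / 4 * n := mul_le_mul_of_nonneg_right hw2 hnpos'.le
  linarith

end Pool.Agent.Lib.MP_fdca68_pr
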