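import Pool.Agent.Lib.MP_fdca68_pr.Basic

/-!
# Moments of degrees and colour classes
-/

namespace Pool.Agent.Lib.MP_fdca68_pr

open Finset SimpleGraph
open scoped Classical

variable {n c : ℕ} {p : ℝ}

theorem card_Edge_le (n : ℕ) : (Fintype.card (Edge n) : ℝ) ≤ (n : ℝ) ^ 2 / 2 := by
  have h : Fintype.card (Edge n) = n.choose 2 := by
    have := Sym2.card_subtype_not_diag (α := Fin n)
    rw [Fintype.card_fin] at this
    convert this
  rw [h, Nat.cast_choose_two]
  have : (0 : ℝ) ≤ n := Nat.cast_nonneg n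
  nlinarith

/-- mean of a function of one coordinate -/
noncomputable def mom_m (c : ℕ) (p : ℝ) (h : Option (Fin c) → ℝ) : ℝ :=
  (1 - p) * h none + (p / c) * ∑ k, h (some k)

theorem mom_m_one (hc : 0 < c) : mom_m c p (fun _ => 1) = 1 := by
  have hc' : (c : ℝ) ≠ 0 := by
    have : (0 : ℝ) < c := by exact_mod_cast hc
    exact this.ne'
  unfold mom_m
  simp only [Finset.sum_const, Finset.card_univ, Fintype.card_fin, nsmul_eq_mul, mul_one]
  field_simp
  ring

theorem mom_pair (hc : 0 < c) (e f : Edge n) (hef : e ≠ f) (h h' : Option (Fin c) → ℝ) :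
    Ex n c p (fun ω => h (ω e) * h' (ω f)) = mom_m c p h * mom_m c p h' := by
  have key := Ex_prod (n := n) hc p
    (fun e' x => (if e' = e then h x else 1) * (if e' = f then h' x else 1))
  have l1 : ∀ ω : Conf n c, (∏ e' : Edge n,
      ((if e' = e then h (ω e') else 1) * (if e' = f then h' (ω e') else 1))) =
      h (ω e) * h' (ω f) := by
    intro ω
    rw [Finset.prod_mul_distrib, Finset.prod_ite_eq' , Finset.prod_ite_eq']
    simp
  have l2 : ∀ e' : Edge n, ((1 - p) * ((if e' = e then h none else 1) *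
      (if e' = f then h' none else 1)) + (p / c) * ∑ k : Fin c,
      ((if e' = e then h (some k) else 1) * (if e' = f then h' (some k) else 1))) =
      (if e' = e then mom_m c p h else 1) * (if e' = f then mom_m c p h' else 1) := by
    intro e'
    by_cases h1 : e' = e
    · have h2 : ¬ e' = f := by
        rw [h1]
        exact hef
      simp only [if_pos h1, if_neg h2, mul_one]
      rfl
    · by_cases h2 : e' = f
      · simp only [if_pos h2, if_neg h1, one_mul]
        rfl
      · simp only [if_neg h2, if_neg h1, mul_one]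
        have := mom_m_one (p := p) hc
        unfold mom_m at this
        rw [mul_one] at this
        exact this
  simp only [l1] at key
  rw [key]
  rw [Finset.prod_congr rfl (fun e' _ => l2 e'), Finset.prod_mul_distrib,
    Finset.prod_ite_eq', Finset.prod_ite_eq']
  simp

theorem mom_single (hc : 0 < c) (e : Edge n) (h : Option (Fin c) → ℝ) :
    Ex n c p (fun ω => h (ω e)) = mom_m c p h := by
  have key := Ex_prod (n := n) hc p (fun e' x => if e' = e then h x else 1)
  have l1 : ∀ ω : Conf n c, (∏ e' : Edge n, (if e' = e then h (ω e') else 1)) = h (ω e) := by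
    intro ω
    rw [Finset.prod_ite_eq']
    simp
  have l2 : ∀ e' : Edge n, ((1 - p) * (if e' = e then h none else 1) +
      (p / c) * ∑ k : Fin c, (if e' = e then h (some k) else 1)) =
      (if e' = e then mom_m c p h else 1) := by
    intro e'
    by_cases h1 : e' = e
    · simp only [if_pos h1]
      rfl
    · simp only [if_neg h1]
      exact mom_m_one (p := p) hc
  simp only [l1] at key
  rw [key]
  rw [Finset.prod_congr rfl (fun e' _ => l2 e'), Finset.prod_ite_eq']
  simp

/-- second moment of a sum of indicators of independent events with equal probabilities -/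
theorem mom_sq (hc : 0 < c) (S : Finset (Edge n)) (h : Option (Fin c) → ℝ)
    (hh : ∀ x, h x * h x = h x) :
    Ex n c p (fun ω => (∑ e ∈ S, h (ω e)) ^ 2) ≤
      S.card * mom_m c p h + (S.card * mom_m c p h) ^ 2 := by
  have e1 : (fun ω : Conf n c => (∑ e ∈ S, h (ω e)) ^ 2) =
      (fun ω => ∑ e ∈ S, ∑ f ∈ S, h (ω e) * h (ω f)) := by
    funext ω
    rw [sq, Finset.sum_mul_sum]
  rw [e1, Ex_sum]
  have e2 : ∀ e ∈ S, Ex n c p (fun ω => ∑ f ∈ S, h (ω e) * h (ω f)) ≤
      mom_m c p h + S.card * (mom_m c p h) ^ 2 := by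
    intro e he
    rw [Ex_sum, ← Finset.add_sum_erase S _ he]
    have e3 : Ex n c p (fun ω => h (ω e) * h (ω e)) = mom_m c p h := by
      have : (fun ω : Conf n c => h (ω e) * h (ω e)) = (fun ω => h (ω e)) := by
        funext ω
        exact hh _
      rw [this]
      exact mom_single hc e h
    rw [e3]
    have e4 : ∑ f ∈ S.erase e, Ex n c p (fun ω => h (ω e) * h (ω f)) =
        ((S.erase e).card : ℝ) * (mom_m c p h) ^ 2 := by
      rw [Finset.sum_congr rfl (g := fun _ => (mom_m c p h) ^ 2), Finset.sum_const,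
        nsmul_eq_mul]
      intro f hf
      rw [mom_pair hc e f (Finset.ne_of_mem_erase hf).symm h h, sq]
    rw [e4]
    have e5 : ((S.erase e).card : ℝ) ≤ S.card := by
      exact_mod_cast Finset.card_le_card (Finset.erase_subset e S)
    have e6 := mul_le_mul_of_nonneg_right e5 (sq_nonneg (mom_m c p h))
    linarith
  refine (Finset.sum_le_sum e2).trans ?_
  rw [Finset.sum_const, nsmul_eq_mul]
  have : (S.card : ℝ) * (mom_m c p h + S.card * (mom_m c p h) ^ 2) =
      S.card * mom_m c p h + (S.card * mom_m c p h) ^ 2 := by ring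
  rw [this]

theorem Ex_pres (hc : 0 < c) (h0 : 0 ≤ p) (h1 : p ≤ 1) :
    Ex n c p (fun ω => ((pres ω).card : ℝ)) ≤ (n : ℝ) ^ 2 * p / 2 := by
  have e1 : (fun ω : Conf n c => ((pres ω).card : ℝ)) =
      (fun ω => ∑ e : Edge n, (fun x : Option (Fin c) => if x = none then (0 : ℝ) else 1) (ω e)) := by
    funext ω
    unfold pres
    rw [Finset.card_filter]
    push_cast
    refine Finset.sum_congr rfl fun e _ => ?_
    by_cases h : ω e = none <;> simp [h]
  rw [e1, Ex_sum]
  have e2 : ∀ e ∈ (univ : Finset (Edge n)),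
      Ex n c p (fun ω => (fun x : Option (Fin c) => if x = none then (0 : ℝ) else 1) (ω e)) = p := by
    intro e _
    rw [mom_single hc e (fun x : Option (Fin c) => if x = none then (0 : ℝ) else 1)]
    have hc' : (c : ℝ) ≠ 0 := by
      have : (0 : ℝ) < c := by exact_mod_cast hc
      exact this.ne'
    unfold mom_m
    simp
    field_simp
  rw [Finset.sum_congr rfl e2, Finset.sum_const, nsmul_eq_mul, Finset.card_univ]
  have := mul_le_mul_of_nonneg_right (card_Edge_le n) h0
  linarith

theorem mom_card_inc (v : Fin n) :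
    ((univ.filter (fun e : Edge n => v ∈ e.1)).card : ℝ) ≤ n := by
  have h1 : (univ.filter (fun e : Edge n => v ∈ e.1)).card =
      ((univ.filter (fun e : Edge n => v ∈ e.1)).image Subtype.val).card :=
    (Finset.card_image_of_injective _ Subtype.val_injective).symm
  have h2 : ((univ.filter (fun e : Edge n => v ∈ e.1)).image Subtype.val) ⊆
      (univ : Finset (Fin n)).image (fun u => s(v, u)) := by
    intro e he
    rw [Finset.mem_image] at he
    obtain ⟨e', he', rfl⟩ := he
    obtain ⟨u, hu⟩ := (Finset.mem_filter.mp he').2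
    exact Finset.mem_image.mpr ⟨u, Finset.mem_univ _, hu.symm⟩
  have h3 := (Finset.card_le_card h2).trans Finset.card_image_le
  rw [Finset.card_univ, Fintype.card_fin, ← h1] at h3
  exact_mod_cast h3

theorem Ex_dg2 (hc : 0 < c) (h0 : 0 ≤ p) (h1 : p ≤ 1) :
    Ex n c p (fun ω => ∑ v, (dg ω v : ℝ) ^ 2) ≤ n * (n * p + (n * p) ^ 2) := by
  rw [Ex_sum]
  have hc' : (c : ℝ) ≠ 0 := by
    have : (0 : ℝ) < c := by exact_mod_cast hc
    exact this.ne'
  have hm : mom_m c p (fun x : Option (Fin c) => if x = none then (0 : ℝ) else 1) = p := by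
    unfold mom_m
    simp
    field_simp
  have e2 : ∀ v ∈ (univ : Finset (Fin n)), Ex n c p (fun ω => (dg ω v : ℝ) ^ 2) ≤
      n * p + (n * p) ^ 2 := by
    intro v _
    have e1 : (fun ω : Conf n c => (dg ω v : ℝ) ^ 2) =
        (fun ω => (∑ e ∈ univ.filter (fun e : Edge n => v ∈ e.1),
          (fun x : Option (Fin c) => if x = none then (0 : ℝ) else 1) (ω e)) ^ 2) := by
      funext ω
      congr 1
      unfold dg
      have : (univ.filter (fun e : Edge n => ω e ≠ none ∧ v ∈ e.1)) =
          (univ.filter (fun e : Edge n => v ∈ e.1)).filter (fun e => ω e ≠ none) := by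
        ext e
        simp only [Finset.mem_filter, Finset.mem_univ, true_and]
        exact and_comm
      rw [this, Finset.card_filter]
      push_cast
      refine Finset.sum_congr rfl fun e _ => ?_
      by_cases h : ω e = none <;> simp [h]
    rw [e1]
    have e3 := mom_sq (p := p) hc (univ.filter (fun e : Edge n => v ∈ e.1))
      (fun x : Option (Fin c) => if x = none then (0 : ℝ) else 1)
      (fun x => by by_cases h : x = none <;> simp [h])
    rw [hm] at e3
    refine e3.trans ?_
    have e4 := mul_le_mul_of_nonneg_right (mom_card_inc v) h0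
    have e5 : (0 : ℝ) ≤ ((univ.filter (fun e : Edge n => v ∈ e.1)).card : ℝ) * p :=
      mul_nonneg (Nat.cast_nonneg _) h0
    have e6 := pow_le_pow_left₀ e5 e4 2
    linarith
  refine (Finset.sum_le_sum e2).trans ?_
  rw [Finset.sum_const, nsmul_eq_mul, Finset.card_univ, Fintype.card_fin]

theorem Ex_cls2 (hc : 0 < c) (h0 : 0 ≤ p) (h1 : p ≤ 1) :
    Ex n c p (fun ω => ∑ k, (cls ω k : ℝ) ^ 2) ≤ (n : ℝ) ^ 2 * p + ((n : ℝ) ^ 2 * p) ^ 2 / c := by
  rw [Ex_sum]
  have hcpos : (0 : ℝ) < c := by exact_mod_cast hc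
  have hc' : (c : ℝ) ≠ 0 := hcpos.ne'
  have hm : ∀ k : Fin c, mom_m c p (fun x : Option (Fin c) => if x = some k then (1 : ℝ) else 0) =
      p / c := by
    intro k
    unfold mom_m
    simp
  have e2 : ∀ k ∈ (univ : Finset (Fin c)), Ex n c p (fun ω => (cls ω k : ℝ) ^ 2) ≤
      (n : ℝ) ^ 2 * (p / c) + ((n : ℝ) ^ 2 * (p / c)) ^ 2 := by
    intro k _
    have e1 : (fun ω : Conf n c => (cls ω k : ℝ) ^ 2) =
        (fun ω => (∑ e : Edge n,
          (fun x : Option (Fin c) => if x = some k then (1 : ℝ) else 0) (ω e)) ^ 2) := by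
      funext ω
      congr 1
      unfold cls
      rw [Finset.card_filter]
      push_cast
      rfl
    rw [e1]
    have e3 := mom_sq (n := n) (p := p) hc univ
      (fun x : Option (Fin c) => if x = some k then (1 : ℝ) else 0)
      (fun x => by by_cases h : x = some k <;> simp [h])
    rw [hm k] at e3
    refine e3.trans ?_
    have hN : (((univ : Finset (Edge n)).card : ℕ) : ℝ) ≤ (n : ℝ) ^ 2 := by
      rw [Finset.card_univ]
      have := card_Edge_le n
      have h2 : (0 : ℝ) ≤ (n : ℝ) ^ 2 := by positivity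
      linarith
    have hpc : (0 : ℝ) ≤ p / c := div_nonneg h0 hcpos.le
    have e4 := mul_le_mul_of_nonneg_right hN hpc
    have e5 : (0 : ℝ) ≤ (((univ : Finset (Edge n)).card : ℕ) : ℝ) * (p / c) :=
      mul_nonneg (Nat.cast_nonneg _) hpc
    have e6 := pow_le_pow_left₀ e5 e4 2
    linarith
  refine (Finset.sum_le_sum e2).trans ?_
  rw [Finset.sum_const, nsmul_eq_mul, Finset.card_univ, Fintype.card_fin]
  have : (c : ℝ) * ((n : ℝ) ^ 2 * (p / c) + ((n : ℝ) ^ 2 * (p / c)) ^ 2) =
      (n : ℝ) ^ 2 * p + ((n : ℝ) ^ 2 * p) ^ 2 / c := by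
    field_simp
  rw [this]

end Pool.Agent.Lib.MP_fdca68_pr
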