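import Pool.Agent.Lib.MP_fdca68_pr.LowDet
import Pool.Agent.Lib.MP_fdca68_pr.BadEx
import Pool.Agent.Lib.MP_fdca68_pr.Moments

/-!
# `L K` is of linear order, uniformly in `K`
-/

namespace Pool.Agent.Lib.MP_fdca68_pr

open Finset SimpleGraph
open scoped Classical

theorem lwr_params (lam b : ℝ) (hl : 1 < lam) (hb : 0 < b) :
    ∃ (z τ g : ℝ) (k₁ : ℕ), 0 < z ∧ z ≤ 1 ∧ 0 < τ ∧ 0 < g ∧ g < 1 ∧ 1 ≤ k₁ ∧
      (∀ k < k₁, τ * (k : ℝ) < 1) ∧ 2 * g ^ k₁ / (1 - g) ≤ b ∧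
      ∀ k : ℕ, Real.exp k * lam ^ (k - 1) * Real.exp (τ * k * Real.log z⁻¹) *
        Real.exp (-(lam * (1 - z) * k)) ≤ g ^ k := by
  have hl0 : 0 < lam := by linarith
  set l := lam - 1 - Real.log lam with hldef
  have hlpos : 0 < l := by
    have := Real.log_lt_sub_one_of_pos hl0 hl.ne'
    linarith
  set z := min 1 (l / (2 * lam)) with hz
  have hz0 : 0 < z := lt_min one_pos (by positivity)
  have hz1 : z ≤ 1 := min_le_left _ _
  have hz2 : lam * z ≤ l / 2 := by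
    have h1 : z ≤ l / (2 * lam) := min_le_right _ _
    calc lam * z ≤ lam * (l / (2 * lam)) := mul_le_mul_of_nonneg_left h1 hl0.le
      _ = l / 2 := by field_simp
  set g := Real.exp (-(l / 4)) with hg
  have hg0 : 0 < g := Real.exp_pos _
  have hg1 : g < 1 := by
    rw [hg, Real.exp_lt_one_iff]
    linarith
  obtain ⟨N, hN⟩ := exists_pow_lt_of_lt_one (show 0 < b * (1 - g) / 2 by
    have : 0 < 1 - g := by linarith
    positivity) hg1
  have hlog : 0 ≤ Real.log z⁻¹ := Real.log_nonneg (by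
    rw [one_le_inv₀ hz0]; exact hz1)
  set τ := min (1 / ((N : ℝ) + 1)) (l / 4 / (Real.log z⁻¹ + 1)) with hτ
  have hτ0 : 0 < τ := lt_min (by positivity) (by positivity)
  have hτ1 : τ ≤ 1 / ((N : ℝ) + 1) := min_le_left _ _
  have hτ2 : τ * Real.log z⁻¹ ≤ l / 4 := by
    have h1 : τ ≤ l / 4 / (Real.log z⁻¹ + 1) := min_le_right _ _
    calc τ * Real.log z⁻¹ ≤ τ * (Real.log z⁻¹ + 1) :=
          mul_le_mul_of_nonneg_left (by linarith) hτ0.le
      _ ≤ l / 4 / (Real.log z⁻¹ + 1) * (Real.log z⁻¹ + 1) :=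
          mul_le_mul_of_nonneg_right h1 (by linarith)
      _ = l / 4 := div_mul_cancel₀ _ (by linarith)
  have hk : (N : ℝ) + 1 ≤ ⌈1 / τ⌉₊ := by
    refine le_trans ?_ (Nat.le_ceil _)
    rw [le_div_iff₀ hτ0]
    calc ((N : ℝ) + 1) * τ ≤ ((N : ℝ) + 1) * (1 / ((N : ℝ) + 1)) :=
          mul_le_mul_of_nonneg_left hτ1 (by positivity)
      _ = 1 := by field_simp
  have hk' : N + 1 ≤ ⌈1 / τ⌉₊ := by exact_mod_cast hk
  refine ⟨z, τ, g, ⌈1 / τ⌉₊, hz0, hz1, hτ0, hg0, hg1, by omega, ?_, ?_, ?_⟩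
  · intro k hk
    have h1 := Nat.lt_ceil.1 hk
    rw [lt_div_iff₀ hτ0] at h1
    linarith
  · have h1 : g ^ ⌈1 / τ⌉₊ ≤ g ^ N := pow_le_pow_of_le_one hg0.le hg1.le (by omega)
    rw [div_le_iff₀ (by linarith)]
    linarith
  · intro k
    have h1 : lam ^ (k - 1) ≤ lam ^ k := pow_le_pow_right₀ hl.le (by omega)
    have h2 : lam ^ k = Real.exp (k * Real.log lam) := by
      rw [mul_comm, Real.exp_mul, Real.exp_log hl0, Real.rpow_natCast]
    have h3 : g ^ k = Real.exp (k * -(l / 4)) := by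
      rw [hg, ← Real.exp_nat_mul]
    calc Real.exp k * lam ^ (k - 1) * Real.exp (τ * k * Real.log z⁻¹) *
          Real.exp (-(lam * (1 - z) * k))
        ≤ Real.exp k * lam ^ k * Real.exp (τ * k * Real.log z⁻¹) *
          Real.exp (-(lam * (1 - z) * k)) := by gcongr
      _ = Real.exp (k * (1 + Real.log lam + τ * Real.log z⁻¹ - lam + lam * z)) := by
          rw [h2, ← Real.exp_add, ← Real.exp_add, ← Real.exp_add]
          congr 1
          ring
      _ ≤ g ^ k := by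
          rw [h3]
          apply Real.exp_le_exp.2
          apply mul_le_mul_of_nonneg_left _ (Nat.cast_nonneg k)
          have : Real.log lam = lam - 1 - l := by rw [hldef]; ring
          rw [this]
          linarith

theorem lwr_geom (g : ℝ) (h0 : 0 < g) (h1 : g < 1) (a K : ℕ) :
    ∑ k ∈ Finset.Ico a K, g ^ k ≤ g ^ a / (1 - g) := by
  rcases le_total a K with h | h
  · rw [geom_sum_Ico h1.ne h, ← neg_div_neg_eq]
    have : 0 < 1 - g := by linarith
    rw [neg_sub, neg_sub]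
    apply div_le_div_of_nonneg_right _ this.le
    have := pow_pos h0 K
    linarith
  · rw [Finset.Ico_eq_empty_of_le h, Finset.sum_empty]
    have : 0 < 1 - g := by linarith
    positivity

/-- the expectation of the number of vertices in small trees and sparsely attached sets -/
theorem lwr_Ex {n c : ℕ} (hc : 0 < c) {lam : ℝ} (hl : 1 < lam) (hn : lam ≤ n) (k₁ K : ℕ)
    (hk₁ : 1 ≤ k₁) {z τ g η β : ℝ} (hz : 0 < z) (hz1 : z ≤ 1) (hg0 : 0 < g) (hg1 : g < 1)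
    (hg : ∀ k : ℕ, Real.exp k * lam ^ (k - 1) * Real.exp (τ * k * Real.log z⁻¹) *
        Real.exp (-(lam * (1 - z) * k)) ≤ g ^ k) (hη : 0 ≤ η) (hη1 : η ≤ 1)
    (hβ : ∀ K : ℕ, ∑ k ∈ Finset.Icc 1 K, ak k * lam ^ (k - 1) * Real.exp (-(lam * k)) ≤ β)
    (hβ1 : β ≤ 1)
    (hexp : ∀ k : ℕ, k ≤ k₁ ∨ k ≤ K → Real.exp (lam * k ^ 2 / n) ≤ 1 + η) :
    Ex n c (lam / n) (fun ω => ∑ k ∈ Finset.Ico 1 k₁, (k : ℝ) * NT k ω +
      ∑ k ∈ Finset.Ico k₁ K, (k : ℝ) * NM τ k ω) ≤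
      n * (β + η + 2 * g ^ k₁ / (1 - g)) := by
  have hl0 : 0 < lam := by linarith
  have hak : ∀ k, 0 ≤ ak k := fun k => by unfold ak; positivity
  have hn0 : (0 : ℝ) ≤ n := Nat.cast_nonneg n
  rw [Ex_add, Ex_sum, Ex_sum]
  have e1 : ∑ k ∈ Finset.Ico 1 k₁, Ex n c (lam / n) (fun ω => (k : ℝ) * NT k ω) ≤
      n * ((1 + η) * β) := by
    calc ∑ k ∈ Finset.Ico 1 k₁, Ex n c (lam / n) (fun ω => (k : ℝ) * NT k ω)
        ≤ ∑ k ∈ Finset.Ico 1 k₁,
          n * ((1 + η) * (ak k * lam ^ (k - 1) * Real.exp (-(lam * k)))) := by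
          apply Finset.sum_le_sum
          intro k hk
          rw [Finset.mem_Ico] at hk
          refine (Ex_NT hc hl0 hn k hk.1).trans ?_
          apply mul_le_mul_of_nonneg_left _ hn0
          rw [mul_comm (1 + η)]
          apply mul_le_mul_of_nonneg_left (hexp k (Or.inl hk.2.le))
          have := hak k
          positivity
      _ = n * ((1 + η) * ∑ k ∈ Finset.Icc 1 (k₁ - 1),
          ak k * lam ^ (k - 1) * Real.exp (-(lam * k))) := by
          rw [Finset.mul_sum, Finset.mul_sum]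
          apply Finset.sum_congr _ (fun _ _ => rfl)
          ext k
          simp only [Finset.mem_Ico, Finset.mem_Icc]
          omega
      _ ≤ n * ((1 + η) * β) := by
          apply mul_le_mul_of_nonneg_left _ hn0
          apply mul_le_mul_of_nonneg_left (hβ _) (by linarith)
  have e2 : ∑ k ∈ Finset.Ico k₁ K, Ex n c (lam / n) (fun ω => (k : ℝ) * NM τ k ω) ≤
      n * (2 * g ^ k₁ / (1 - g)) := by
    calc ∑ k ∈ Finset.Ico k₁ K, Ex n c (lam / n) (fun ω => (k : ℝ) * NM τ k ω)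
        ≤ ∑ k ∈ Finset.Ico k₁ K, n * (2 * g ^ k) := by
          apply Finset.sum_le_sum
          intro k hk
          rw [Finset.mem_Ico] at hk
          refine (Ex_NM hc hl0 hn k (by omega) hz hz1).trans ?_
          apply mul_le_mul_of_nonneg_left _ hn0
          rw [mul_comm 2]
          have h1 : ak k * lam ^ (k - 1) * Real.exp (τ * k * Real.log z⁻¹) *
              Real.exp (-(lam * (1 - z) * k)) ≤ g ^ k := by
            refine le_trans ?_ (hg k)
            have := ak_le k (by omega)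
            gcongr
          have h2 : Real.exp (lam * k ^ 2 / n) ≤ 2 := by
            have := hexp k (Or.inr hk.2.le)
            linarith
          exact mul_le_mul h1 h2 (Real.exp_pos _).le (pow_pos hg0 k).le
      _ = n * (2 * ∑ k ∈ Finset.Ico k₁ K, g ^ k) := by
          rw [Finset.mul_sum, Finset.mul_sum]
      _ ≤ n * (2 * g ^ k₁ / (1 - g)) := by
          apply mul_le_mul_of_nonneg_left _ hn0
          rw [mul_div_assoc]
          apply mul_le_mul_of_nonneg_left (lwr_geom g hg0 hg1 k₁ K) (by norm_num)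
  have e3 : (1 + η) * β ≤ β + η := by nlinarith
  have e4 := mul_le_mul_of_nonneg_left e3 hn0
  have e5 : (n : ℝ) * (β + η + 2 * g ^ k₁ / (1 - g)) =
      n * (β + η) + n * (2 * g ^ k₁ / (1 - g)) := by ring
  rw [e5]
  linarith

theorem lower (lam κ₁ : ℝ) (hl : 1 < lam) (hκ₁ : 0 < κ₁) :
    ∃ c₀ : ℝ, 0 < c₀ ∧ ∃ π₀ : ℝ, 0 < π₀ ∧ ∀ K : ℕ, ∃ n₀ : ℕ, ∀ n ≥ n₀, ∀ c : ℕ, κ₁ * n ≤ c →
      π₀ ≤ Pr n c (lam / n) {ω | c₀ * n ≤ L K ω} := by
  have hl0 : 0 < lam := by linarith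
  obtain ⟨β, hβ1, hβ⟩ := tree_sum_lt lam hl
  set b : ℝ := min 1 (1 - β) with hb
  have hb0 : 0 < b := lt_min one_pos (by linarith)
  have hb1 : b ≤ 1 := min_le_left _ _
  have hbβ : b ≤ 1 - β := min_le_right _ _
  obtain ⟨z, τ, g, k₁, hz0, hz1, hτ0, hg0, hg1, hk₁, hk₁', hgb, hgk⟩ :=
    lwr_params lam (b / 8) hl (by positivity)
  set C : ℝ := 12 * (lam + lam ^ 2 + lam ^ 2 / κ₁) / b with hC
  have hC0 : 0 < C := by positivity
  set t : ℝ := min (b / 32) ((b * τ / 96) ^ 2 / C) with ht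
  have ht0 : 0 < t := lt_min (by positivity) (by positivity)
  have ht1 : t ≤ b / 32 := min_le_left _ _
  have ht2 : t * C ≤ (b * τ / 96) ^ 2 := by
    have : t ≤ (b * τ / 96) ^ 2 / C := min_le_right _ _
    rwa [le_div_iff₀ hC0] at this
  have hsq1 : Real.sqrt (t * C) ≤ b * τ / 96 := Real.sqrt_le_iff.2 ⟨by positivity, ht2⟩
  have hsq2 : Real.sqrt (2 * t * C) ≤ 2 * (b * τ / 96) := by
    refine Real.sqrt_le_iff.2 ⟨by positivity, ?_⟩
    nlinarith
  refine ⟨t, ht0, b / 4, by positivity, fun K => ?_⟩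
  -- reduce to K ≥ 1
  set K' := max K 1 with hK'
  have hK1 : 1 ≤ K' := le_max_right _ _
  obtain ⟨Cs, hCs0, hCs⟩ := Ex_Bad K' lam (1 / κ₁) hl0 (by positivity)
  set m : ℝ := max (k₁ : ℝ) K' with hm
  refine ⟨⌈max lam (max (lam * m ^ 2 / Real.log (1 + b / 8)) (12 * Cs / (t * b)))⌉₊ + 1,
    fun n hn c hc => ?_⟩
  have hn' : max lam (max (lam * m ^ 2 / Real.log (1 + b / 8)) (12 * Cs / (t * b))) ≤ n :=
    (Nat.le_ceil _).trans (by exact_mod_cast (by omega : _ ≤ n))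
  have hn1 : lam ≤ n := (le_max_left _ _).trans hn'
  have hn2 : lam * m ^ 2 / Real.log (1 + b / 8) ≤ n :=
    (le_max_left _ _).trans ((le_max_right _ _).trans hn')
  have hn3 : 12 * Cs / (t * b) ≤ n :=
    (le_max_right _ _).trans ((le_max_right _ _).trans hn')
  have hn0 : (0 : ℝ) < n := by linarith
  have hc0' : (0 : ℝ) < c := lt_of_lt_of_le (by positivity) hc
  have hc0 : 0 < c := by exact_mod_cast hc0'
  have hp0 : (0 : ℝ) ≤ lam / n := by positivity
  have hp1 : lam / n ≤ 1 := by rw [div_le_one hn0]; exact hn1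
  have hnp : (n : ℝ) * (lam / n) = lam := by field_simp
  have hnp2 : (n : ℝ) ^ 2 * (lam / n) = n * lam := by field_simp
  have hlogp : 0 < Real.log (1 + b / 8) := Real.log_pos (by linarith)
  have hexp : ∀ k : ℕ, k ≤ k₁ ∨ k ≤ K' → Real.exp (lam * k ^ 2 / n) ≤ 1 + b / 8 := by
    intro k hk
    have hkm : (k : ℝ) ≤ m := by
      rcases hk with hk | hk
      · exact le_max_of_le_left (by exact_mod_cast hk)
      · exact le_max_of_le_right (by exact_mod_cast hk)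
    rw [← Real.le_log_iff_exp_le (by linarith)]
    rw [div_le_iff₀ hn0]
    rw [div_le_iff₀ hlogp] at hn2
    calc lam * (k : ℝ) ^ 2 ≤ lam * m ^ 2 := by
          apply mul_le_mul_of_nonneg_left _ hl0.le
          exact pow_le_pow_left₀ (Nat.cast_nonneg k) hkm 2
      _ ≤ n * Real.log (1 + b / 8) := hn2
      _ = Real.log (1 + b / 8) * n := mul_comm _ _
  have hES := lwr_Ex hc0 hl hn1 k₁ K' hk₁ hz0 hz1 hg0 hg1 hgk (by positivity : (0 : ℝ) ≤ b / 8)
    (by linarith) hβ hβ1.le hexp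
  set S : Conf n c → ℝ := fun ω => ∑ k ∈ Finset.Ico 1 k₁, (k : ℝ) * NT k ω +
      ∑ k ∈ Finset.Ico k₁ K', (k : ℝ) * NM τ k ω with hS
  have hS0 : ∀ ω, 0 ≤ S ω := fun ω => by
    rw [hS]
    positivity
  -- the bad events
  have p1 : Pr n c (lam / n) {ω | (1 - b / 8) * n ≤ S ω} ≤ 1 - b / 2 := by
    have hpos : 0 < (1 - b / 8) * (n : ℝ) := by
      have : 0 < 1 - b / 8 := by linarith
      positivity
    refine (markov hp0 hp1 hS0 hpos).trans ?_
    rw [div_le_iff₀ hpos]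
    refine hES.trans ?_
    have h1 : β + b / 8 + 2 * g ^ k₁ / (1 - g) ≤ (1 - b / 2) * (1 - b / 8) := by
      nlinarith
    calc (n : ℝ) * (β + b / 8 + 2 * g ^ k₁ / (1 - g)) ≤ n * ((1 - b / 2) * (1 - b / 8)) :=
          mul_le_mul_of_nonneg_left h1 hn0.le
      _ = (1 - b / 2) * ((1 - b / 8) * n) := by ring
  have p2 : Pr n c (lam / n) {ω | t * n ≤ ((Bad K' ω).card : ℝ)} ≤ b / 12 := by
    have hpos : 0 < t * (n : ℝ) := by positivity
    refine (markov hp0 hp1 (fun ω => Nat.cast_nonneg _) hpos).trans ?_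
    rw [div_le_iff₀ hpos]
    refine (hCs n c hc0 ?_ (lam / n) hp0 hp1 hnp.le).trans ?_
    · rw [one_div, ← div_eq_inv_mul, le_div_iff₀ hκ₁]
      linarith
    · rw [div_le_iff₀ (by positivity)] at hn3
      nlinarith
  have p3 : Pr n c (lam / n) {ω | C * n ≤ ∑ v, (dg ω v : ℝ) ^ 2} ≤ b / 12 := by
    have hpos : 0 < C * (n : ℝ) := by positivity
    refine (markov hp0 hp1 (fun ω => Finset.sum_nonneg fun _ _ => by positivity) hpos).trans ?_
    rw [div_le_iff₀ hpos]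
    refine (Ex_dg2 hc0 hp0 hp1).trans ?_
    rw [hnp]
    have : b / 12 * (C * n) = n * (lam + lam ^ 2 + lam ^ 2 / κ₁) := by
      rw [hC]; field_simp
    rw [this]
    apply mul_le_mul_of_nonneg_left _ hn0.le
    have : 0 < lam ^ 2 / κ₁ := by positivity
    linarith
  have p4 : Pr n c (lam / n) {ω | C * n ≤ ∑ k, (cls ω k : ℝ) ^ 2} ≤ b / 12 := by
    have hpos : 0 < C * (n : ℝ) := by positivity
    refine (markov hp0 hp1 (fun ω => Finset.sum_nonneg fun _ _ => by positivity) hpos).trans ?_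
    rw [div_le_iff₀ hpos]
    refine (Ex_cls2 hc0 hp0 hp1).trans ?_
    rw [hnp2]
    have : b / 12 * (C * n) = n * (lam + lam ^ 2 + lam ^ 2 / κ₁) := by
      rw [hC]; field_simp
    rw [this]
    have h1 : ((n : ℝ) * lam) ^ 2 / c ≤ n * (lam ^ 2 / κ₁) := by
      rw [div_le_iff₀ hc0']
      calc ((n : ℝ) * lam) ^ 2 = n * (lam ^ 2 / κ₁) * (κ₁ * n) := by field_simp
        _ ≤ n * (lam ^ 2 / κ₁) * c := mul_le_mul_of_nonneg_left hc (by positivity)
    have h2 : 0 < (n : ℝ) * lam ^ 2 := by positivity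
    nlinarith
  -- the main inclusion
  have hinc : {ω : Conf n c | t * n ≤ L K ω}ᶜ ⊆
      {ω | (1 - b / 8) * n ≤ S ω} ∪ ({ω | t * n ≤ ((Bad K' ω).card : ℝ)} ∪
        ({ω | C * n ≤ ∑ v, (dg ω v : ℝ) ^ 2} ∪ {ω | C * n ≤ ∑ k, (cls ω k : ℝ) ^ 2})) := by
    intro ω hω
    by_contra hcon
    simp only [Set.mem_union, Set.mem_ofPred_eq, Set.mem_compl_iff, not_or, not_le] at hω hcon
    obtain ⟨h1, h2, h3, h4⟩ := hcon
    have hLL : (L K' ω : ℝ) ≤ L K ω := by
      exact_mod_cast L_anti (le_max_left K 1) ω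
    have hL : (L K' ω : ℝ) < t * n := hLL.trans_lt hω
    have hdet := low_det ω K' k₁ hK1 τ hτ0 hk₁'
    have hL0 : (0 : ℝ) ≤ L K' ω := Nat.cast_nonneg _
    have hB0 : (0 : ℝ) ≤ (Bad K' ω).card := Nat.cast_nonneg _
    have hd0 : 0 ≤ ∑ v, (dg ω v : ℝ) ^ 2 := Finset.sum_nonneg fun _ _ => by positivity
    have hc0 : 0 ≤ ∑ k, (cls ω k : ℝ) ^ 2 := Finset.sum_nonneg fun _ _ => by positivity
    have s1 : Real.sqrt ((L K' ω + (Bad K' ω).card) * ∑ v, (dg ω v : ℝ) ^ 2) ≤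
        2 * (b * τ / 96) * n := by
      calc Real.sqrt ((L K' ω + (Bad K' ω).card) * ∑ v, (dg ω v : ℝ) ^ 2)
          ≤ Real.sqrt ((2 * t * C) * (n : ℝ) ^ 2) := by
            apply Real.sqrt_le_sqrt
            calc (L K' ω + (Bad K' ω).card) * ∑ v, (dg ω v : ℝ) ^ 2
                ≤ (2 * (t * n)) * (C * n) :=
                  mul_le_mul (by linarith) h3.le hd0 (by positivity)
              _ = (2 * t * C) * (n : ℝ) ^ 2 := by ring
        _ = Real.sqrt (2 * t * C) * n := by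
            rw [Real.sqrt_mul (by positivity), Real.sqrt_sq hn0.le]
        _ ≤ 2 * (b * τ / 96) * n := mul_le_mul_of_nonneg_right hsq2 hn0.le
    have s2 : Real.sqrt (L K' ω * ∑ k, (cls ω k : ℝ) ^ 2) ≤ (b * τ / 96) * n := by
      calc Real.sqrt (L K' ω * ∑ k, (cls ω k : ℝ) ^ 2)
          ≤ Real.sqrt ((t * C) * (n : ℝ) ^ 2) := by
            apply Real.sqrt_le_sqrt
            calc L K' ω * ∑ k, (cls ω k : ℝ) ^ 2
                ≤ (t * n) * (C * n) :=
                  mul_le_mul hL.le h4.le hc0 (by positivity)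
              _ = (t * C) * (n : ℝ) ^ 2 := by ring
        _ = Real.sqrt (t * C) * n := by
            rw [Real.sqrt_mul (by positivity), Real.sqrt_sq hn0.le]
        _ ≤ (b * τ / 96) * n := mul_le_mul_of_nonneg_right hsq1 hn0.le
    have s3 : (2 / τ) * (Real.sqrt ((L K' ω + (Bad K' ω).card) * ∑ v, (dg ω v : ℝ) ^ 2) +
        Real.sqrt (L K' ω * ∑ k, (cls ω k : ℝ) ^ 2)) ≤ b / 16 * n := by
      calc (2 / τ) * (Real.sqrt ((L K' ω + (Bad K' ω).card) * ∑ v, (dg ω v : ℝ) ^ 2) +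
          Real.sqrt (L K' ω * ∑ k, (cls ω k : ℝ) ^ 2))
          ≤ (2 / τ) * (2 * (b * τ / 96) * n + (b * τ / 96) * n) :=
            mul_le_mul_of_nonneg_left (add_le_add s1 s2) (by positivity)
        _ = b / 16 * n := by field_simp; ring
    have s4 : t * n ≤ b / 32 * n := mul_le_mul_of_nonneg_right ht1 hn0.le
    have s5 : S ω = ∑ k ∈ Finset.Ico 1 k₁, (k : ℝ) * NT k ω +
      ∑ k ∈ Finset.Ico k₁ K', (k : ℝ) * NM τ k ω := rfl
    have s6 : (1 - b / 8) * (n : ℝ) = n - b / 32 * n - b / 32 * n - b / 16 * n := by ring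
    rw [s6] at h1
    linarith
  have hfin : Pr n c (lam / n) {ω : Conf n c | t * n ≤ L K ω}ᶜ ≤ 1 - b / 4 := by
    refine (Pr_mono hp0 hp1 hinc).trans ?_
    refine (Pr_union_le hp0 hp1 _ _).trans ?_
    have q1 := Pr_union_le hp0 hp1 {ω : Conf n c | t * n ≤ ((Bad K' ω).card : ℝ)}
      ({ω | C * n ≤ ∑ v, (dg ω v : ℝ) ^ 2} ∪ {ω | C * n ≤ ∑ k, (cls ω k : ℝ) ^ 2})
    have q2 := Pr_union_le hp0 hp1 {ω : Conf n c | C * n ≤ ∑ v, (dg ω v : ℝ) ^ 2}
      {ω | C * n ≤ ∑ k, (cls ω k : ℝ) ^ 2}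
    linarith
  rw [Pr_compl hc0] at hfin
  linarith

end Pool.Agent.Lib.MP_fdca68_pr
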