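import Pool.Agent.Lib.MP_fdca68_pr.Key
import Pool.Agent.Lib.MP_fdca68_pr.Lower
import Pool.Agent.Lib.MP_fdca68_pr.ES

/-!
# Concentration of the largest rainbow tree
-/

namespace Pool.Agent.Lib.MP_fdca68_pr

open Finset SimpleGraph Filter
open scoped Classical Topology

/-- lower bound on an expectation from a probability -/
theorem Ex_ge_of_Pr {n c : ℕ} {p : ℝ} (h0 : 0 ≤ p) (h1 : p ≤ 1) {f : Conf n c → ℝ}
    (hf : ∀ ω, 0 ≤ f ω) {a : ℝ} (ha : 0 ≤ a) (A : Set (Conf n c)) (hA : ∀ ω ∈ A, a ≤ f ω) :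
    a * Pr n c p A ≤ Ex n c p f := by
  rw [Pr_eq_Ex, ← Ex_mul]
  apply Ex_mono h0 h1
  intro ω
  by_cases h : ω ∈ A
  · simp only [h, if_true, mul_one]; exact hA ω h
  · simp only [h, if_false, mul_zero]; exact hf ω

/-- upper bound on an expectation with an exceptional event -/
theorem Ex_le_of_Pr {n c : ℕ} {p : ℝ} (hc : 0 < c) (h0 : 0 ≤ p) (h1 : p ≤ 1) {f : Conf n c → ℝ}
    {a b : ℝ} (ha : 0 ≤ a) (hb : ∀ ω, f ω ≤ b) (A : Set (Conf n c)) (hb0 : 0 ≤ b)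
    (hA : ∀ ω, ω ∉ A → f ω ≤ a) : Ex n c p f ≤ a + b * Pr n c p A := by
  rw [Pr_eq_Ex, ← Ex_mul, ← Ex_const (n := n) (p := p) hc a, ← Ex_add]
  apply Ex_mono h0 h1
  intro ω
  by_cases h : ω ∈ A
  · simp only [h, if_true, mul_one, Ex_const hc]; linarith [hb ω]
  · simp only [h, if_false, mul_zero, Ex_const hc, add_zero]; exact hA ω h

theorem ExT_lower (lam κ₁ κ₂ : ℝ) (hl : 1 < lam) (hκ₁ : 0 < κ₁) (hκ₂ : 0 < κ₂) :
    ∃ c₁ : ℝ, 0 < c₁ ∧ ∃ n₀ : ℕ, ∀ n ≥ n₀, ∀ c : ℕ, κ₁ * n ≤ c → (c : ℝ) ≤ κ₂ * n →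
      c₁ * n ≤ Ex n c (lam / n) (fun ω => (T ω : ℝ)) := by
  obtain ⟨c₀, hc₀, π₀, hπ₀, hlow⟩ := lower lam κ₁ hl hκ₁
  obtain ⟨K, n₁, hkey⟩ := key lam κ₁ κ₂ (c₀ / 2) (π₀ / 2) (by linarith) hκ₁ hκ₂ (by positivity)
    (by positivity)
  obtain ⟨n₂, hn₂⟩ := hlow K
  obtain ⟨n₃, hn₃⟩ := exists_nat_gt lam
  refine ⟨c₀ * π₀ / 4, by positivity, max (max n₁ n₂) (max n₃ 1), ?_⟩
  intro n hn c hc1 hc2
  have hnn₁ : n₁ ≤ n := le_trans (le_trans (le_max_left _ _) (le_max_left _ _)) hn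
  have hnn₂ : n₂ ≤ n := le_trans (le_trans (le_max_right _ _) (le_max_left _ _)) hn
  have hnn₃ : n₃ ≤ n := le_trans (le_trans (le_max_left _ _) (le_max_right _ _)) hn
  have hn1 : 1 ≤ n := le_trans (le_trans (le_max_right _ _) (le_max_right _ _)) hn
  have hnpos : (0 : ℝ) < n := by exact_mod_cast hn1
  have hcpos : (0 : ℝ) < c := lt_of_lt_of_le (by positivity) hc1
  have hc : 0 < c := by exact_mod_cast hcpos
  have hlamn : lam < n := lt_of_lt_of_le hn₃ (by exact_mod_cast hnn₃)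
  have hp0 : 0 ≤ lam / n := by positivity
  have hp1 : lam / n ≤ 1 := by rw [div_le_one hnpos]; exact hlamn.le
  have h1 := hkey n hnn₁ c hc1 hc2
  have h2 := hn₂ n hnn₂ c hc1
  set A : Set (Conf n c) := {ω | c₀ * n / 2 ≤ (T ω : ℝ)} with hA
  have hsub : {ω : Conf n c | c₀ * n ≤ L K ω} ⊆
      A ∪ {ω : Conf n c | (T ω : ℝ) + c₀ / 2 * n < L K ω} := by
    intro ω hω
    have hω' : c₀ * n ≤ L K ω := hω
    by_cases h : (T ω : ℝ) + c₀ / 2 * n < L K ω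
    · exact Or.inr h
    · left
      show c₀ * n / 2 ≤ (T ω : ℝ)
      linarith [not_lt.mp h]
  have h3 : π₀ ≤ Pr n c (lam / n) A + π₀ / 2 := by
    calc π₀ ≤ Pr n c (lam / n) {ω | c₀ * n ≤ L K ω} := h2
      _ ≤ Pr n c (lam / n) (A ∪ {ω : Conf n c | (T ω : ℝ) + c₀ / 2 * n < L K ω}) :=
          Pr_mono hp0 hp1 hsub
      _ ≤ Pr n c (lam / n) A + Pr n c (lam / n) {ω : Conf n c | (T ω : ℝ) + c₀ / 2 * n < L K ω} :=
          Pr_union_le hp0 hp1 _ _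
      _ ≤ Pr n c (lam / n) A + π₀ / 2 := by linarith
  have h4 := Ex_ge_of_Pr (n := n) (c := c) hp0 hp1 (f := fun ω => (T ω : ℝ))
    (fun ω => by positivity) (a := c₀ * n / 2) (by positivity) A (fun ω hω => hω)
  have h5 : c₀ * n / 2 * (π₀ / 2) ≤ c₀ * n / 2 * Pr n c (lam / n) A :=
    mul_le_mul_of_nonneg_left (by linarith) (by positivity)
  calc c₀ * π₀ / 4 * n = c₀ * n / 2 * (π₀ / 2) := by ring
    _ ≤ _ := h5
    _ ≤ _ := h4

theorem bad_event (lam κ₁ κ₂ δ ε : ℝ) (hl : 1 < lam) (hκ₁ : 0 < κ₁) (hκ₂ : 0 < κ₂) (hδ : 0 < δ)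
    (hε : 0 < ε) :
    ∃ n₀ : ℕ, ∀ n ≥ n₀, ∀ c : ℕ, κ₁ * n ≤ c → (c : ℝ) ≤ κ₂ * n →
      Pr n c (lam / n) {ω | ¬ |(T ω : ℝ) - Ex n c (lam / n) (fun ω => (T ω : ℝ))| ≤
        δ * Ex n c (lam / n) (fun ω => (T ω : ℝ))} ≤ ε := by
  obtain ⟨c₁, hc₁, n₁, hET⟩ := ExT_lower lam κ₁ κ₂ hl hκ₁ hκ₂
  set ρ : ℝ := δ * c₁ / 8 with hρ
  have hρpos : 0 < ρ := by positivity
  obtain ⟨K, n₂, hkey⟩ := key lam κ₁ κ₂ ρ (min (ε / 2) ρ) (by linarith) hκ₁ hκ₂ hρpos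
    (lt_min (by positivity) hρpos)
  obtain ⟨n₃, hn₃⟩ := exists_nat_gt (max lam (K / ρ))
  obtain ⟨n₄, hn₄⟩ := exists_nat_gt (lam * (2 * K) ^ 2 * 2 / (ρ ^ 2 * ε))
  refine ⟨max (max n₁ n₂) (max n₃ (max n₄ 1)), ?_⟩
  intro n hn c hc1 hc2
  have hnn₁ : n₁ ≤ n := le_trans (le_trans (le_max_left _ _) (le_max_left _ _)) hn
  have hnn₂ : n₂ ≤ n := le_trans (le_trans (le_max_right _ _) (le_max_left _ _)) hn
  have hnn₃ : n₃ ≤ n := le_trans (le_trans (le_max_left _ _) (le_max_right _ _)) hn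
  have hnn₄ : n₄ ≤ n := le_trans (le_trans (le_trans (le_max_left _ _) (le_max_right _ _))
    (le_max_right _ _)) hn
  have hn1 : 1 ≤ n := le_trans (le_trans (le_trans (le_max_right _ _) (le_max_right _ _))
    (le_max_right _ _)) hn
  have hnpos : (0 : ℝ) < n := by exact_mod_cast hn1
  have hcpos : (0 : ℝ) < c := lt_of_lt_of_le (by positivity) hc1
  have hc : 0 < c := by exact_mod_cast hcpos
  have hmax : max lam (K / ρ) < n := lt_of_lt_of_le hn₃ (by exact_mod_cast hnn₃)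
  have hlamn : lam < n := lt_of_le_of_lt (le_max_left _ _) hmax
  have hKn : (K : ℝ) ≤ ρ * n := by
    have : (K : ℝ) / ρ < n := lt_of_le_of_lt (le_max_right _ _) hmax
    rw [div_lt_iff₀ hρpos] at this
    linarith
  have hp0 : 0 ≤ lam / n := by positivity
  have hp1 : lam / n ≤ 1 := by rw [div_le_one hnpos]; exact hlamn.le
  set ET : ℝ := Ex n c (lam / n) (fun ω => (T ω : ℝ)) with hETdef
  set EL : ℝ := Ex n c (lam / n) (fun ω => (L K ω : ℝ)) with hELdef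
  have hET' : c₁ * n ≤ ET := hET n hnn₁ c hc1 hc2
  set A₁ : Set (Conf n c) := {ω | (T ω : ℝ) + ρ * n < L K ω} with hA₁
  set A₂ : Set (Conf n c) := {ω | ρ * n ≤ |(L K ω : ℝ) - EL|} with hA₂
  have hPA₁ : Pr n c (lam / n) A₁ ≤ min (ε / 2) ρ := hkey n hnn₂ c hc1 hc2
  have hPA₂ : Pr n c (lam / n) A₂ ≤ ε / 2 := by
    refine le_trans (conc hc hp0 hp1 (fun ω => (L K ω : ℝ)) (2 * K) (L_influence K)
      (a := ρ * n) (by positivity)) ?_
    rw [div_le_iff₀ (by positivity)]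
    have e1 : (n : ℝ) ^ 2 * (lam / n) * (2 * K) ^ 2 = lam * (2 * K) ^ 2 * n := by
      field_simp
    rw [e1]
    have h4 : lam * (2 * K) ^ 2 * 2 / (ρ ^ 2 * ε) < n := lt_of_lt_of_le hn₄ (by exact_mod_cast hnn₄)
    rw [div_lt_iff₀ (by positivity)] at h4
    nlinarith
  have hTL : ∀ ω : Conf n c, (T ω : ℝ) ≤ L K ω + K := fun ω => by exact_mod_cast T_le_L K ω
  have hLn : ∀ ω : Conf n c, (L K ω : ℝ) ≤ n := fun ω => by exact_mod_cast L_le K ω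
  have hd1 : ET ≤ EL + ρ * n := by
    have : ET ≤ Ex n c (lam / n) (fun ω => (L K ω : ℝ) + K) := Ex_mono hp0 hp1 hTL
    rw [Ex_add, Ex_const hc] at this
    linarith
  have hd2 : EL ≤ ET + 2 * ρ * n := by
    have h6 : EL - ET ≤ ρ * n + n * Pr n c (lam / n) A₁ := by
      rw [hELdef, hETdef, ← Ex_sub]
      apply Ex_le_of_Pr hc hp0 hp1 (by positivity) _ A₁ hnpos.le
      · intro ω hω
        have : ¬ ((T ω : ℝ) + ρ * n < L K ω) := hω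
        linarith [not_lt.mp this]
      · intro ω
        have : (0 : ℝ) ≤ T ω := by positivity
        linarith [hLn ω]
    have h7 : Pr n c (lam / n) A₁ ≤ ρ := le_trans hPA₁ (min_le_right _ _)
    nlinarith
  have hsub : {ω : Conf n c | ¬ |(T ω : ℝ) - ET| ≤ δ * ET} ⊆ A₁ ∪ A₂ := by
    intro ω hω
    by_contra hcon
    simp only [Set.mem_union, not_or, hA₁, hA₂, Set.mem_ofPred_eq, not_lt, not_le] at hcon
    obtain ⟨g1, g2⟩ := hcon
    apply hω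
    have h8 := hTL ω
    rw [abs_lt] at g2
    have h9 : 4 * (ρ * n) ≤ δ * ET := by
      have : 4 * (ρ * n) = δ / 2 * (c₁ * n) := by rw [hρ]; ring
      rw [this]
      have : 0 ≤ ET := le_trans (by positivity) hET'
      nlinarith
    rw [abs_le]
    constructor <;> nlinarith
  calc Pr n c (lam / n) {ω | ¬ |(T ω : ℝ) - ET| ≤ δ * ET} ≤ Pr n c (lam / n) (A₁ ∪ A₂) :=
        Pr_mono hp0 hp1 hsub
    _ ≤ Pr n c (lam / n) A₁ + Pr n c (lam / n) A₂ := Pr_union_le hp0 hp1 _ _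
    _ ≤ ε / 2 + ε / 2 := add_le_add (le_trans hPA₁ (min_le_left _ _)) hPA₂
    _ = ε := by ring

theorem concentration (α ε : ℝ) (hα : 0 < α) (hε : 0 < ε) (c : ℕ → ℕ)
    (hc : Tendsto (fun n => (c n : ℝ) / n) atTop (𝓝 α)) (δ : ℝ) (hδ : 0 < δ) :
    Tendsto (fun n : ℕ => Pr n (c n) ((1 + ε) / n)
      {ω | |(T ω : ℝ) - Ex n (c n) ((1 + ε) / n) (fun ω => (T ω : ℝ))| ≤
        δ * Ex n (c n) ((1 + ε) / n) (fun ω => (T ω : ℝ))}) atTop (𝓝 1) := by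
  rw [Metric.tendsto_atTop]
  intro e he
  obtain ⟨n₀, hn₀⟩ := bad_event (1 + ε) (α / 2) (2 * α) δ (e / 2) (by linarith) (by positivity)
    (by positivity) hδ (by positivity)
  have h1 : ∀ᶠ n : ℕ in atTop, α / 2 < (c n : ℝ) / n :=
    hc.eventually (lt_mem_nhds (by linarith : α / 2 < α))
  have h2 : ∀ᶠ n : ℕ in atTop, (c n : ℝ) / n < 2 * α :=
    hc.eventually (gt_mem_nhds (by linarith : α < 2 * α))
  have h3 : ∀ᶠ n : ℕ in atTop, (1 + ε) ≤ n := tendsto_natCast_atTop_atTop.eventually_ge_atTop _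
  obtain ⟨N, hN⟩ := (h1.and (h2.and (h3.and (eventually_ge_atTop (max n₀ 1))))).exists_forall_of_atTop
  refine ⟨N, fun n hn => ?_⟩
  obtain ⟨g1, g2, g3, g4⟩ := hN n hn
  have hn1 : 1 ≤ n := le_trans (le_max_right _ _) g4
  have hnpos : (0 : ℝ) < n := by exact_mod_cast hn1
  have hc1 : α / 2 * n ≤ c n := by
    rw [lt_div_iff₀ hnpos] at g1; exact g1.le
  have hc2 : (c n : ℝ) ≤ 2 * α * n := by
    rw [div_lt_iff₀ hnpos] at g2; exact g2.le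
  have hcpos : (0 : ℝ) < c n := lt_of_lt_of_le (by positivity) hc1
  have hcn : 0 < c n := by exact_mod_cast hcpos
  have hp0 : 0 ≤ (1 + ε) / n := by positivity
  have hp1 : (1 + ε) / n ≤ 1 := by rw [div_le_one hnpos]; exact g3
  have hb := hn₀ n (le_trans (le_max_left _ _) g4) (c n) hc1 hc2
  set A : Set (Conf n (c n)) := {ω | |(T ω : ℝ) - Ex n (c n) ((1 + ε) / n) (fun ω => (T ω : ℝ))| ≤
        δ * Ex n (c n) ((1 + ε) / n) (fun ω => (T ω : ℝ))} with hA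
  have hb' : Pr n (c n) ((1 + ε) / n) Aᶜ ≤ e / 2 := hb
  rw [Pr_compl hcn] at hb'
  have hle := Pr_le_one hcn hp0 hp1 A
  rw [Real.dist_eq, abs_lt]
  constructor <;> linarith

end Pool.Agent.Lib.MP_fdca68_pr
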