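import Mathlib

/-!
# Greedy choice without conflicts (abstract lemma)
-/

namespace Pool.Agent.Lib.MP_fdca68_pr

open Finset
open scoped Classical

/-- the greedy choice, with the local weight inequality for every skipped index -/
theorem greedy_aux {ι Q : Type*} [Nonempty Q] (w : ι → ℕ) (A : ι → Finset Q) (y : ℝ)
    (conf : Q → Q → Prop) (hsymm : ∀ q q', conf q q' → conf q' q) (m : ℕ) :
    ∀ D : Finset ι, D.card = m → (∀ i ∈ D, y ≤ ((A i).card : ℝ)) →
    ∃ D' : Finset ι, D' ⊆ D ∧ ∃ ch : ι → Q, (∀ i ∈ D', ch i ∈ A i) ∧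
      (∀ i ∈ D', ∀ j ∈ D', i ≠ j → ¬ conf (ch i) (ch j)) ∧
      ∀ i ∈ D \ D', y * (w i : ℝ) ≤
        ∑ i' ∈ D', (w i' : ℝ) * (((A i).filter (fun q => conf q (ch i'))).card : ℝ) := by
  induction m with
  | zero =>
    intro D hD _
    have hD0 : D = ∅ := Finset.card_eq_zero.mp hD
    refine ⟨∅, Finset.empty_subset _, fun _ => Classical.arbitrary Q, ?_, ?_, ?_⟩
    · intro i hi
      simp at hi
    · intro i hi
      simp at hi
    · intro i hi
      rw [hD0] at hi
      simp at hi
  | succ m ih =>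
    intro D hD hA
    have hne : D.Nonempty := by
      rw [← Finset.card_pos]
      omega
    obtain ⟨i₀, hi₀, hmin⟩ := D.exists_min_image w hne
    have hcard : (D.erase i₀).card = m := by
      rw [Finset.card_erase_of_mem hi₀, hD]
      rfl
    obtain ⟨D', hD', ch, h1, h2, h3⟩ := ih (D.erase i₀) hcard
      (fun i hi => hA i (Finset.mem_of_mem_erase hi))
    have hi₀D' : i₀ ∉ D' := fun h => Finset.notMem_erase i₀ D (hD' h)
    by_cases hq : ∃ q ∈ A i₀, ∀ i' ∈ D', ¬ conf q (ch i')
    · obtain ⟨q, hqA, hqc⟩ := hq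
      have hch : ∀ i ∈ D', Function.update ch i₀ q i = ch i := by
        intro i hi
        rw [Function.update_of_ne]
        rintro rfl
        exact hi₀D' hi
      refine ⟨insert i₀ D', ?_, Function.update ch i₀ q, ?_, ?_, ?_⟩
      · intro i hi
        rcases Finset.mem_insert.mp hi with rfl | hi
        · exact hi₀
        · exact Finset.mem_of_mem_erase (hD' hi)
      · intro i hi
        rcases Finset.mem_insert.mp hi with rfl | hi
        · rw [Function.update_self]
          exact hqA
        · rw [hch i hi]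
          exact h1 i hi
      · intro i hi j hj hij
        rcases Finset.mem_insert.mp hi with hi₁ | hi₁
        · rcases Finset.mem_insert.mp hj with hj₁ | hj₁
          · exact absurd (hi₁.trans hj₁.symm) hij
          · rw [hi₁, Function.update_self, hch j hj₁]
            exact hqc j hj₁
        · rcases Finset.mem_insert.mp hj with hj₁ | hj₁
          · rw [hj₁, Function.update_self, hch i hi₁]
            exact fun h => hqc i hi₁ (hsymm _ _ h)
          · rw [hch i hi₁, hch j hj₁]
            exact h2 i hi₁ j hj₁ hij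
      · intro i hi
        rw [Finset.mem_sdiff, Finset.mem_insert, not_or] at hi
        have hi' : i ∈ D.erase i₀ \ D' :=
          Finset.mem_sdiff.mpr ⟨Finset.mem_erase.mpr ⟨hi.2.1, hi.1⟩, hi.2.2⟩
        refine (h3 i hi').trans ?_
        rw [Finset.sum_insert hi₀D']
        have : ∑ i' ∈ D', (w i' : ℝ) *
            (((A i).filter (fun q' => conf q' (Function.update ch i₀ q i'))).card : ℝ) =
            ∑ i' ∈ D', (w i' : ℝ) * (((A i).filter (fun q' => conf q' (ch i'))).card : ℝ) := by
          refine Finset.sum_congr rfl fun i' hi' => ?_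
          rw [hch i' hi']
        rw [this]
        have hpos : (0 : ℝ) ≤ (w i₀ : ℝ) *
            (((A i).filter (fun q' => conf q' (Function.update ch i₀ q i₀))).card : ℝ) := by
          positivity
        linarith
    · push Not at hq
      refine ⟨D', fun i hi => Finset.mem_of_mem_erase (hD' hi), ch, h1, h2, ?_⟩
      intro i hi
      by_cases hii : i = i₀
      · subst hii
        have hsub : A i ⊆ D'.biUnion (fun i' => (A i).filter (fun q => conf q (ch i'))) := by
          intro q hq'
          obtain ⟨i', hi', hc⟩ := hq q hq'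
          exact Finset.mem_biUnion.mpr ⟨i', hi', Finset.mem_filter.mpr ⟨hq', hc⟩⟩
        have hle : ((A i).card : ℝ) ≤
            ∑ i' ∈ D', (((A i).filter (fun q => conf q (ch i'))).card : ℝ) := by
          have := (Finset.card_le_card hsub).trans Finset.card_biUnion_le
          exact_mod_cast this
        calc y * (w i : ℝ) ≤ ((A i).card : ℝ) * (w i : ℝ) := by
              exact mul_le_mul_of_nonneg_right (hA i hi₀) (Nat.cast_nonneg _)
          _ ≤ (∑ i' ∈ D', (((A i).filter (fun q => conf q (ch i'))).card : ℝ)) * (w i : ℝ) :=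
              mul_le_mul_of_nonneg_right hle (Nat.cast_nonneg _)
          _ = ∑ i' ∈ D', (w i : ℝ) * (((A i).filter (fun q => conf q (ch i'))).card : ℝ) := by
              rw [Finset.sum_mul]
              exact Finset.sum_congr rfl fun i' _ => mul_comm _ _
          _ ≤ ∑ i' ∈ D', (w i' : ℝ) * (((A i).filter (fun q => conf q (ch i'))).card : ℝ) := by
              refine Finset.sum_le_sum fun i' hi' => ?_
              refine mul_le_mul_of_nonneg_right ?_ (Nat.cast_nonneg _)
              exact_mod_cast hmin i' (Finset.mem_of_mem_erase (hD' hi'))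
      · refine h3 i ?_
        rw [Finset.mem_sdiff] at hi ⊢
        exact ⟨Finset.mem_erase.mpr ⟨hii, hi.1⟩, hi.2⟩

theorem greedy {ι Q : Type*} [Nonempty Q] (D : Finset ι) (w : ι → ℕ) (A : ι → Finset Q) (y : ℝ)
    (hy : 0 < y)
    (hA : ∀ i ∈ D, y ≤ ((A i).card : ℝ)) (conf : Q → Q → Prop)
    (hsymm : ∀ q q', conf q q' → conf q' q) (B : ℝ)
    (hB : ∀ i' ∈ D, ∀ q' ∈ A i', (∑ i ∈ D, (((A i).filter (fun q => conf q q')).card : ℝ)) ≤ B) :
    ∃ D' : Finset ι, D' ⊆ D ∧ ∃ ch : ι → Q, (∀ i ∈ D', ch i ∈ A i) ∧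
      (∀ i ∈ D', ∀ j ∈ D', i ≠ j → ¬ conf (ch i) (ch j)) ∧
      y * ∑ i ∈ D \ D', (w i : ℝ) ≤ B * ∑ i ∈ D', (w i : ℝ) := by
  obtain ⟨D', hD', ch, h1, h2, h3⟩ := greedy_aux w A y conf hsymm D.card D rfl hA
  refine ⟨D', hD', ch, h1, h2, ?_⟩
  calc y * ∑ i ∈ D \ D', (w i : ℝ) = ∑ i ∈ D \ D', y * (w i : ℝ) := Finset.mul_sum _ _ _
    _ ≤ ∑ i ∈ D \ D', ∑ i' ∈ D',
        (w i' : ℝ) * (((A i).filter (fun q => conf q (ch i'))).card : ℝ) :=
        Finset.sum_le_sum h3
    _ = ∑ i' ∈ D', ∑ i ∈ D \ D',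
        (w i' : ℝ) * (((A i).filter (fun q => conf q (ch i'))).card : ℝ) := Finset.sum_comm
    _ = ∑ i' ∈ D', (w i' : ℝ) *
        ∑ i ∈ D \ D', (((A i).filter (fun q => conf q (ch i'))).card : ℝ) := by
        refine Finset.sum_congr rfl fun i' _ => ?_
        rw [Finset.mul_sum]
    _ ≤ ∑ i' ∈ D', (w i' : ℝ) * B := by
        refine Finset.sum_le_sum fun i' hi' => ?_
        refine mul_le_mul_of_nonneg_left ?_ (Nat.cast_nonneg _)
        refine le_trans ?_ (hB i' (hD' hi') (ch i') (h1 i' hi'))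
        exact Finset.sum_le_sum_of_subset_of_nonneg Finset.sdiff_subset
          (fun _ _ _ => Nat.cast_nonneg _)
    _ = B * ∑ i ∈ D', (w i : ℝ) := by
        rw [← Finset.sum_mul, mul_comm]

end Pool.Agent.Lib.MP_fdca68_pr
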