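import Pool.Agent.Lib.MP_fdca68_pr.Merge
import Pool.Agent.Lib.MP_fdca68_pr.Expand
import Pool.Agent.Lib.MP_fdca68_pr.BadEx
import Pool.Agent.Lib.MP_fdca68_pr.Moments

/-!
# From components of size `K` to components of size `M K`
-/

namespace Pool.Agent.Lib.MP_fdca68_pr

open Finset SimpleGraph
open scoped Classical

theorem Bad_mono {n c : ℕ} {s s' : ℕ} (h : s ≤ s') (ω : Conf n c) : Bad s ω ⊆ Bad s' ω := by
  intro v hv
  simp only [Bad, Finset.mem_filter, Finset.mem_univ, true_and] at hv ⊢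
  obtain ⟨S, h1, h2, h3⟩ := hv
  exact ⟨S, le_trans h1 h, h2, h3⟩

theorem iter_det {n c : ℕ} (ω : Conf n c) (ρ' : ℝ) (K J : ℕ)
    (h : ∀ j < J, (L (2 ^ j * K) ω : ℝ) ≤ L (2 * (2 ^ j * K)) ω + 6 * ρ' * n) :
    (L K ω : ℝ) ≤ L (2 ^ J * K) ω + J * (6 * ρ' * n) := by
  induction J with
  | zero => simp
  | succ J ih =>
    have h1 := ih (fun j hj => h j (by omega))
    have h2 := h J (by omega)
    have h3 : 2 * (2 ^ J * K) = 2 ^ (J + 1) * K := by ring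
    rw [h3] at h2
    push_cast
    linarith

theorem iterate (lam₀ lam₁ κ ρ ε : ℝ) (h0 : 0 < lam₀) (h01 : lam₀ ≤ lam₁) (hκ : 0 < κ)
    (hρ : 0 < ρ) (hε : 0 < ε) (M : ℕ) :
    ∃ K₀ : ℕ, ∀ K ≥ K₀, ∃ n₀ : ℕ, ∀ n ≥ n₀, ∀ c : ℕ, 0 < c → (n : ℝ) ≤ κ * c → ∀ p : ℝ,
      lam₀ ≤ n * p → n * p ≤ lam₁ →
      Pr n c p {ω | (L (M * K) ω : ℝ) + ρ * n < L K ω} ≤ ε := by
  have hl1 : 0 < lam₁ := lt_of_lt_of_le h0 h01
  obtain ⟨J, hJ⟩ : ∃ J : ℕ, M ≤ 2 ^ J := ⟨M, (Nat.lt_two_pow_self).le⟩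
  set ρ' : ℝ := min (1 / 2) (ρ / (6 * (J + 1))) with hρ'
  have hρ'pos : 0 < ρ' := by
    apply lt_min (by norm_num)
    positivity
  have hρ'1 : ρ' ≤ 1 / 2 := min_le_left _ _
  have hJρ : J * (6 * ρ') ≤ ρ := by
    have h1 : ρ' ≤ ρ / (6 * (J + 1)) := min_le_right _ _
    rw [le_div_iff₀ (by positivity)] at h1
    nlinarith
  obtain ⟨θ, hθ, hexp⟩ := expd_whp ρ' lam₀ lam₁ hρ'pos h0 h01
  set C : ℝ := 4 * (lam₁ + lam₁ ^ 2 + lam₁ ^ 2 * κ) / ε + 1 with hC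
  have hCpos : 0 < C := by positivity
  obtain ⟨ξ, hξ, K₀, hK₀⟩ := merge_step ρ' θ C hρ'pos hρ'1 hθ hCpos
  refine ⟨max K₀ 1, fun K hK => ?_⟩
  have hKK₀ : K₀ ≤ K := le_trans (le_max_left _ _) hK
  have hK1 : 1 ≤ K := le_trans (le_max_right _ _) hK
  have hscale : ∀ j : ℕ, ∃ s : ℕ, ∀ (n c : ℕ) (ω : Conf n c),
      (∑ v, (dg ω v : ℝ) ^ 2 ≤ C * n) → (∑ k, (cls ω k : ℝ) ^ 2 ≤ C * n) →
      ((Bad s ω).card : ℝ) ≤ ξ * n → Expd ω ρ' θ →
      (L (2 ^ j * K) ω : ℝ) ≤ L (2 * (2 ^ j * K)) ω + 6 * ρ' * n := by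
    intro j
    apply hK₀
    calc K₀ ≤ K := hKK₀
      _ ≤ 2 ^ j * K := Nat.le_mul_of_pos_left _ (by positivity)
  choose sj hsj using hscale
  set s : ℕ := (Finset.range J).sup sj with hs
  obtain ⟨Cs, hCs, hBad⟩ := Ex_Bad s lam₁ κ hl1 hκ
  obtain ⟨n₁, hn₁⟩ := hexp (ε / 4) (by positivity)
  obtain ⟨n₂, hn₂⟩ := exists_nat_gt (4 * Cs / (ξ * ε))
  obtain ⟨n₃, hn₃⟩ := exists_nat_gt lam₁
  refine ⟨max (max n₁ n₂) (max n₃ 1), ?_⟩
  intro n hn c hc hnc p hp0 hp1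
  have hnn₁ : n₁ ≤ n := le_trans (le_trans (le_max_left _ _) (le_max_left _ _)) hn
  have hnn₂ : n₂ ≤ n := le_trans (le_trans (le_max_right _ _) (le_max_left _ _)) hn
  have hnn₃ : n₃ ≤ n := le_trans (le_trans (le_max_left _ _) (le_max_right _ _)) hn
  have hn1 : 1 ≤ n := le_trans (le_trans (le_max_right _ _) (le_max_right _ _)) hn
  have hnpos : (0 : ℝ) < n := by exact_mod_cast hn1
  have hp : 0 ≤ p := by
    by_contra hcon
    push Not at hcon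
    have : n * p < 0 := mul_neg_of_pos_of_neg hnpos hcon
    linarith
  have hple : p ≤ 1 := by
    have h1 : (n₃ : ℝ) ≤ n := by exact_mod_cast hnn₃
    by_contra hcon
    push Not at hcon
    have : (n : ℝ) * 1 < n * p := mul_lt_mul_of_pos_left hcon hnpos
    linarith
  have hcpos : (0 : ℝ) < c := by exact_mod_cast hc
  -- Markov for the three events
  set A₁ : Set (Conf n c) := {ω | C * n ≤ ∑ v, (dg ω v : ℝ) ^ 2} with hA₁
  set A₂ : Set (Conf n c) := {ω | C * n ≤ ∑ k, (cls ω k : ℝ) ^ 2} with hA₂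
  set A₃ : Set (Conf n c) := {ω | ξ * n ≤ ((Bad s ω).card : ℝ)} with hA₃
  set A₄ : Set (Conf n c) := {ω | ¬ Expd ω ρ' θ} with hA₄
  have hP₁ : Pr n c p A₁ ≤ ε / 4 := by
    refine le_trans (markov hp hple (fun ω => by positivity) (by positivity)) ?_
    rw [div_le_iff₀ (by positivity)]
    refine le_trans (Ex_dg2 hc hp hple) ?_
    have e1 : (n : ℝ) * p + (n * p) ^ 2 ≤ lam₁ + lam₁ ^ 2 := by
      have : (n : ℝ) * p ≤ lam₁ := hp1
      have h2 : 0 ≤ (n : ℝ) * p := by positivity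
      nlinarith
    have e2 : lam₁ + lam₁ ^ 2 ≤ ε / 4 * C := by
      rw [hC]
      have : ε / 4 * (4 * (lam₁ + lam₁ ^ 2 + lam₁ ^ 2 * κ) / ε + 1) =
        (lam₁ + lam₁ ^ 2 + lam₁ ^ 2 * κ) + ε / 4 := by field_simp
      rw [this]
      have : 0 ≤ lam₁ ^ 2 * κ := by positivity
      linarith
    nlinarith
  have hP₂ : Pr n c p A₂ ≤ ε / 4 := by
    refine le_trans (markov hp hple (fun ω => by positivity) (by positivity)) ?_
    rw [div_le_iff₀ (by positivity)]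
    refine le_trans (Ex_cls2 hc hp hple) ?_
    have h2 : 0 ≤ (n : ℝ) * p := by positivity
    have e0 : ((n : ℝ) ^ 2 * p) ^ 2 / c ≤ lam₁ ^ 2 * κ * n := by
      rw [div_le_iff₀ hcpos]
      have e3 : ((n : ℝ) ^ 2 * p) ^ 2 = (n * p) ^ 2 * n * n := by ring
      rw [e3]
      have e4 : ((n : ℝ) * p) ^ 2 ≤ lam₁ ^ 2 := by nlinarith
      calc ((n : ℝ) * p) ^ 2 * n * n ≤ lam₁ ^ 2 * n * (κ * c) := by
            apply mul_le_mul _ hnc hnpos.le (by positivity)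
            exact mul_le_mul_of_nonneg_right e4 hnpos.le
        _ = lam₁ ^ 2 * κ * n * c := by ring
    have e1 : (n : ℝ) ^ 2 * p ≤ lam₁ * n := by
      have : (n : ℝ) ^ 2 * p = (n * p) * n := by ring
      rw [this]
      exact mul_le_mul_of_nonneg_right hp1 hnpos.le
    have e2 : lam₁ + lam₁ ^ 2 * κ ≤ ε / 4 * C := by
      rw [hC]
      have : ε / 4 * (4 * (lam₁ + lam₁ ^ 2 + lam₁ ^ 2 * κ) / ε + 1) =
        (lam₁ + lam₁ ^ 2 + lam₁ ^ 2 * κ) + ε / 4 := by field_simp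
      rw [this]
      have : 0 ≤ lam₁ ^ 2 := by positivity
      linarith
    nlinarith
  have hP₃ : Pr n c p A₃ ≤ ε / 4 := by
    refine le_trans (markov hp hple (fun ω => by positivity) (by positivity)) ?_
    rw [div_le_iff₀ (by positivity)]
    refine le_trans (hBad n c hc hnc p hp hple hp1) ?_
    have h1 : (n₂ : ℝ) ≤ n := by exact_mod_cast hnn₂
    have h2 : 4 * Cs / (ξ * ε) < n := lt_of_lt_of_le hn₂ h1
    rw [div_lt_iff₀ (by positivity)] at h2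
    nlinarith
  have hP₄ : Pr n c p A₄ ≤ ε / 4 := hn₁ n hnn₁ c hc p hp0 hp1
  have hsub : {ω : Conf n c | (L (M * K) ω : ℝ) + ρ * n < L K ω} ⊆ (A₁ ∪ A₂) ∪ (A₃ ∪ A₄) := by
    intro ω hω
    by_contra hcon
    simp only [Set.mem_union, not_or, hA₁, hA₂, hA₃, hA₄, Set.mem_ofPred_eq, not_le, not_not] at hcon
    obtain ⟨⟨g1, g2⟩, g3, g4⟩ := hcon
    have hcard : ∀ j < J, ((Bad (sj j) ω).card : ℝ) ≤ ξ * n := by
      intro j hj
      have h1 : sj j ≤ s := Finset.le_sup (f := sj) (Finset.mem_range.mpr hj)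
      have h2 : (Bad (sj j) ω).card ≤ (Bad s ω).card := Finset.card_le_card (Bad_mono h1 ω)
      have h3 : ((Bad (sj j) ω).card : ℝ) ≤ ((Bad s ω).card : ℝ) := by exact_mod_cast h2
      exact le_trans h3 g3.le
    have hdet := iter_det ω ρ' K J (fun j hj => hsj j n c ω g1.le g2.le (hcard j hj) g4)
    have hanti : (L (2 ^ J * K) ω : ℝ) ≤ L (M * K) ω := by
      exact_mod_cast L_anti (Nat.mul_le_mul_right K hJ) ω
    have h5 : (J : ℝ) * (6 * ρ' * n) ≤ ρ * n := by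
      calc (J : ℝ) * (6 * ρ' * n) = (J * (6 * ρ')) * n := by ring
        _ ≤ ρ * n := mul_le_mul_of_nonneg_right hJρ hnpos.le
    have hω' : (L (M * K) ω : ℝ) + ρ * n < L K ω := hω
    linarith
  calc Pr n c p {ω | (L (M * K) ω : ℝ) + ρ * n < L K ω} ≤ Pr n c p ((A₁ ∪ A₂) ∪ (A₃ ∪ A₄)) :=
        Pr_mono hp hple hsub
    _ ≤ Pr n c p (A₁ ∪ A₂) + Pr n c p (A₃ ∪ A₄) := Pr_union_le hp hple _ _
    _ ≤ (Pr n c p A₁ + Pr n c p A₂) + (Pr n c p A₃ + Pr n c p A₄) := by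
        gcongr <;> exact Pr_union_le hp hple _ _
    _ ≤ ε := by linarith

end Pool.Agent.Lib.MP_fdca68_pr
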