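import Pool.Agent.Lib.MP_fdca68_pr.Basic

/-!
# One edge changes `L K` by at most `2K`
-/

namespace Pool.Agent.Lib.MP_fdca68_pr

open Finset SimpleGraph
open scoped Classical

variable {n c : ℕ}

/-- `L` is monotone: if `ω'` is obtained from `ω` by deleting edges -/
theorem L_mono_conf (K : ℕ) {ω ω' : Conf n c} (h : ∀ e, ω' e ≠ none → ω e = ω' e) :
    L K ω' ≤ L K ω := by
  obtain ⟨F, hF, hL⟩ := exists_L K ω'
  rw [← hL]
  have hcol : ∀ e ∈ (gr ω').edgeSet, col ω e = col ω' e := by
    intro e he
    rw [mem_gr_edgeSet] at he
    unfold col at he ⊢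
    by_cases hd : e.IsDiag
    · simp [hd]
    · simp only [hd, dif_neg, not_false_eq_true] at he ⊢
      exact h _ he
  have hle : F.edgeSet ⊆ (gr ω').edgeSet := edgeSet_subset_edgeSet.2 hF.1
  have hRB : RB ω F := by
    refine ⟨?_, ?_⟩
    · intro u v huv
      have h1 := hF.1 huv
      have h2 : s(u, v) ∈ (gr ω').edgeSet := h1
      rw [gr_adj, hcol _ h2]
      exact (gr_adj ω' u v).1 h1
    · intro e he f hf hef
      rw [hcol _ (hle he), hcol _ (hle hf)] at hef
      exact hF.2 he hf hef
  exact le_L hRB K

/-- if the `F - ab`-component of `v` contains neither `a` nor `b`, it is its `F`-component -/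
theorem lip_reach (F : SimpleGraph (Fin n)) (e : Sym2 (Fin n)) (v : Fin n)
    (h : ∀ x ∈ e, ¬ (F.deleteEdges {e}).Reachable v x) (w : Fin n) (hw : F.Reachable v w) :
    (F.deleteEdges {e}).Reachable v w := by
  rw [reachable_iff_reflTransGen] at hw
  induction hw with
  | refl => exact Reachable.refl _
  | tail _ hadj ih =>
    rename_i x y _
    refine ih.trans (Adj.reachable ?_)
    rw [deleteEdges_adj]
    refine ⟨hadj, ?_⟩
    intro hmem
    rw [Set.mem_singleton_iff] at hmem
    exact h x (hmem ▸ Sym2.mem_mk_left x y) ih

theorem lip_bigV (F : SimpleGraph (Fin n)) (K : ℕ) (a b : Fin n) :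
    (bigV F K).ncard ≤ (bigV (F.deleteEdges {s(a, b)}) K).ncard + 2 * K := by
  set F' := F.deleteEdges {s(a, b)} with hF'
  have hsub : bigV F K ⊆ bigV F' K ∪ ((if (F'.connectedComponentMk a).supp.ncard < K then
      (F'.connectedComponentMk a).supp else ∅) ∪
      (if (F'.connectedComponentMk b).supp.ncard < K then
      (F'.connectedComponentMk b).supp else ∅)) := by
    intro v hv
    by_cases hv' : v ∈ bigV F' K
    · exact Or.inl hv'
    · right
      have hlt : (F'.connectedComponentMk v).supp.ncard < K := by
        simpa [bigV] using hv'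
      by_cases hab : F'.Reachable v a ∨ F'.Reachable v b
      · rcases hab with h | h
        · left
          have he : F'.connectedComponentMk v = F'.connectedComponentMk a :=
            ConnectedComponent.eq.2 h
          rw [he] at hlt
          rw [if_pos hlt]
          exact he
        · right
          have he : F'.connectedComponentMk v = F'.connectedComponentMk b :=
            ConnectedComponent.eq.2 h
          rw [he] at hlt
          rw [if_pos hlt]
          exact he
      · exfalso
        push Not at hab
        have hreach := lip_reach F s(a, b) v (by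
          intro x hx
          rcases Sym2.mem_iff.1 hx with rfl | rfl
          · exact hab.1
          · exact hab.2)
        have hss : (F.connectedComponentMk v).supp ⊆ (F'.connectedComponentMk v).supp := by
          intro w hw
          have hw1 : F.Reachable w v := ConnectedComponent.eq.1 hw
          exact ConnectedComponent.eq.2 (hreach w hw1.symm).symm
        have hle := Set.ncard_le_ncard hss (Set.toFinite _)
        have hK : K ≤ (F.connectedComponentMk v).supp.ncard := hv
        omega
  have h1 := Set.ncard_le_ncard hsub (Set.toFinite _)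
  have h2 := Set.ncard_union_le (bigV F' K) ((if (F'.connectedComponentMk a).supp.ncard < K then
      (F'.connectedComponentMk a).supp else ∅) ∪
      (if (F'.connectedComponentMk b).supp.ncard < K then
      (F'.connectedComponentMk b).supp else ∅))
  have h3 := Set.ncard_union_le (if (F'.connectedComponentMk a).supp.ncard < K then
      (F'.connectedComponentMk a).supp else ∅)
      (if (F'.connectedComponentMk b).supp.ncard < K then
      (F'.connectedComponentMk b).supp else ∅)
  have h4 : ∀ x : Fin n, (if (F'.connectedComponentMk x).supp.ncard < K then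
      (F'.connectedComponentMk x).supp else ∅).ncard ≤ K := by
    intro x
    split_ifs with h
    · exact h.le
    · simp
  have h5 := h4 a
  have h6 := h4 b
  omega

theorem L_le_update (K : ℕ) (ω : Conf n c) (e : Edge n) :
    L K ω ≤ L K (Function.update ω e none) + 2 * K := by
  obtain ⟨F, hF, hL⟩ := exists_L K ω
  rw [← hL]
  have hcol : ∀ x : Sym2 (Fin n), x ≠ e.1 → col (Function.update ω e none) x = col ω x := by
    intro x hx
    unfold col
    by_cases hd : x.IsDiag
    · simp [hd]
    · simp only [hd, dif_neg, not_false_eq_true]
      rw [Function.update_of_ne]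
      intro h
      exact hx (congrArg Subtype.val h)
  have hRB : RB (Function.update ω e none) (F.deleteEdges {e.1}) := by
    have hne : ∀ x ∈ (F.deleteEdges {e.1}).edgeSet, x ∈ F.edgeSet ∧ x ≠ e.1 := by
      intro x hx
      rw [edgeSet_deleteEdges] at hx
      exact ⟨hx.1, fun h => hx.2 (by simp [h])⟩
    refine ⟨?_, ?_⟩
    · intro u v huv
      have h1 := hne s(u, v) huv
      rw [gr_adj, hcol _ h1.2]
      exact (gr_adj ω u v).1 (hF.1 h1.1)
    · intro x hx y hy hxy
      rw [hcol _ (hne x hx).2, hcol _ (hne y hy).2] at hxy
      exact hF.2 (hne x hx).1 (hne y hy).1 hxy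
  have h1 := le_L hRB K
  obtain ⟨⟨a, b⟩, he⟩ := e
  have h2 := lip_bigV F K a b
  exact h2.trans (Nat.add_le_add_right h1 _)

theorem L_update_le (K : ℕ) (ω : Conf n c) (e : Edge n) :
    L K (Function.update ω e none) ≤ L K ω := by
  refine L_mono_conf K ?_
  intro f hf
  by_cases h : f = e
  · subst h
    simp at hf
  · rw [Function.update_of_ne h]

theorem L_influence (K : ℕ) (ω : Conf n c) (e : Edge n) :
    |(L K ω : ℝ) - L K (Function.update ω e none)| ≤ 2 * K := by
  have h1 : (L K ω : ℝ) ≤ L K (Function.update ω e none) + 2 * K := by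
    exact_mod_cast L_le_update K ω e
  have h2 : (L K (Function.update ω e none) : ℝ) ≤ L K ω := by
    exact_mod_cast L_update_le K ω e
  rw [abs_le]
  constructor
  · have : (0 : ℝ) ≤ K := Nat.cast_nonneg _
    linarith
  · linarith

theorem L_le_del (K : ℕ) (ω : Conf n c) (S : Finset (Edge n)) :
    L K ω ≤ L K (fun e => if e ∈ S then none else ω e) + 2 * K * S.card := by
  induction S using Finset.induction_on with
  | empty => simp
  | insert a S ha ih =>
    have h1 := L_le_update K (fun e => if e ∈ S then none else ω e) a
    have h2 : Function.update (fun e => if e ∈ S then none else ω e) a none =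
        fun e => if e ∈ insert a S then none else ω e := by
      funext e
      by_cases h : e = a
      · subst h
        simp
      · rw [Function.update_of_ne h]
        simp [h]
    rw [h2] at h1
    rw [Finset.card_insert_of_notMem ha]
    have h3 : 2 * K * (S.card + 1) = 2 * K * S.card + 2 * K := by ring
    omega

theorem L_comb_le (K : ℕ) (ω₁ ω₂ : Conf n c) :
    L K (comb ω₁ ω₂) ≤ L K ω₁ + 2 * K * (pres ω₂).card := by
  refine (L_le_del K (comb ω₁ ω₂) (pres ω₂)).trans (Nat.add_le_add_right ?_ _)
  refine L_mono_conf K ?_
  intro e he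
  by_cases h : e ∈ pres ω₂
  · simp [h] at he
  · have h2 : ω₂ e = none := by
      by_contra h3
      exact h (by simp [pres, h3])
    simp [h, comb, h2]

end Pool.Agent.Lib.MP_fdca68_pr
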