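import Pool.Agent.Lib.MP_fdca68_pr.Basic

/-!
# Pruning a rainbow forest to free colours
-/

namespace Pool.Agent.Lib.MP_fdca68_pr

open Finset SimpleGraph
open scoped Classical

/-- roots, depth and parents in a graph -/
theorem prune_parent {V : Type*} (F : SimpleGraph V) :
    ∃ (rt : V → V) (d : V → ℕ) (par : V → V), (∀ v, F.Reachable v (rt v)) ∧
      (∀ v w, F.Reachable v w → rt v = rt w) ∧ (∀ v, d (rt v) = 0) ∧
      (∀ v, v ≠ rt v → F.Adj v (par v) ∧ d (par v) < d v) := by
  have hr : ∀ v : V, F.Reachable v (F.connectedComponentMk v).out := by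
    intro v
    have := (F.connectedComponentMk v).out_eq
    exact (SimpleGraph.ConnectedComponent.eq.1 this).symm
  have hrr : ∀ v w, F.Reachable v w →
      (F.connectedComponentMk v).out = (F.connectedComponentMk w).out := by
    intro v w h
    rw [SimpleGraph.ConnectedComponent.eq.2 h]
  have hp : ∀ v : V, ∃ w : V, v ≠ (F.connectedComponentMk v).out →
      F.Adj v w ∧ F.dist w (F.connectedComponentMk w).out <
        F.dist v (F.connectedComponentMk v).out := by
    intro v
    by_cases hv : v = (F.connectedComponentMk v).out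
    · exact ⟨v, fun h => absurd hv h⟩
    · obtain ⟨p, hp⟩ := (hr v).exists_walk_length_eq_dist
      generalize hz : (F.connectedComponentMk v).out = z at p hp hv
      cases p with
      | nil => exact absurd rfl hv
      | @cons _ w _ h q =>
        refine ⟨w, fun _ => ⟨h, ?_⟩⟩
        have h1 : (F.connectedComponentMk w).out = z := by
          rw [← hz]; exact (hrr v w h.reachable).symm
        rw [h1, ← hp, SimpleGraph.Walk.length_cons]
        have := SimpleGraph.dist_le q
        omega
  choose par hpar using hp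
  refine ⟨fun v => (F.connectedComponentMk v).out,
    fun v => F.dist v (F.connectedComponentMk v).out, par, hr, hrr, ?_, hpar⟩
  intro v
  have h1 : (F.connectedComponentMk (F.connectedComponentMk v).out).out =
      (F.connectedComponentMk v).out := (hrr _ _ (hr v)).symm
  show F.dist (F.connectedComponentMk v).out _ = 0
  rw [h1, SimpleGraph.dist_self]

/-- lower subsets of prescribed size -/
theorem prune_lower {V : Type*} (C : Finset V) (d : V → ℕ) (s : ℕ) (hs : s ≤ C.card) :
    ∃ A : Finset V, A ⊆ C ∧ A.card = s ∧ ∀ v ∈ A, ∀ w ∈ C, d w < d v → w ∈ A := by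
  induction s with
  | zero => exact ⟨∅, by simp, by simp, by simp⟩
  | succ s ih =>
    obtain ⟨A, hA, hc, hl⟩ := ih (by omega)
    have hne : (C \ A).Nonempty := by
      rw [← Finset.card_pos, Finset.card_sdiff_of_subset hA]; omega
    obtain ⟨x, hx, hm⟩ := Finset.exists_min_image (C \ A) d hne
    rw [Finset.mem_sdiff] at hx
    refine ⟨insert x A, ?_, ?_, ?_⟩
    · intro y hy
      rcases Finset.mem_insert.1 hy with rfl | h
      · exact hx.1
      · exact hA h
    · rw [Finset.card_insert_of_notMem hx.2, hc]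
    · intro v hv w hw hlt
      by_contra hcon
      rw [Finset.mem_insert, not_or] at hcon
      rcases Finset.mem_insert.1 hv with rfl | h
      · have := hm w (Finset.mem_sdiff.2 ⟨hw, hcon.2⟩)
        omega
      · exact hcon.2 (hl v h w hw hlt)

theorem prune {n c : ℕ} (ω : Conf n c) (K : ℕ) (η : ℝ) (h0 : 0 < η) (h1 : η ≤ 1 / 2)
    (hK : 8 ≤ η * K) :
    ∃ F : SimpleGraph (Fin n), RB ω F ∧ F.IsAcyclic ∧
      (∀ v ∈ F.support, K ≤ 2 * (F.connectedComponentMk v).supp.ncard) ∧
      (1 - η) * L K ω ≤ F.support.ncard ∧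
      η / 4 * L K ω ≤ ((univ.filter (fun k : Fin c => ∀ e ∈ F.edgeSet, col ω e ≠ some k)).card : ℝ)
      := by
  obtain ⟨F₀, hRB₀, hL⟩ := exists_L K ω
  obtain ⟨F, hle, hac, hreach⟩ := F₀.exists_isAcyclic_reachable_eq_le
  have hRB : RB ω F := ⟨hle.trans hRB₀.1, hRB₀.2.mono (SimpleGraph.edgeSet_mono hle)⟩
  have hsupp : ∀ v, (F.connectedComponentMk v).supp = (F₀.connectedComponentMk v).supp := by
    intro v
    ext w
    simp only [SimpleGraph.ConnectedComponent.mem_supp_iff, SimpleGraph.ConnectedComponent.eq]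
    rw [hreach]
  obtain ⟨rt, d, par, hrt, hrr, hd0, hpar⟩ := prune_parent F
  -- component of a root
  set C : Fin n → Finset (Fin n) := fun r => univ.filter (fun v => rt v = r) with hC
  have hCc : ∀ v, ((F.connectedComponentMk v).supp.ncard : ℕ) = (C (rt v)).card := by
    intro v
    have : (F.connectedComponentMk v).supp = (C (rt v) : Set (Fin n)) := by
      ext w
      simp only [SimpleGraph.ConnectedComponent.mem_supp_iff, SimpleGraph.ConnectedComponent.eq,
        hC, Finset.coe_filter, Finset.mem_univ, true_and, Set.mem_ofPred_eq]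
      constructor
      · exact fun h => hrr w v h
      · intro h
        exact (hrt w).trans (h ▸ (hrt v).symm)
    rw [this, Set.ncard_coe_finset]
  set B : Finset (Fin n) := univ.filter (fun v => K ≤ (C (rt v)).card) with hB
  have hBL : B.card = L K ω := by
    rw [← hL, ← Set.ncard_coe_finset]
    congr 1
    ext v
    simp only [hB, Finset.coe_filter, Finset.mem_univ, true_and, Set.mem_ofPred_eq, bigV]
    rw [← hsupp, hCc]
  have hrtrt : ∀ v, rt (rt v) = rt v := fun v => (hrr _ _ (hrt v)).symm
  set R : Finset (Fin n) := B.filter (fun v => rt v = v) with hR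
  have hRC : ∀ r ∈ R, K ≤ (C r).card := by
    intro r hr
    rw [hR, Finset.mem_filter, hB, Finset.mem_filter] at hr
    have := hr.1.2
    rwa [hr.2] at this
  have hBR : ∀ v ∈ B, rt v ∈ R := by
    intro v hv
    rw [hB, Finset.mem_filter] at hv
    rw [hR, Finset.mem_filter, hB, Finset.mem_filter, hrtrt]
    exact ⟨⟨Finset.mem_univ _, hv.2⟩, rfl⟩
  have hKpos : (0 : ℝ) < K := by
    by_contra hcon
    rw [not_lt] at hcon
    nlinarith
  have hK16 : (16 : ℝ) ≤ K := by nlinarith
  -- the chosen subsets
  have hV : ∀ r : Fin n, ∃ A : Finset (Fin n), A ⊆ C r ∧ A.card = ⌈(1 - η) * (C r).card⌉₊ ∧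
      ∀ v ∈ A, ∀ w ∈ C r, d w < d v → w ∈ A := by
    intro r
    apply prune_lower
    rw [Nat.ceil_le]
    have : (0 : ℝ) ≤ ((C r).card : ℝ) := Nat.cast_nonneg _
    nlinarith
  choose V hVC hVcard hVlow using hV
  set S : Finset (Fin n) := B.filter (fun v => v ∈ V (rt v)) with hS
  have hVr : ∀ r ∈ R, ((1 - η) * (C r).card ≤ (V r).card) ∧
      (((V r).card : ℝ) ≤ (1 - η) * (C r).card + 1) := by
    intro r hr
    rw [hVcard]
    refine ⟨Nat.le_ceil _, (Nat.ceil_lt_add_one ?_).le⟩
    have : (0 : ℝ) ≤ ((C r).card : ℝ) := Nat.cast_nonneg _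
    nlinarith
  have hVmem : ∀ r ∈ R, ∀ v ∈ V r, rt v = r ∧ v ∈ S := by
    intro r hr v hv
    have h2 : rt v = r := by
      have := hVC r hv
      rw [hC] at this
      simpa using this
    refine ⟨h2, ?_⟩
    rw [hS, Finset.mem_filter, hB, Finset.mem_filter, h2]
    exact ⟨⟨Finset.mem_univ _, hRC r hr⟩, hv⟩
  have hSr : ∀ v ∈ S, rt v ∈ R ∧ v ∈ V (rt v) := by
    intro v hv
    rw [hS, Finset.mem_filter] at hv
    exact ⟨hBR v hv.1, hv.2⟩
  -- roots are chosen, parents are chosen
  have hparS : ∀ v ∈ S, v ≠ rt v → par v ∈ S ∧ rt (par v) = rt v := by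
    intro v hv hne
    obtain ⟨ha, hlt⟩ := hpar v hne
    have hrp : rt (par v) = rt v := (hrr _ _ ha.reachable).symm
    obtain ⟨hr, hv2⟩ := hSr v hv
    have hpC : par v ∈ C (rt v) := by rw [hC]; simp [hrp]
    have := hVlow _ v hv2 _ hpC hlt
    exact ⟨(hVmem _ hr _ this).2, hrp⟩
  -- the pruned graph
  let F' : SimpleGraph (Fin n) :=
    { Adj := fun u v => (u ∈ S ∧ u ≠ rt u ∧ v = par u) ∨ (v ∈ S ∧ v ≠ rt v ∧ u = par v)
      symm := ⟨fun u v h => h.symm⟩
      loopless := ⟨fun v h => by
        rcases h with h | h <;>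
        · have := (hpar v h.2.1).1
          rw [← h.2.2] at this
          exact F.loopless.irrefl v this⟩ }
  have hF'adj : ∀ u v, F'.Adj u v ↔
      (u ∈ S ∧ u ≠ rt u ∧ v = par u) ∨ (v ∈ S ∧ v ≠ rt v ∧ u = par v) := fun u v => Iff.rfl
  have hF'F : F' ≤ F := by
    intro u v h
    rcases (hF'adj u v).1 h with ⟨h1, h2, rfl⟩ | ⟨h1, h2, rfl⟩
    · exact (hpar u h2).1
    · exact (hpar v h2).1.symm
  have hreachS : ∀ k : ℕ, ∀ v ∈ S, d v ≤ k → F'.Reachable v (rt v) := by
    intro k
    induction k with
    | zero =>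
      intro v hv hk
      by_cases hne : v = rt v
      · rw [← hne]
      · have := (hpar v hne).2
        omega
    | succ k ih =>
      intro v hv hk
      by_cases hne : v = rt v
      · rw [← hne]
      · obtain ⟨h3, h4⟩ := hparS v hv hne
        have h5 := ih (par v) h3 (by have := (hpar v hne).2; omega)
        rw [h4] at h5
        exact (SimpleGraph.Adj.reachable ((hF'adj v (par v)).2 (Or.inl ⟨hv, hne, rfl⟩))).trans h5
  have hreach' : ∀ v ∈ S, F'.Reachable v (rt v) := fun v hv => hreachS _ v hv le_rfl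
  have hcomp : ∀ v ∈ S, K ≤ 2 * (F'.connectedComponentMk v).supp.ncard := by
    intro v hv
    obtain ⟨hr, hv2⟩ := hSr v hv
    have hsub : (V (rt v) : Set (Fin n)) ⊆ (F'.connectedComponentMk v).supp := by
      intro w hw
      obtain ⟨h3, h4⟩ := hVmem _ hr w hw
      rw [SimpleGraph.ConnectedComponent.mem_supp_iff, SimpleGraph.ConnectedComponent.eq]
      have h5 := hreach' w h4
      rw [h3] at h5
      exact h5.trans (hreach' v hv).symm
    have h6 := Set.ncard_le_ncard hsub (Set.toFinite _)
    rw [Set.ncard_coe_finset] at h6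
    have h7 := (hVr _ hr).1
    have h8 : (K : ℝ) ≤ (C (rt v)).card := by exact_mod_cast hRC _ hr
    have h9 : ((V (rt v)).card : ℝ) ≤ ((F'.connectedComponentMk v).supp.ncard : ℝ) := by
      exact_mod_cast h6
    have : (K : ℝ) ≤ 2 * ((F'.connectedComponentMk v).supp.ncard : ℝ) := by nlinarith
    exact_mod_cast this
  have hsuppS : F'.support = (S : Set (Fin n)) := by
    ext v
    rw [SimpleGraph.mem_support, Finset.mem_coe]
    constructor
    · rintro ⟨w, h⟩
      rcases (hF'adj v w).1 h with ⟨h1, h2, rfl⟩ | ⟨h1, h2, rfl⟩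
      · exact h1
      · exact (hparS w h1 h2).1
    · intro hv
      by_cases hne : v = rt v
      · obtain ⟨hr, hv2⟩ := hSr v hv
        have h7 := (hVr _ hr).1
        have h8 : (K : ℝ) ≤ (C (rt v)).card := by exact_mod_cast hRC _ hr
        have h9 : (1 : ℝ) < (V (rt v)).card := by nlinarith
        have h10 : 1 < (V (rt v)).card := by exact_mod_cast h9
        obtain ⟨w, hw, hwne⟩ := Finset.exists_mem_ne h10 v
        obtain ⟨h3, h4⟩ := hVmem _ hr w hw
        have h5 := (hreach' w h4).symm
        rw [h3, ← hne] at h5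
        obtain ⟨p⟩ := h5
        cases p with
        | nil => exact absurd rfl hwne
        | cons h q => exact ⟨_, h⟩
      · exact ⟨par v, (hF'adj v (par v)).2 (Or.inl ⟨hv, hne, rfl⟩)⟩
  -- counting
  have hfib : ∀ (A : Finset (Fin n)), A ⊆ B → A.card = ∑ r ∈ R, (A.filter (fun v => rt v = r)).card := by
    intro A hA
    exact Finset.card_eq_sum_card_fiberwise (fun v hv => hBR v (hA hv))
  have hBsum : (B.card : ℝ) = ∑ r ∈ R, ((C r).card : ℝ) := by
    rw [hfib B (Finset.Subset.refl _)]
    push_cast
    apply Finset.sum_congr rfl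
    intro r hr
    congr 2
    ext v
    rw [Finset.mem_filter, hC]
    simp only [Finset.mem_filter, Finset.mem_univ, true_and, and_iff_right_iff_imp]
    intro hv
    rw [hB, Finset.mem_filter, hv]
    exact ⟨Finset.mem_univ _, hRC r hr⟩
  have hSB : S ⊆ B := Finset.filter_subset _ _
  have hSsum : (S.card : ℝ) = ∑ r ∈ R, ((V r).card : ℝ) := by
    rw [hfib S hSB]
    push_cast
    apply Finset.sum_congr rfl
    intro r hr
    congr 2
    ext v
    rw [Finset.mem_filter]
    constructor
    · rintro ⟨hv, hvr⟩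
      have := (hSr v hv).2
      rwa [hvr] at this
    · intro hv
      exact ⟨(hVmem r hr v hv).2, (hVmem r hr v hv).1⟩
  have hRK : (R.card : ℝ) * K ≤ B.card := by
    rw [hBsum, ← nsmul_eq_mul, ← Finset.sum_const]
    exact Finset.sum_le_sum (fun r hr => by exact_mod_cast hRC r hr)
  have hSlow : (1 - η) * B.card ≤ S.card := by
    rw [hBsum, hSsum, Finset.mul_sum]
    exact Finset.sum_le_sum (fun r hr => (hVr r hr).1)
  have hSup : (S.card : ℝ) ≤ (1 - η) * B.card + R.card := by
    rw [hBsum, hSsum, Finset.mul_sum]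
    have : (R.card : ℝ) = ∑ r ∈ R, (1 : ℝ) := by simp
    rw [this, ← Finset.sum_add_distrib]
    exact Finset.sum_le_sum (fun r hr => (hVr r hr).2)
  have hRle : (R.card : ℝ) ≤ η / 8 * B.card := by
    have hc : (0 : ℝ) ≤ R.card := Nat.cast_nonneg _
    have : (R.card : ℝ) * 8 ≤ R.card * (η * K) := by nlinarith
    nlinarith
  have hRS : R ⊆ S := by
    intro r hr
    have hrr' : rt r = r := by rw [hR, Finset.mem_filter] at hr; exact hr.2
    have h7 := (hVr _ hr).1
    have h8 : (K : ℝ) ≤ (C r).card := by exact_mod_cast hRC _ hr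
    have h9 : (0 : ℝ) < (V r).card := by nlinarith
    have h10 : 0 < (V r).card := by exact_mod_cast h9
    obtain ⟨w, hw⟩ := Finset.card_pos.1 h10
    by_cases hwr : w = r
    · rw [hwr] at hw; exact (hVmem r hr r hw).2
    · have hrtw := (hVmem r hr w hw).1
      have h11 : d r < d w := by
        have hne : w ≠ rt w := by rw [hrtw]; exact hwr
        have := (hpar w hne).2
        have h0' : d r = 0 := by have := hd0 r; rwa [hrr'] at this
        omega
      have : r ∈ C r := by rw [hC]; simp [hrr']
      exact (hVmem r hr r (hVlow r w hw r this h11)).2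
  -- parent edges
  have hpinj : ∀ v w, v ≠ rt v → w ≠ rt w → s(v, par v) = s(w, par w) → v = w := by
    intro v w hv hw h
    rw [Sym2.eq_iff] at h
    rcases h with h | h
    · exact h.1
    · exfalso
      have h1 := (hpar v hv).2
      have h2 := (hpar w hw).2
      rw [← h.1] at h2
      rw [h.2] at h1
      omega
  have hcolpar : ∀ v, v ≠ rt v → ∃ k : Fin c, col ω s(v, par v) = some k := by
    intro v hv
    have h3 := hRB.1 (hpar v hv).1
    rw [gr_adj] at h3
    exact Option.ne_none_iff_exists'.1 h3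
  -- number of colours
  have hcB : B.card - R.card ≤ c := by
    have hle2 : ((B \ R).image (fun v => col ω s(v, par v))).card ≤ c := by
      have hsub : ((B \ R).image (fun v => col ω s(v, par v))) ⊆
          (univ : Finset (Fin c)).image some := by
        intro x hx
        rw [Finset.mem_image] at hx
        obtain ⟨v, hv, rfl⟩ := hx
        rw [Finset.mem_sdiff] at hv
        obtain ⟨k, hk⟩ := hcolpar v (fun h => hv.2 (by
          rw [hR, Finset.mem_filter]; exact ⟨hv.1, h.symm⟩))
        rw [hk]; simp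
      have h3 := Finset.card_le_card hsub
      have h4 := Finset.card_image_le (s := (univ : Finset (Fin c))) (f := some)
      rw [Finset.card_univ, Fintype.card_fin] at h4
      exact h3.trans h4
    rw [Finset.card_image_of_injOn] at hle2
    · have : (B \ R).card = B.card - R.card :=
        Finset.card_sdiff_of_subset (Finset.filter_subset _ _)
      omega
    · intro v hv w hw h
      simp only [Finset.coe_sdiff, Set.mem_sdiff, Finset.mem_coe] at hv hw
      have hv' : v ≠ rt v := by
        intro h'; apply hv.2; rw [hR, Finset.mem_filter]; exact ⟨hv.1, h'.symm⟩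
      have hw' : w ≠ rt w := by
        intro h'; apply hw.2; rw [hR, Finset.mem_filter]; exact ⟨hw.1, h'.symm⟩
      apply hpinj v w hv' hw'
      exact hRB.2 (hpar v hv').1 (hpar w hw').1 h
  have hused : (univ.filter (fun k : Fin c => ¬ ∀ e ∈ F'.edgeSet, col ω e ≠ some k)).card ≤
      S.card - R.card := by
    have hsub : (univ.filter (fun k : Fin c => ¬ ∀ e ∈ F'.edgeSet, col ω e ≠ some k)).image some ⊆
        (S \ R).image (fun v => col ω s(v, par v)) := by
      intro x hx
      rw [Finset.mem_image] at hx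
      obtain ⟨k, hk, rfl⟩ := hx
      rw [Finset.mem_filter] at hk
      have hk2 := hk.2
      rw [not_forall] at hk2
      obtain ⟨e, hk2⟩ := hk2
      rw [Classical.not_imp, not_not] at hk2
      obtain ⟨he, hek⟩ := hk2
      rw [Finset.mem_image]
      induction e using Sym2.ind with
      | _ a b =>
        rw [SimpleGraph.mem_edgeSet, hF'adj] at he
        rcases he with ⟨h3, h4, rfl⟩ | ⟨h3, h4, rfl⟩
        · refine ⟨a, Finset.mem_sdiff.2 ⟨h3, fun h => ?_⟩, hek⟩
          rw [hR, Finset.mem_filter] at h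
          exact h4 h.2.symm
        · refine ⟨b, Finset.mem_sdiff.2 ⟨h3, fun h => ?_⟩, by rw [Sym2.eq_swap]; exact hek⟩
          rw [hR, Finset.mem_filter] at h
          exact h4 h.2.symm
    have h3 := (Finset.card_le_card hsub).trans Finset.card_image_le
    rw [Finset.card_image_of_injective _ (Option.some_injective _),
      Finset.card_sdiff_of_subset hRS] at h3
    exact h3
  refine ⟨F', ⟨hF'F.trans hRB.1, hRB.2.mono (SimpleGraph.edgeSet_mono hF'F)⟩,
    hac.anti hF'F, ?_, ?_, ?_⟩
  · intro v hv
    rw [hsuppS] at hv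
    exact hcomp v hv
  · rw [hsuppS, Set.ncard_coe_finset, ← hBL]
    exact hSlow
  · rw [← hBL]
    have h3 := Finset.card_filter_add_card_filter_not (s := (univ : Finset (Fin c)))
      (fun k : Fin c => ∀ e ∈ F'.edgeSet, col ω e ≠ some k)
    rw [Finset.card_univ, Fintype.card_fin] at h3
    have hRS' := Finset.card_le_card hRS
    have hSB' := Finset.card_le_card hSB
    have h4 : B.card ≤ (univ.filter (fun k : Fin c => ∀ e ∈ F'.edgeSet, col ω e ≠ some k)).card +
        S.card := by omega
    have h5 : (B.card : ℝ) ≤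
        ((univ.filter (fun k : Fin c => ∀ e ∈ F'.edgeSet, col ω e ≠ some k)).card : ℝ) +
        S.card := by exact_mod_cast h4
    have hBnn : (0 : ℝ) ≤ η * B.card := mul_nonneg h0.le (Nat.cast_nonneg _)
    have h6 : η / 4 * B.card ≤
        ((univ.filter (fun k : Fin c => ∀ e ∈ F'.edgeSet, col ω e ≠ some k)).card : ℝ) := by
      linarith
    convert h6

end Pool.Agent.Lib.MP_fdca68_pr
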