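import Pool.Agent.Lib.MP_fdca68_pr.SprDet
import Pool.Agent.Lib.MP_fdca68_pr.Prune
import Pool.Agent.Lib.MP_fdca68_pr.Moments

/-!
# Sprinkling joins large components into one rainbow tree
-/

namespace Pool.Agent.Lib.MP_fdca68_pr

open Finset SimpleGraph
open scoped Classical

theorem spk_reps {n : ℕ} (F : SimpleGraph (Fin n)) (K : ℕ)
    (h : ∀ v ∈ F.support, K ≤ 2 * (F.connectedComponentMk v).supp.ncard) :
    ∃ R : Finset (Fin n), R.card * K ≤ 2 * n ∧ ∀ v ∈ F.support, ∃ x ∈ R, F.Reachable x v := by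
  set U : Finset (Fin n) := univ.filter (fun v => v ∈ F.support) with hU
  set g : Fin n → Fin n := fun v => (F.connectedComponentMk v).out with hg
  have hgr : ∀ v, F.connectedComponentMk (g v) = F.connectedComponentMk v := by
    intro v
    exact Quot.out_eq (F.connectedComponentMk v)
  refine ⟨U.image g, ?_, ?_⟩
  · have hdis : (U.image g : Set (Fin n)).PairwiseDisjoint
        (fun x => univ.filter (fun w => F.connectedComponentMk w = F.connectedComponentMk x)) := by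
      intro x hx y hy hxy
      rw [mem_coe, mem_image] at hx hy
      obtain ⟨v, -, rfl⟩ := hx
      obtain ⟨w, -, rfl⟩ := hy
      rw [Function.onFun, Finset.disjoint_left]
      intro z hz hz'
      rw [mem_filter] at hz hz'
      apply hxy
      have h1 : F.connectedComponentMk v = F.connectedComponentMk w := by
        rw [← hgr v, ← hgr w, ← hz.2, hz'.2]
      simp only [hg, h1]
    have h1 := card_biUnion hdis
    have h2 : ((U.image g).biUnion (fun x => univ.filter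
        (fun w => F.connectedComponentMk w = F.connectedComponentMk x))).card ≤ n := by
      refine (card_le_univ _).trans ?_
      simp
    have h3 : (U.image g).card * K ≤ ∑ x ∈ U.image g, 2 * (univ.filter
        (fun w => F.connectedComponentMk w = F.connectedComponentMk x)).card := by
      rw [← smul_eq_mul]
      apply Finset.card_nsmul_le_sum
      intro x hx
      rw [mem_image] at hx
      obtain ⟨v, hv, rfl⟩ := hx
      rw [hU, mem_filter] at hv
      refine (h v hv.2).trans (Nat.mul_le_mul_left 2 ?_)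
      rw [← hgr v]
      apply le_of_eq
      have : (F.connectedComponentMk (g v)).supp = ((univ.filter
        (fun w => F.connectedComponentMk w = F.connectedComponentMk (g v)) :
          Finset (Fin n)) : Set (Fin n)) := by
        ext w
        simp only [SimpleGraph.ConnectedComponent.mem_supp_iff, coe_filter, mem_univ, true_and,
          Set.mem_ofPred_eq]
      rw [this, Set.ncard_coe_finset]
    rw [← Finset.mul_sum, ← h1] at h3
    omega
  · intro v hv
    refine ⟨g v, ?_, ?_⟩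
    · rw [mem_image]
      exact ⟨v, by rw [hU, mem_filter]; exact ⟨mem_univ _, hv⟩, rfl⟩
    · exact SimpleGraph.ConnectedComponent.exact (hgr v)

theorem spk_closed_card {n : ℕ} (F : SimpleGraph (Fin n)) (R : Finset (Fin n))
    (hR : ∀ v ∈ F.support, ∃ x ∈ R, F.Reachable x v) (Z : Finset (Finset (Fin n)))
    (hZ : ∀ X ∈ Z, (∀ x ∈ X, x ∈ F.support) ∧ ∀ x ∈ X, ∀ y, F.Reachable x y → y ∈ X) :
    Z.card ≤ 2 ^ R.card := by
  rw [← card_powerset]
  apply Finset.card_le_card_of_injOn (fun X => X ∩ R)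
  · intro X _
    rw [mem_coe, mem_powerset]
    exact inter_subset_right
  · have key : ∀ X ∈ Z, ∀ Y ∈ Z, X ∩ R = Y ∩ R → X ⊆ Y := by
      intro X hX Y hY h v hv
      obtain ⟨x, hx, hxv⟩ := hR v ((hZ X hX).1 v hv)
      have h1 : x ∈ X ∩ R := mem_inter.2 ⟨(hZ X hX).2 v hv x hxv.symm, hx⟩
      rw [h] at h1
      exact (hZ Y hY).2 x (mem_inter.1 h1).1 v hxv
    intro X hX Y hY h
    exact Subset.antisymm (key X hX Y hY h) (key Y hY X hX h.symm)

theorem spk_cross {n c : ℕ} (ω₁ : Conf n c) (X Y : Finset (Fin n)) (hd : Disjoint X Y) :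
    X.card * Y.card ≤ (crossE ω₁ X Y).card + (pres ω₁).card := by
  have h1 : (X ×ˢ Y).card ≤ ((crossE ω₁ X Y ∪ pres ω₁).image (fun e : Edge n => e.1)).card := by
    apply Finset.card_le_card_of_injOn (fun q => s(q.1, q.2))
    · rintro ⟨x, y⟩ hq
      rw [mem_coe, mem_product] at hq
      rw [mem_coe, mem_image]
      have hne : x ≠ y := by
        rintro rfl
        exact (Finset.disjoint_left.1 hd) hq.1 hq.2
      refine ⟨⟨s(x, y), by simpa using hne⟩, ?_, rfl⟩
      rw [mem_union]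
      by_cases h : ω₁ ⟨s(x, y), by simpa using hne⟩ = none
      · left
        unfold crossE
        rw [mem_filter]
        exact ⟨mem_univ _, h, ⟨x, by simp, hq.1⟩, ⟨y, by simp, hq.2⟩⟩
      · right
        unfold pres
        rw [mem_filter]
        exact ⟨mem_univ _, h⟩
    · rintro ⟨x, y⟩ hq ⟨x', y'⟩ hq' h
      rw [mem_coe, mem_product] at hq hq'
      simp only at h hq hq'
      rw [Sym2.eq_iff] at h
      rcases h with ⟨h, h'⟩ | ⟨h, h'⟩
      · rw [h, h']
      · exfalso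
        rw [h] at hq
        exact (Finset.disjoint_left.1 hd) hq.1 hq'.2
  rw [card_product] at h1
  refine h1.trans (card_image_le.trans (card_union_le _ _))

theorem spk_cauchy {n c : ℕ} (ω : Conf n c) (S : Finset (Fin c)) (N W B : ℝ) (hW : 0 ≤ W)
    (hS : (S.card : ℝ) ≤ N) (hB : ∑ k, (cls ω k : ℝ) ^ 2 ≤ B) (hN : N * B ≤ W ^ 2) :
    ∑ k ∈ S, (cls ω k : ℝ) ≤ W := by
  have h1 : (∑ k ∈ S, (cls ω k : ℝ)) ^ 2 ≤ S.card * ∑ k ∈ S, (cls ω k : ℝ) ^ 2 :=
    sq_sum_le_card_mul_sum_sq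
  have h2 : ∑ k ∈ S, (cls ω k : ℝ) ^ 2 ≤ ∑ k, (cls ω k : ℝ) ^ 2 :=
    Finset.sum_le_sum_of_subset_of_nonneg (subset_univ _) (fun _ _ _ => sq_nonneg _)
  have h3 : 0 ≤ ∑ k ∈ S, (cls ω k : ℝ) ^ 2 := Finset.sum_nonneg (fun _ _ => sq_nonneg _)
  have h4 : (S.card : ℝ) * ∑ k ∈ S, (cls ω k : ℝ) ^ 2 ≤ N * B :=
    mul_le_mul hS (h2.trans hB) h3 ((Nat.cast_nonneg _).trans hS)
  exact abs_le_of_sq_le_sq' (h1.trans (h4.trans hN)) hW |>.2

theorem spk_prob {n c : ℕ} {p : ℝ} (hc : 0 < c) (h0 : 0 ≤ p) (h1 : p ≤ 1) (S' : Finset (Edge n))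
    (A : Finset (Fin c)) (W : ℝ) (hW : 0 ≤ W) (hmu : 4 * W ≤ p * (A.card / c) * S'.card) :
    Pr n c p {ω | ((S'.filter (fun e => ∃ k ∈ A, ω e = some k)).card : ℝ) ≤ W} ≤
      Real.exp (-W) := by
  refine (Pr_few_col hc h0 h1 S' A W (1 / 2) (by norm_num) (by norm_num)).trans ?_
  rw [← Real.exp_add]
  apply Real.exp_le_exp.2
  have h2 : Real.log (1 / 2 : ℝ)⁻¹ ≤ 1 := by
    have := Real.log_two_lt_d9
    have h3 : (1 / 2 : ℝ)⁻¹ = 2 := by norm_num
    rw [h3]
    linarith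
  have h4 : W * Real.log (1 / 2 : ℝ)⁻¹ ≤ W * 1 := mul_le_mul_of_nonneg_left h2 hW
  have h5 : p * (A.card / c) * (1 - 1 / 2) * S'.card = (p * (A.card / c) * S'.card) / 2 := by
    ring
  rw [h5]
  linarith

theorem sprinkle (ρ κ₁ κ₂ C ε : ℝ) (hρ : 0 < ρ) (hκ₁ : 0 < κ₁) (hκ₂ : 0 < κ₂) (hC : 0 < C)
    (hε : 0 < ε) :
    ∃ M₀ : ℝ, ∀ δ : ℝ, 0 < δ → δ ≤ 1 → ∀ K : ℕ, M₀ ≤ δ * K → ∃ n₀ : ℕ, ∀ n ≥ n₀, ∀ c : ℕ,
      κ₁ * n ≤ c → (c : ℝ) ≤ κ₂ * n → ∀ ω₁ : Conf n c, ((pres ω₁).card : ℝ) ≤ C * n →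
      Pr n c (δ / n) {ω₂ | (T (comb ω₁ ω₂) : ℝ) + ρ * n < L K ω₁} ≤ ε := by
  set η : ℝ := min (ρ / 4) (1 / 2) with hη
  have hη0 : 0 < η := lt_min (by positivity) (by norm_num)
  have hη1 : η ≤ 1 / 2 := min_le_right _ _
  have hη2 : η ≤ ρ / 4 := min_le_left _ _
  set c₁ : ℝ := η * ρ ^ 3 / (512 * κ₂) with hc₁
  have hc₁0 : 0 < c₁ := by positivity
  refine ⟨max (8 / η) (max (16 / c₁) (64 * (1 + 1 / κ₁) / (ε * c₁ ^ 2))), ?_⟩
  intro δ hδ0 hδ1 K hK
  have hK1 : 8 / η ≤ δ * K := (le_max_left _ _).trans hK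
  have hK2 : 16 / c₁ ≤ δ * K := (le_max_left _ _).trans ((le_max_right _ _).trans hK)
  have hK3 : 64 * (1 + 1 / κ₁) / (ε * c₁ ^ 2) ≤ δ * K :=
    (le_max_right _ _).trans ((le_max_right _ _).trans hK)
  have hKK : δ * K ≤ K := by
    have : (0 : ℝ) ≤ K := Nat.cast_nonneg _
    nlinarith
  have hKpos : (0 : ℝ) < K := by
    have : 0 < 8 / η := by positivity
    linarith
  have h8K : 8 ≤ η * K := by
    have h1 : 8 / η ≤ K := hK1.trans hKK
    rw [div_le_iff₀ hη0] at h1
    linarith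
  obtain ⟨n₁, hn₁⟩ := exists_nat_gt (128 * C / ρ ^ 2)
  obtain ⟨n₂, hn₂⟩ := exists_nat_gt (8 * Real.log (2 / ε) / (c₁ * δ))
  refine ⟨max 1 (max n₁ n₂), ?_⟩
  intro n hn c hcl hcu ω₁ hpres
  have hn1 : 1 ≤ n := (le_max_left _ _).trans hn
  have hnn₁ : n₁ ≤ n := (le_max_left _ _).trans ((le_max_right _ _).trans hn)
  have hnn₂ : n₂ ≤ n := (le_max_right _ _).trans ((le_max_right _ _).trans hn)
  have hnpos : (0 : ℝ) < n := by exact_mod_cast hn1
  have hn1' : (1 : ℝ) ≤ n := by exact_mod_cast hn1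
  have hnC : 128 * C / ρ ^ 2 < n := lt_of_lt_of_le hn₁ (by exact_mod_cast hnn₁)
  have hnE : 8 * Real.log (2 / ε) / (c₁ * δ) < n := lt_of_lt_of_le hn₂ (by exact_mod_cast hnn₂)
  have hcpos : 0 < c := by
    have : (0 : ℝ) < c := lt_of_lt_of_le (by positivity) hcl
    exact_mod_cast this
  have hcpos' : (0 : ℝ) < c := by exact_mod_cast hcpos
  have hp0 : 0 ≤ δ / n := by positivity
  have hp1 : δ / n ≤ 1 := by
    rw [div_le_one hnpos]
    linarith
  -- trivial case
  by_cases hL : (L K ω₁ : ℝ) ≤ ρ * n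
  · have : {ω₂ : Conf n c | (T (comb ω₁ ω₂) : ℝ) + ρ * n < L K ω₁} = ∅ := by
      ext ω₂
      simp only [Set.mem_ofPred_eq, Set.mem_empty_iff_false, iff_false, not_lt]
      have : (0 : ℝ) ≤ T (comb ω₁ ω₂) := Nat.cast_nonneg _
      linarith
    rw [this]
    have h0 : Pr n c (δ / n) ∅ = 0 := by
      unfold Pr
      simp
    rw [h0]
    exact hε.le
  push Not at hL
  obtain ⟨F, hF, -, hFK, hFs, hFf⟩ := prune ω₁ K η hη0 hη1 h8K
  obtain ⟨R, hRK, hR⟩ := spk_reps F K hFK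
  set a : ℝ := ρ * n / 8 with ha
  have ha0 : 0 ≤ a := by positivity
  set W : ℝ := c₁ * δ * n / 4 with hW
  have hW0 : 0 ≤ W := by positivity
  set U : Finset (Fin n) := univ.filter (fun v => v ∈ F.support) with hU
  set Z : Finset (Finset (Fin n)) := univ.filter (fun X : Finset (Fin n) =>
    (∀ x ∈ X, x ∈ F.support) ∧ (∀ x ∈ X, ∀ y, F.Reachable x y → y ∈ X) ∧ a ≤ X.card ∧
      a ≤ (U \ X).card) with hZ
  set B : ℝ := 2 / ε * (δ * n * (1 + 1 / κ₁)) with hB
  have hB0 : 0 < B := by positivity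
  set Afr : Finset (Fin c) := freeCol ω₁ F with hAfr
  have hsub : {ω₂ : Conf n c | (T (comb ω₁ ω₂) : ℝ) + ρ * n < L K ω₁} ⊆
      {ω₂ | B ≤ ∑ k, (cls ω₂ k : ℝ) ^ 2} ∪
      {ω₂ | ∃ X ∈ Z, ω₂ ∈ {ω : Conf n c | (((crossE ω₁ X (U \ X)).filter
        (fun e => ∃ k ∈ Afr, ω e = some k)).card : ℝ) ≤ W}} := by
    intro ω₂ hω₂
    rw [Set.mem_ofPred_eq] at hω₂
    by_contra hcon
    rw [Set.mem_union, not_or] at hcon
    obtain ⟨hc1, hc2⟩ := hcon
    rw [Set.mem_ofPred_eq, not_le] at hc1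
    rw [Set.mem_ofPred_eq] at hc2
    push Not at hc2
    have hdet := spr_det ω₁ ω₂ F hF R.card W a ha0 ⟨R, le_rfl, hR⟩ (by
      intro S hS
      refine spk_cauchy ω₂ S (2 * n / K) W B hW0 ?_ hc1.le ?_
      · rw [le_div_iff₀ hKpos]
        have h1 : S.card * K ≤ 2 * n := (Nat.mul_le_mul_right K hS).trans hRK
        exact_mod_cast h1
      · -- N * B ≤ W ^ 2
        rw [div_le_iff₀ (by positivity)] at hK3
        rw [div_mul_eq_mul_div, div_le_iff₀ hKpos]
        have h1 : W ^ 2 * K = (δ * n ^ 2 / 16) * (δ * K * c₁ ^ 2) := by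
          rw [hW]; ring
        have h2 : 2 * n * B = (δ * n ^ 2 / 16) * (64 * (1 + 1 / κ₁) / ε) := by
          rw [hB]; ring
        rw [h1, h2]
        apply mul_le_mul_of_nonneg_left _ (by positivity)
        rw [div_le_iff₀ hε]
        linarith)
      (by
        intro X Y hX hY hXc _ hXY hcov hXa hYa
        have hYU : Y = U \ X := by
          ext v
          rw [mem_sdiff, hU, mem_filter]
          constructor
          · intro hv
            exact ⟨⟨mem_univ _, hY v hv⟩, fun h => (Finset.disjoint_left.1 hXY) h hv⟩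
          · rintro ⟨⟨-, h⟩, h'⟩
            rcases hcov v h with h1 | h1
            · exact absurd h1 h'
            · exact h1
        subst hYU
        have hXZ : X ∈ Z := by
          rw [hZ, mem_filter]
          exact ⟨mem_univ _, hX, hXc, hXa, hYa⟩
        have := hc2 X hXZ
        rw [Set.mem_ofPred_eq, not_le] at this
        exact this)
    have h1 : (L K ω₁ : ℝ) ≤ n := by exact_mod_cast L_le K ω₁
    have h2 : η * L K ω₁ ≤ ρ / 4 * n := by
      calc η * (L K ω₁ : ℝ) ≤ ρ / 4 * L K ω₁ :=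
            mul_le_mul_of_nonneg_right hη2 (Nat.cast_nonneg _)
        _ ≤ ρ / 4 * n := mul_le_mul_of_nonneg_left h1 (by positivity)
    have h3 : (0 : ℝ) < ρ * n := by positivity
    rw [ha] at hdet
    nlinarith
  refine (Pr_mono hp0 hp1 hsub).trans ((Pr_union_le hp0 hp1 _ _).trans ?_)
  -- first part
  have hfirst : Pr n c (δ / n) {ω₂ | B ≤ ∑ k, (cls ω₂ k : ℝ) ^ 2} ≤ ε / 2 := by
    refine (markov hp0 hp1 (fun ω => Finset.sum_nonneg (fun _ _ => sq_nonneg _)) hB0).trans ?_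
    rw [div_le_iff₀ hB0]
    refine (Ex_cls2 hcpos hp0 hp1).trans ?_
    have h1 : (n : ℝ) ^ 2 * (δ / n) = δ * n := by
      field_simp
    rw [h1]
    have h2 : (δ * n) ^ 2 / c ≤ δ * n * (1 / κ₁) := by
      rw [div_le_iff₀ hcpos']
      have h3 : δ * n * (1 / κ₁) * (κ₁ * n) ≤ δ * n * (1 / κ₁) * c :=
        mul_le_mul_of_nonneg_left hcl (by positivity)
      have h4 : δ * n * (1 / κ₁) * (κ₁ * n) = δ * n * n := by
        field_simp
      rw [h4] at h3
      refine le_trans ?_ h3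
      have h5 : (δ * n) ^ 2 = δ * n * n * δ := by ring
      rw [h5]
      have h6 : 0 ≤ δ * n * n := by positivity
      nlinarith
    have h7 : ε / 2 * B = δ * n * (1 + 1 / κ₁) := by
      rw [hB]
      field_simp
    rw [h7]
    linarith
  -- second part
  have hsecond : Pr n c (δ / n) {ω₂ | ∃ X ∈ Z, ω₂ ∈ {ω : Conf n c |
      (((crossE ω₁ X (U \ X)).filter
        (fun e => ∃ k ∈ Afr, ω e = some k)).card : ℝ) ≤ W}} ≤ ε / 2 := by
    refine (Pr_biUnion_le hp0 hp1 Z _).trans ?_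
    have h1 : ∀ X ∈ Z, Pr n c (δ / n) {ω : Conf n c |
      (((crossE ω₁ X (U \ X)).filter
        (fun e => ∃ k ∈ Afr, ω e = some k)).card : ℝ) ≤ W} ≤ Real.exp (-W) := by
      intro X hX
      rw [hZ, mem_filter] at hX
      obtain ⟨-, hX1, hX2, hXa, hYa⟩ := hX
      refine spk_prob hcpos hp0 hp1 _ Afr W hW0 ?_
      have h2 : ((X.card : ℝ)) * (U \ X).card ≤ (crossE ω₁ X (U \ X)).card + (pres ω₁).card := by
        exact_mod_cast spk_cross ω₁ X (U \ X) disjoint_sdiff
      have h3 : a * a ≤ (X.card : ℝ) * (U \ X).card :=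
        mul_le_mul hXa hYa ha0 (Nat.cast_nonneg _)
      have h4 : ρ ^ 2 * n ^ 2 / 128 ≤ ((crossE ω₁ X (U \ X)).card : ℝ) := by
        have h5 : C * n ≤ ρ ^ 2 * n ^ 2 / 128 := by
          rw [div_lt_iff₀ (by positivity)] at hnC
          nlinarith
        have h6 : a * a = ρ ^ 2 * n ^ 2 / 128 + ρ ^ 2 * n ^ 2 / 128 := by
          rw [ha]; ring
        linarith
      have h7 : η * ρ / (4 * κ₂) ≤ (Afr.card : ℝ) / c := by
        rw [div_le_div_iff₀ (by positivity) hcpos']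
        have h8 : η / 4 * (ρ * n) ≤ Afr.card := by
          refine (mul_le_mul_of_nonneg_left hL.le (by positivity)).trans ?_
          exact hFf
        calc η * ρ * c ≤ η * ρ * (κ₂ * n) := mul_le_mul_of_nonneg_left hcu (by positivity)
          _ = (η / 4 * (ρ * n)) * (4 * κ₂) := by ring
          _ ≤ Afr.card * (4 * κ₂) := mul_le_mul_of_nonneg_right h8 (by positivity)
      calc 4 * W = (δ / n * (η * ρ / (4 * κ₂))) * (ρ ^ 2 * n ^ 2 / 128) := by
            rw [hW, hc₁]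
            field_simp
            ring
        _ ≤ (δ / n * (Afr.card / c)) * (ρ ^ 2 * n ^ 2 / 128) :=
            mul_le_mul_of_nonneg_right (mul_le_mul_of_nonneg_left h7 hp0) (by positivity)
        _ ≤ (δ / n * (Afr.card / c)) * (crossE ω₁ X (U \ X)).card :=
            mul_le_mul_of_nonneg_left h4 (by positivity)
    refine (Finset.sum_le_sum h1).trans ?_
    rw [sum_const, nsmul_eq_mul]
    have h2 : (Z.card : ℝ) ≤ Real.exp R.card := by
      have h3 : Z.card ≤ 2 ^ R.card := by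
        apply spk_closed_card F R hR Z
        intro X hX
        rw [hZ, mem_filter] at hX
        exact ⟨hX.2.1, hX.2.2.1⟩
      have h4 : (Z.card : ℝ) ≤ 2 ^ R.card := by exact_mod_cast h3
      refine h4.trans ?_
      have h5 : (2 : ℝ) ≤ Real.exp 1 := by
        have := Real.add_one_le_exp (1 : ℝ)
        linarith
      have h6 : Real.exp (R.card : ℝ) = Real.exp 1 ^ R.card := by
        rw [← Real.exp_nat_mul, mul_one]
      rw [h6]
      exact pow_le_pow_left₀ (by norm_num) h5 _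
    refine (mul_le_mul_of_nonneg_right h2 (Real.exp_pos _).le).trans ?_
    rw [← Real.exp_add]
    have h3 : (R.card : ℝ) ≤ c₁ * δ * n / 8 := by
      have h4 : (R.card : ℝ) * K ≤ 2 * n := by exact_mod_cast hRK
      rw [div_le_iff₀ hc₁0] at hK2
      have h5 : (R.card : ℝ) * 16 ≤ R.card * (δ * K * c₁) :=
        mul_le_mul_of_nonneg_left hK2 (Nat.cast_nonneg _)
      have h6 : (R.card : ℝ) * (δ * K * c₁) = (R.card * K) * (δ * c₁) := by ring
      have h7 : ((R.card : ℝ) * K) * (δ * c₁) ≤ (2 * n) * (δ * c₁) :=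
        mul_le_mul_of_nonneg_right h4 (by positivity)
      linarith
    have h4 : (R.card : ℝ) + -W ≤ Real.log (ε / 2) := by
      have h5 : Real.log (ε / 2) = - Real.log (2 / ε) := by
        rw [← Real.log_inv]
        congr 1
        rw [inv_div]
      rw [h5]
      rw [div_lt_iff₀ (by positivity)] at hnE
      rw [hW]
      linarith
    calc Real.exp ((R.card : ℝ) + -W) ≤ Real.exp (Real.log (ε / 2)) := Real.exp_le_exp.2 h4
      _ = ε / 2 := Real.exp_log (by positivity)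
  linarith

end Pool.Agent.Lib.MP_fdca68_pr
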