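import Pool.Agent.Lib.MP_fdca68_pr.Iter
import Pool.Agent.Lib.MP_fdca68_pr.Sprinkle
import Pool.Agent.Lib.MP_fdca68_pr.Lip
import Pool.Agent.Lib.MP_fdca68_pr.Couple

/-!
# The key estimate: `T ≥ L K - ρ n` with probability close to one
-/

namespace Pool.Agent.Lib.MP_fdca68_pr

open Finset SimpleGraph
open scoped Classical

/-- the decomposition of the edge probability -/
theorem key_split {p p₂ : ℝ} (h2 : p₂ < 1) :
    (p - p₂) / (1 - p₂) + p₂ - (p - p₂) / (1 - p₂) * p₂ = p := by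
  have : (1 - p₂) ≠ 0 := by linarith
  field_simp
  ring

theorem key (lam κ₁ κ₂ ρ ε : ℝ) (hl : 0 < lam) (hκ₁ : 0 < κ₁) (hκ₂ : 0 < κ₂) (hρ : 0 < ρ)
    (hε : 0 < ε) :
    ∃ K : ℕ, ∃ n₀ : ℕ, ∀ n ≥ n₀, ∀ c : ℕ, κ₁ * n ≤ c → (c : ℝ) ≤ κ₂ * n →
      Pr n c (lam / n) {ω | (T ω : ℝ) + ρ * n < L K ω} ≤ ε := by
  set C : ℝ := 4 * lam / ε + 1 with hC
  have hCpos : 0 < C := by positivity
  obtain ⟨M₀, hM₀⟩ := sprinkle (ρ / 3) κ₁ κ₂ C (ε / 4) (by positivity) hκ₁ hκ₂ hCpos (by positivity)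
  obtain ⟨M, hM⟩ := exists_nat_gt (12 * M₀ / (ρ * ε))
  obtain ⟨K₀, hK₀⟩ := iterate (lam / 2) lam (1 / κ₁) (ρ / 3) (ε / 4) (by positivity) (by linarith)
    (by positivity) (by positivity) (by positivity) M
  obtain ⟨K₁, hK₁⟩ := exists_nat_gt (ρ * ε / (12 * min 1 (lam / 2)))
  set K : ℕ := max (max K₀ K₁) 1 with hKdef
  have hKK₀ : K₀ ≤ K := le_trans (le_max_left _ _) (le_max_left _ _)
  have hKK₁ : K₁ ≤ K := le_trans (le_max_right _ _) (le_max_left _ _)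
  have hK1 : 1 ≤ K := le_max_right _ _
  have hKpos : (0 : ℝ) < K := by exact_mod_cast hK1
  set δ : ℝ := ρ * ε / (12 * K) with hδ
  have hδpos : 0 < δ := by positivity
  have hmin : 0 < min 1 (lam / 2) := lt_min one_pos (by positivity)
  have hδle : δ ≤ min 1 (lam / 2) := by
    have h1 : (K₁ : ℝ) ≤ K := by exact_mod_cast hKK₁
    have h2 : ρ * ε / (12 * min 1 (lam / 2)) < K := lt_of_lt_of_le hK₁ h1
    rw [div_lt_iff₀ (by positivity)] at h2
    rw [hδ, div_le_iff₀ (by positivity)]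
    nlinarith
  have hδ1 : δ ≤ 1 := le_trans hδle (min_le_left _ _)
  have hδ2 : δ ≤ lam / 2 := le_trans hδle (min_le_right _ _)
  have hMK : M₀ ≤ δ * ((M * K : ℕ) : ℝ) := by
    rw [div_lt_iff₀ (by positivity)] at hM
    push_cast
    rw [hδ]
    have : ρ * ε / (12 * K) * (M * K) = M * (ρ * ε) / 12 := by field_simp
    rw [this]
    linarith
  obtain ⟨n₁, hn₁⟩ := hM₀ δ hδpos hδ1 (M * K) hMK
  obtain ⟨n₂, hn₂⟩ := hK₀ K hKK₀
  obtain ⟨n₃, hn₃⟩ := exists_nat_gt (max lam (2 * δ))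
  refine ⟨K, max (max n₁ n₂) (max n₃ 1), ?_⟩
  intro n hn c hc1 hc2
  have hnn₁ : n₁ ≤ n := le_trans (le_trans (le_max_left _ _) (le_max_left _ _)) hn
  have hnn₂ : n₂ ≤ n := le_trans (le_trans (le_max_right _ _) (le_max_left _ _)) hn
  have hnn₃ : n₃ ≤ n := le_trans (le_trans (le_max_left _ _) (le_max_right _ _)) hn
  have hn1 : 1 ≤ n := le_trans (le_trans (le_max_right _ _) (le_max_right _ _)) hn
  have hnpos : (0 : ℝ) < n := by exact_mod_cast hn1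
  have hcpos : (0 : ℝ) < c := lt_of_lt_of_le (by positivity) hc1
  have hc : 0 < c := by exact_mod_cast hcpos
  have hnlam : lam < n ∧ 2 * δ < n := by
    have h1 : (n₃ : ℝ) ≤ n := by exact_mod_cast hnn₃
    have h2 : max lam (2 * δ) < n := lt_of_lt_of_le hn₃ h1
    exact ⟨lt_of_le_of_lt (le_max_left _ _) h2, lt_of_le_of_lt (le_max_right _ _) h2⟩
  set p : ℝ := lam / n with hp
  set p₂ : ℝ := δ / n with hp₂
  set p₁ : ℝ := (p - p₂) / (1 - p₂) with hp₁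
  have hp₂pos : 0 < p₂ := by positivity
  have hp₂half : p₂ < 1 / 2 := by
    rw [hp₂, div_lt_iff₀ hnpos]
    linarith [hnlam.2]
  have hp1 : p < 1 := by
    rw [hp, div_lt_one hnpos]
    exact hnlam.1
  have hpp₂ : p₂ ≤ p := by
    rw [hp, hp₂]
    apply div_le_div_of_nonneg_right _ hnpos.le
    linarith
  have h1p₂ : 0 < 1 - p₂ := by linarith
  have hp₁0 : 0 ≤ p₁ := div_nonneg (by linarith) h1p₂.le
  have hp₁1 : p₁ ≤ 1 := by
    rw [hp₁, div_le_one h1p₂]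
    linarith
  have hnp₁le : n * p₁ ≤ lam := by
    have e1 : p₁ ≤ p := by
      rw [hp₁, div_le_iff₀ h1p₂]
      nlinarith
    calc n * p₁ ≤ n * p := mul_le_mul_of_nonneg_left e1 hnpos.le
      _ = lam := by rw [hp]; field_simp
  have hnp₁ge : lam / 2 ≤ n * p₁ := by
    have e1 : p - p₂ ≤ p₁ := by
      rw [hp₁, le_div_iff₀ h1p₂]
      nlinarith
    have e2 : n * (p - p₂) = lam - δ := by
      rw [hp, hp₂]; field_simp
    calc lam / 2 ≤ lam - δ := by linarith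
      _ = n * (p - p₂) := e2.symm
      _ ≤ n * p₁ := mul_le_mul_of_nonneg_left e1 hnpos.le
  have hsplit : p₁ + p₂ - p₁ * p₂ = p := key_split (by linarith)
  -- the bad event for ω₁
  set B₁ : Set (Conf n c) := {ω | (L (M * K) ω : ℝ) + ρ / 3 * n < L K ω} with hB₁
  set B₂ : Set (Conf n c) := {ω | C * n ≤ ((pres ω).card : ℝ)} with hB₂
  have hPB₁ : Pr n c p₁ B₁ ≤ ε / 4 := by
    refine hn₂ n hnn₂ c hc ?_ p₁ hnp₁ge hnp₁le
    rw [one_div, inv_mul_eq_div, le_div_iff₀ hκ₁]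
    linarith
  have hPB₂ : Pr n c p₁ B₂ ≤ ε / 4 := by
    refine le_trans (markov hp₁0 hp₁1 (fun ω => by positivity) (by positivity)) ?_
    rw [div_le_iff₀ (by positivity)]
    refine le_trans (Ex_pres hc hp₁0 hp₁1) ?_
    have e1 : (n : ℝ) ^ 2 * p₁ ≤ lam * n := by
      have : (n : ℝ) ^ 2 * p₁ = (n * p₁) * n := by ring
      rw [this]
      exact mul_le_mul_of_nonneg_right hnp₁le hnpos.le
    have e2 : ε / 4 * C = lam + ε / 4 := by
      rw [hC]; field_simp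
    have e3 : ε / 4 * (C * n) = (lam + ε / 4) * n := by rw [← e2]; ring
    rw [e3]
    nlinarith
  have hmain := comb_pr_le (n := n) hc hp₁0 hp₁1 hp₂pos.le (by linarith : p₂ ≤ 1)
    (b := ε / 2) (by positivity) {ω : Conf n c | (T ω : ℝ) + ρ * n < L K ω} (B₁ ∪ B₂) ?_
  · rw [hsplit] at hmain
    calc Pr n c p {ω | (T ω : ℝ) + ρ * n < L K ω} ≤ Pr n c p₁ (B₁ ∪ B₂) + ε / 2 := hmain
      _ ≤ (Pr n c p₁ B₁ + Pr n c p₁ B₂) + ε / 2 := by
          gcongr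
          exact Pr_union_le hp₁0 hp₁1 _ _
      _ ≤ ε := by linarith
  · intro ω₁ hω₁
    simp only [Set.mem_union, not_or, hB₁, hB₂, Set.mem_ofPred_eq, not_lt, not_le] at hω₁
    obtain ⟨g1, g2⟩ := hω₁
    set A₁ : Set (Conf n c) := {ω₂ | (T (comb ω₁ ω₂) : ℝ) + ρ / 3 * n < L (M * K) ω₁} with hA₁
    set A₂ : Set (Conf n c) := {ω₂ | ρ * n / (6 * K) ≤ ((pres ω₂).card : ℝ)} with hA₂
    have hPA₁ : Pr n c p₂ A₁ ≤ ε / 4 := hn₁ n hnn₁ c hc1 hc2 ω₁ g2.le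
    have hPA₂ : Pr n c p₂ A₂ ≤ ε / 4 := by
      refine le_trans (markov hp₂pos.le (by linarith) (fun ω => by positivity) (by positivity)) ?_
      rw [div_le_iff₀ (by positivity)]
      refine le_trans (Ex_pres hc hp₂pos.le (by linarith)) ?_
      have e1 : (n : ℝ) ^ 2 * p₂ / 2 = ε / 4 * (ρ * n / (6 * K)) := by
        rw [hp₂, hδ]
        field_simp
        ring
      rw [e1]
    have hsub : {ω₂ : Conf n c | comb ω₁ ω₂ ∈ {ω : Conf n c | (T ω : ℝ) + ρ * n < L K ω}} ⊆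
        A₁ ∪ A₂ := by
      intro ω₂ hω₂
      by_contra hcon
      simp only [Set.mem_union, not_or, hA₁, hA₂, Set.mem_ofPred_eq, not_lt, not_le] at hcon
      obtain ⟨f1, f2⟩ := hcon
      have hω₂' : (T (comb ω₁ ω₂) : ℝ) + ρ * n < L K (comb ω₁ ω₂) := hω₂
      have e1 : (L K (comb ω₁ ω₂) : ℝ) ≤ L K ω₁ + 2 * K * ((pres ω₂).card : ℝ) := by
        exact_mod_cast L_comb_le K ω₁ ω₂
      have e2 : 2 * K * ((pres ω₂).card : ℝ) ≤ ρ / 3 * n := by
        rw [lt_div_iff₀ (by positivity)] at f2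
        nlinarith
      linarith
    calc Pr n c p₂ {ω₂ | comb ω₁ ω₂ ∈ {ω : Conf n c | (T ω : ℝ) + ρ * n < L K ω}}
        ≤ Pr n c p₂ (A₁ ∪ A₂) := Pr_mono hp₂pos.le (by linarith) hsub
      _ ≤ Pr n c p₂ A₁ + Pr n c p₂ A₂ := Pr_union_le hp₂pos.le (by linarith) _ _
      _ ≤ ε / 2 := by linarith

end Pool.Agent.Lib.MP_fdca68_pr
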