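import Pool.Agent.Lib.MP_fdca68_pr.Basic

/-!
# Links: short connections between components of a forest, outside the forest
-/

namespace Pool.Agent.Lib.MP_fdca68_pr

open Finset SimpleGraph
open scoped Classical

/-- the graph spanned by a set of pairs -/
def eg {n : ℕ} (E : Finset (Edge n)) : SimpleGraph (Fin n) :=
  SimpleGraph.fromEdgeSet ((fun e : Edge n => e.1) '' (E : Set (Edge n)))

/-- a link between the vertices `x` and `y` of the forest `F`, using edges of `Gs` outside `F`,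
whose inner vertices are not covered by `F` -/
structure Link {n : ℕ} (F Gs : SimpleGraph (Fin n)) (r : ℕ) (x y : Fin n)
    (E : Finset (Edge n)) : Prop where
  inG : ∀ e ∈ E, e.1 ∈ Gs.edgeSet
  notF : ∀ e ∈ E, e.1 ∉ F.edgeSet
  card_le : E.card ≤ r
  ne : x ≠ y
  hx : x ∈ vts E
  hy : y ∈ vts E
  xF : x ∈ F.support
  yF : y ∈ F.support
  inner : ∀ v ∈ vts E, v ∈ F.support → v = x ∨ v = y
  vcard : (vts E).card ≤ E.card + 1
  conn : ∀ v ∈ vts E, (eg E).Reachable x v

/-- a rich component (the one of `x₀`): `m` pairwise disjoint links starting in it -/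
def Rich {n : ℕ} (F Gs : SimpleGraph (Fin n)) (r m : ℕ) (x₀ : Fin n) : Prop :=
  ∃ P : Finset (Finset (Edge n)), m ≤ P.card ∧
    (∀ E ∈ P, ∃ x y, F.Reachable x₀ x ∧ Link F Gs r x y E) ∧
    (∀ E ∈ P, ∀ E' ∈ P, E ≠ E' → Disjoint (vts E) (vts E'))

end Pool.Agent.Lib.MP_fdca68_pr
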