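import Pool.Agent.Lib.MP_fdca68_pr.LinkDefs

/-!
# Expansion gives rich components
-/

namespace Pool.Agent.Lib.MP_fdca68_pr

open Finset SimpleGraph
open scoped Classical

/-! ### Levels of the growth process -/

/-- levels of the growth process started at `X` -/
noncomputable def lkLv {n : ℕ} (F Gs : SimpleGraph (Fin n)) (X : Finset (Fin n)) :
    ℕ → Finset (Fin n)
  | 0 => X
  | (j + 1) => lkLv F Gs X j ∪
      univ.filter (fun w => w ∉ F.support ∧ ∃ a ∈ lkLv F Gs X j, Gs.Adj w a)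

theorem lkLv_succ_sub {n : ℕ} (F Gs : SimpleGraph (Fin n)) (X : Finset (Fin n)) (j : ℕ) :
    lkLv F Gs X j ⊆ lkLv F Gs X (j + 1) := by
  intro v hv
  rw [lkLv]
  exact mem_union_left _ hv

theorem lkLv_mono {n : ℕ} (F Gs : SimpleGraph (Fin n)) (X : Finset (Fin n)) :
    Monotone (lkLv F Gs X) := monotone_nat_of_le_succ (fun j => lkLv_succ_sub F Gs X j)

theorem lkLv_zero_sub {n : ℕ} (F Gs : SimpleGraph (Fin n)) (X : Finset (Fin n)) (j : ℕ) :
    X ⊆ lkLv F Gs X j := lkLv_mono F Gs X (Nat.zero_le j)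

theorem lkLv_supp {n : ℕ} (F Gs : SimpleGraph (Fin n)) (X : Finset (Fin n)) (j : ℕ) :
    ∀ v ∈ lkLv F Gs X j, v ∈ F.support → v ∈ X := by
  induction j with
  | zero => intro v hv _; exact hv
  | succ j ih =>
    intro v hv hs
    rw [lkLv, mem_union, mem_filter] at hv
    rcases hv with hv | hv
    · exact ih v hv hs
    · exact absurd hs hv.2.1

/-- parent pointers and ranks -/
theorem lk_exists_par {n : ℕ} (F Gs : SimpleGraph (Fin n)) (X : Finset (Fin n)) :
    ∃ (par : Fin n → Fin n) (rk : Fin n → ℕ), (∀ x ∈ X, rk x = 0) ∧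
      ∀ j, ∀ a ∈ lkLv F Gs X j, a ∉ X → a ∉ F.support ∧ Gs.Adj a (par a) ∧
        rk (par a) < rk a ∧ ∃ j', j = j' + 1 ∧ par a ∈ lkLv F Gs X j' := by
  set rk : Fin n → ℕ := fun a => sInf {j | a ∈ lkLv F Gs X j} with hrk
  have key : ∀ a, ∃ b, ∀ j, a ∈ lkLv F Gs X j → a ∉ X → Gs.Adj a b ∧
        rk b < rk a ∧ ∃ j', j = j' + 1 ∧ b ∈ lkLv F Gs X j' := by
    intro a
    by_cases h : ∃ j, a ∈ lkLv F Gs X j ∧ a ∉ X
    · obtain ⟨j, hj, haX⟩ := h
      have hmem : a ∈ lkLv F Gs X (rk a) := Nat.sInf_mem (s := {j | a ∈ lkLv F Gs X j}) ⟨j, hj⟩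
      obtain ⟨k, hk⟩ : ∃ k, rk a = k + 1 := by
        rcases Nat.eq_zero_or_pos (rk a) with h0 | h0
        · rw [h0] at hmem; exact absurd hmem haX
        · exact ⟨rk a - 1, by omega⟩
      have hnot : a ∉ lkLv F Gs X k := by
        intro h'
        have : rk a ≤ k := Nat.sInf_le h'
        omega
      rw [hk, lkLv, mem_union, mem_filter] at hmem
      rcases hmem with hmem | hmem
      · exact absurd hmem hnot
      obtain ⟨b, hb, hab⟩ := hmem.2.2
      refine ⟨b, fun j' hj' _ => ⟨hab, ?_, ?_⟩⟩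
      · have : rk b ≤ k := Nat.sInf_le hb
        omega
      · have : rk a ≤ j' := Nat.sInf_le hj'
        refine ⟨j' - 1, by omega, lkLv_mono F Gs X (by omega : k ≤ j' - 1) hb⟩
    · exact ⟨a, fun j hj haX => absurd ⟨j, hj, haX⟩ h⟩
  choose par hpar using key
  refine ⟨par, rk, ?_, ?_⟩
  · intro x hx
    have : rk x ≤ 0 := Nat.sInf_le (show (0:ℕ) ∈ {j | x ∈ lkLv F Gs X j} from hx)
    omega
  · intro j a ha haX
    exact ⟨fun hs => haX (lkLv_supp F Gs X j a ha hs), hpar a j ha haX⟩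

/-! ### Number of edges of a forest inside a set -/

theorem lk_forest_card {n : ℕ} (F : SimpleGraph (Fin n)) (hFa : F.IsAcyclic)
    (X : Finset (Fin n)) :
    (univ.filter (fun e : Edge n => e.1 ∈ F.edgeSet ∧ ∀ v ∈ e.1, v ∈ X)).card ≤ X.card := by
  rcases X.eq_empty_or_nonempty with rfl | hne
  · rw [card_empty, Nat.le_zero, card_eq_zero, filter_eq_empty_iff]
    rintro ⟨e, he⟩ _ ⟨_, h⟩
    induction e with
    | _ u v => exact absurd (h u (by simp)) (by simp)
  have : Nonempty (X : Set (Fin n)) := ⟨⟨hne.choose, hne.choose_spec⟩⟩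
  have hH : (F.induce (X : Set (Fin n))).IsAcyclic := hFa.induce _
  obtain ⟨T, hT1, -, hT2⟩ := (connected_top (V := (X : Set (Fin n)))).exists_isTree_le_of_le_of_isAcyclic
    (H := F.induce (X : Set (Fin n))) le_top hH
  have hc := hT2.card_edgeFinset
  have h1 : (univ.filter (fun e : Edge n => e.1 ∈ F.edgeSet ∧ ∀ v ∈ e.1, v ∈ X)).card ≤
      (T.edgeFinset.image (Sym2.map Subtype.val)).card := by
    rw [← card_image_of_injective _ (Subtype.val_injective (p := fun e : Sym2 (Fin n) => ¬ e.IsDiag))]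
    apply card_le_card
    intro e he
    rw [mem_image] at he
    obtain ⟨⟨e', he'⟩, h1, rfl⟩ := he
    rw [mem_filter] at h1
    obtain ⟨-, h2, h3⟩ := h1
    simp only at h2 h3 ⊢
    induction e' with
    | _ u v =>
      rw [mem_image]
      refine ⟨s(⟨u, h3 u (by simp)⟩, ⟨v, h3 v (by simp)⟩), ?_, by simp⟩
      rw [mem_edgeFinset, mem_edgeSet]
      apply hT1
      simpa using h2
  have h2 : (T.edgeFinset.image (Sym2.map Subtype.val)).card ≤ T.edgeFinset.card := card_image_le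
  have h3 : Fintype.card (X : Set (Fin n)) = X.card := by simp
  omega

/-! ### Chains of parent edges -/

/-- the pair `ab` as a set of pairs -/
noncomputable def lkEd {n : ℕ} (a b : Fin n) : Finset (Edge n) :=
  univ.filter (fun e => e.1 = s(a, b))

theorem lkEd_mem {n : ℕ} (a b : Fin n) (e : Edge n) : e ∈ lkEd a b ↔ e.1 = s(a, b) := by
  simp [lkEd]

theorem lkEd_card {n : ℕ} (a b : Fin n) : (lkEd a b).card ≤ 1 := by
  rw [card_le_one]
  intro e he e' he'
  rw [lkEd_mem] at he he'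
  exact Subtype.ext (he.trans he'.symm)

theorem lk_mem_vts {n : ℕ} (S : Finset (Edge n)) (v : Fin n) : v ∈ vts S ↔ ∃ e ∈ S, v ∈ e.1 := by
  simp [vts]

theorem lk_mem_vts_union {n : ℕ} (S S' : Finset (Edge n)) (v : Fin n) :
    v ∈ vts (S ∪ S') ↔ v ∈ vts S ∨ v ∈ vts S' := by
  simp only [lk_mem_vts, mem_union]
  constructor
  · rintro ⟨e, he | he, hv⟩
    · exact Or.inl ⟨e, he, hv⟩
    · exact Or.inr ⟨e, he, hv⟩
  · rintro (⟨e, he, hv⟩ | ⟨e, he, hv⟩)
    · exact ⟨e, Or.inl he, hv⟩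
    · exact ⟨e, Or.inr he, hv⟩

theorem lk_mem_vts_Ed {n : ℕ} {a b : Fin n} (hab : a ≠ b) (v : Fin n) :
    v ∈ vts (lkEd a b) ↔ v = a ∨ v = b := by
  rw [lk_mem_vts]
  constructor
  · rintro ⟨e, he, hv⟩
    rw [lkEd_mem] at he
    rw [he, Sym2.mem_iff] at hv
    exact hv
  · intro h
    refine ⟨⟨s(a, b), by simpa using hab⟩, by simp [lkEd_mem], by simpa using h⟩

theorem lk_eg_adj {n : ℕ} (E : Finset (Edge n)) (u v : Fin n) :
    (eg E).Adj u v ↔ ∃ e ∈ E, e.1 = s(u, v) := by
  rw [eg, fromEdgeSet_adj]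
  constructor
  · rintro ⟨⟨e, he, h⟩, _⟩
    exact ⟨e, he, h⟩
  · rintro ⟨e, he, h⟩
    refine ⟨⟨e, he, h⟩, ?_⟩
    rintro rfl
    exact e.2 (by rw [h]; simp)

theorem lk_eg_mono {n : ℕ} {E E' : Finset (Edge n)} (h : E ⊆ E') : eg E ≤ eg E' := by
  intro u v huv
  rw [lk_eg_adj] at huv ⊢
  obtain ⟨e, he, h'⟩ := huv
  exact ⟨e, h he, h'⟩

/-- the chain of parent edges from `a` upwards to `F.support` -/
noncomputable def lkCh {n : ℕ} (F : SimpleGraph (Fin n)) (par : Fin n → Fin n) :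
    ℕ → Fin n → Finset (Edge n)
  | 0, _ => ∅
  | (j + 1), a => if a ∈ F.support then ∅ else lkEd a (par a) ∪ lkCh F par j (par a)

/-- the top of the chain -/
noncomputable def lkTop {n : ℕ} (F : SimpleGraph (Fin n)) (par : Fin n → Fin n) :
    ℕ → Fin n → Fin n
  | 0, a => a
  | (j + 1), a => if a ∈ F.support then a else lkTop F par j (par a)

theorem lkCh_supp {n : ℕ} {F : SimpleGraph (Fin n)} (par : Fin n → Fin n) (j : ℕ) {a : Fin n}
    (ha : a ∈ F.support) : lkCh F par j a = ∅ := by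
  cases j with
  | zero => rfl
  | succ j => rw [lkCh, if_pos ha]

theorem lkTop_supp {n : ℕ} {F : SimpleGraph (Fin n)} (par : Fin n → Fin n) (j : ℕ) {a : Fin n}
    (ha : a ∈ F.support) : lkTop F par j a = a := by
  cases j with
  | zero => rfl
  | succ j => rw [lkTop, if_pos ha]

theorem lkCh_card {n : ℕ} (F : SimpleGraph (Fin n)) (par : Fin n → Fin n) (j : ℕ) :
    ∀ a, (lkCh F par j a).card ≤ j := by
  induction j with
  | zero => intro a; simp [lkCh]
  | succ j ih =>
    intro a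
    rw [lkCh]
    split_ifs
    · simp
    · refine (card_union_le _ _).trans ?_
      have := ih (par a)
      have := lkEd_card a (par a)
      omega

/-- balls for the growth process -/
noncomputable def lkBall {n : ℕ} (Gs : SimpleGraph (Fin n)) (z : Fin n) : ℕ → Finset (Fin n)
  | 0 => {z}
  | (j + 1) => (lkBall Gs z j).biUnion
      (fun u => insert u (univ.filter (fun w => Gs.Adj u w)))

theorem lkBall_succ_sub {n : ℕ} (Gs : SimpleGraph (Fin n)) (z : Fin n) (j : ℕ) :
    lkBall Gs z j ⊆ lkBall Gs z (j + 1) := by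
  intro v hv
  rw [lkBall, mem_biUnion]
  exact ⟨v, hv, mem_insert_self _ _⟩

theorem lkBall_mono {n : ℕ} (Gs : SimpleGraph (Fin n)) (z : Fin n) :
    Monotone (lkBall Gs z) := monotone_nat_of_le_succ (fun j => lkBall_succ_sub Gs z j)

theorem lkBall_self {n : ℕ} (Gs : SimpleGraph (Fin n)) (z : Fin n) (j : ℕ) :
    z ∈ lkBall Gs z j := lkBall_mono Gs z (Nat.zero_le j) (by simp [lkBall])

theorem lk_nbr_card {n : ℕ} {Gs : SimpleGraph (Fin n)} {Δ : ℕ}
    (hdeg : ∀ v, (Gs.neighborSet v).ncard ≤ Δ) (u : Fin n) :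
    (univ.filter (fun w => Gs.Adj u w)).card ≤ Δ := by
  have h := hdeg u
  rw [Set.ncard_eq_toFinset_card'] at h
  convert h using 2
  ext w
  simp

theorem lkBall_card {n : ℕ} {Gs : SimpleGraph (Fin n)} {Δ : ℕ}
    (hdeg : ∀ v, (Gs.neighborSet v).ncard ≤ Δ) (z : Fin n) (j : ℕ) :
    (lkBall Gs z j).card ≤ (Δ + 1) ^ j := by
  induction j with
  | zero => simp [lkBall]
  | succ j ih =>
    rw [lkBall, pow_succ]
    refine (card_biUnion_le_card_mul _ _ (Δ + 1) ?_).trans (Nat.mul_le_mul_right _ ih)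
    intro u _
    refine (card_insert_le _ _).trans ?_
    have := lk_nbr_card hdeg u
    omega

/-- edges of `Gs` touching a set of vertices -/
theorem lk_inc_card {n : ℕ} {Gs : SimpleGraph (Fin n)} {Δ : ℕ}
    (hdeg : ∀ v, (Gs.neighborSet v).ncard ≤ Δ) (U : Finset (Fin n)) :
    (univ.filter (fun e : Edge n => e.1 ∈ Gs.edgeSet ∧ ∃ v ∈ e.1, v ∈ U)).card ≤ U.card * Δ := by
  have h1 : univ.filter (fun e : Edge n => e.1 ∈ Gs.edgeSet ∧ ∃ v ∈ e.1, v ∈ U) ⊆
      U.biUnion (fun u => (univ.filter (fun w => Gs.Adj u w)).biUnion (fun w => lkEd u w)) := by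
    intro e he
    rw [mem_filter] at he
    obtain ⟨-, he, v, hv, hU⟩ := he
    rw [mem_biUnion]
    refine ⟨v, hU, ?_⟩
    rw [mem_biUnion]
    obtain ⟨w, hw⟩ := Sym2.mem_iff_exists.1 hv
    refine ⟨w, ?_, ?_⟩
    · rw [mem_filter, ← mem_edgeSet, ← hw]
      exact ⟨mem_univ _, he⟩
    · rw [lkEd_mem]; exact hw
  refine (card_le_card h1).trans (card_biUnion_le_card_mul _ _ _ ?_)
  intro u _
  refine (card_biUnion_le_card_mul _ _ 1 ?_).trans ?_
  · intro w _; exact lkEd_card u w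
  · rw [mul_one]; exact lk_nbr_card hdeg u

section chain

variable {n : ℕ} {F Gs : SimpleGraph (Fin n)} {X : Finset (Fin n)} {par : Fin n → Fin n}
  {rk : Fin n → ℕ}

/-- the property of parent pointers -/
def LkPar (F Gs : SimpleGraph (Fin n)) (X : Finset (Fin n)) (par : Fin n → Fin n)
    (rk : Fin n → ℕ) : Prop :=
  (∀ x ∈ X, rk x = 0) ∧
      ∀ j, ∀ a ∈ lkLv F Gs X j, a ∉ X → a ∉ F.support ∧ Gs.Adj a (par a) ∧
        rk (par a) < rk a ∧ ∃ j', j = j' + 1 ∧ par a ∈ lkLv F Gs X j'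

theorem lkTop_mem (hP : LkPar F Gs X par rk) (hXF : ∀ x ∈ X, x ∈ F.support) (j : ℕ) :
    ∀ a ∈ lkLv F Gs X j, lkTop F par j a ∈ X := by
  induction j with
  | zero => intro a ha; exact ha
  | succ j ih =>
    intro a ha
    by_cases haX : a ∈ X
    · rw [lkTop_supp par _ (hXF a haX)]; exact haX
    · obtain ⟨h1, h2, h3, j', h4, h5⟩ := hP.2 (j + 1) a ha haX
      obtain rfl : j = j' := by omega
      rw [lkTop, if_neg h1]
      exact ih _ h5

theorem lkCh_parent (hP : LkPar F Gs X par rk) (hXF : ∀ x ∈ X, x ∈ F.support) (j : ℕ) :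
    ∀ a ∈ lkLv F Gs X j, ∀ e ∈ lkCh F par j a,
      ∃ w ∈ lkLv F Gs X j, w ∉ X ∧ e.1 = s(w, par w) := by
  induction j with
  | zero => intro a ha e he; simp [lkCh] at he
  | succ j ih =>
    intro a ha e he
    by_cases haX : a ∈ X
    · rw [lkCh_supp par _ (hXF a haX)] at he; simp at he
    · obtain ⟨h1, h2, h3, j', h4, h5⟩ := hP.2 (j + 1) a ha haX
      obtain rfl : j = j' := by omega
      rw [lkCh, if_neg h1, mem_union, lkEd_mem] at he
      rcases he with he | he
      · exact ⟨a, ha, haX, he⟩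
      · obtain ⟨w, hw1, hw2, hw3⟩ := ih _ h5 e he
        exact ⟨w, lkLv_succ_sub F Gs X j hw1, hw2, hw3⟩

/-- the vertices of a chain: `a`, and all vertices touched by the chain -/
theorem lkCh_vts (hP : LkPar F Gs X par rk) (hXF : ∀ x ∈ X, x ∈ F.support) (j : ℕ) :
    ∀ a ∈ lkLv F Gs X j,
      (∀ v ∈ vts (lkCh F par j a), v ∈ F.support → v = lkTop F par j a) ∧
      (a ∉ X → a ∈ vts (lkCh F par j a) ∧ lkTop F par j a ∈ vts (lkCh F par j a)) ∧
      (∀ v ∈ vts (lkCh F par j a), (eg (lkCh F par j a)).Reachable a v) ∧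
      (∀ v ∈ vts (lkCh F par j a), a ∈ lkBall Gs v j) := by
  induction j with
  | zero =>
    intro a ha
    have hv : vts (lkCh F par 0 a) = ∅ := by simp [lkCh, vts]
    rw [hv]
    refine ⟨by simp, fun h => absurd ha h, by simp, by simp⟩
  | succ j ih =>
    intro a ha
    by_cases haX : a ∈ X
    · have hv : vts (lkCh F par (j + 1) a) = ∅ := by
        rw [lkCh_supp par _ (hXF a haX)]; simp [vts]
      rw [hv]
      exact ⟨by simp, fun h => absurd haX h, by simp, by simp⟩
    · obtain ⟨h1, h2, h3, j', h4, h5⟩ := hP.2 (j + 1) a ha haX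
      obtain rfl : j = j' := by omega
      obtain ⟨i1, i2, i3, i4⟩ := ih _ h5
      have hch : lkCh F par (j + 1) a = lkEd a (par a) ∪ lkCh F par j (par a) := by
        rw [lkCh, if_neg h1]
      have htop : lkTop F par (j + 1) a = lkTop F par j (par a) := by
        rw [lkTop, if_neg h1]
      have hadj : (eg (lkCh F par (j + 1) a)).Adj a (par a) := by
        rw [lk_eg_adj, hch]
        refine ⟨⟨s(a, par a), by simpa using h2.ne⟩, ?_, rfl⟩
        rw [mem_union, lkEd_mem]; exact Or.inl rfl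
      have hle : eg (lkCh F par j (par a)) ≤ eg (lkCh F par (j + 1) a) := by
        rw [hch]; exact lk_eg_mono subset_union_right
      have hmem : ∀ v, v ∈ vts (lkCh F par (j + 1) a) ↔
          (v = a ∨ v = par a) ∨ v ∈ vts (lkCh F par j (par a)) := by
        intro v
        rw [hch, lk_mem_vts_union, lk_mem_vts_Ed h2.ne]
      -- top of chain
      have htop2 : lkTop F par j (par a) = par a ∨
          lkTop F par j (par a) ∈ vts (lkCh F par j (par a)) := by
        by_cases hpX : par a ∈ X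
        · left; exact lkTop_supp par _ (hXF _ hpX)
        · right; exact (i2 hpX).2
      refine ⟨?_, ?_, ?_, ?_⟩
      · intro v hv hs
        rw [htop]
        rcases (hmem v).1 hv with (rfl | rfl) | hv
        · exact absurd hs h1
        · exact (lkTop_supp par j hs).symm
        · exact i1 v hv hs
      · intro _
        refine ⟨(hmem a).2 (Or.inl (Or.inl rfl)), ?_⟩
        rw [htop, hmem]
        rcases htop2 with h | h
        · exact Or.inl (Or.inr h)
        · exact Or.inr h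
      · intro v hv
        rcases (hmem v).1 hv with (rfl | rfl) | hv
        · exact Reachable.refl _
        · exact hadj.reachable
        · exact hadj.reachable.trans ((i3 v hv).mono hle)
      · intro v hv
        have step : par a ∈ lkBall Gs v j → a ∈ lkBall Gs v (j + 1) := by
          intro h
          rw [lkBall, mem_biUnion]
          exact ⟨par a, h, by simp [h2.symm]⟩
        rcases (hmem v).1 hv with (rfl | rfl) | hv
        · exact lkBall_self Gs _ _
        · exact step (lkBall_self Gs _ _)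
        · exact step (i4 v hv)

end chain

/-! ### Links from special edges -/

theorem lk_conn_card {n : ℕ} (E : Finset (Edge n)) (x : Fin n)
    (h : ∀ v ∈ vts E, (eg E).Reachable x v) : (vts E).card ≤ E.card + 1 := by
  set C := (eg E).connectedComponentMk x with hC
  have hcon := C.connected_toSimpleGraph
  have h1 := hcon.card_vert_le_card_edgeSet_add_one
  have h2 : (vts E).card ≤ Nat.card C := by
    have : Fintype C := Fintype.ofFinite C
    rw [Nat.card_eq_fintype_card, ← Fintype.card_coe]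
    refine Fintype.card_le_of_injective (fun v : (vts E) => (⟨v.1, ?_⟩ : C)) ?_
    · change v.1 ∈ C.supp
      rw [ConnectedComponent.mem_supp_iff, hC, ConnectedComponent.eq]
      exact (h v.1 v.2).symm
    · intro v w hvw
      simp only [Subtype.mk.injEq] at hvw
      exact Subtype.ext hvw
  have h3 : Nat.card C.toSimpleGraph.edgeSet ≤ E.card := by
    have : Fintype C := Fintype.ofFinite C
    have : Fintype C.toSimpleGraph.edgeSet := Fintype.ofFinite _
    rw [Nat.card_eq_fintype_card, ← Fintype.card_coe]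
    have key : ∀ e : C.toSimpleGraph.edgeSet, ∃ e' : E, (e'.1.1 : Sym2 (Fin n)) =
        Sym2.map (Subtype.val : C → Fin n) e.1 := by
      rintro ⟨e, he⟩
      induction e with
      | _ u v =>
        rw [mem_edgeSet] at he
        have he' : (eg E).Adj u.1 v.1 := by simpa [ConnectedComponent.toSimpleGraph] using he
        rw [lk_eg_adj] at he'
        obtain ⟨e', he', h'⟩ := he'
        exact ⟨⟨e', he'⟩, by simpa using h'⟩
    choose f hf using key
    refine Fintype.card_le_of_injective f ?_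
    intro e e' hee
    have : Sym2.map (Subtype.val : C → Fin n) e.1 = Sym2.map (Subtype.val : C → Fin n) e'.1 := by
      rw [← hf, ← hf, hee]
    exact Subtype.ext (Sym2.map.injective Subtype.val_injective this)
  omega

/-- special pairs at level `j` -/
noncomputable def lkSp {n : ℕ} (F Gs : SimpleGraph (Fin n)) (X : Finset (Fin n))
    (par : Fin n → Fin n) (j : ℕ) : Finset (Edge n) :=
  univ.filter (fun e => e.1 ∈ Gs.edgeSet ∧ e.1 ∉ F.edgeSet ∧
    (¬ ∃ w ∈ lkLv F Gs X j, w ∉ X ∧ e.1 = s(w, par w)) ∧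
    (∃ v ∈ e.1, v ∈ lkLv F Gs X j) ∧ ∀ v ∈ e.1, v ∈ lkLv F Gs X j ∨ v ∈ F.support)

/-- the link of a special pair -/
noncomputable def lkE {n : ℕ} (F : SimpleGraph (Fin n)) (par : Fin n → Fin n) (j : ℕ)
    (a b : Fin n) : Finset (Edge n) :=
  lkEd a b ∪ (lkCh F par j a ∪ lkCh F par j b)

section link

variable {n c : ℕ} {F Gs : SimpleGraph (Fin n)} {X : Finset (Fin n)} {par : Fin n → Fin n}
  {rk : Fin n → ℕ}

/-- chains for vertices of level `j` or in `F.support` -/
theorem lkCh_ext (hP : LkPar F Gs X par rk) (hXF : ∀ x ∈ X, x ∈ F.support) (j : ℕ) (a : Fin n)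
    (ha : a ∈ lkLv F Gs X j ∨ a ∈ F.support) :
    lkTop F par j a ∈ F.support ∧
      (lkTop F par j a = a ∨ (a ∈ vts (lkCh F par j a) ∧
        lkTop F par j a ∈ vts (lkCh F par j a))) ∧
      (∀ v ∈ vts (lkCh F par j a), v ∈ F.support → v = lkTop F par j a) ∧
      (∀ v ∈ vts (lkCh F par j a), (eg (lkCh F par j a)).Reachable a v) ∧
      (∀ v ∈ vts (lkCh F par j a), a ∈ lkBall Gs v j) ∧
      (∀ e ∈ lkCh F par j a, ∃ w ∈ lkLv F Gs X j, w ∉ X ∧ e.1 = s(w, par w)) := by
  by_cases hs : a ∈ F.support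
  · have h1 := lkCh_supp par j hs
    have h2 := lkTop_supp par j hs
    have hv : vts (lkCh F par j a) = ∅ := by rw [h1]; simp [vts]
    rw [hv, h2, h1]
    exact ⟨hs, Or.inl rfl, by simp, by simp, by simp, by simp⟩
  · have ha' : a ∈ lkLv F Gs X j := ha.resolve_right hs
    have haX : a ∉ X := fun h => hs (hXF a h)
    obtain ⟨i1, i2, i3, i4⟩ := lkCh_vts hP hXF j a ha'
    exact ⟨hXF _ (lkTop_mem hP hXF j a ha'), Or.inr (i2 haX), i1, i3, i4,
      lkCh_parent hP hXF j a ha'⟩

theorem lk_link (ω : Conf n c) (s : ℕ) (hGs : Gs ≤ gr ω)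
    (hbad : ∀ v ∈ Gs.support, v ∉ Bad s ω)
    (hP : LkPar F Gs X par rk) (hXF : ∀ x ∈ X, x ∈ F.support)
    (j : ℕ) (hs : 2 * j + 1 ≤ s)
    (g : Edge n) (hg : g ∈ lkSp F Gs X par j) (a b : Fin n) (hab : g.1 = s(a, b))
    (haA : a ∈ lkLv F Gs X j) :
    Link F Gs (2 * j + 1) (lkTop F par j a) (lkTop F par j b) (lkE F par j a b) ∧
      ∀ z ∈ vts (lkE F par j a b), g ∈ univ.filter (fun e : Edge n => e.1 ∈ Gs.edgeSet ∧
        ∃ v ∈ e.1, v ∈ lkBall Gs z j) := by
  rw [lkSp, mem_filter] at hg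
  obtain ⟨-, g1, g2, g3, -, g5⟩ := hg
  have hne : a ≠ b := by
    rintro rfl
    exact g.2 (by rw [hab]; simp)
  have hadj : Gs.Adj a b := by rw [← mem_edgeSet, ← hab]; exact g1
  have hb : b ∈ lkLv F Gs X j ∨ b ∈ F.support := g5 b (by rw [hab]; simp)
  obtain ⟨a1, a2, a3, a4, a5, a6⟩ := lkCh_ext hP hXF j a (Or.inl haA)
  obtain ⟨b1, b2, b3, b4, b5, b6⟩ := lkCh_ext hP hXF j b hb
  have haX : lkTop F par j a ∈ X := lkTop_mem hP hXF j a haA
  have hmem : ∀ v, v ∈ vts (lkE F par j a b) ↔ (v = a ∨ v = b) ∨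
      (v ∈ vts (lkCh F par j a) ∨ v ∈ vts (lkCh F par j b)) := by
    intro v
    rw [lkE, lk_mem_vts_union, lk_mem_vts_Ed hne, lk_mem_vts_union]
  have hgE : g ∈ lkEd a b := by rw [lkEd_mem]; exact hab
  have hgnot : g ∉ lkCh F par j a ∪ lkCh F par j b := by
    intro h
    rw [mem_union] at h
    rcases h with h | h
    · exact g3 (a6 g h)
    · exact g3 (b6 g h)
  have hEd : lkEd a b = {g} := by
    ext e
    rw [lkEd_mem, mem_singleton]
    constructor
    · intro h; exact Subtype.ext (h.trans hab.symm)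
    · rintro rfl; exact hab
  have hcard : (lkE F par j a b).card = (lkCh F par j a ∪ lkCh F par j b).card + 1 := by
    rw [lkE, hEd, ← insert_eq, card_insert_of_notMem hgnot]
  have hcard2 : (lkE F par j a b).card ≤ 2 * j + 1 := by
    rw [hcard]
    have := card_union_le (lkCh F par j a) (lkCh F par j b)
    have := lkCh_card F par j a
    have := lkCh_card F par j b
    omega
  have hle1 : eg (lkCh F par j a) ≤ eg (lkE F par j a b) :=
    lk_eg_mono (by rw [lkE]; exact subset_union_left.trans subset_union_right)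
  have hle2 : eg (lkCh F par j b) ≤ eg (lkE F par j a b) :=
    lk_eg_mono (by rw [lkE]; exact subset_union_right.trans subset_union_right)
  have hadjE : (eg (lkE F par j a b)).Adj a b := by
    rw [lk_eg_adj]
    exact ⟨g, by rw [lkE, mem_union]; exact Or.inl hgE, hab⟩
  have hreach_a : ∀ v ∈ vts (lkE F par j a b), (eg (lkE F par j a b)).Reachable a v := by
    intro v hv
    rcases (hmem v).1 hv with (rfl | rfl) | hv | hv
    · exact Reachable.refl _
    · exact hadjE.reachable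
    · exact (a4 v hv).mono hle1
    · exact hadjE.reachable.trans ((b4 v hv).mono hle2)
  have hta : lkTop F par j a ∈ vts (lkE F par j a b) := by
    rw [hmem]
    rcases a2 with h | h
    · exact Or.inl (Or.inl h)
    · exact Or.inr (Or.inl h.2)
  have htb : lkTop F par j b ∈ vts (lkE F par j a b) := by
    rw [hmem]
    rcases b2 with h | h
    · exact Or.inl (Or.inr h)
    · exact Or.inr (Or.inr h.2)
  have hinG : ∀ e ∈ lkE F par j a b, e.1 ∈ Gs.edgeSet := by
    intro e he
    rw [lkE, mem_union, mem_union, lkEd_mem] at he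
    have hpar : (∃ w ∈ lkLv F Gs X j, w ∉ X ∧ e.1 = s(w, par w)) → e.1 ∈ Gs.edgeSet := by
      rintro ⟨w, hw, hwX, he⟩
      rw [he, mem_edgeSet]
      exact (hP.2 j w hw hwX).2.1
    rcases he with he | he | he
    · rw [he, mem_edgeSet]; exact hadj
    · exact hpar (a6 e he)
    · exact hpar (b6 e he)
  have hnotF : ∀ e ∈ lkE F par j a b, e.1 ∉ F.edgeSet := by
    intro e he
    rw [lkE, mem_union, mem_union, lkEd_mem] at he
    have hpar : (∃ w ∈ lkLv F Gs X j, w ∉ X ∧ e.1 = s(w, par w)) → e.1 ∉ F.edgeSet := by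
      rintro ⟨w, hw, hwX, he⟩
      rw [he, mem_edgeSet]
      intro h
      exact (hP.2 j w hw hwX).1 ⟨_, h⟩
    rcases he with he | he | he
    · rw [he, ← hab]; exact g2
    · exact hpar (a6 e he)
    · exact hpar (b6 e he)
  refine ⟨⟨hinG, hnotF, hcard2, ?_, hta, htb, a1, b1, ?_, ?_, ?_⟩, ?_⟩
  · -- the tops are different
    intro heq
    set x := lkTop F par j a with hx
    set E' := lkCh F par j a ∪ lkCh F par j b with hE'
    -- a and b are in vts E'
    have hbv : b ∈ lkLv F Gs X j ∨ b ∉ X := by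
      rcases hb with h | h
      · exact Or.inl h
      · by_cases hbX : b ∈ X
        · exact Or.inl (lkLv_zero_sub F Gs X j hbX)
        · exact Or.inr hbX
    have hxv : x ∈ vts E' ∧ a ∈ vts E' ∧ b ∈ vts E' := by
      simp only [hE', lk_mem_vts_union]
      rcases a2 with ha | ha
      · rcases b2 with hb' | hb'
        · exfalso; apply hne; rw [← ha, ← hb', heq]
        · refine ⟨Or.inr (by rw [heq]; exact hb'.2), Or.inr ?_, Or.inr hb'.1⟩
          rw [← ha, heq]; exact hb'.2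
      · refine ⟨Or.inl ha.2, Or.inl ha.1, ?_⟩
        rcases b2 with hb' | hb'
        · left; rw [← hb', ← heq]; exact ha.2
        · right; exact hb'.1
    have hreachE' : ∀ v ∈ vts E', (eg E').Reachable x v := by
      have l1 : eg (lkCh F par j a) ≤ eg E' := lk_eg_mono subset_union_left
      have l2 : eg (lkCh F par j b) ≤ eg E' := lk_eg_mono subset_union_right
      have r1 : (eg E').Reachable a x := by
        rcases a2 with h | h
        · rw [h]
        · exact (a4 _ h.2).mono l1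
      have r2 : (eg E').Reachable b x := by
        rw [heq]
        rcases b2 with h | h
        · rw [h]
        · exact (b4 _ h.2).mono l2
      intro v hv
      rw [hE', lk_mem_vts_union] at hv
      rcases hv with hv | hv
      · exact r1.symm.trans ((a4 v hv).mono l1)
      · exact r2.symm.trans ((b4 v hv).mono l2)
    have hc1 := lk_conn_card E' x hreachE'
    have hvts : vts (lkE F par j a b) = vts E' := by
      ext v
      rw [hmem, hE', lk_mem_vts_union]
      constructor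
      · rintro ((rfl | rfl) | h)
        · have := hxv.2.1; rw [hE', lk_mem_vts_union] at this; exact this
        · have := hxv.2.2; rw [hE', lk_mem_vts_union] at this; exact this
        · exact h
      · intro h; exact Or.inr h
    have hcols : (cols ω (lkE F par j a b)).card ≤ (lkE F par j a b).card := by
      have : cols ω (lkE F par j a b) ⊆
          (lkE F par j a b).biUnion (fun e => univ.filter (fun k => ω e = some k)) := by
        intro k hk
        rw [cols, mem_filter] at hk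
        obtain ⟨-, e, he, hk⟩ := hk
        rw [mem_biUnion]
        exact ⟨e, he, by simp [hk]⟩
      refine (card_le_card this).trans ?_
      refine (card_biUnion_le_card_mul _ _ 1 ?_).trans (by rw [mul_one])
      intro e _
      rw [card_le_one]
      intro k hk k' hk'
      rw [mem_filter] at hk hk'
      have := hk.2.symm.trans hk'.2
      simpa using this
    have hcyc : Cyc ω (lkE F par j a b) := by
      refine ⟨?_, ?_⟩
      · intro e he
        have := edgeSet_mono hGs (hinG e he)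
        rw [mem_gr_edgeSet, col_coe] at this
        exact this
      · rw [hvts]
        omega
    have hxb : x ∈ Bad s ω := by
      rw [Bad, mem_filter]
      exact ⟨mem_univ _, lkE F par j a b, hcard2.trans hs, hcyc, hta⟩
    have hxs : x ∈ Gs.support := by
      obtain ⟨e, he, hxe⟩ := (lk_mem_vts _ _).1 hta
      have := hinG e he
      obtain ⟨w, hw⟩ := Sym2.mem_iff_exists.1 hxe
      rw [hw, mem_edgeSet] at this
      exact ⟨w, this⟩
    exact hbad x hxs hxb
  · -- inner
    intro v hv hs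
    rcases (hmem v).1 hv with (rfl | rfl) | hv | hv
    · exact Or.inl (lkTop_supp par j hs).symm
    · exact Or.inr (lkTop_supp par j hs).symm
    · exact Or.inl (a3 v hv hs)
    · exact Or.inr (b3 v hv hs)
  · exact lk_conn_card _ a hreach_a
  · intro v hv
    exact (hreach_a _ hta).symm.trans (hreach_a v hv)
  · intro z hz
    rw [mem_filter]
    refine ⟨mem_univ _, g1, ?_⟩
    rcases (hmem z).1 hz with (rfl | rfl) | hz | hz
    · exact ⟨z, by rw [hab]; simp, lkBall_self _ _ _⟩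
    · exact ⟨z, by rw [hab]; simp, lkBall_self _ _ _⟩
    · exact ⟨a, by rw [hab]; simp, a5 z hz⟩
    · exact ⟨b, by rw [hab]; simp, b5 z hz⟩

end link

/-! ### Growth -/

section growth

variable {n c : ℕ} {F Gs : SimpleGraph (Fin n)} {X : Finset (Fin n)} {par : Fin n → Fin n}
  {rk : Fin n → ℕ}

/-- representative of a component -/
noncomputable def lkRt {n : ℕ} (F : SimpleGraph (Fin n)) (v : Fin n) : Fin n :=
  Quot.out (F.connectedComponentMk v)

theorem lkRt_reach (F : SimpleGraph (Fin n)) (v : Fin n) : F.Reachable (lkRt F v) v := by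
  rw [← ConnectedComponent.eq]
  exact Quot.out_eq (F.connectedComponentMk v)

theorem lkRt_eq {F : SimpleGraph (Fin n)} {v w : Fin n} (h : F.Reachable v w) :
    lkRt F v = lkRt F w := by
  rw [lkRt, lkRt, ConnectedComponent.eq.2 h]

/-- roots of the components inside `X` -/
noncomputable def lkR {n : ℕ} (F : SimpleGraph (Fin n)) (X : Finset (Fin n)) : Finset (Fin n) :=
  X.filter (fun v => lkRt F v = v)

theorem lkR_card (K : ℕ) (hFK : ∀ v ∈ F.support, K ≤ (F.connectedComponentMk v).supp.ncard)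
    (hXF : ∀ x ∈ X, x ∈ F.support)
    (hXc : ∀ x ∈ X, ∀ y, F.Reachable x y → y ∈ X) :
    (lkR F X).card * K ≤ X.card := by
  have h1 : ∀ v ∈ X, lkRt F v ∈ lkR F X := by
    intro v hv
    rw [lkR, mem_filter]
    refine ⟨hXc v hv _ (lkRt_reach F v).symm, lkRt_eq (lkRt_reach F v)⟩
  rw [card_eq_sum_card_fiberwise h1]
  refine (card_nsmul_le_sum _ _ K ?_).trans' (by rw [smul_eq_mul])
  intro r hr
  rw [lkR, mem_filter] at hr
  refine (hFK r (hXF r hr.1)).trans ?_
  rw [Set.ncard_eq_toFinset_card']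
  apply card_le_card
  intro v hv
  rw [Set.mem_toFinset, ConnectedComponent.mem_supp_iff, ConnectedComponent.eq] at hv
  rw [mem_filter]
  exact ⟨hXc r hr.1 v hv.symm, by rw [lkRt_eq hv, hr.2]⟩

theorem lk_closer_aux (F : SimpleGraph (Fin n)) (v r : Fin n) (h : r ≠ v)
    (hr : F.Reachable r v) : ∃ u, F.Adj v u ∧ F.dist r u < F.dist r v := by
  obtain ⟨p, hp⟩ := hr.symm.exists_walk_length_eq_dist
  cases p with
  | nil => exact absurd rfl h
  | @cons _ u _ hadj q =>
    refine ⟨u, hadj, ?_⟩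
    rw [dist_comm (v := v), ← hp, Walk.length_cons, dist_comm]
    have := dist_le q
    omega

theorem lk_closer (F : SimpleGraph (Fin n)) (v : Fin n) (h : lkRt F v ≠ v) :
    ∃ u, F.Adj v u ∧ F.dist (lkRt F v) u < F.dist (lkRt F v) v :=
  lk_closer_aux F v _ h (lkRt_reach F v)

theorem lk_spn (ω : Conf n c) (θ : ℝ) (K : ℕ) (hF : F ≤ gr ω) (hGs : Gs ≤ gr ω)
    (hFK : ∀ v ∈ F.support, K ≤ (F.connectedComponentMk v).supp.ncard)
    (hK : 1 ≤ θ * K)
    (hP : LkPar F Gs X par rk) (hXF : ∀ x ∈ X, x ∈ F.support)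
    (hXc : ∀ x ∈ X, ∀ y, F.Reachable x y → y ∈ X) (j : ℕ) :
    Spn ω (lkLv F Gs X j) (θ * n) := by
  refine ⟨lkR F X, (filter_subset _ _).trans (lkLv_zero_sub F Gs X j), ?_, ?_⟩
  · have h1 := lkR_card (X := X) K hFK hXF hXc
    have h2 : X.card ≤ n := by simpa using card_le_univ X
    have h3 : ((lkR F X).card : ℝ) * K ≤ n := by exact_mod_cast h1.trans h2
    have hKpos : (0 : ℝ) ≤ K := Nat.cast_nonneg K
    have hRpos : (0 : ℝ) ≤ (lkR F X).card := Nat.cast_nonneg _
    have hθ : 0 < θ := by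
      by_contra hneg
      push Not at hneg
      nlinarith
    nlinarith
  · have hex : ∀ v : Fin n, ∃ u : Fin n, (v ∈ X → lkRt F v ≠ v →
        F.Adj v u ∧ F.dist (lkRt F v) u < F.dist (lkRt F v) v) ∧ (v ∉ X → u = par v) := by
      intro v
      by_cases hv : v ∈ X
      · by_cases h : lkRt F v = v
        · exact ⟨v, fun _ h' => absurd h h', fun h' => absurd hv h'⟩
        · obtain ⟨u, hu⟩ := lk_closer F v h
          exact ⟨u, fun _ _ => hu, fun h' => absurd hv h'⟩
      · exact ⟨par v, fun h' => absurd h' hv, fun _ => rfl⟩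
    choose f hf1 hf2 using hex
    -- potential
    set φ : Fin n → ℕ := fun v => F.dist (lkRt F v) v + (n + 1) * rk v with hφ
    have hdist : ∀ v, F.dist (lkRt F v) v ≤ n := by
      intro v
      obtain ⟨p, hp, hp'⟩ := (lkRt_reach F v).exists_path_of_dist
      rw [← hp']
      have := hp.length_lt
      simp at this
      omega
    have key : ∀ v ∈ lkLv F Gs X j \ lkR F X, f v ∈ lkLv F Gs X j ∧ (gr ω).Adj v (f v) ∧
        φ (f v) < φ v := by
      intro v hv
      rw [mem_sdiff] at hv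
      by_cases hvX : v ∈ X
      · have hr : lkRt F v ≠ v := by
          intro h
          exact hv.2 (by rw [lkR, mem_filter]; exact ⟨hvX, h⟩)
        obtain ⟨h1, h2⟩ := hf1 v hvX hr
        have hfX : f v ∈ X := hXc v hvX _ h1.reachable
        refine ⟨lkLv_zero_sub F Gs X j hfX, hF h1, ?_⟩
        simp only [hφ]
        rw [hP.1 _ hvX, hP.1 _ hfX, ← lkRt_eq h1.reachable]
        omega
      · have h1 := hf2 v hvX
        obtain ⟨p1, p2, p3, j', p4, p5⟩ := hP.2 j v hv.1 hvX
        rw [h1]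
        refine ⟨lkLv_mono F Gs X (by omega : j' ≤ j) p5, hGs p2, ?_⟩
        simp only [hφ]
        have := hdist (par v)
        nlinarith
    refine ⟨f, fun v hv => ⟨(key v hv).1, (key v hv).2.1⟩, ?_⟩
    intro v hv w hw hvw
    rw [Sym2.eq_iff] at hvw
    rcases hvw with ⟨h, _⟩ | ⟨h1, h2⟩
    · exact h
    · exfalso
      have k1 := (key v hv).2.2
      have k2 := (key w hw).2.2
      rw [h2] at k1
      rw [← h1] at k2
      omega

theorem lk_growth (ω : Conf n c) (ρ θ : ℝ) (K Δ : ℕ) (hF : F ≤ gr ω) (hFa : F.IsAcyclic)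
    (hGs : Gs ≤ gr ω)
    (hFK : ∀ v ∈ F.support, K ≤ (F.connectedComponentMk v).supp.ncard)
    (hdel : ((univ.filter (fun e : Edge n => ω e ≠ none ∧ e.1 ∉ Gs.edgeSet)).card : ℝ) ≤
      θ / 4 * n)
    (hdeg : ∀ v, (Gs.neighborSet v).ncard ≤ Δ)
    (hexp : Expd ω ρ θ)
    (hK : 1 ≤ θ * K)
    (hP : LkPar F Gs X par rk) (hXF : ∀ x ∈ X, x ∈ F.support)
    (hXc : ∀ x ∈ X, ∀ y, F.Reachable x y → y ∈ X) (hXρ : ρ * n ≤ X.card) (j : ℕ)
    (hsp : ((lkSp F Gs X par j).card : ℝ) < θ / 4 * n) :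
    θ / 2 * n < (((lkLv F Gs X (j + 1)).card : ℝ) - (lkLv F Gs X j).card) * Δ := by
  have hsub : X ⊆ lkLv F Gs X j := lkLv_zero_sub F Gs X j
  have hA : ρ * n ≤ (lkLv F Gs X j).card :=
    hXρ.trans (by exact_mod_cast card_le_card hsub)
  rcases hexp _ hA (lk_spn ω θ K hF hGs hFK hK hP hXF hXc j) with h | h
  · -- many inner edges : impossible
    exfalso
    have hin : univ.filter (fun e : Edge n => ω e ≠ none ∧ ∀ v ∈ e.1, v ∈ lkLv F Gs X j) ⊆
        (univ.filter (fun e : Edge n => ω e ≠ none ∧ e.1 ∉ Gs.edgeSet)) ∪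
        ((univ.filter (fun e : Edge n => e.1 ∈ F.edgeSet ∧ ∀ v ∈ e.1, v ∈ X)) ∪
        ((lkLv F Gs X j \ X).biUnion (fun w => lkEd w (par w)) ∪ lkSp F Gs X par j)) := by
      intro e he
      rw [mem_filter] at he
      obtain ⟨-, he1, he2⟩ := he
      rw [mem_union, mem_union, mem_union, mem_filter, mem_filter, mem_biUnion]
      by_cases c1 : e.1 ∈ Gs.edgeSet
      swap
      · exact Or.inl ⟨mem_univ _, he1, c1⟩
      right
      by_cases c2 : e.1 ∈ F.edgeSet
      · left
        refine ⟨mem_univ _, c2, fun v hv => lkLv_supp F Gs X j v (he2 v hv) ?_⟩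
        obtain ⟨w, hw⟩ := Sym2.mem_iff_exists.1 hv
        rw [hw, mem_edgeSet] at c2
        exact ⟨w, c2⟩
      right
      by_cases c3 : ∃ w ∈ lkLv F Gs X j, w ∉ X ∧ e.1 = s(w, par w)
      · left
        obtain ⟨w, hw1, hw2, hw3⟩ := c3
        exact ⟨w, mem_sdiff.2 ⟨hw1, hw2⟩, (lkEd_mem _ _ _).2 hw3⟩
      · right
        rw [lkSp, mem_filter]
        refine ⟨mem_univ _, c1, c2, c3, ?_, fun v hv => Or.inl (he2 v hv)⟩
        exact ⟨_, Sym2.out_fst_mem e.1, he2 _ (Sym2.out_fst_mem e.1)⟩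
    have c1 := card_le_card hin
    have c2 := lk_forest_card F hFa X
    have c3 : ((lkLv F Gs X j \ X).biUnion (fun w => lkEd w (par w))).card ≤
        (lkLv F Gs X j \ X).card := by
      refine (card_biUnion_le_card_mul _ _ 1 (fun w _ => lkEd_card _ _)).trans ?_
      rw [mul_one]
    have c4 : (lkLv F Gs X j \ X).card + X.card = (lkLv F Gs X j).card :=
      card_sdiff_add_card_eq_card hsub
    have c5 := card_union_le (univ.filter (fun e : Edge n => ω e ≠ none ∧ e.1 ∉ Gs.edgeSet))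
        ((univ.filter (fun e : Edge n => e.1 ∈ F.edgeSet ∧ ∀ v ∈ e.1, v ∈ X)) ∪
        ((lkLv F Gs X j \ X).biUnion (fun w => lkEd w (par w)) ∪ lkSp F Gs X par j))
    have c6 := card_union_le (univ.filter (fun e : Edge n => e.1 ∈ F.edgeSet ∧ ∀ v ∈ e.1, v ∈ X))
        ((lkLv F Gs X j \ X).biUnion (fun w => lkEd w (par w)) ∪ lkSp F Gs X par j)
    have c7 := card_union_le ((lkLv F Gs X j \ X).biUnion (fun w => lkEd w (par w)))
      (lkSp F Gs X par j)
    have c8 : eIn ω (lkLv F Gs X j) ≤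
        (univ.filter (fun e : Edge n => ω e ≠ none ∧ e.1 ∉ Gs.edgeSet)).card +
        ((lkLv F Gs X j).card + (lkSp F Gs X par j).card) := by
      rw [eIn]
      omega
    have c9 : (eIn ω (lkLv F Gs X j) : ℝ) ≤
        ((univ.filter (fun e : Edge n => ω e ≠ none ∧ e.1 ∉ Gs.edgeSet)).card : ℝ) +
        ((lkLv F Gs X j).card + (lkSp F Gs X par j).card) := by exact_mod_cast c8
    have hθn : 0 ≤ θ / 4 * n := by
      have : (0 : ℝ) ≤ ((univ.filter (fun e : Edge n => ω e ≠ none ∧ e.1 ∉ Gs.edgeSet)).card : ℝ) :=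
        Nat.cast_nonneg _
      linarith
    linarith
  · have hout : univ.filter (fun e : Edge n => ω e ≠ none ∧
        (∃ v ∈ e.1, v ∈ lkLv F Gs X j) ∧ (∃ v ∈ e.1, v ∉ lkLv F Gs X j)) ⊆
        (univ.filter (fun e : Edge n => ω e ≠ none ∧ e.1 ∉ Gs.edgeSet)) ∪
        (lkSp F Gs X par j ∪ (univ.filter (fun e : Edge n => e.1 ∈ Gs.edgeSet ∧
          ∃ v ∈ e.1, v ∈ lkLv F Gs X (j + 1) \ lkLv F Gs X j))) := by
      intro e he
      rw [mem_filter] at he
      obtain ⟨-, he1, ⟨a, ha, haA⟩, b, hb, hbA⟩ := he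
      have hne : a ≠ b := by rintro rfl; exact hbA haA
      have hab : e.1 = s(a, b) := ((Sym2.mem_and_mem_iff hne).1 ⟨ha, hb⟩)
      rw [mem_union, mem_union, mem_filter, mem_filter]
      by_cases c1 : e.1 ∈ Gs.edgeSet
      swap
      · exact Or.inl ⟨mem_univ _, he1, c1⟩
      right
      by_cases c2 : b ∈ F.support
      · left
        rw [lkSp, mem_filter]
        refine ⟨mem_univ _, c1, ?_, ?_, ⟨a, ha, haA⟩, ?_⟩
        · rw [hab, mem_edgeSet]
          intro h'
          have haX : a ∈ X := lkLv_supp F Gs X j a haA ⟨b, h'⟩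
          exact hbA (hsub (hXc a haX b h'.reachable))
        · rintro ⟨w, hw, hwX, hw'⟩
          obtain ⟨p1, p2, p3, j', p4, p5⟩ := hP.2 j w hw hwX
          have hpar : par w ∈ lkLv F Gs X j := lkLv_mono F Gs X (by omega : j' ≤ j) p5
          rw [hw', Sym2.mem_iff] at hb
          rcases hb with rfl | rfl
          · exact hbA hw
          · exact hbA hpar
        · intro v hv
          rw [hab, Sym2.mem_iff] at hv
          rcases hv with rfl | rfl
          · exact Or.inl haA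
          · exact Or.inr c2
      · right
        refine ⟨mem_univ _, c1, b, hb, ?_⟩
        rw [mem_sdiff]
        refine ⟨?_, hbA⟩
        rw [lkLv, mem_union, mem_filter]
        right
        refine ⟨mem_univ _, c2, a, haA, ?_⟩
        rw [hab, mem_edgeSet] at c1
        exact c1.symm
    have c1 := card_le_card hout
    have c2 := card_union_le (univ.filter (fun e : Edge n => ω e ≠ none ∧ e.1 ∉ Gs.edgeSet))
        (lkSp F Gs X par j ∪ (univ.filter (fun e : Edge n => e.1 ∈ Gs.edgeSet ∧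
          ∃ v ∈ e.1, v ∈ lkLv F Gs X (j + 1) \ lkLv F Gs X j)))
    have c3 := card_union_le (lkSp F Gs X par j) (univ.filter (fun e : Edge n =>
      e.1 ∈ Gs.edgeSet ∧ ∃ v ∈ e.1, v ∈ lkLv F Gs X (j + 1) \ lkLv F Gs X j))
    have c4 := lk_inc_card hdeg (lkLv F Gs X (j + 1) \ lkLv F Gs X j)
    have c5 : (lkLv F Gs X (j + 1) \ lkLv F Gs X j).card + (lkLv F Gs X j).card =
      (lkLv F Gs X (j + 1)).card := card_sdiff_add_card_eq_card (lkLv_succ_sub F Gs X j)
    have c6 : eOut ω (lkLv F Gs X j) ≤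
        (univ.filter (fun e : Edge n => ω e ≠ none ∧ e.1 ∉ Gs.edgeSet)).card +
        ((lkSp F Gs X par j).card + (lkLv F Gs X (j + 1) \ lkLv F Gs X j).card * Δ) := by
      rw [eOut]
      omega
    have c7 : (eOut ω (lkLv F Gs X j) : ℝ) ≤
        ((univ.filter (fun e : Edge n => ω e ≠ none ∧ e.1 ∉ Gs.edgeSet)).card : ℝ) +
        ((lkSp F Gs X par j).card + ((lkLv F Gs X (j + 1) \ lkLv F Gs X j).card : ℝ) * Δ) := by
      exact_mod_cast c6
    have c8 : ((lkLv F Gs X (j + 1)).card : ℝ) - (lkLv F Gs X j).card =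
        (lkLv F Gs X (j + 1) \ lkLv F Gs X j).card := by
      rw [← c5]; push_cast; ring
    rw [c8]
    linarith

theorem lk_exists_level (ω : Conf n c) (ρ θ : ℝ) (K Δ ℓ : ℕ) (hθ : 0 < θ) (hn : 0 < n)
    (hF : F ≤ gr ω) (hFa : F.IsAcyclic)
    (hGs : Gs ≤ gr ω)
    (hFK : ∀ v ∈ F.support, K ≤ (F.connectedComponentMk v).supp.ncard)
    (hdel : ((univ.filter (fun e : Edge n => ω e ≠ none ∧ e.1 ∉ Gs.edgeSet)).card : ℝ) ≤
      θ / 4 * n)
    (hdeg : ∀ v, (Gs.neighborSet v).ncard ≤ Δ)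
    (hexp : Expd ω ρ θ)
    (hK : 1 ≤ θ * K) (hℓ : 4 * (Δ : ℝ) ≤ θ * ℓ)
    (hP : LkPar F Gs X par rk) (hXF : ∀ x ∈ X, x ∈ F.support)
    (hXc : ∀ x ∈ X, ∀ y, F.Reachable x y → y ∈ X) (hXρ : ρ * n ≤ X.card) :
    ∃ j ≤ ℓ, θ / 4 * n ≤ ((lkSp F Gs X par j).card : ℝ) := by
  by_contra hcon
  push Not at hcon
  have hn' : (0 : ℝ) < n := by exact_mod_cast hn
  have key : ∀ j, j ≤ ℓ + 1 → (j : ℝ) * (θ / 2 * n) ≤ ((lkLv F Gs X j).card : ℝ) * Δ := by
    intro j
    induction j with
    | zero =>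
      intro _
      simp only [Nat.cast_zero, zero_mul]
      positivity
    | succ j ih =>
      intro hj
      have h1 := ih (by omega)
      have h2 := lk_growth ω ρ θ K Δ hF hFa hGs hFK hdel hdeg hexp hK hP hXF hXc hXρ j
        (hcon j (by omega))
      push_cast
      linarith
  have h1 := key (ℓ + 1) le_rfl
  have h2 : ((lkLv F Gs X (ℓ + 1)).card : ℝ) ≤ n := by
    have : (lkLv F Gs X (ℓ + 1)).card ≤ n := by simpa using card_le_univ (lkLv F Gs X (ℓ + 1))
    exact_mod_cast this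
  have h3 : ((lkLv F Gs X (ℓ + 1)).card : ℝ) * Δ ≤ n * Δ :=
    mul_le_mul_of_nonneg_right h2 (Nat.cast_nonneg _)
  push_cast at h1
  have h4 : ((ℓ : ℝ) + 1) * (θ / 2 * n) ≤ n * Δ := h1.trans h3
  have h5 : ((ℓ : ℝ) + 1) * (θ / 2) ≤ Δ := by
    have : ((ℓ : ℝ) + 1) * (θ / 2) * n ≤ Δ * n := by linarith
    exact le_of_mul_le_mul_right this hn'
  have h6 : (0 : ℝ) ≤ ℓ := Nat.cast_nonneg ℓ
  nlinarith

end growth

/-! ### Disjoint families and the conclusion -/

/-- a maximal disjoint subfamily -/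
theorem lk_disj {n : ℕ} {ι : Type*} [DecidableEq ι] (S : Finset ι) (Eg : ι → Finset (Edge n))
    (a B : ℕ)
    (hne : ∀ g ∈ S, (vts (Eg g)).Nonempty) (hcard : ∀ g ∈ S, (vts (Eg g)).card ≤ a)
    (hB : ∀ z : Fin n, (S.filter (fun g => z ∈ vts (Eg g))).card ≤ B) :
    ∃ P ⊆ S, S.card ≤ P.card * a * B ∧
      ∀ g ∈ P, ∀ g' ∈ P, g ≠ g' → Disjoint (vts (Eg g)) (vts (Eg g')) := by
  set Q : Finset (Finset ι) := S.powerset.filter
    (fun P => ∀ g ∈ P, ∀ g' ∈ P, g ≠ g' → Disjoint (vts (Eg g)) (vts (Eg g'))) with hQ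
  have hQne : Q.Nonempty := ⟨∅, by simp [hQ]⟩
  obtain ⟨P, hPQ, hmax⟩ := exists_max_image Q card hQne
  rw [hQ, mem_filter, mem_powerset] at hPQ
  refine ⟨P, hPQ.1, ?_, hPQ.2⟩
  have hcov : S ⊆ P.biUnion (fun p => (vts (Eg p)).biUnion
      (fun z => S.filter (fun g => z ∈ vts (Eg g)))) := by
    intro g hg
    have hex : ∃ p ∈ P, ¬ Disjoint (vts (Eg p)) (vts (Eg g)) := by
      by_cases hgP : g ∈ P
      · refine ⟨g, hgP, ?_⟩
        rw [disjoint_self_iff_empty]
        exact (hne g hg).ne_empty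
      · by_contra hcon
        push Not at hcon
        have hins : insert g P ∈ Q := by
          rw [hQ, mem_filter, mem_powerset]
          refine ⟨insert_subset hg hPQ.1, ?_⟩
          intro p hp p' hp' hpp
          rw [mem_insert] at hp hp'
          rcases hp with rfl | hp
          · rcases hp' with rfl | hp'
            · exact absurd rfl hpp
            · exact (hcon p' hp').symm
          · rcases hp' with rfl | hp'
            · exact hcon p hp
            · exact hPQ.2 p hp p' hp' hpp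
        have := hmax _ hins
        rw [card_insert_of_notMem hgP] at this
        omega
    obtain ⟨p, hp, hpd⟩ := hex
    rw [not_disjoint_iff] at hpd
    obtain ⟨z, hz1, hz2⟩ := hpd
    rw [mem_biUnion]
    refine ⟨p, hp, ?_⟩
    rw [mem_biUnion]
    exact ⟨z, hz1, by rw [mem_filter]; exact ⟨hg, hz2⟩⟩
  refine (card_le_card hcov).trans ?_
  refine (card_biUnion_le_card_mul _ _ (a * B) ?_).trans (by rw [mul_assoc])
  intro p hp
  refine (card_biUnion_le_card_mul _ _ B (fun z _ => hB z)).trans ?_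
  exact Nat.mul_le_mul_right _ (hcard p (hPQ.1 hp))

theorem exists_rich {n c : ℕ} (ω : Conf n c) (F Gs : SimpleGraph (Fin n)) (ρ θ : ℝ)
    (K Δ ℓ s m : ℕ) (hθ : 0 < θ) (hn : 0 < n)
    (hF : RB ω F) (hFa : F.IsAcyclic)
    (hFK : ∀ v ∈ F.support, K ≤ (F.connectedComponentMk v).supp.ncard)
    (hGs : Gs ≤ gr ω)
    (hdel : ((univ.filter (fun e : Edge n => ω e ≠ none ∧ e.1 ∉ Gs.edgeSet)).card : ℝ) ≤
      θ / 4 * n)
    (hdeg : ∀ v, (Gs.neighborSet v).ncard ≤ Δ)
    (hbad : ∀ v ∈ Gs.support, v ∉ Bad s ω)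
    (hexp : Expd ω ρ θ)
    (hK : 1 ≤ θ * K)
    (hℓ : 4 * (Δ : ℝ) ≤ θ * ℓ)
    (hs : 2 * ℓ + 1 ≤ s)
    (hm : 8 * m * (2 * ℓ + 2) * ((Δ : ℝ) + 1) ^ (ℓ + 2) ≤ θ * K)
    (X : Finset (Fin n)) (hXF : ∀ x ∈ X, x ∈ F.support)
    (hXc : ∀ x ∈ X, ∀ y, F.Reachable x y → y ∈ X) (hXρ : ρ * n ≤ X.card) (hX : X.Nonempty) :
    ∃ x₀ ∈ X, Rich F Gs (2 * ℓ + 1) m x₀ := by
  have hn' : (0 : ℝ) < n := by exact_mod_cast hn
  obtain ⟨par, rk, hP⟩ := lk_exists_par F Gs X
  change LkPar F Gs X par rk at hP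
  obtain ⟨j, hj, hSp⟩ := lk_exists_level ω ρ θ K Δ ℓ hθ hn hF.1 hFa hGs hFK hdel hdeg hexp hK hℓ
    hP hXF hXc hXρ
  set S := lkSp F Gs X par j with hS
  -- endpoints
  have hends : ∀ g : Edge n, ∃ ab : Fin n × Fin n, g ∈ S →
      g.1 = s(ab.1, ab.2) ∧ ab.1 ∈ lkLv F Gs X j := by
    intro g
    by_cases hg : g ∈ S
    · have hg' := hg
      rw [hS, lkSp, mem_filter] at hg'
      obtain ⟨-, -, -, -, ⟨a, ha, haA⟩, -⟩ := hg'
      obtain ⟨b, hb⟩ := Sym2.mem_iff_exists.1 ha
      exact ⟨(a, b), fun _ => ⟨hb, haA⟩⟩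
    · obtain ⟨x, hx⟩ := hX
      exact ⟨(x, x), fun h => absurd h hg⟩
  choose ab hab using hends
  set Eg : Edge n → Finset (Edge n) := fun g => lkE F par j (ab g).1 (ab g).2 with hEg
  have hlink : ∀ g ∈ S, Link F Gs (2 * j + 1) (lkTop F par j (ab g).1) (lkTop F par j (ab g).2)
      (Eg g) ∧ ∀ z ∈ vts (Eg g), g ∈ univ.filter (fun e : Edge n => e.1 ∈ Gs.edgeSet ∧
        ∃ v ∈ e.1, v ∈ lkBall Gs z j) := fun g hg =>
    lk_link ω s hGs hbad hP hXF j (by omega) g hg _ _ (hab g hg).1 (hab g hg).2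
  by_contra hcon
  push Not at hcon
  -- fibre over a root
  have hfib : ∀ r ∈ lkR F X, (S.filter (fun g => lkRt F (lkTop F par j (ab g).1) = r)).card ≤
      m * (2 * ℓ + 2) * ((Δ + 1) ^ ℓ * Δ) := by
    intro r hr
    rw [lkR, mem_filter] at hr
    have hnr := hcon r hr.1
    obtain ⟨P, hPS, hPc, hPd⟩ := lk_disj (S.filter (fun g => lkRt F (lkTop F par j (ab g).1) = r))
      Eg (2 * ℓ + 2) ((Δ + 1) ^ ℓ * Δ)
      (fun g hg => ⟨_, (hlink g (mem_filter.1 hg).1).1.hx⟩)
      (fun g hg => by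
        have h1 := (hlink g (mem_filter.1 hg).1).1.vcard
        have h2 := (hlink g (mem_filter.1 hg).1).1.card_le
        omega)
      (fun z => by
        have h1 : (S.filter (fun g => lkRt F (lkTop F par j (ab g).1) = r)).filter
            (fun g => z ∈ vts (Eg g)) ⊆ univ.filter (fun e : Edge n => e.1 ∈ Gs.edgeSet ∧
              ∃ v ∈ e.1, v ∈ lkBall Gs z j) := by
          intro g hg
          rw [mem_filter, mem_filter] at hg
          exact (hlink g hg.1.1).2 z hg.2
        refine (card_le_card h1).trans ((lk_inc_card hdeg _).trans ?_)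
        refine Nat.mul_le_mul_right _ ((lkBall_card hdeg z j).trans ?_)
        exact Nat.pow_le_pow_right (by omega) hj)
    have hPm : P.card < m := by
      by_contra hlt
      push Not at hlt
      apply hnr
      refine ⟨P.image Eg, ?_, ?_, ?_⟩
      · rw [card_image_of_injOn]
        · exact hlt
        · intro g hg g' hg' hgg
          by_contra hne
          have hd := hPd g hg g' hg' hne
          rw [hgg, disjoint_self_iff_empty] at hd
          have := (hlink g' (mem_filter.1 (hPS hg')).1).1.hx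
          rw [hd] at this
          simp at this
      · intro E hE
        rw [mem_image] at hE
        obtain ⟨g, hg, rfl⟩ := hE
        have hg' := mem_filter.1 (hPS hg)
        refine ⟨lkTop F par j (ab g).1, lkTop F par j (ab g).2, ?_, ?_⟩
        · rw [← hg'.2]; exact lkRt_reach F _
        · have hl := (hlink g hg'.1).1
          exact ⟨hl.inG, hl.notF, hl.card_le.trans (by omega), hl.ne, hl.hx, hl.hy, hl.xF, hl.yF,
            hl.inner, hl.vcard, hl.conn⟩
      · intro E hE E' hE' hne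
        rw [mem_image] at hE hE'
        obtain ⟨g, hg, rfl⟩ := hE
        obtain ⟨g', hg', rfl⟩ := hE'
        refine hPd g hg g' hg' ?_
        rintro rfl
        exact hne rfl
    refine hPc.trans ?_
    refine Nat.mul_le_mul_right _ (Nat.mul_le_mul_right _ hPm.le)
  have hmaps : ∀ g ∈ S, lkRt F (lkTop F par j (ab g).1) ∈ lkR F X := by
    intro g hg
    have hx : lkTop F par j (ab g).1 ∈ X := lkTop_mem hP hXF j _ (hab g hg).2
    rw [lkR, mem_filter]
    exact ⟨hXc _ hx _ (lkRt_reach F _).symm, lkRt_eq (lkRt_reach F _)⟩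
  have hScard : S.card ≤ (lkR F X).card * (m * (2 * ℓ + 2) * ((Δ + 1) ^ ℓ * Δ)) := by
    rw [card_eq_sum_card_fiberwise hmaps]
    refine (sum_le_card_nsmul _ _ _ hfib).trans ?_
    rw [smul_eq_mul]
  have hRcard := lkR_card (X := X) K hFK hXF hXc
  have hXn : X.card ≤ n := by simpa using card_le_univ X
  have hRn : (lkR F X).card * K ≤ n := hRcard.trans hXn
  -- numbers
  have e1 : S.card * K ≤ n * (m * (2 * ℓ + 2) * ((Δ + 1) ^ ℓ * Δ)) := by
    calc S.card * K ≤ (lkR F X).card * (m * (2 * ℓ + 2) * ((Δ + 1) ^ ℓ * Δ)) * K :=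
          Nat.mul_le_mul_right _ hScard
      _ = (lkR F X).card * K * (m * (2 * ℓ + 2) * ((Δ + 1) ^ ℓ * Δ)) := by ring
      _ ≤ n * (m * (2 * ℓ + 2) * ((Δ + 1) ^ ℓ * Δ)) := Nat.mul_le_mul_right _ hRn
  have e2 : (S.card : ℝ) * K ≤ n * (m * (2 * ℓ + 2) * (((Δ : ℝ) + 1) ^ ℓ * Δ)) := by
    exact_mod_cast e1
  have e3 : ((Δ : ℝ) + 1) ^ ℓ * Δ ≤ ((Δ : ℝ) + 1) ^ (ℓ + 2) := by
    have hΔ : (0 : ℝ) ≤ Δ := Nat.cast_nonneg _
    have h1 : (0 : ℝ) < ((Δ : ℝ) + 1) ^ ℓ := by positivity
    rw [pow_add]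
    apply mul_le_mul_of_nonneg_left _ h1.le
    nlinarith
  have e4 : (n : ℝ) * (m * (2 * ℓ + 2) * (((Δ : ℝ) + 1) ^ ℓ * Δ)) ≤ n * (θ * K / 8) := by
    apply mul_le_mul_of_nonneg_left _ hn'.le
    have h2 : (0 : ℝ) ≤ m * (2 * ℓ + 2) := by positivity
    have h3 := mul_le_mul_of_nonneg_left e3 h2
    linarith
  have e5 : θ / 4 * n * K ≤ S.card * K := mul_le_mul_of_nonneg_right hSp (Nat.cast_nonneg _)
  have e6 : (n : ℝ) * (θ * K) / 4 ≤ n * (θ * K) / 8 := by
    calc (n : ℝ) * (θ * K) / 4 = θ / 4 * n * K := by ring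
      _ ≤ _ := e5.trans (e2.trans e4)
      _ = n * (θ * K) / 8 := by ring
  have e7 : 0 < (n : ℝ) * (θ * K) := by positivity
  linarith

end Pool.Agent.Lib.MP_fdca68_pr
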