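import Pool.Agent.Lib.MP_fdca68_pr.LowEx

/-!
# Lower bound: deterministic part
-/

namespace Pool.Agent.Lib.MP_fdca68_pr

open Finset SimpleGraph
open scoped Classical

/-- an acyclic graph has at most as many edges as non-isolated vertices -/
theorem ld_edges_le {n : ℕ} (F : SimpleGraph (Fin n)) (hF : F.IsAcyclic) :
    F.edgeFinset.card ≤ F.support.ncard := by
  rw [← F.card_edgeFinset_induce_support]
  by_cases hs : F.support.Nonempty
  · have : Nonempty F.support := hs.to_subtype
    have hcon : (⊤ : SimpleGraph F.support).Connected := connected_top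
    obtain ⟨T, h1, -, h3⟩ := hcon.exists_isTree_le_of_le_of_isAcyclic le_top
      (hF.induce F.support)
    have h4 : (F.induce F.support).edgeFinset ⊆ T.edgeFinset := by
      simpa using h1
    have h5 := h3.card_edgeFinset
    have h6 := Finset.card_le_card h4
    have h7 : Fintype.card F.support = F.support.ncard := by
      rw [Set.ncard_eq_toFinset_card', Set.toFinset_card]
    omega
  · rw [Set.not_nonempty_iff_eq_empty] at hs
    have : IsEmpty F.support := by rw [hs]; infer_instance
    have h8 : (F.induce F.support).edgeFinset = ∅ := by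
      ext e
      induction e with
      | _ a b => exact (this.false a).elim
    rw [h8]; simp

theorem ld_supp_mono {n : ℕ} {F F' : SimpleGraph (Fin n)} (h : F ≤ F') (v : Fin n) :
    (F.connectedComponentMk v).supp ⊆ (F'.connectedComponentMk v).supp := by
  intro w hw
  simp only [ConnectedComponent.mem_supp_iff, ConnectedComponent.eq] at hw ⊢
  exact hw.mono h

theorem ld_bigV_mono {n : ℕ} {F F' : SimpleGraph (Fin n)} (h : F ≤ F') (K : ℕ) :
    bigV F K ⊆ bigV F' K := by
  intro v hv
  simp only [bigV, Set.mem_ofPred_eq] at hv ⊢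
  exact hv.trans (Set.ncard_le_ncard (ld_supp_mono h v) (Set.toFinite _))

theorem ld_mem_bigV_of_reach {n : ℕ} {F : SimpleGraph (Fin n)} {K : ℕ} {u v : Fin n}
    (h : F.Reachable u v) (hu : u ∈ bigV F K) : v ∈ bigV F K := by
  simp only [bigV, Set.mem_ofPred_eq] at hu ⊢
  rwa [← (ConnectedComponent.eq.2 h)]

/-- an optimal forest with no small components -/
theorem ld_exists_F {n c : ℕ} (ω : Conf n c) (K : ℕ) :
    ∃ F : SimpleGraph (Fin n), RB ω F ∧ (bigV F K).ncard = L K ω ∧ F.support ⊆ bigV F K ∧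
      F.IsAcyclic := by
  obtain ⟨F, hF, hL⟩ := exists_L K ω
  let F₁ : SimpleGraph (Fin n) :=
    { Adj := fun u v => F.Adj u v ∧ u ∈ bigV F K
      symm := ⟨fun u v h => ⟨h.1.symm, ld_mem_bigV_of_reach h.1.reachable h.2⟩⟩
      loopless := ⟨fun v h => F.loopless.irrefl v h.1⟩ }
  have hF₁ : F₁ ≤ F := fun u v h => h.1
  obtain ⟨F₂, h21, h22, h23⟩ := F₁.exists_isAcyclic_reachable_eq_le
  have hle : F₂ ≤ F := h21.trans hF₁
  have hRB : RB ω F₂ := by
    refine ⟨hle.trans hF.1, hF.2.mono ?_⟩
    exact SimpleGraph.edgeSet_mono hle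
  have hreach : ∀ u v, F.Reachable u v → u ∈ bigV F K → F₁.Reachable u v := by
    intro u v h
    obtain ⟨p⟩ := h
    induction p with
    | nil => intro _; exact Reachable.refl _
    | cons hadj p ih =>
      intro hu
      have h1 : F₁.Adj _ _ := (⟨hadj, hu⟩ : F.Adj _ _ ∧ _ ∈ bigV F K)
      exact (h1.reachable).trans (ih (ld_mem_bigV_of_reach hadj.reachable hu))
  have hsub : bigV F K ⊆ bigV F₂ K := by
    intro v hv
    have hv' := hv
    simp only [bigV, Set.mem_ofPred_eq] at hv ⊢
    refine hv.trans (Set.ncard_le_ncard ?_ (Set.toFinite _))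
    intro w hw
    simp only [ConnectedComponent.mem_supp_iff, ConnectedComponent.eq] at hw ⊢
    have h1 := hreach v w hw.symm hv'
    have h2 : F₂.Reachable v w := by rw [h23]; exact h1
    exact h2.symm
  have hcard : (bigV F₂ K).ncard = L K ω :=
    le_antisymm (le_L hRB K) (hL ▸ Set.ncard_le_ncard hsub (Set.toFinite _))
  refine ⟨F₂, hRB, hcard, ?_, h22⟩
  intro v hv
  obtain ⟨w, hw⟩ := hv
  exact hsub (h21 hw).2

/-- growing a rainbow tree inside a graph without bad vertices -/
theorem ld_grow {n c : ℕ} (ω : Conf n c) (G : SimpleGraph (Fin n)) (hG : G ≤ gr ω) (s : ℕ)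
    (hb : ∀ w ∈ G.support, w ∉ Bad s ω) (v : Fin n) :
    ∀ j, 1 ≤ j → j ≤ s → j ≤ (G.connectedComponentMk v).supp.ncard →
      ∃ H : SimpleGraph (Fin n), ∃ A : Finset (Fin n), ∃ E : Finset (Edge n),
        H ≤ G ∧ A.card = j ∧ v ∈ A ∧ (∀ a ∈ A, H.Reachable v a) ∧
        (∀ e : Edge n, e ∈ E ↔ e.1 ∈ H.edgeSet) ∧ E.card + 1 = j ∧ vts E ⊆ A ∧
        Set.InjOn ω (E : Set (Edge n)) := by
  intro j hj
  induction j, hj using Nat.le_induction with
  | base =>
    intro _ _
    refine ⟨⊥, {v}, ∅, bot_le, by simp, by simp, ?_, ?_, by simp, ?_, by simp⟩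
    · intro a ha
      rw [Finset.mem_singleton] at ha
      subst ha
      exact Reachable.refl _
    · intro e
      simp
    · intro w hw
      simp [vts] at hw
  | succ j hj ih =>
    intro hjs hjc
    obtain ⟨H, A, E, h1, h2, h3, h4, h5, h6, h7, h8⟩ := ih (by omega) (by omega)
    -- an edge leaving `A`
    have hex : ∃ a ∈ A, ∃ b, b ∉ A ∧ G.Adj a b := by
      by_contra hcon
      push Not at hcon
      have hclosed : ∀ a b, G.Reachable a b → a ∈ A → b ∈ A := by
        intro a b hab
        obtain ⟨p⟩ := hab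
        induction p with
        | nil => exact id
        | cons hadj p ih =>
          intro ha
          apply ih
          by_contra hbA
          exact hcon _ ha _ hbA hadj
      have hsub : (G.connectedComponentMk v).supp ⊆ (A : Set (Fin n)) := by
        intro w hw
        simp only [ConnectedComponent.mem_supp_iff, ConnectedComponent.eq] at hw
        exact hclosed v w hw.symm h3
      have := Set.ncard_le_ncard hsub (Set.toFinite _)
      rw [Set.ncard_coe_finset] at this
      omega
    obtain ⟨a, ha, b, hbA, hab⟩ := hex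
    have hne : ¬ (s(a, b) : Sym2 (Fin n)).IsDiag := by
      simpa using hab.ne
    set e₀ : Edge n := ⟨s(a, b), hne⟩ with he₀
    have hpres : ω e₀ ≠ none := by
      have := hG hab
      rw [gr_adj] at this
      rwa [← col_coe ω e₀]
    have he₀E : e₀ ∉ E := by
      intro h
      apply hbA
      apply h7
      simp only [vts, Finset.mem_filter, Finset.mem_univ, true_and]
      exact ⟨e₀, h, by simp [he₀]⟩
    have hvts : vts (insert e₀ E) ⊆ insert b A := by
      intro w hw
      simp only [vts, Finset.mem_filter, Finset.mem_univ, true_and, Finset.mem_insert] at hw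
      obtain ⟨e, he, hwe⟩ := hw
      rcases he with he | he
      · subst he
        simp only [he₀, Sym2.mem_iff] at hwe
        rcases hwe with rfl | rfl
        · exact Finset.mem_insert_of_mem ha
        · exact Finset.mem_insert_self _ _
      · apply Finset.mem_insert_of_mem
        apply h7
        simp only [vts, Finset.mem_filter, Finset.mem_univ, true_and]
        exact ⟨e, he, hwe⟩
    have hcard : (insert e₀ E).card = j := by
      rw [Finset.card_insert_of_notMem he₀E, h6]
    -- the new colour is new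
    have hnew : ∀ e ∈ E, ω e ≠ ω e₀ := by
      intro e he heq
      have hcyc : Cyc ω (insert e₀ E) := by
        refine ⟨?_, ?_⟩
        · intro e' he'
          rw [Finset.mem_insert] at he'
          rcases he' with rfl | he'
          · exact hpres
          · have := (h5 e').1 he'
            have h9 := SimpleGraph.edgeSet_mono (h1.trans hG) this
            rw [mem_gr_edgeSet, col_coe] at h9
            exact h9
        · have hc1 : (vts (insert e₀ E)).card ≤ j + 1 := by
            refine (Finset.card_le_card hvts).trans ?_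
            rw [Finset.card_insert_of_notMem hbA, h2]
          have hc2 : (cols ω (insert e₀ E)).card ≤ E.card := by
            have hsub : (cols ω (insert e₀ E)) ⊆ (E.image ω).eraseNone := by
              intro k hk
              simp only [cols, Finset.mem_filter, Finset.mem_univ, true_and,
                Finset.mem_insert] at hk
              rw [Finset.mem_eraseNone, Finset.mem_image]
              obtain ⟨e', he', hk⟩ := hk
              rcases he' with rfl | he'
              · exact ⟨e, he, by rw [heq, hk]⟩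
              · exact ⟨e', he', hk⟩
            refine (Finset.card_le_card hsub).trans ?_
            refine (Finset.card_eraseNone_le _).trans ?_
            exact Finset.card_image_le
          omega
      have hav : a ∈ vts (insert e₀ E) := by
        simp only [vts, Finset.mem_filter, Finset.mem_univ, true_and]
        exact ⟨e₀, Finset.mem_insert_self _ _, by simp [he₀]⟩
      refine hb a ⟨b, hab⟩ ?_
      simp only [Bad, Finset.mem_filter, Finset.mem_univ, true_and]
      exact ⟨insert e₀ E, by omega, hcyc, hav⟩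
    refine ⟨H ⊔ SimpleGraph.edge a b, insert b A, insert e₀ E, ?_, ?_, ?_, ?_, ?_, ?_, hvts, ?_⟩
    · refine sup_le h1 ?_
      intro x y hxy
      rw [SimpleGraph.edge_adj] at hxy
      rcases hxy.1 with ⟨rfl, rfl⟩ | ⟨rfl, rfl⟩
      · exact hab
      · exact hab.symm
    · rw [Finset.card_insert_of_notMem hbA, h2]
    · exact Finset.mem_insert_of_mem h3
    · intro x hx
      rw [Finset.mem_insert] at hx
      rcases hx with rfl | hx
      · refine ((h4 a ha).mono le_sup_left).trans ?_
        apply Adj.reachable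
        rw [SimpleGraph.sup_adj]
        right
        rw [SimpleGraph.edge_adj]
        exact ⟨Or.inl ⟨rfl, rfl⟩, hab.ne⟩
      · exact (h4 x hx).mono le_sup_left
    · intro e
      rw [Finset.mem_insert, h5, SimpleGraph.edgeSet_sup, SimpleGraph.edgeSet_edge_of_ne hab.ne]
      constructor
      · rintro (rfl | h)
        · exact Or.inr rfl
        · exact Or.inl h
      · rintro (h | h)
        · exact Or.inr h
        · left
          exact Subtype.ext h
    · rw [hcard]
    · intro e he e' he' heq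
      simp only [Finset.coe_insert, Set.mem_insert_iff, Finset.mem_coe] at he he'
      rcases he with rfl | he
      · rcases he' with rfl | he'
        · rfl
        · exact (hnew e' he' heq.symm).elim
      · rcases he' with rfl | he'
        · exact (hnew e he heq).elim
        · exact h8 he he' heq

/-! ### Deleted edges -/

/-- present edges touching `B` or with a colour of `F` -/
noncomputable def ldDel {n c : ℕ} (ω : Conf n c) (F : SimpleGraph (Fin n)) (B : Finset (Fin n)) :
    Finset (Edge n) :=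
  univ.filter (fun e => ω e ≠ none ∧
    ((∃ v ∈ e.1, v ∈ B) ∨ ∃ f : Edge n, f.1 ∈ F.edgeSet ∧ ω f = ω e))

/-- the present edges outside `D` -/
def ldG {n c : ℕ} (ω : Conf n c) (D : Finset (Edge n)) : SimpleGraph (Fin n) where
  Adj u v := (gr ω).Adj u v ∧ ∀ e ∈ D, e.1 ≠ s(u, v)
  symm := ⟨fun u v h => ⟨h.1.symm, by
    intro e he h1
    exact h.2 e he (h1.trans Sym2.eq_swap)⟩⟩
  loopless := ⟨fun v h => (gr ω).loopless.irrefl v h.1⟩

/-- the component of a vertex -/
noncomputable def ldC {n : ℕ} (G : SimpleGraph (Fin n)) (v : Fin n) : Finset (Fin n) :=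
  univ.filter (fun w => G.Reachable v w)

theorem ld_mem_C {n : ℕ} {G : SimpleGraph (Fin n)} {v w : Fin n} :
    w ∈ ldC G v ↔ G.Reachable v w := by simp [ldC]

theorem ld_C_eq {n : ℕ} {G : SimpleGraph (Fin n)} {v w : Fin n} (h : G.Reachable v w) :
    ldC G w = ldC G v := by
  ext x
  rw [ld_mem_C, ld_mem_C]
  exact ⟨fun h1 => h.trans h1, fun h1 => h.symm.trans h1⟩

theorem ld_C_supp {n : ℕ} (G : SimpleGraph (Fin n)) (v : Fin n) :
    (ldC G v : Set (Fin n)) = (G.connectedComponentMk v).supp := by
  ext x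
  simp only [Finset.mem_coe, ld_mem_C, ConnectedComponent.mem_supp_iff, ConnectedComponent.eq]
  exact ⟨fun h => h.symm, fun h => h.symm⟩

theorem ld_C_card {n : ℕ} (G : SimpleGraph (Fin n)) (v : Fin n) :
    (G.connectedComponentMk v).supp.ncard = (ldC G v).card := by
  rw [← ld_C_supp, Set.ncard_coe_finset]

theorem ld_sum_le_sqrt {ι : Type*} [Fintype ι] (A : Finset ι) (f : ι → ℕ) (a : ℝ)
    (ha : (A.card : ℝ) ≤ a) :
    ((∑ v ∈ A, f v : ℕ) : ℝ) ≤ Real.sqrt (a * ∑ v, (f v : ℝ) ^ 2) := by
  apply Real.le_sqrt_of_sq_le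
  push_cast
  calc (∑ v ∈ A, (f v : ℝ)) ^ 2 ≤ A.card * ∑ v ∈ A, (f v : ℝ) ^ 2 :=
        sq_sum_le_card_mul_sum_sq
    _ ≤ a * ∑ v, (f v : ℝ) ^ 2 := by
        apply mul_le_mul ha
        · exact Finset.sum_le_univ_sum_of_nonneg (fun v => by positivity)
        · positivity
        · exact (Nat.cast_nonneg _).trans ha

theorem ld_del_card {n c : ℕ} (ω : Conf n c) (F : SimpleGraph (Fin n)) (hF : F.IsAcyclic)
    (B : Finset (Fin n)) (a l : ℝ) (ha : (B.card : ℝ) ≤ a) (hl : (F.support.ncard : ℝ) ≤ l) :
    ((ldDel ω F B).card : ℝ) ≤ Real.sqrt (a * ∑ v, (dg ω v : ℝ) ^ 2) +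
      Real.sqrt (l * ∑ k, (cls ω k : ℝ) ^ 2) := by
  set E : Finset (Edge n) := univ.filter (fun e => e.1 ∈ F.edgeSet) with hE
  set C : Finset (Fin c) := (E.image ω).eraseNone with hC
  have hCcard : (C.card : ℝ) ≤ l := by
    refine le_trans ?_ hl
    have h1 : C.card ≤ E.card := (Finset.card_eraseNone_le _).trans Finset.card_image_le
    have h2 : E.card ≤ F.edgeFinset.card := by
      refine Finset.card_le_card_of_injOn (fun e => e.1) ?_ ?_
      · intro e he
        simp only [hE, Finset.coe_filter, Finset.mem_univ, true_and, Set.mem_ofPred_eq] at he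
        simpa using he
      · intro e _ e' _ h
        exact Subtype.ext h
    exact_mod_cast h1.trans (h2.trans (ld_edges_le F hF))
  have hsub : ldDel ω F B ⊆
      B.biUnion (fun v => univ.filter (fun e : Edge n => ω e ≠ none ∧ v ∈ e.1)) ∪
      C.biUnion (fun k => univ.filter (fun e : Edge n => ω e = some k)) := by
    intro e he
    simp only [ldDel, Finset.mem_filter, Finset.mem_univ, true_and] at he
    rw [Finset.mem_union, Finset.mem_biUnion, Finset.mem_biUnion]
    obtain ⟨h0, ⟨v, hv, hvB⟩ | ⟨f, hf, hfe⟩⟩ := he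
    · left
      exact ⟨v, hvB, by simp [h0, hv]⟩
    · right
      obtain ⟨k, hk⟩ := Option.ne_none_iff_exists'.1 h0
      refine ⟨k, ?_, by simp [hk]⟩
      rw [hC, Finset.mem_eraseNone, Finset.mem_image]
      exact ⟨f, by simp [hE, hf], by rw [hfe, hk]⟩
  have h1 : (ldDel ω F B).card ≤ (∑ v ∈ B, dg ω v) + ∑ k ∈ C, cls ω k := by
    refine (Finset.card_le_card hsub).trans ((Finset.card_union_le _ _).trans ?_)
    exact Nat.add_le_add Finset.card_biUnion_le Finset.card_biUnion_le
  calc ((ldDel ω F B).card : ℝ) ≤ (((∑ v ∈ B, dg ω v) + ∑ k ∈ C, cls ω k : ℕ) : ℝ) := by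
        exact_mod_cast h1
    _ ≤ _ := by
        rw [Nat.cast_add]
        exact add_le_add (ld_sum_le_sqrt B _ a ha) (ld_sum_le_sqrt C _ l hCcard)

/-! ### Components of the remaining graph are small trees -/

theorem ld_supp_G {n c : ℕ} {ω : Conf n c} {F : SimpleGraph (Fin n)} {B : Finset (Fin n)}
    {v w : Fin n} (h : (ldG ω (ldDel ω F B)).Adj v w) : v ∉ B := by
  intro hv
  have hne : ¬ (s(v, w) : Sym2 (Fin n)).IsDiag := by
    simpa using h.1.ne
  refine h.2 ⟨s(v, w), hne⟩ ?_ rfl
  simp only [ldDel, Finset.mem_filter, Finset.mem_univ, true_and]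
  have h1 := h.1
  rw [gr_adj] at h1
  refine ⟨?_, Or.inl ⟨v, by simp, hv⟩⟩
  rwa [← col_coe ω]

theorem ld_small {n c : ℕ} (ω : Conf n c) (K : ℕ) (hK : 1 ≤ K) (F : SimpleGraph (Fin n))
    (hF : RB ω F) (hL : (bigV F K).ncard = L K ω) (B : Finset (Fin n))
    (hB : ∀ v, v ∉ B → v ∉ bigV F K ∧ v ∉ Bad K ω) (v : Fin n) (hv : v ∉ B) :
    (ldC (ldG ω (ldDel ω F B)) v).card < K := by
  by_contra hcon
  push Not at hcon
  set G := ldG ω (ldDel ω F B) with hG
  have hGle : G ≤ gr ω := fun u w h => h.1
  rw [← ld_C_card] at hcon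
  obtain ⟨H, A, E, h1, h2, h3, h4, h5, h6, h7, h8⟩ := ld_grow ω G hGle K (by
    rintro w ⟨u, hu⟩
    exact (hB w (ld_supp_G hu)).2) v K hK le_rfl hcon
  have hRB : RB ω (F ⊔ H) := by
    refine ⟨sup_le hF.1 (h1.trans hGle), ?_⟩
    -- an edge of `H` has not the colour of an edge of `F`
    have hcross : ∀ e ∈ H.edgeSet, ∀ f ∈ F.edgeSet, col ω f ≠ col ω e := by
      intro e he f hf heq
      have hed : ¬ e.IsDiag := H.not_isDiag_of_mem_edgeSet he
      have hfd : ¬ f.IsDiag := F.not_isDiag_of_mem_edgeSet hf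
      induction e with
      | _ a b =>
        have hab : G.Adj a b := h1 he
        refine hab.2 ⟨s(a, b), hed⟩ ?_ rfl
        simp only [ldDel, Finset.mem_filter, Finset.mem_univ, true_and]
        have h10 := hab.1
        rw [gr_adj] at h10
        refine ⟨?_, Or.inr ⟨⟨f, hfd⟩, hf, ?_⟩⟩
        · rwa [← col_coe ω]
        · rw [← col_coe ω, ← col_coe ω]
          exact heq
    intro e he f hf heq
    rw [SimpleGraph.edgeSet_sup] at he hf
    rcases he with he | he
    · rcases hf with hf | hf
      · exact hF.2 he hf heq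
      · exact (hcross f hf e he heq).elim
    · rcases hf with hf | hf
      · exact (hcross e he f hf heq.symm).elim
      · have hed : ¬ e.IsDiag := H.not_isDiag_of_mem_edgeSet he
        have hfd : ¬ f.IsDiag := H.not_isDiag_of_mem_edgeSet hf
        have := h8 (Finset.mem_coe.2 ((h5 ⟨e, hed⟩).2 he)) (Finset.mem_coe.2 ((h5 ⟨f, hfd⟩).2 hf))
          (by rw [← col_coe ω, ← col_coe ω]; exact heq)
        exact congrArg Subtype.val this
  have hlt : bigV F K ⊂ bigV (F ⊔ H) K := by
    rw [Set.ssubset_iff_of_subset (ld_bigV_mono le_sup_left K)]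
    refine ⟨v, ?_, (hB v hv).1⟩
    simp only [bigV, Set.mem_ofPred_eq]
    rw [← h2, ← Set.ncard_coe_finset]
    refine Set.ncard_le_ncard ?_ (Set.toFinite _)
    intro a ha
    simp only [ConnectedComponent.mem_supp_iff, ConnectedComponent.eq]
    exact ((h4 a ha).mono le_sup_right).symm
  have h9 := Set.ncard_lt_ncard hlt (Set.toFinite _)
  have h10 := le_L hRB K
  omega

/-- number of deleted edges meeting the component of `v` -/
noncomputable def ldd {n : ℕ} (G : SimpleGraph (Fin n)) (D : Finset (Edge n)) (v : Fin n) : ℕ :=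
  (D.filter (fun e => ∃ w ∈ e.1, w ∈ ldC G v)).card

theorem ld_cn {n c : ℕ} (ω : Conf n c) (D : Finset (Edge n)) (v : Fin n) :
    cn ω (ldC (ldG ω D) v) := by
  have h1 := ((ldG ω D).connectedComponentMk v).maximal_connected_induce_supp.1
  have h2 : ((gr ω).induce ((ldG ω D).connectedComponentMk v).supp).Connected := by
    refine h1.mono ?_
    intro a b hab
    exact hab.1
  rw [cn, ld_C_supp]
  exact h2

theorem ld_out {n c : ℕ} (ω : Conf n c) (D : Finset (Edge n)) (v : Fin n) :
    eOut ω (ldC (ldG ω D) v) ≤ ldd (ldG ω D) D v := by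
  unfold eOut ldd
  apply Finset.card_le_card
  intro e he
  simp only [Finset.mem_filter, Finset.mem_univ, true_and] at he ⊢
  obtain ⟨h0, ⟨a, ha, haC⟩, ⟨b, hb, hbC⟩⟩ := he
  refine ⟨?_, ⟨a, ha, haC⟩⟩
  by_contra hD
  apply hbC
  rw [ld_mem_C] at haC ⊢
  by_cases hab : a = b
  · rw [← hab]; exact haC
  have heq : e.1 = s(a, b) := ((Sym2.mem_and_mem_iff hab).1 ⟨ha, hb⟩)
  refine haC.trans (Adj.reachable ?_)
  refine ⟨?_, ?_⟩
  · rw [gr_adj, ← heq, col_coe]; exact h0
  · intro e' he' h
    apply hD
    have : e' = e := Subtype.ext (h.trans heq.symm)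
    rwa [← this]

theorem ld_in_ge {n c : ℕ} (ω : Conf n c) (S : Finset (Fin n)) (h : cn ω S) :
    S.card ≤ eIn ω S + 1 := by
  have h1 := Connected.card_vert_le_card_edgeSet_add_one h
  have h2 : Nat.card (S : Set (Fin n)) = S.card := by simp
  rw [h2] at h1
  refine h1.trans (Nat.add_le_add_right ?_ 1)
  have hmem : ∀ e : ((gr ω).induce (S : Set (Fin n))).edgeSet,
      Sym2.map Subtype.val e.1 ∈ (gr ω).edgeSet ∧ ∀ v ∈ Sym2.map Subtype.val e.1, v ∈ S := by
    rintro ⟨e, he⟩
    induction e with
    | _ a b =>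
      refine ⟨he, ?_⟩
      intro v hv
      simp only [Sym2.map_mk, Sym2.mem_iff] at hv
      rcases hv with rfl | rfl
      · exact a.2
      · exact b.2
  rw [eIn, ← Fintype.card_coe, ← Nat.card_eq_fintype_card (α := { x // x ∈ _ })]
  refine Nat.card_le_card_of_injective (fun e =>
    ⟨⟨Sym2.map Subtype.val e.1, (gr ω).not_isDiag_of_mem_edgeSet (hmem e).1⟩, ?_⟩) ?_
  · simp only [Finset.mem_filter, Finset.mem_univ, true_and]
    refine ⟨?_, (hmem e).2⟩
    have h3 := (hmem e).1
    rw [mem_gr_edgeSet] at h3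
    rwa [← col_coe ω]
  · intro e e' he
    simp only [Subtype.mk.injEq] at he
    exact Subtype.ext (Sym2.map.injective Subtype.val_injective he)

theorem ld_in_le {n c : ℕ} (ω : Conf n c) (S : Finset (Fin n)) (K : ℕ) (h0 : 0 < S.card)
    (hK : S.card ≤ K) (hS : ∀ v ∈ S, v ∉ Bad K ω) : eIn ω S < S.card := by
  by_contra hcon
  push Not at hcon
  obtain ⟨E, hE, hcard⟩ := Finset.exists_subset_card_eq hcon
  have hvts : vts E ⊆ S := by
    intro v hv
    simp only [vts, Finset.mem_filter, Finset.mem_univ, true_and] at hv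
    obtain ⟨e, he, hve⟩ := hv
    have := hE he
    simp only [Finset.mem_filter, Finset.mem_univ, true_and] at this
    exact this.2 v hve
  have hcyc : Cyc ω E := by
    refine ⟨?_, ?_⟩
    · intro e he
      have := hE he
      simp only [Finset.mem_filter, Finset.mem_univ, true_and] at this
      exact this.1
    · have h1 := Finset.card_le_card hvts
      have h2 : (cols ω E).card ≤ E.card := by
        have hsub : cols ω E ⊆ (E.image ω).eraseNone := by
          intro k hk
          simp only [cols, Finset.mem_filter, Finset.mem_univ, true_and] at hk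
          rw [Finset.mem_eraseNone, Finset.mem_image]
          exact hk
        exact (Finset.card_le_card hsub).trans
          ((Finset.card_eraseNone_le _).trans Finset.card_image_le)
      omega
  have hne : E.Nonempty := by
    rw [← Finset.card_pos]; omega
  obtain ⟨e, he⟩ := hne
  have hex : ∃ v, v ∈ e.1 := by
    induction h : e.1 with
    | _ a b => exact ⟨a, by simp⟩
  obtain ⟨v, hv⟩ := hex
  have hvE : v ∈ vts E := by
    simp only [vts, Finset.mem_filter, Finset.mem_univ, true_and]
    exact ⟨e, he, hv⟩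
  refine hS v (hvts hvE) ?_
  simp only [Bad, Finset.mem_filter, Finset.mem_univ, true_and]
  exact ⟨E, by omega, hcyc, hvE⟩

/-! ### Counting -/

theorem ld_avg {n : ℕ} (G : SimpleGraph (Fin n)) (a : Fin n) :
    ∑ v, (if a ∈ ldC G v then (1 : ℝ) / (ldC G v).card else 0) = 1 := by
  rw [← Finset.sum_filter]
  have h1 : univ.filter (fun v => a ∈ ldC G v) = ldC G a := by
    ext v
    simp only [Finset.mem_filter, Finset.mem_univ, true_and, ld_mem_C]
    exact ⟨fun h => h.symm, fun h => h.symm⟩
  rw [h1]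
  have h2 : ∀ v ∈ ldC G a, (1 : ℝ) / (ldC G v).card = 1 / (ldC G a).card := by
    intro v hv
    rw [ld_C_eq (ld_mem_C.1 hv)]
  rw [Finset.sum_congr rfl h2, Finset.sum_const, nsmul_eq_mul]
  have h3 : 0 < (ldC G a).card := Finset.card_pos.2 ⟨a, ld_mem_C.2 (Reachable.refl _)⟩
  field_simp

theorem ld_avg2 {n : ℕ} (G : SimpleGraph (Fin n)) (e : Sym2 (Fin n)) :
    ∑ v, (if ∃ w ∈ e, w ∈ ldC G v then (1 : ℝ) / (ldC G v).card else 0) ≤ 2 := by
  induction e with
  | _ a b =>
    calc ∑ v, (if ∃ w ∈ s(a, b), w ∈ ldC G v then (1 : ℝ) / (ldC G v).card else 0)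
        ≤ ∑ v, ((if a ∈ ldC G v then (1 : ℝ) / (ldC G v).card else 0) +
            (if b ∈ ldC G v then (1 : ℝ) / (ldC G v).card else 0)) := by
          apply Finset.sum_le_sum
          intro v _
          have h0 : (0 : ℝ) ≤ 1 / (ldC G v).card := by positivity
          by_cases ha : a ∈ ldC G v
          · rw [if_pos ha]
            split_ifs <;> linarith
          · by_cases hb : b ∈ ldC G v
            · rw [if_pos hb, if_neg ha]
              split_ifs <;> linarith
            · rw [if_neg ha, if_neg hb, if_neg]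
              · simp
              · rintro ⟨w, hw, hwC⟩
                simp only [Sym2.mem_iff] at hw
                rcases hw with rfl | rfl
                · exact ha hwC
                · exact hb hwC
      _ = 2 := by
          rw [Finset.sum_add_distrib, ld_avg, ld_avg]; norm_num

theorem ld_many {n : ℕ} (G : SimpleGraph (Fin n)) (D : Finset (Edge n)) (τ : ℝ) (hτ : 0 < τ) :
    ((univ.filter (fun v => τ * (ldC G v).card < ldd G D v)).card : ℝ) ≤ (2 / τ) * D.card := by
  set W := univ.filter (fun v => τ * (ldC G v).card < ldd G D v) with hW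
  have h1 : τ * W.card ≤ ∑ v, (ldd G D v : ℝ) * (1 / (ldC G v).card) := by
    calc τ * W.card = ∑ v ∈ W, τ := by rw [Finset.sum_const, nsmul_eq_mul]; ring
      _ ≤ ∑ v ∈ W, (ldd G D v : ℝ) * (1 / (ldC G v).card) := by
          apply Finset.sum_le_sum
          intro v hv
          rw [hW, Finset.mem_filter] at hv
          have h3 : 0 < (ldC G v).card := Finset.card_pos.2 ⟨v, ld_mem_C.2 (Reachable.refl _)⟩
          have h4 : (0 : ℝ) < (ldC G v).card := by exact_mod_cast h3
          rw [mul_one_div, le_div_iff₀ h4]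
          exact hv.2.le
      _ ≤ _ := Finset.sum_le_univ_sum_of_nonneg (fun v => by positivity)
  have h2 : ∑ v, (ldd G D v : ℝ) * (1 / (ldC G v).card) ≤ 2 * D.card := by
    calc ∑ v, (ldd G D v : ℝ) * (1 / (ldC G v).card)
        = ∑ v, ∑ e ∈ D, (if ∃ w ∈ e.1, w ∈ ldC G v then (1 : ℝ) / (ldC G v).card else 0) := by
          apply Finset.sum_congr rfl
          intro v _
          rw [← Finset.sum_filter, Finset.sum_const, nsmul_eq_mul]
          rfl
      _ = ∑ e ∈ D, ∑ v, (if ∃ w ∈ e.1, w ∈ ldC G v then (1 : ℝ) / (ldC G v).card else 0) :=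
          Finset.sum_comm
      _ ≤ ∑ e ∈ D, (2 : ℝ) := Finset.sum_le_sum (fun e _ => ld_avg2 G e.1)
      _ = 2 * D.card := by rw [Finset.sum_const, nsmul_eq_mul]; ring
  rw [div_mul_eq_mul_div, le_div_iff₀ hτ]
  linarith

theorem ld_family {n : ℕ} (G : SimpleGraph (Fin n)) (P : Finset (Finset (Fin n))) (k : ℕ)
    (hP : ∀ S ∈ P, S.card = k) :
    (univ.filter (fun v => ldC G v ∈ P)).card ≤ k * P.card := by
  have hsub : univ.filter (fun v => ldC G v ∈ P) ⊆ P.biUnion (fun S => S) := by
    intro v hv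
    rw [Finset.mem_filter] at hv
    rw [Finset.mem_biUnion]
    exact ⟨ldC G v, hv.2, ld_mem_C.2 (Reachable.refl _)⟩
  refine (Finset.card_le_card hsub).trans ?_
  rw [mul_comm]
  exact Finset.card_biUnion_le_card_mul _ _ _ (fun S hS => (hP S hS).le)

theorem ld_C_notB {n c : ℕ} {ω : Conf n c} {F : SimpleGraph (Fin n)} {B : Finset (Fin n)}
    {v w : Fin n} (hv : v ∉ B) (hw : w ∈ ldC (ldG ω (ldDel ω F B)) v) : w ∉ B := by
  rw [ld_mem_C] at hw
  obtain ⟨p⟩ := hw.symm
  cases p with
  | nil => exact hv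
  | cons h p => exact ld_supp_G h

theorem low_det {n c : ℕ} (ω : Conf n c) (K k₁ : ℕ) (hK : 1 ≤ K) (τ : ℝ) (hτ : 0 < τ)
    (hk₁ : ∀ k < k₁, τ * k < 1) :
    (n : ℝ) ≤ L K ω + (Bad K ω).card +
      (2 / τ) * (Real.sqrt ((L K ω + (Bad K ω).card) * ∑ v, (dg ω v : ℝ) ^ 2) +
        Real.sqrt (L K ω * ∑ k, (cls ω k : ℝ) ^ 2)) +
      ∑ k ∈ Finset.Ico 1 k₁, (k : ℝ) * NT k ω + ∑ k ∈ Finset.Ico k₁ K, (k : ℝ) * NM τ k ω := by
  obtain ⟨F, hF, hL, hsupp, hacyc⟩ := ld_exists_F ω K
  set V₀ : Finset (Fin n) := univ.filter (fun v => v ∈ bigV F K) with hV₀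
  have hV₀c : V₀.card = L K ω := by
    rw [← hL, Set.ncard_eq_toFinset_card']
    congr 1
    ext v
    simp [hV₀]
  set B : Finset (Fin n) := V₀ ∪ Bad K ω with hBdef
  have hB : ∀ v, v ∉ B → v ∉ bigV F K ∧ v ∉ Bad K ω := by
    intro v hv
    rw [hBdef, Finset.mem_union, not_or] at hv
    refine ⟨?_, hv.2⟩
    intro h
    exact hv.1 (by rw [hV₀, Finset.mem_filter]; exact ⟨Finset.mem_univ _, h⟩)
  have hBc : (B.card : ℝ) ≤ L K ω + (Bad K ω).card := by
    have h1 := Finset.card_union_le V₀ (Bad K ω)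
    rw [hV₀c] at h1
    exact_mod_cast h1
  have hsc : (F.support.ncard : ℝ) ≤ L K ω := by
    rw [← hL]
    exact_mod_cast Set.ncard_le_ncard hsupp (Set.toFinite _)
  set D := ldDel ω F B with hD
  have hDc := ld_del_card ω F hacyc B _ _ hBc hsc
  set G := ldG ω D with hG
  -- the four kinds of vertices
  set W₀ := univ.filter (fun v => τ * (ldC G v).card < ldd G D v) with hW₀
  set PT : ℕ → Finset (Finset (Fin n)) := fun k => univ.filter (fun S : Finset (Fin n) =>
    S.card = k ∧ cn ω S ∧ eIn ω S + 1 = k ∧ eOut ω S = 0) with hPT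
  set PM : ℕ → Finset (Finset (Fin n)) := fun k => univ.filter (fun S : Finset (Fin n) =>
    S.card = k ∧ cn ω S ∧ (eOut ω S : ℝ) ≤ τ * k) with hPM
  have hcover : (univ : Finset (Fin n)) ⊆ ((B ∪ W₀) ∪
      (Finset.Ico 1 k₁).biUnion (fun k => univ.filter (fun v => ldC G v ∈ PT k))) ∪
      (Finset.Ico k₁ K).biUnion (fun k => univ.filter (fun v => ldC G v ∈ PM k)) := by
    intro v _
    by_cases hvB : v ∈ B
    · simp [hvB]
    by_cases hvW : v ∈ W₀
    · simp [hvW]
    have hlt := ld_small ω K hK F hF hL B hB v hvB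
    have hpos : 0 < (ldC G v).card := Finset.card_pos.2 ⟨v, ld_mem_C.2 (Reachable.refl _)⟩
    have hle : (ldd G D v : ℝ) ≤ τ * (ldC G v).card := by
      rw [hW₀, Finset.mem_filter] at hvW
      push Not at hvW
      exact hvW (Finset.mem_univ _)
    have hout := ld_out ω D v
    have hcn := ld_cn ω D v
    rw [Finset.mem_union, Finset.mem_union, Finset.mem_biUnion, Finset.mem_biUnion]
    by_cases hk : (ldC G v).card < k₁
    · left; right
      have h1 := hk₁ _ hk
      have h2 : ldd G D v = 0 := by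
        have : (ldd G D v : ℝ) < 1 := lt_of_le_of_lt hle h1
        have h3 : ldd G D v < 1 := by exact_mod_cast this
        omega
      have h4 : eOut ω (ldC G v) = 0 := by
        have : eOut ω (ldC G v) ≤ ldd G D v := hout
        omega
      have h5 := ld_in_ge ω _ hcn
      have h6 := ld_in_le ω (ldC G v) K hpos hlt.le
        (fun w hw => (hB w (ld_C_notB hvB hw)).2)
      refine ⟨(ldC G v).card, Finset.mem_Ico.2 ⟨hpos, hk⟩, ?_⟩
      rw [Finset.mem_filter]
      refine ⟨Finset.mem_univ _, ?_⟩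
      rw [hPT, Finset.mem_filter]
      refine ⟨Finset.mem_univ _, rfl, hcn, ?_, h4⟩
      have h7 : (ldC G v).card ≤ eIn ω (ldC G v) + 1 := h5
      omega
    · right
      refine ⟨(ldC G v).card, Finset.mem_Ico.2 ⟨by omega, hlt⟩, ?_⟩
      rw [Finset.mem_filter]
      refine ⟨Finset.mem_univ _, ?_⟩
      rw [hPM, Finset.mem_filter]
      refine ⟨Finset.mem_univ _, rfl, hcn, le_trans ?_ hle⟩
      exact_mod_cast hout
  have hcard := Finset.card_le_card hcover
  rw [Finset.card_univ, Fintype.card_fin] at hcard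
  have h1 : n ≤ B.card + W₀.card + ∑ k ∈ Finset.Ico 1 k₁, k * NT k ω +
      ∑ k ∈ Finset.Ico k₁ K, k * NM τ k ω := by
    refine hcard.trans ((Finset.card_union_le _ _).trans (Nat.add_le_add
      ((Finset.card_union_le _ _).trans (Nat.add_le_add (Finset.card_union_le _ _) ?_)) ?_))
    · refine Finset.card_biUnion_le.trans (Finset.sum_le_sum (fun k _ => ?_))
      refine ld_family G (PT k) k (fun S hS => ?_)
      rw [hPT, Finset.mem_filter] at hS
      exact hS.2.1
    · refine Finset.card_biUnion_le.trans (Finset.sum_le_sum (fun k _ => ?_))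
      refine ld_family G (PM k) k (fun S hS => ?_)
      rw [hPM, Finset.mem_filter] at hS
      exact hS.2.1
  have h2 : (n : ℝ) ≤ B.card + W₀.card + ∑ k ∈ Finset.Ico 1 k₁, (k : ℝ) * NT k ω +
      ∑ k ∈ Finset.Ico k₁ K, (k : ℝ) * NM τ k ω := by
    exact_mod_cast h1
  have h3 := ld_many G D τ hτ
  have h4 : (2 / τ) * (D.card : ℝ) ≤ (2 / τ) *
      (Real.sqrt ((L K ω + (Bad K ω).card) * ∑ v, (dg ω v : ℝ) ^ 2) +
        Real.sqrt (L K ω * ∑ k, (cls ω k : ℝ) ^ 2)) :=
    mul_le_mul_of_nonneg_left hDc (by positivity)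
  linarith

end Pool.Agent.Lib.MP_fdca68_pr
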