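import Pool.Agent.Lib.MP_fdca68_pr.Trees

/-!
# Expected numbers of small tree components and of sparsely attached connected sets
-/

namespace Pool.Agent.Lib.MP_fdca68_pr

open Finset SimpleGraph
open scoped Classical

variable {n c : ℕ}

/-- `S` spans a connected subgraph -/
def cn (ω : Conf n c) (S : Finset (Fin n)) : Prop :=
  ((gr ω).induce (S : Set (Fin n))).Connected

/-- number of components which are trees with `k` vertices -/
noncomputable def NT (k : ℕ) (ω : Conf n c) : ℕ :=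
  (univ.filter (fun S : Finset (Fin n) => S.card = k ∧ cn ω S ∧ eIn ω S + 1 = k ∧
    eOut ω S = 0)).card

/-- number of connected `k`-sets with at most `τ k` outgoing edges -/
noncomputable def NM (τ : ℝ) (k : ℕ) (ω : Conf n c) : ℕ :=
  (univ.filter (fun S : Finset (Fin n) => S.card = k ∧ cn ω S ∧
    (eOut ω S : ℝ) ≤ τ * k)).card

/-! ### Auxiliary facts -/

/-- the pairs leaving `S` -/
noncomputable def lowex_out (S : Finset (Fin n)) : Finset (Edge n) :=
  univ.filter (fun e => (∃ v ∈ e.1, v ∈ S) ∧ (∃ v ∈ e.1, v ∉ S))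

theorem lowex_eOut (ω : Conf n c) (S : Finset (Fin n)) :
    eOut ω S = ((lowex_out S).filter (fun e => ω e ≠ none)).card := by
  unfold eOut lowex_out
  rw [Finset.filter_filter]
  congr 1
  ext e
  simp only [Finset.mem_filter, Finset.mem_univ, true_and]
  tauto

theorem lowex_out_card (S : Finset (Fin n)) : S.card * (n - S.card) ≤ (lowex_out S).card := by
  have h1 : (S ×ˢ (univ \ S)).card = S.card * (n - S.card) := by
    rw [Finset.card_product, Finset.card_sdiff_of_subset (Finset.subset_univ S), Finset.card_univ,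
      Fintype.card_fin]
  rw [← h1, ← Finset.card_map (Function.Embedding.subtype _) (s := lowex_out S)]
  refine Finset.card_le_card_of_injOn (fun x => s(x.1, x.2)) ?_ ?_
  · rintro ⟨u, w⟩ h
    simp only [Finset.coe_product, Set.mem_prod, Finset.mem_coe, Finset.mem_sdiff,
      Finset.mem_univ, true_and] at h
    have hne : ¬ (s(u, w)).IsDiag := by
      rw [Sym2.mk_isDiag_iff]
      rintro rfl
      exact h.2 h.1
    simp only [Finset.coe_map, Set.mem_image, Finset.mem_coe, Function.Embedding.subtype_apply]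
    refine ⟨⟨s(u, w), hne⟩, ?_, rfl⟩
    simp only [lowex_out, Finset.mem_filter, Finset.mem_univ, true_and]
    exact ⟨⟨u, Sym2.mem_mk_left u w, h.1⟩, ⟨w, Sym2.mem_mk_right u w, h.2⟩⟩
  · rintro ⟨u, w⟩ h ⟨u', w'⟩ h' heq
    simp only [Finset.coe_product, Set.mem_prod, Finset.mem_coe, Finset.mem_sdiff,
      Finset.mem_univ, true_and] at h h'
    simp only [Sym2.eq_iff] at heq
    rcases heq with ⟨h1, h2⟩ | ⟨h1, h2⟩
    · rw [h1, h2]
    · exfalso
      rw [← h2] at h'
      exact h.2 (by rw [h2]; exact (by rw [← h2]; exact h'.1))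

theorem lowex_disj (S : Finset (Fin n)) (G : SimpleGraph (Fin S.card)) :
    Disjoint (tree_P S G) (lowex_out S) := by
  rw [Finset.disjoint_left]
  intro e h1 h2
  simp only [tree_P, lowex_out, Finset.mem_filter, Finset.mem_univ, true_and] at h1 h2
  obtain ⟨-, v, hv, hvS⟩ := h2
  apply hvS
  obtain ⟨e, he⟩ := e
  induction e with
  | _ a b =>
    simp only [SimpleGraph.mem_edgeSet, SimpleGraph.map_adj] at h1
    obtain ⟨i, j, _, rfl, rfl⟩ := h1
    simp only [Sym2.mem_iff] at hv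
    rcases hv with rfl | rfl
    · exact tree_emb_mem S i
    · exact tree_emb_mem S j

/-- a connected set contains a spanning tree -/
theorem lowex_span {ω : Conf n c} {S : Finset (Fin n)} (h : cn ω S) :
    ∃ G : {H : SimpleGraph (Fin S.card) // H.IsTree}, ∀ e ∈ tree_P S G.1, ω e ≠ none := by
  have h1 : ((gr ω).comap (tree_emb S)).Connected := by
    have hcon : ((gr ω).induce (S : Set (Fin n))).Connected := h
    let φ : Fin S.card ≃ (S : Set (Fin n)) :=
      Equiv.ofBijective (fun i => ⟨tree_emb S i, tree_emb_mem S i⟩) ⟨by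
        intro i j hij
        exact (tree_emb S).injective (congrArg Subtype.val hij), by
        rintro ⟨v, hv⟩
        obtain ⟨i, hi⟩ := tree_emb_surj S hv
        exact ⟨i, Subtype.ext hi⟩⟩
    have e : (gr ω).comap (tree_emb S) ≃g (gr ω).induce (S : Set (Fin n)) :=
      ⟨φ, by intro a b; rfl⟩
    exact e.symm.connected_iff.mp hcon
  obtain ⟨T', hT1, hT2⟩ := h1.exists_isTree_le
  refine ⟨⟨T', hT2⟩, ?_⟩
  intro e he
  simp only [tree_P, Finset.mem_filter, Finset.mem_univ, true_and] at he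
  obtain ⟨e, hd⟩ := e
  induction e with
  | _ a b =>
    simp only [SimpleGraph.mem_edgeSet, SimpleGraph.map_adj] at he
    obtain ⟨i, j, hij, rfl, rfl⟩ := he
    have h2 : (gr ω).Adj (tree_emb S i) (tree_emb S j) := hT1 hij
    rw [gr_adj] at h2
    have h3 := col_coe ω ⟨s(tree_emb S i, tree_emb S j), hd⟩
    rw [← h3]
    exact h2

/-- union bound over trees -/
theorem lowex_pr {p : ℝ} (h0 : 0 ≤ p) (h1 : p ≤ 1) (S : Finset (Fin n)) (A : Set (Conf n c))
    (hA : A ⊆ {ω | cn ω S}) (B : ℝ)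
    (hB : ∀ G : {H : SimpleGraph (Fin S.card) // H.IsTree},
      Pr n c p {ω | (∀ e ∈ tree_P S G.1, ω e ≠ none) ∧ ω ∈ A} ≤ p ^ (S.card - 1) * B) :
    Pr n c p A ≤ tr S.card * (p ^ (S.card - 1) * B) := by
  have h2 : A ⊆ {ω | ∃ G ∈ (univ : Finset {H : SimpleGraph (Fin S.card) // H.IsTree}),
      ω ∈ {ω : Conf n c | (∀ e ∈ tree_P S G.1, ω e ≠ none) ∧ ω ∈ A}} := by
    intro ω hω
    obtain ⟨G, hG⟩ := lowex_span (hA hω)
    exact ⟨G, Finset.mem_univ _, hG, hω⟩
  refine (Pr_mono h0 h1 h2).trans ((Pr_biUnion_le h0 h1 _ _).trans ?_)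
  refine (Finset.sum_le_sum (fun G _ => hB G)).trans ?_
  rw [Finset.sum_const, nsmul_eq_mul]
  exact le_of_eq rfl

theorem lowex_choose (k : ℕ) (hk : 1 ≤ k) (hn : 0 < n) :
    (k : ℝ) * (n.choose k : ℝ) ≤ n * ((n : ℝ) ^ (k - 1) / (k - 1).factorial) := by
  obtain ⟨j, rfl⟩ : ∃ j, k = j + 1 := ⟨k - 1, by omega⟩
  obtain ⟨m, rfl⟩ : ∃ m, n = m + 1 := ⟨n - 1, by omega⟩
  have h1 : ((m + 1).choose (j + 1) : ℝ) * ((j + 1 : ℕ) : ℝ) = ((m + 1 : ℕ) : ℝ) * (m.choose j : ℝ) := by
    have := Nat.add_one_mul_choose_eq m j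
    exact_mod_cast this.symm
  rw [mul_comm, h1]
  refine mul_le_mul_of_nonneg_left ?_ (by positivity)
  rw [Nat.add_sub_cancel]
  have h2 : (m.choose j : ℝ) ≤ (m : ℝ) ^ j / j.factorial := Nat.choose_le_pow_div j m
  refine h2.trans ?_
  gcongr
  linarith

/-- the general first moment computation -/
theorem lowex_main {lam : ℝ} (hl : 0 < lam) (hn : lam ≤ n) (k : ℕ) (hk : 1 ≤ k)
    (Q : Conf n c → Finset (Fin n) → Prop) (hQ : ∀ ω S, Q ω S → cn ω S) (B : ℝ) (hB0 : 0 ≤ B)
    (hB : ∀ S : Finset (Fin n), S.card = k → ∀ G : {H : SimpleGraph (Fin S.card) // H.IsTree},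
      Pr n c (lam / n) {ω | (∀ e ∈ tree_P S G.1, ω e ≠ none) ∧ Q ω S} ≤
        (lam / n) ^ (S.card - 1) * B) :
    Ex n c (lam / n) (fun ω => (k : ℝ) *
      ((univ.filter (fun S : Finset (Fin n) => S.card = k ∧ Q ω S)).card : ℕ)) ≤
      n * (ak k * lam ^ (k - 1) * B) := by
  have hn0 : (0 : ℝ) < n := lt_of_lt_of_le hl hn
  have hn1 : 0 < n := by exact_mod_cast hn0
  have p0 : 0 ≤ lam / n := by positivity
  have p1 : lam / n ≤ 1 := by rw [div_le_one hn0]; exact hn
  rw [Ex_mul]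
  have e1 : (fun ω : Conf n c =>
      (((univ.filter (fun S : Finset (Fin n) => S.card = k ∧ Q ω S)).card : ℕ) : ℝ)) =
      fun ω => ∑ S ∈ univ.filter (fun S : Finset (Fin n) => S.card = k),
        (if ω ∈ {ω : Conf n c | Q ω S} then (1 : ℝ) else 0) := by
    funext ω
    rw [Finset.card_eq_sum_ones, ← Finset.filter_filter, Finset.sum_filter]
    push_cast
    refine Finset.sum_congr rfl fun S _ => ?_
    simp only [Set.mem_ofPred_eq]
  rw [e1, Ex_sum]
  have e2 : ∀ S ∈ univ.filter (fun S : Finset (Fin n) => S.card = k),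
      Ex n c (lam / n) (fun ω => if ω ∈ {ω : Conf n c | Q ω S} then (1 : ℝ) else 0) ≤
        tr k * ((lam / n) ^ (k - 1) * B) := by
    intro S hS
    rw [Finset.mem_filter] at hS
    rw [← Pr_eq_Ex]
    have h := lowex_pr p0 p1 S {ω : Conf n c | Q ω S} (fun ω hω => hQ ω S hω) B
      (fun G => hB S hS.2 G)
    rw [hS.2] at h
    exact h
  have e3 : (univ.filter (fun S : Finset (Fin n) => S.card = k)).card = n.choose k := by
    have := Finset.card_powersetCard k (univ : Finset (Fin n))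
    rw [Finset.card_univ, Fintype.card_fin] at this
    rw [← this]
    congr 1
    ext S
    simp [Finset.mem_powersetCard]
  calc (k : ℝ) * ∑ S ∈ univ.filter (fun S : Finset (Fin n) => S.card = k),
        Ex n c (lam / n) (fun ω => if ω ∈ {ω : Conf n c | Q ω S} then (1 : ℝ) else 0)
      ≤ k * ∑ _S ∈ univ.filter (fun S : Finset (Fin n) => S.card = k),
        (tr k * ((lam / n) ^ (k - 1) * B)) := by
        gcongr with S hS
        exact e2 S hS
    _ = (k * (n.choose k : ℝ)) * (tr k * ((lam / n) ^ (k - 1) * B)) := by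
        rw [Finset.sum_const, e3, nsmul_eq_mul]; ring
    _ ≤ (n * ((n : ℝ) ^ (k - 1) / (k - 1).factorial)) * (tr k * ((lam / n) ^ (k - 1) * B)) := by
        refine mul_le_mul_of_nonneg_right (lowex_choose k hk hn1) (by positivity)
    _ = n * (ak k * lam ^ (k - 1) * B) := by
        unfold ak
        rw [div_pow]
        have : ((n : ℝ) ^ (k - 1)) ≠ 0 := by positivity
        field_simp

theorem lowex_exp {lam : ℝ} (hl : 0 < lam) (hn : lam ≤ n) (S : Finset (Fin n)) {y : ℝ}
    (hy : 0 ≤ y) (hy1 : y ≤ 1) :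
    Real.exp (-(lam / n * y * (lowex_out S).card)) ≤
      Real.exp (-(lam * y * S.card)) * Real.exp (lam * (S.card : ℝ) ^ 2 / n) := by
  have hn0 : (0 : ℝ) < n := lt_of_lt_of_le hl hn
  rw [← Real.exp_add]
  apply Real.exp_le_exp.mpr
  have hSn : S.card ≤ n := by
    have := Finset.card_le_univ S
    rwa [Fintype.card_fin] at this
  have h1 : (S.card : ℝ) * (n - S.card) ≤ (lowex_out S).card := by
    have := lowex_out_card S
    have h2 : ((S.card * (n - S.card) : ℕ) : ℝ) ≤ ((lowex_out S).card : ℝ) := by exact_mod_cast this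
    rw [Nat.cast_mul, Nat.cast_sub hSn] at h2
    exact h2
  have h3 : lam / n * y * ((S.card : ℝ) * (n - S.card)) ≤ lam / n * y * (lowex_out S).card :=
    mul_le_mul_of_nonneg_left h1 (by positivity)
  have h4 : lam / n * y * ((S.card : ℝ) * (n - S.card)) =
      lam * y * S.card - y * (lam * (S.card : ℝ) ^ 2 / n) := by
    field_simp
  have h5 : y * (lam * (S.card : ℝ) ^ 2 / n) ≤ lam * (S.card : ℝ) ^ 2 / n := by
    have : 0 ≤ lam * (S.card : ℝ) ^ 2 / n := by positivity
    nlinarith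
  linarith

theorem Ex_NT (hc : 0 < c) {lam : ℝ} (hl : 0 < lam) (hn : lam ≤ n) (k : ℕ) (hk : 1 ≤ k) :
    Ex n c (lam / n) (fun ω => (k : ℝ) * NT k ω) ≤
      n * (ak k * lam ^ (k - 1) * Real.exp (-(lam * k)) * Real.exp (lam * k ^ 2 / n)) := by
  have hn0 : (0 : ℝ) < n := lt_of_lt_of_le hl hn
  have p0 : 0 ≤ lam / n := by positivity
  have p1 : lam / n ≤ 1 := by rw [div_le_one hn0]; exact hn
  have h := lowex_main (c := c) hl hn k hk (fun ω S => cn ω S ∧ eIn ω S + 1 = k ∧ eOut ω S = 0)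
    (fun ω S h => h.1) (Real.exp (-(lam * k)) * Real.exp (lam * k ^ 2 / n)) (by positivity) ?_
  · rw [mul_assoc (ak k * lam ^ (k - 1))]
    refine le_trans (le_of_eq ?_) h
    refine congrArg (Ex n c (lam / n)) (funext fun ω => ?_)
    refine congrArg (fun t : ℕ => (k : ℝ) * (t : ℝ)) ?_
    exact congrArg Finset.card (by ext S; simp only [Finset.mem_filter])
  · intro S hS G
    have h1 : {ω : Conf n c | (∀ e ∈ tree_P S G.1, ω e ≠ none) ∧ cn ω S ∧ eIn ω S + 1 = k ∧
        eOut ω S = 0} ⊆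
        {ω | (∀ e ∈ tree_P S G.1, ω e ≠ none) ∧ ∀ e ∈ lowex_out S, ω e = none} := by
      rintro ω ⟨h1, _, _, h4⟩
      refine ⟨h1, ?_⟩
      rw [lowex_eOut, Finset.card_eq_zero, Finset.filter_eq_empty_iff] at h4
      intro e he
      have := h4 he
      exact not_not.mp this
    refine (Pr_mono p0 p1 h1).trans ?_
    rw [Pr_pres_abs hc _ _ (lowex_disj S G.1), tree_P_card S G.1 G.2]
    refine mul_le_mul_of_nonneg_left ?_ (by positivity)
    have h2 : (1 - lam / n) ^ (lowex_out S).card ≤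
        Real.exp (-(lam / n * 1 * (lowex_out S).card)) := by
      have h3 : 1 - lam / n ≤ Real.exp (-(lam / n)) := by
        have := Real.add_one_le_exp (-(lam / n))
        linarith
      refine (pow_le_pow_left₀ (by linarith) h3 _).trans ?_
      rw [← Real.exp_nat_mul]
      apply Real.exp_le_exp.mpr
      exact le_of_eq (by ring)
    refine h2.trans ((lowex_exp hl hn S zero_le_one le_rfl).trans ?_)
    rw [hS, mul_one]

theorem Ex_NM (hc : 0 < c) {lam : ℝ} (hl : 0 < lam) (hn : lam ≤ n) (k : ℕ) (hk : 1 ≤ k)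
    {τ z : ℝ} (hz : 0 < z) (hz1 : z ≤ 1) :
    Ex n c (lam / n) (fun ω => (k : ℝ) * NM τ k ω) ≤
      n * (ak k * lam ^ (k - 1) * Real.exp (τ * k * Real.log z⁻¹) *
        Real.exp (-(lam * (1 - z) * k)) * Real.exp (lam * k ^ 2 / n)) := by
  have hn0 : (0 : ℝ) < n := lt_of_lt_of_le hl hn
  have p0 : 0 ≤ lam / n := by positivity
  have p1 : lam / n ≤ 1 := by rw [div_le_one hn0]; exact hn
  have h := lowex_main (c := c) hl hn k hk (fun ω S => cn ω S ∧ (eOut ω S : ℝ) ≤ τ * k)
    (fun ω S h => h.1) (Real.exp (τ * k * Real.log z⁻¹) *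
      (Real.exp (-(lam * (1 - z) * k)) * Real.exp (lam * k ^ 2 / n))) (by positivity) ?_
  · rw [mul_assoc (ak k * lam ^ (k - 1) * Real.exp (τ * k * Real.log z⁻¹)),
      mul_assoc (ak k * lam ^ (k - 1))]
    refine le_trans (le_of_eq ?_) h
    refine congrArg (Ex n c (lam / n)) (funext fun ω => ?_)
    refine congrArg (fun t : ℕ => (k : ℝ) * (t : ℝ)) ?_
    exact congrArg Finset.card (by ext S; simp only [Finset.mem_filter])
  · intro S hS G
    have h1 : {ω : Conf n c | (∀ e ∈ tree_P S G.1, ω e ≠ none) ∧ cn ω S ∧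
        (eOut ω S : ℝ) ≤ τ * k} ⊆
        {ω | (∀ e ∈ tree_P S G.1, ω e ≠ none) ∧
          (((lowex_out S).filter (fun e => ω e ≠ none)).card : ℝ) ≤ τ * k} := by
      rintro ω ⟨h1, _, h4⟩
      refine ⟨h1, ?_⟩
      rw [lowex_eOut] at h4
      exact h4
    refine (Pr_mono p0 p1 h1).trans ?_
    refine (Pr_pres_few hc p0 p1 _ _ (lowex_disj S G.1) (τ * k) z hz hz1).trans ?_
    rw [tree_P_card S G.1 G.2]
    refine mul_le_mul_of_nonneg_left ?_ (by positivity)
    refine mul_le_mul_of_nonneg_left ?_ (by positivity)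
    have h2 := lowex_exp hl hn S (y := 1 - z) (by linarith) (by linarith)
    rw [hS] at h2
    exact h2

end Pool.Agent.Lib.MP_fdca68_pr
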