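import Pool.Agent.Lib.MP_fdca68_pr.MergeCore
import Pool.Agent.Lib.MP_fdca68_pr.Links
import Pool.Agent.Lib.MP_fdca68_pr.Clean
import Pool.Agent.Lib.MP_fdca68_pr.Decomp

/-!
# One doubling step
-/

namespace Pool.Agent.Lib.MP_fdca68_pr

open Finset SimpleGraph
open scoped Classical

theorem merge_tail {n c : ℕ} (ω : Conf n c) (C : ℝ) (D : ℕ) (hD : 0 < D)
    (h1 : ∑ v, (dg ω v : ℝ) ^ 2 ≤ C * n) :
    ((∑ v ∈ univ.filter (fun v => D < dg ω v), dg ω v : ℕ) : ℝ) ≤ C * n / D := by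
  have hD' : (0 : ℝ) < D := by exact_mod_cast hD
  rw [le_div_iff₀ hD']
  push_cast
  rw [Finset.sum_mul]
  refine le_trans ?_ h1
  refine le_trans (Finset.sum_le_sum (g := fun v => (dg ω v : ℝ) ^ 2) ?_)
    (Finset.sum_le_sum_of_subset_of_nonneg (Finset.filter_subset _ _) ?_)
  · intro v hv
    have h2 : D < dg ω v := (Finset.mem_filter.mp hv).2
    have h3 : (D : ℝ) ≤ dg ω v := by exact_mod_cast h2.le
    have h4 : (0 : ℝ) ≤ dg ω v := by positivity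
    nlinarith
  · intro v _ _
    positivity

theorem merge_step (ρ θ C : ℝ) (hρ : 0 < ρ) (hρ1 : ρ ≤ 1 / 2) (hθ : 0 < θ) (hC : 0 < C) :
    ∃ ξ : ℝ, 0 < ξ ∧ ∃ K₀ : ℕ, ∀ K ≥ K₀, ∃ s : ℕ, ∀ (n c : ℕ) (ω : Conf n c),
      (∑ v, (dg ω v : ℝ) ^ 2 ≤ C * n) → (∑ k, (cls ω k : ℝ) ^ 2 ≤ C * n) →
      ((Bad s ω).card : ℝ) ≤ ξ * n → Expd ω ρ θ →
      (L K ω : ℝ) ≤ L (2 * K) ω + 6 * ρ * n := by
  obtain ⟨Δ, hΔ⟩ := exists_nat_gt (16 * C / θ)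
  have hΔpos : (0 : ℝ) < Δ := lt_trans (by positivity) hΔ
  have hΔ0 : 0 < Δ := by exact_mod_cast hΔpos
  obtain ⟨ℓ, hℓ⟩ := exists_nat_gt (4 * (Δ : ℝ) / θ)
  have hℓ' : 4 * (Δ : ℝ) ≤ θ * ℓ := by
    rw [div_lt_iff₀ hθ] at hℓ
    linarith
  set r : ℕ := 2 * ℓ + 1 with hr
  set q : ℝ := (1 - ρ) * ρ ^ r with hq
  have hqpos : 0 < q := by
    have : 0 < 1 - ρ := by linarith
    positivity
  set B : ℝ := r * Δ * ((Δ : ℝ) + 1) ^ (r + 1) with hB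
  have hB0 : 0 ≤ B := by positivity
  set G : ℝ := 8 * (2 * ℓ + 2) * ((Δ : ℝ) + 1) ^ (ℓ + 2) with hG
  have hGpos : 0 < G := by positivity
  refine ⟨θ ^ 2 / (64 * C), by positivity, ?_⟩
  obtain ⟨m₀, hm₀⟩ := exists_nat_gt ((4 + 2 * B) / (q * ρ))
  have hm₀pos : (0 : ℝ) < m₀ := lt_of_le_of_lt (by positivity) hm₀
  obtain ⟨K₁, hK₁⟩ := exists_nat_gt ((m₀ + 1) * G / θ)
  obtain ⟨K₂, hK₂⟩ := exists_nat_gt (1 / θ)
  refine ⟨max (max K₁ K₂) 2, fun K hK => ?_⟩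
  have hKK₁ : K₁ ≤ K := le_trans (le_trans (le_max_left _ _) (le_max_left _ _)) hK
  have hKK₂ : K₂ ≤ K := le_trans (le_trans (le_max_right _ _) (le_max_left _ _)) hK
  have hK2 : 2 ≤ K := le_trans (le_max_right _ _) hK
  have hθK : 1 ≤ θ * K := by
    have h1 : (K₂ : ℝ) ≤ K := by exact_mod_cast hKK₂
    rw [div_lt_iff₀ hθ] at hK₂
    nlinarith
  have hθK1 : (m₀ + 1) * G ≤ θ * K := by
    have h1 : (K₁ : ℝ) ≤ K := by exact_mod_cast hKK₁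
    rw [div_lt_iff₀ hθ] at hK₁
    nlinarith
  set m : ℕ := m₀ with hm
  have hmpos : 0 < m := by exact_mod_cast hm₀pos
  have hmG : 8 * (m : ℝ) * (2 * ℓ + 2) * ((Δ : ℝ) + 1) ^ (ℓ + 2) ≤ θ * K := by
    have : 8 * (m : ℝ) * (2 * ℓ + 2) * ((Δ : ℝ) + 1) ^ (ℓ + 2) = m * G := by
      rw [hG]; ring
    rw [this]
    nlinarith
  obtain ⟨D, hD⟩ := exists_nat_gt ((K : ℝ) * C / ρ + 2)
  have hDpos : (0 : ℝ) < D := lt_trans (by positivity) hD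
  have hD2 : 2 ≤ D := by
    have : (2 : ℝ) < D := lt_of_le_of_lt (by
      have : (0:ℝ) ≤ (K : ℝ) * C / ρ := by positivity
      linarith) hD
    exact_mod_cast this.le
  refine ⟨2 * (1 + D * K) + 2 * r, ?_⟩
  intro n c ω h1 h2 h3 h4
  rcases Nat.eq_zero_or_pos n with hn | hn
  · subst hn
    have : L K ω ≤ 0 := L_le K ω
    have h5 : (L K ω : ℝ) = 0 := by
      have : L K ω = 0 := by omega
      exact_mod_cast this
    rw [h5]
    positivity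
  have hnpos : (0 : ℝ) < n := by exact_mod_cast hn
  obtain ⟨F, hRB, hacy, hsize, hLF⟩ := decomp ω K hK2 D hD2
  obtain ⟨Gs, hGs1, hGs2, hGs3, hGs4, hGs5⟩ := exists_clean ω C (θ ^ 2 / (64 * C)) Δ Δ
    (2 * (1 + D * K) + 2 * r) hC (by positivity) hΔ0 hΔ0 h1 h2 h3
  have hdel : ((univ.filter (fun e : Edge n => ω e ≠ none ∧ e.1 ∉ Gs.edgeSet)).card : ℝ) ≤
      θ / 4 * n := by
    refine le_trans hGs2 ?_
    apply mul_le_mul_of_nonneg_right _ hnpos.le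
    have e1 : C / Δ ≤ θ / 16 := by
      rw [div_le_iff₀ hΔpos]
      have : 16 * C / θ * θ < Δ * θ := mul_lt_mul_of_pos_right hΔ hθ
      rw [div_mul_cancel₀ _ hθ.ne'] at this
      linarith
    have e2 : Real.sqrt (θ ^ 2 / (64 * C) * C) = θ / 8 := by
      rw [show θ ^ 2 / (64 * C) * C = (θ / 8) ^ 2 by field_simp; norm_num]
      exact Real.sqrt_sq (by positivity)
    rw [e2]
    linarith
  have std : Std ω F Gs r (2 * (1 + D * K) + 2 * r) (1 + D * K) :=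
    ⟨hRB, hacy, fun v hv => (hsize v hv).2, hGs1, hGs4, le_rfl⟩
  have hcore := merge_core ω F Gs ρ ρ K (1 + D * K) r (2 * (1 + D * K) + 2 * r) m Δ Δ std
    (fun v hv => (hsize v hv).1) hGs3 hGs5 hρ hρ1 hmpos
    (fun X hXF hXc hXρ hXne => exists_rich ω F Gs ρ θ K Δ ℓ (2 * (1 + D * K) + 2 * r) m hθ hn hRB
      hacy (fun v hv => (hsize v hv).1) hGs1 hdel hGs3 hGs4 h4 hθK hℓ' (by omega) hmG X hXF hXc
      hXρ hXne) hρ.le
  have htail := merge_tail ω C D (by omega) h1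
  have hL : (L K ω : ℝ) ≤ (F.support.ncard : ℝ) + K * (C * n / D) := by
    have : (L K ω : ℝ) ≤ (F.support.ncard : ℝ) +
        K * ((∑ v ∈ univ.filter (fun v => D < dg ω v), dg ω v : ℕ) : ℝ) := by exact_mod_cast hLF
    refine le_trans this ?_
    gcongr
  have hKD : (K : ℝ) * (C * n / D) ≤ ρ * n := by
    have e1 : (K : ℝ) * C / ρ < D := by linarith
    rw [div_lt_iff₀ hρ] at e1
    rw [show (K : ℝ) * (C * n / D) = (K * C * n) / D by ring, div_le_iff₀ hDpos]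
    nlinarith
  have hqm : 0 < q * m := by positivity
  have hqm' : (4 + 2 * B) / (q * m) ≤ ρ := by
    rw [div_lt_iff₀ (by positivity)] at hm₀
    rw [div_le_iff₀ hqm]
    nlinarith
  have e4 : 4 / ((1 - ρ) * ρ ^ r * m) + 2 * (r * Δ * ((Δ : ℝ) + 1) ^ (r + 1)) /
      ((1 - ρ) * ρ ^ r * m) = (4 + 2 * B) / (q * m) := by
    rw [hB, hq]
    ring
  have hfin : (ρ + ρ + 4 / ((1 - ρ) * ρ ^ r * m) +
        2 * (r * Δ * ((Δ : ℝ) + 1) ^ (r + 1)) / ((1 - ρ) * ρ ^ r * m)) * n ≤ 3 * ρ * n := by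
    apply mul_le_mul_of_nonneg_right _ hnpos.le
    linarith
  nlinarith [mul_pos hρ hnpos]

end Pool.Agent.Lib.MP_fdca68_pr
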