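import Mathlib

/-!
# Random removal (abstract averaging lemma)
-/

namespace Pool.Agent.Lib.MP_fdca68_pr

open Finset
open scoped Classical

/-- product weight of a removal set -/
noncomputable def removeMu {ι : Type*} [Fintype ι] (η : ℝ) (R : Finset ι) : ℝ :=
  ∏ i, if i ∈ R then η else 1 - η

theorem removeMu_pos {ι : Type*} [Fintype ι] {η : ℝ} (h0 : 0 < η) (h1 : η ≤ 1 / 2)
    (R : Finset ι) : 0 < removeMu η R := by
  unfold removeMu
  refine Finset.prod_pos fun i _ => ?_
  split_ifs <;> linarith

theorem remove_prob {ι : Type*} [Fintype ι] (η : ℝ) (A B : Finset ι) (h : Disjoint A B) :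
    ∑ R : Finset ι, removeMu η R * (if Disjoint A R ∧ B ⊆ R then 1 else 0) =
      (1 - η) ^ A.card * η ^ B.card := by
  have key := Finset.prod_add (fun i => if i ∈ A then (0 : ℝ) else η)
    (fun i => if i ∈ B then (0 : ℝ) else 1 - η) (univ : Finset ι)
  have hL : ∏ i : ι, ((if i ∈ A then (0 : ℝ) else η) + (if i ∈ B then (0 : ℝ) else 1 - η)) =
      (1 - η) ^ A.card * η ^ B.card := by
    have e1 : ∀ i : ι, ((if i ∈ A then (0 : ℝ) else η) + (if i ∈ B then (0 : ℝ) else 1 - η)) =
        (if i ∈ A then (1 - η) else 1) * (if i ∈ B then η else 1) := by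
      intro i
      by_cases ha : i ∈ A
      · have hb : i ∉ B := fun hb => (Finset.disjoint_left.mp h) ha hb
        simp [ha, hb]
      · by_cases hb : i ∈ B
        · simp [ha, hb]
        · simp [ha, hb]
    rw [Finset.prod_congr rfl (fun i _ => e1 i), Finset.prod_mul_distrib]
    congr 1
    · rw [Finset.prod_ite, Finset.prod_const_one, mul_one, Finset.prod_const]
      congr 1
      simp
    · rw [Finset.prod_ite, Finset.prod_const_one, mul_one, Finset.prod_const]
      congr 1
      simp
  rw [hL, Finset.powerset_univ] at key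
  rw [key]
  refine Finset.sum_congr rfl fun R _ => ?_
  by_cases hc : Disjoint A R ∧ B ⊆ R
  · rw [if_pos hc, mul_one]
    have e2 : ∏ i ∈ R, (if i ∈ A then (0 : ℝ) else η) = ∏ i ∈ R, η := by
      refine Finset.prod_congr rfl fun i hi => ?_
      rw [if_neg]
      exact fun ha => (Finset.disjoint_left.mp hc.1) ha hi
    have e3 : ∏ i ∈ univ \ R, (if i ∈ B then (0 : ℝ) else 1 - η) = ∏ i ∈ univ \ R, (1 - η) := by
      refine Finset.prod_congr rfl fun i hi => ?_
      rw [if_neg]
      intro hb
      exact (Finset.mem_sdiff.mp hi).2 (hc.2 hb)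
    rw [e2, e3, removeMu, Finset.prod_ite]
    congr 1
    · congr 1
      ext i; simp
    · congr 1
      ext i; simp
  · rw [if_neg hc, mul_zero]
    rw [not_and_or] at hc
    rcases hc with hc | hc
    · rw [Finset.not_disjoint_iff] at hc
      obtain ⟨a, ha, haR⟩ := hc
      rw [Finset.prod_eq_zero haR (by simp [ha]), zero_mul]
    · obtain ⟨b, hb, hbR⟩ := Finset.not_subset.mp hc
      rw [Finset.prod_eq_zero (i := b) (s := univ \ R) (by simp [hbR]) (by simp [hb]), mul_zero]

theorem remove_tail {ι : Type*} [Fintype ι] (η : ℝ)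
    (h0 : 0 < η) (h1 : η ≤ 1 / 2) (r m : ℕ) (hm : 0 < m)
    (J : Fin m → ι) (B : Fin m → Finset ι)
    (hB : ∀ j, (B j).card ≤ r) (hJB : ∀ j, J j ∉ B j)
    (hdis : ∀ j j', j ≠ j' → Disjoint (insert (J j) (B j)) (insert (J j') (B j'))) :
    ∑ R : Finset ι, removeMu η R *
      (if ((univ.filter (fun j => J j ∉ R ∧ B j ⊆ R)).card : ℝ) <
        (1 - η) * η ^ r * m / 2 then 1 else 0) ≤ 4 / ((1 - η) * η ^ r * m) := by
  set q : ℝ := (1 - η) * η ^ r with hq
  have hq0 : 0 < q := by
    have : 0 < 1 - η := by linarith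
    positivity
  have hm' : (0 : ℝ) < m := by exact_mod_cast hm
  set p : Fin m → ℝ := fun j => (1 - η) ^ 1 * η ^ (B j).card with hp
  have hpq : ∀ j, q ≤ p j := by
    intro j
    simp only [hp, hq, pow_one]
    have : η ^ r ≤ η ^ (B j).card := pow_le_pow_of_le_one h0.le (by linarith) (hB j)
    have h3 : 0 ≤ 1 - η := by linarith
    exact mul_le_mul_of_nonneg_left this h3
  have hp1 : ∀ j, 0 ≤ p j := fun j => hq0.le.trans (hpq j)
  set X : Fin m → Finset ι → ℝ := fun j R => if J j ∉ R ∧ B j ⊆ R then 1 else 0 with hX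
  have hY : ∀ R : Finset ι, ((univ.filter (fun j => J j ∉ R ∧ B j ⊆ R)).card : ℝ) =
      ∑ j, X j R := by
    intro R
    rw [Finset.card_filter]
    push_cast
    rfl
  have hE1 : ∀ j, ∑ R : Finset ι, removeMu η R * X j R = p j := by
    intro j
    have := remove_prob η {J j} (B j) (by simpa using hJB j)
    rw [Finset.card_singleton] at this
    rw [show p j = (1 - η) ^ 1 * η ^ (B j).card from rfl, ← this]
    refine Finset.sum_congr rfl fun R _ => ?_
    simp only [hX, Finset.disjoint_singleton_left]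
  have hE0 : ∑ R : Finset ι, removeMu η R = 1 := by
    have := remove_prob (ι := ι) η ∅ ∅ (by simp)
    simpa using this
  have hE2 : ∀ j j', j ≠ j' → ∑ R : Finset ι, removeMu η R * (X j R * X j' R) = p j * p j' := by
    intro j j' hjj
    have hd := hdis j j' hjj
    rw [Finset.disjoint_insert_left, Finset.disjoint_insert_right] at hd
    obtain ⟨hd1, hd2, hd3⟩ := hd
    rw [Finset.mem_insert, not_or] at hd1
    have hdisj : Disjoint ({J j, J j'} : Finset ι) (B j ∪ B j') := by
      rw [Finset.disjoint_left]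
      intro a ha hb
      rw [Finset.mem_insert, Finset.mem_singleton] at ha
      rw [Finset.mem_union] at hb
      rcases ha with rfl | rfl
      · rcases hb with hb | hb
        · exact hJB j hb
        · exact hd1.2 hb
      · rcases hb with hb | hb
        · exact hd2 hb
        · exact hJB j' hb
    have := remove_prob η {J j, J j'} (B j ∪ B j') hdisj
    rw [Finset.card_pair hd1.1, Finset.card_union_of_disjoint hd3] at this
    have e : p j * p j' = (1 - η) ^ 2 * η ^ ((B j).card + (B j').card) := by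
      simp only [hp]; ring
    rw [e, ← this]
    refine Finset.sum_congr rfl fun R _ => ?_
    congr 1
    simp only [hX]
    have hiff : (Disjoint ({J j, J j'} : Finset ι) R ∧ B j ∪ B j' ⊆ R) ↔
        ((J j ∉ R ∧ B j ⊆ R) ∧ (J j' ∉ R ∧ B j' ⊆ R)) := by
      rw [Finset.disjoint_insert_left, Finset.disjoint_singleton_left, Finset.union_subset_iff]
      tauto
    by_cases c1 : J j ∉ R ∧ B j ⊆ R
    · by_cases c2 : J j' ∉ R ∧ B j' ⊆ R
      · rw [if_pos c1, if_pos c2, if_pos (hiff.mpr ⟨c1, c2⟩), one_mul]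
      · rw [if_pos c1, if_neg c2, if_neg (fun c => c2 (hiff.mp c).2), mul_zero]
    · rw [if_neg c1, if_neg (fun c => c1 (hiff.mp c).1), zero_mul]
  set M : ℝ := ∑ j, p j with hM
  have hMq : q * m ≤ M := by
    calc q * m = ∑ _j : Fin m, q := by simp [mul_comm]
      _ ≤ M := Finset.sum_le_sum fun j _ => hpq j
  have hM0 : 0 < M := lt_of_lt_of_le (by positivity) hMq
  -- variance
  have hXX : ∀ j R, X j R * X j R = X j R := by
    intro j R
    simp only [hX]
    split_ifs <;> simp
  have hS1 : ∑ R : Finset ι, removeMu η R * (∑ j, X j R) = M := by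
    rw [hM]
    simp only [Finset.mul_sum]
    rw [Finset.sum_comm]
    exact Finset.sum_congr rfl fun j _ => hE1 j
  have hS2 : ∑ R : Finset ι, removeMu η R * ((∑ j, X j R) * (∑ j, X j R)) ≤ M * M + M := by
    have e1 : ∑ R : Finset ι, removeMu η R * ((∑ j, X j R) * (∑ j, X j R)) =
        ∑ j, ∑ j', ∑ R : Finset ι, removeMu η R * (X j R * X j' R) := by
      have e0 : ∀ R : Finset ι, removeMu η R * ((∑ j, X j R) * (∑ j, X j R)) =
          ∑ j, ∑ j', removeMu η R * (X j R * X j' R) := by
        intro R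
        rw [Finset.sum_mul_sum, Finset.mul_sum]
        exact Finset.sum_congr rfl fun j _ => Finset.mul_sum _ _ _
      rw [Finset.sum_congr rfl (fun R _ => e0 R), Finset.sum_comm]
      refine Finset.sum_congr rfl fun j _ => ?_
      rw [Finset.sum_comm]
    rw [e1]
    have e2 : ∀ j j', ∑ R : Finset ι, removeMu η R * (X j R * X j' R) ≤
        p j * p j' + (if j = j' then p j else 0) := by
      intro j j'
      by_cases h : j = j'
      · subst h
        rw [if_pos rfl]
        simp only [hXX]
        rw [hE1]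
        nlinarith [hp1 j]
      · rw [if_neg h, add_zero, hE2 j j' h]
    calc ∑ j, ∑ j', ∑ R : Finset ι, removeMu η R * (X j R * X j' R)
        ≤ ∑ j, ∑ j', (p j * p j' + (if j = j' then p j else 0)) :=
          Finset.sum_le_sum fun j _ => Finset.sum_le_sum fun j' _ => e2 j j'
      _ = M * M + M := by
          simp only [Finset.sum_add_distrib, Finset.sum_ite_eq, Finset.mem_univ, if_true]
          rw [hM, Finset.sum_mul_sum]
  have hvar : ∑ R : Finset ι, removeMu η R * (∑ j, X j R - M) ^ 2 ≤ M := by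
    clear_value M
    have e : ∑ R : Finset ι, removeMu η R * (∑ j, X j R - M) ^ 2 =
        ∑ R : Finset ι, removeMu η R * ((∑ j, X j R) * (∑ j, X j R)) -
          2 * M * ∑ R : Finset ι, removeMu η R * (∑ j, X j R) +
          M ^ 2 * ∑ R : Finset ι, removeMu η R := by
      have g1 : 2 * M * ∑ R : Finset ι, removeMu η R * (∑ j, X j R) =
          ∑ R : Finset ι, 2 * M * (removeMu η R * (∑ j, X j R)) := Finset.mul_sum _ _ _
      have g2 : M ^ 2 * ∑ R : Finset ι, removeMu η R =
          ∑ R : Finset ι, M ^ 2 * removeMu η R := Finset.mul_sum _ _ _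
      rw [g1, g2, ← Finset.sum_sub_distrib, ← Finset.sum_add_distrib]
      exact Finset.sum_congr rfl fun R _ => by ring
    rw [e, hS1, hE0]
    nlinarith [hS2]
  calc ∑ R : Finset ι, removeMu η R *
      (if ((univ.filter (fun j => J j ∉ R ∧ B j ⊆ R)).card : ℝ) < q * m / 2 then 1 else 0)
      ≤ ∑ R : Finset ι, removeMu η R * ((∑ j, X j R - M) ^ 2 * (4 / M ^ 2)) := by
        refine Finset.sum_le_sum fun R _ => ?_
        refine mul_le_mul_of_nonneg_left ?_ (removeMu_pos h0 h1 R).le
        rw [hY]
        split_ifs with h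
        · have h2 : M / 2 ≤ M - ∑ j, X j R := by linarith
          have h3 : (M / 2) ^ 2 ≤ (∑ j, X j R - M) ^ 2 := by
            have : (∑ j, X j R - M) ^ 2 = (M - ∑ j, X j R) ^ 2 := by ring
            rw [this]
            exact pow_le_pow_left₀ (by positivity) h2 2
          rw [mul_div_assoc', le_div_iff₀ (by positivity)]
          nlinarith
        · positivity
    _ = (∑ R : Finset ι, removeMu η R * (∑ j, X j R - M) ^ 2) * (4 / M ^ 2) := by
        rw [Finset.sum_mul]
        exact Finset.sum_congr rfl fun R _ => by ring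
    _ ≤ M * (4 / M ^ 2) := mul_le_mul_of_nonneg_right hvar (by positivity)
    _ = 4 / M := by field_simp
    _ ≤ 4 / (q * m) := by
        apply div_le_div_of_nonneg_left (by norm_num) (by positivity) hMq

/-- Every element is removed independently with probability `η`. For `i ∈ Rich` there are `m`
disjoint tests `j`: test `j` succeeds if `J i j` is kept and `B i j` is removed. Some removal set
`R` has small weight and few elements with few successful tests. -/
theorem removal {ι : Type*} [Fintype ι] (w : ι → ℝ) (hw : ∀ i, 0 ≤ w i) (η : ℝ)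
    (h0 : 0 < η) (h1 : η ≤ 1 / 2) (r m : ℕ) (hm : 0 < m)
    (Rh : Finset ι) (J : ι → Fin m → ι) (B : ι → Fin m → Finset ι)
    (hB : ∀ i ∈ Rh, ∀ j, (B i j).card ≤ r)
    (hJB : ∀ i ∈ Rh, ∀ j, J i j ∉ B i j)
    (hdis : ∀ i ∈ Rh, ∀ j j', j ≠ j' →
      Disjoint (insert (J i j) (B i j)) (insert (J i j') (B i j'))) :
    ∃ R : Finset ι, ∑ i ∈ R, w i +
      ∑ i ∈ Rh.filter (fun i => ((univ.filter (fun j => J i j ∉ R ∧ B i j ⊆ R)).card : ℝ) <
        (1 - η) * η ^ r * m / 2), w i ≤
      (η + 4 / ((1 - η) * η ^ r * m)) * ∑ i, w i := by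
  set q : ℝ := (1 - η) * η ^ r * m with hq
  have hη1 : 0 < 1 - η := by linarith
  have hq0 : 0 < q := by
    have hm' : (0 : ℝ) < m := by exact_mod_cast hm
    positivity
  have hE0 : ∑ R : Finset ι, removeMu η R = 1 := by
    have := remove_prob (ι := ι) η ∅ ∅ (by simp)
    simpa using this
  set W : ℝ := ∑ i, w i with hW
  have hW0 : 0 ≤ W := Finset.sum_nonneg fun i _ => hw i
  -- mean of the first term
  have hmean1 : ∑ R : Finset ι, removeMu η R * ∑ i ∈ R, w i = η * W := by
    have e : ∀ R : Finset ι, ∑ i ∈ R, w i = ∑ i, w i *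
        (if Disjoint (∅ : Finset ι) R ∧ ({i} : Finset ι) ⊆ R then 1 else 0) := by
      intro R
      simp [Finset.sum_ite_mem]
    simp only [e, Finset.mul_sum]
    rw [Finset.sum_comm, hW, Finset.mul_sum]
    refine Finset.sum_congr rfl fun i _ => ?_
    have hpr := remove_prob (ι := ι) η ∅ {i} (by simp)
    rw [Finset.card_empty, pow_zero, one_mul, Finset.card_singleton, pow_one] at hpr
    have hs : ∑ R : Finset ι, removeMu η R * (w i *
        (if Disjoint (∅ : Finset ι) R ∧ ({i} : Finset ι) ⊆ R then 1 else 0)) =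
        w i * ∑ R : Finset ι, removeMu η R *
          (if Disjoint (∅ : Finset ι) R ∧ ({i} : Finset ι) ⊆ R then 1 else 0) := by
      rw [Finset.mul_sum]
      exact Finset.sum_congr rfl fun R _ => by ring
    rw [hs, hpr, mul_comm]
  have hmean2 : ∑ R : Finset ι, removeMu η R *
      ∑ i ∈ Rh.filter (fun i => ((univ.filter (fun j => J i j ∉ R ∧ B i j ⊆ R)).card : ℝ) <
        q / 2), w i ≤ 4 / q * W := by
    calc ∑ R : Finset ι, removeMu η R *
        ∑ i ∈ Rh.filter (fun i => ((univ.filter (fun j => J i j ∉ R ∧ B i j ⊆ R)).card : ℝ) <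
          q / 2), w i
        = ∑ i ∈ Rh, w i * ∑ R : Finset ι, removeMu η R *
          (if ((univ.filter (fun j => J i j ∉ R ∧ B i j ⊆ R)).card : ℝ) < q / 2
            then 1 else 0) := by
          simp only [Finset.sum_filter, Finset.mul_sum]
          rw [Finset.sum_comm]
          refine Finset.sum_congr rfl fun i _ => Finset.sum_congr rfl fun R _ => ?_
          split_ifs <;> ring
      _ ≤ ∑ i ∈ Rh, w i * (4 / q) := by
          refine Finset.sum_le_sum fun i hi => mul_le_mul_of_nonneg_left ?_ (hw i)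
          exact remove_tail η h0 h1 r m hm (J i) (B i) (hB i hi) (hJB i hi) (hdis i hi)
      _ = (4 / q) * ∑ i ∈ Rh, w i := by rw [← Finset.sum_mul, mul_comm]
      _ ≤ 4 / q * W := by
          refine mul_le_mul_of_nonneg_left ?_ (by positivity)
          exact Finset.sum_le_sum_of_subset_of_nonneg (Finset.subset_univ _)
            (fun i _ _ => hw i)
  by_contra hcon
  push Not at hcon
  have hlt : ∑ R : Finset ι, removeMu η R * ((η + 4 / q) * W) <
      ∑ R : Finset ι, removeMu η R * (∑ i ∈ R, w i +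
        ∑ i ∈ Rh.filter (fun i => ((univ.filter (fun j => J i j ∉ R ∧ B i j ⊆ R)).card : ℝ) <
          q / 2), w i) := by
    refine Finset.sum_lt_sum_of_nonempty ⟨∅, Finset.mem_univ _⟩ fun R _ => ?_
    exact mul_lt_mul_of_pos_left (hcon R) (removeMu_pos h0 h1 R)
  rw [← Finset.sum_mul, hE0, one_mul] at hlt
  simp only [mul_add, Finset.sum_add_distrib] at hlt
  rw [hmean1] at hlt
  linarith

end Pool.Agent.Lib.MP_fdca68_pr
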