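import Pool.Agent.Lib.MP_fdca68_pr.Coinc
import Pool.Agent.Lib.MP_fdca68_pr.Remove
import Pool.Agent.Lib.MP_fdca68_pr.Greedy

/-!
# Merging components
-/

namespace Pool.Agent.Lib.MP_fdca68_pr

open Finset SimpleGraph
open scoped Classical

variable {n c : ℕ}

/-- vertices at distance at most `k` -/
noncomputable def mcBall (G : SimpleGraph (Fin n)) : ℕ → Fin n → Finset (Fin n)
  | 0, a => {a}
  | k + 1, a => insert a ((univ.filter (fun v => G.Adj a v)).biUnion (fun v => mcBall G k v))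

theorem mcBall_card (G : SimpleGraph (Fin n)) (Δ : ℕ) (hdeg : ∀ v, (G.neighborSet v).ncard ≤ Δ)
    (k : ℕ) (a : Fin n) : (mcBall G k a).card ≤ (Δ + 1) ^ k := by
  induction k generalizing a with
  | zero => simp [mcBall]
  | succ k ih =>
    have h1 : (univ.filter (fun v => G.Adj a v)).card ≤ Δ := by
      have := hdeg a
      rw [Set.ncard_eq_toFinset_card'] at this
      refine le_of_eq_of_le (congrArg Finset.card ?_) this
      ext v; simp
    have h2 : (mcBall G (k+1) a).card ≤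
        ((univ.filter (fun v => G.Adj a v)).biUnion (fun v => mcBall G k v)).card + 1 := by
      rw [mcBall]; exact Finset.card_insert_le _ _
    have h3 : ((univ.filter (fun v => G.Adj a v)).biUnion (fun v => mcBall G k v)).card ≤
        Δ * (Δ + 1) ^ k := by
      refine Finset.card_biUnion_le.trans ?_
      calc ∑ v ∈ univ.filter (fun v => G.Adj a v), (mcBall G k v).card
          ≤ ∑ v ∈ univ.filter (fun v => G.Adj a v), (Δ+1)^k := Finset.sum_le_sum (fun v _ => ih v)
        _ = (univ.filter (fun v => G.Adj a v)).card * (Δ+1)^k := by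
            rw [Finset.sum_const, smul_eq_mul]
        _ ≤ _ := Nat.mul_le_mul_right _ h1
    have h4 : 1 ≤ (Δ+1)^k := Nat.one_le_pow _ _ (by omega)
    calc (mcBall G (k+1) a).card ≤ Δ * (Δ + 1) ^ k + 1 := by omega
      _ ≤ Δ * (Δ + 1) ^ k + (Δ + 1) ^ k := by omega
      _ = (Δ+1)^(k+1) := by ring

theorem mcBall_self (G : SimpleGraph (Fin n)) (k : ℕ) (a : Fin n) : a ∈ mcBall G k a := by
  cases k <;> simp [mcBall]

theorem mcBall_walk {G : SimpleGraph (Fin n)} {a b : Fin n} (p : G.Walk a b) :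
    ∀ k, p.length ≤ k → b ∈ mcBall G k a := by
  induction p with
  | nil => intro k _; exact mcBall_self G k _
  | cons h q ih =>
    intro k hk
    cases k with
    | zero => simp at hk
    | succ k =>
      simp only [Walk.length_cons] at hk
      rw [mcBall]
      refine Finset.mem_insert_of_mem (Finset.mem_biUnion.mpr ⟨_, ?_, ih k (by omega)⟩)
      simpa using h

theorem mc_eg_adj {E : Finset (Edge n)} {u v : Fin n} :
    (eg E).Adj u v ↔ ∃ e ∈ E, e.1 = s(u, v) := by
  unfold eg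
  rw [SimpleGraph.fromEdgeSet_adj]
  constructor
  · rintro ⟨⟨e, he, h⟩, -⟩
    exact ⟨e, he, h⟩
  · rintro ⟨e, he, h⟩
    refine ⟨⟨e, he, h⟩, ?_⟩
    rintro rfl
    exact e.2 (by rw [h]; simp)

theorem mc_link_ball {F Gs : SimpleGraph (Fin n)} {r : ℕ} {x y : Fin n} {E : Finset (Edge n)}
    (h : Link F Gs r x y E) {a : Fin n} (ha : a ∈ vts E) : x ∈ mcBall Gs r a := by
  have hr := (h.conn a ha).symm
  obtain ⟨p, hp⟩ := hr.exists_isPath
  have hle : eg E ≤ Gs := by
    intro u v huv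
    obtain ⟨e, he, h'⟩ := mc_eg_adj.mp huv
    have := h.inG e he
    rwa [h', SimpleGraph.mem_edgeSet] at this
  have hlen : p.length ≤ r := by
    have h1 : p.edges.toFinset ⊆ E.image (fun e => e.1) := by
      intro e he
      rw [List.mem_toFinset] at he
      have := p.edges_subset_edgeSet he
      induction e using Sym2.ind with
      | _ u v =>
        rw [SimpleGraph.mem_edgeSet] at this
        obtain ⟨e, he, h'⟩ := mc_eg_adj.mp this
        exact Finset.mem_image.mpr ⟨e, he, h'⟩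
    have h2 := Finset.card_le_card h1
    rw [List.toFinset_card_of_nodup hp.isTrail.edges_nodup, Walk.length_edges] at h2
    exact h2.trans (Finset.card_image_le.trans h.card_le)
  have := mcBall_walk (p.mapLe hle) r (by simpa using hlen)
  exact this

/-- chosen links of the rich components -/
structure McFam (F Gs : SimpleGraph (Fin n)) (r m : ℕ) (Rh : Finset F.ConnectedComponent) where
  E : F.ConnectedComponent → Fin m → Finset (Edge n)
  x : F.ConnectedComponent → Fin m → Fin n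
  y : F.ConnectedComponent → Fin m → Fin n
  hx : ∀ i ∈ Rh, ∀ j, F.connectedComponentMk (x i j) = i
  link : ∀ i ∈ Rh, ∀ j, Link F Gs r (x i j) (y i j) (E i j)
  disj : ∀ i ∈ Rh, ∀ j j', j ≠ j' → Disjoint (vts (E i j)) (vts (E i j'))

theorem mc_exists_fam (F Gs : SimpleGraph (Fin n)) (r m : ℕ) (Rh : Finset F.ConnectedComponent)
    (hR : ∀ i ∈ Rh, ∃ x₀, F.connectedComponentMk x₀ = i ∧ Rich F Gs r m x₀) :
    Nonempty (McFam F Gs r m Rh) := by
  have key : ∀ i : F.ConnectedComponent, ∃ (E : Fin m → Finset (Edge n)) (x y : Fin m → Fin n),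
      i ∈ Rh → (∀ j, F.connectedComponentMk (x j) = i) ∧ (∀ j, Link F Gs r (x j) (y j) (E j)) ∧
        ∀ j j', j ≠ j' → Disjoint (vts (E j)) (vts (E j')) := by
    intro i
    by_cases hi : i ∈ Rh
    · obtain ⟨x₀, hx₀, P, hP, hl, hd⟩ := hR i hi
      have h1 : Nonempty (Fin m ↪ P) := by
        apply Function.Embedding.nonempty_of_card_le
        simpa using hP
      obtain ⟨φ⟩ := h1
      have h2 : ∀ j : Fin m, ∃ x y, F.Reachable x₀ x ∧ Link F Gs r x y (φ j).1 :=
        fun j => hl _ (φ j).2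
      choose x y hxy using h2
      refine ⟨fun j => (φ j).1, x, y, fun _ => ⟨fun j => ?_, fun j => (hxy j).2, ?_⟩⟩
      · rw [← hx₀]
        exact (SimpleGraph.ConnectedComponent.eq.mpr (hxy j).1).symm
      · intro j j' hjj
        refine hd _ (φ j).2 _ (φ j').2 ?_
        intro h
        exact hjj (φ.injective (Subtype.ext h))
    · induction i using SimpleGraph.ConnectedComponent.ind with
      | h v => exact ⟨fun _ => ∅, fun _ => v, fun _ => v, fun h => absurd h hi⟩
  choose E x y h using key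
  exact ⟨⟨E, x, y, fun i hi => (h i hi).1, fun i hi => (h i hi).2.1, fun i hi => (h i hi).2.2⟩⟩

/-- components containing an edge of `F` with the colour of an edge of `E` -/
noncomputable def mcB (ω : Conf n c) (F : SimpleGraph (Fin n)) (E : Finset (Edge n)) :
    Finset F.ConnectedComponent :=
  univ.filter (fun C => ∃ e ∈ E, ∃ f : Edge n, f.1 ∈ F.edgeSet ∧ ω f = ω e ∧
    ∃ v ∈ f.1, F.connectedComponentMk v = C)

theorem mc_rb_eq {ω : Conf n c} {F : SimpleGraph (Fin n)} (h : RB ω F) {f f' : Edge n}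
    (hf : f.1 ∈ F.edgeSet) (hf' : f'.1 ∈ F.edgeSet) (hff : ω f = ω f') : f = f' := by
  apply Subtype.ext
  apply h.2 hf hf'
  rw [col_coe, col_coe, hff]

theorem mc_comp_eq {F : SimpleGraph (Fin n)} {f : Sym2 (Fin n)} (hf : f ∈ F.edgeSet)
    {v w : Fin n} (hv : v ∈ f) (hw : w ∈ f) :
    F.connectedComponentMk v = F.connectedComponentMk w := by
  induction f using Sym2.ind with
  | _ a b =>
    rw [SimpleGraph.mem_edgeSet] at hf
    rw [Sym2.mem_iff] at hv hw
    have hab : F.connectedComponentMk a = F.connectedComponentMk b :=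
      SimpleGraph.ConnectedComponent.eq.mpr hf.reachable
    rcases hv with rfl | rfl <;> rcases hw with rfl | rfl <;> simp [hab]

theorem mcB_card {ω : Conf n c} {F : SimpleGraph (Fin n)} (h : RB ω F) (E : Finset (Edge n)) :
    (mcB ω F E).card ≤ E.card := by
  refine Finset.card_le_card_of_forall_subsingleton
    (fun C e => ∃ f : Edge n, f.1 ∈ F.edgeSet ∧ ω f = ω e ∧
      ∃ v ∈ f.1, F.connectedComponentMk v = C) ?_ ?_
  · intro C hC
    obtain ⟨e, he, hf⟩ := (Finset.mem_filter.mp hC).2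
    exact ⟨e, he, hf⟩
  · rintro e - C ⟨-, f, hf, hfe, v, hv, rfl⟩ C' ⟨-, f', hf', hfe', v', hv', rfl⟩
    have hff : f = f' := mc_rb_eq h hf hf' (hfe.trans hfe'.symm)
    subst hff
    exact mc_comp_eq hf hv hv'

section Fam

variable {ω : Conf n c} {F Gs : SimpleGraph (Fin n)} {r s Kp m : ℕ}
  {Rh : Finset F.ConnectedComponent}

theorem mc_reach {u v : Fin n} :
    F.connectedComponentMk u = F.connectedComponentMk v ↔ F.Reachable u v :=
  SimpleGraph.ConnectedComponent.eq

theorem mc_JB (std : Std ω F Gs r s Kp) (M : McFam F Gs r m Rh) (i) (hi : i ∈ Rh) (j : Fin m) :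
    F.connectedComponentMk (M.y i j) ∉ mcB ω F (M.E i j) := by
  intro h
  obtain ⟨e, he, f, hf, hfe, v, hv, hvy⟩ := (Finset.mem_filter.mp h).2
  exact (link_col std (M.link i hi j) he hf hfe hv).2 (mc_reach.mp hvy.symm)

theorem mc_xx (M : McFam F Gs r m Rh) (i) (hi : i ∈ Rh) (j j' : Fin m) :
    F.Reachable (M.x i j) (M.x i j') :=
  mc_reach.mp ((M.hx i hi j).trans (M.hx i hi j').symm)

theorem mc_JB1 (std : Std ω F Gs r s Kp) (M : McFam F Gs r m Rh) (i) (hi : i ∈ Rh)
    (j j' : Fin m) (hjj : j ≠ j') :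
    F.connectedComponentMk (M.y i j) ∉ mcB ω F (M.E i j') := by
  intro h
  obtain ⟨e, he, f, hf, hfe, v, hv, hvy⟩ := (Finset.mem_filter.mp h).2
  exact (links_col1 std (M.link i hi j) (M.link i hi j') (mc_xx M i hi j j')
    (M.disj i hi j j' hjj) he hf hfe hv) (mc_reach.mp hvy.symm)

theorem mc_dis (std : Std ω F Gs r s Kp) (M : McFam F Gs r m Rh) (i) (hi : i ∈ Rh)
    (j j' : Fin m) (hjj : j ≠ j') :
    Disjoint (insert (F.connectedComponentMk (M.y i j)) (mcB ω F (M.E i j)))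
      (insert (F.connectedComponentMk (M.y i j')) (mcB ω F (M.E i j'))) := by
  rw [Finset.disjoint_insert_left, Finset.disjoint_insert_right, Finset.mem_insert, not_or]
  refine ⟨⟨?_, mc_JB1 std M i hi j j' hjj⟩, mc_JB1 std M i hi j' j hjj.symm, ?_⟩
  · intro h
    exact links_other std (M.link i hi j) (M.link i hi j') (mc_xx M i hi j j')
      (M.disj i hi j j' hjj) (mc_reach.mp h)
  · rw [Finset.disjoint_left]
    intro C hC hC'
    obtain ⟨e, he, f, hf, hfe, v, hv, hvC⟩ := (Finset.mem_filter.mp hC).2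
    obtain ⟨e', he', f', hf', hfe', v', hv', hvC'⟩ := (Finset.mem_filter.mp hC').2
    exact links_col2 std (M.link i hi j) (M.link i hi j') (mc_xx M i hi j j')
      (M.disj i hi j j' hjj) he he' hf hf' hfe hfe' hv hv' (mc_reach.mp (hvC.trans hvC'.symm))

theorem mc_E_inj (M : McFam F Gs r m Rh) (i) (hi : i ∈ Rh) (j j' : Fin m)
    (h : M.E i j = M.E i j') : j = j' := by
  by_contra hjj
  have h1 := M.disj i hi j j' hjj
  have h2 := (M.link i hi j).hx
  rw [← h] at h1
  exact (Finset.disjoint_left.mp h1 h2) h2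

/-- two links of one component through a common vertex are equal -/
theorem mc_E_eq (M : McFam F Gs r m Rh) (i) (hi : i ∈ Rh) (j j' : Fin m) {v : Fin n}
    (h : v ∈ vts (M.E i j)) (h' : v ∈ vts (M.E i j')) : j = j' := by
  by_contra hjj
  exact (Finset.disjoint_left.mp (M.disj i hi j j' hjj) h) h'

end Fam

/-- two links are in conflict -/
def mcConf (ω : Conf n c) (q q' : Finset (Edge n)) : Prop :=
  ∃ e ∈ q, ∃ e' ∈ q', e ≠ e' ∧ ω e = ω e'

theorem mcConf_symm (ω : Conf n c) (q q' : Finset (Edge n)) (h : mcConf ω q q') :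
    mcConf ω q' q := by
  obtain ⟨e, he, e', he', h1, h2⟩ := h
  exact ⟨e', he', e, he, h1.symm, h2.symm⟩

theorem mc_mem_vts {E : Finset (Edge n)} {e : Edge n} (he : e ∈ E) {v : Fin n} (hv : v ∈ e.1) :
    v ∈ vts E := by
  unfold vts
  exact Finset.mem_filter.mpr ⟨Finset.mem_univ _, e, he, hv⟩

theorem mc_conf_bound (ω : Conf n c) {F Gs : SimpleGraph (Fin n)} {r m : ℕ} (Δ Δc : ℕ)
    {Rh : Finset F.ConnectedComponent} (hGs : Gs ≤ gr ω)
    (hdeg : ∀ v, (Gs.neighborSet v).ncard ≤ Δ)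
    (hcls : ∀ e : Edge n, e.1 ∈ Gs.edgeSet → ∀ k, ω e = some k → cls ω k ≤ Δc)
    (M : McFam F Gs r m Rh) (D : Finset F.ConnectedComponent) (hD : D ⊆ Rh)
    (av : F.ConnectedComponent → Finset (Fin m)) (q' : Finset (Edge n)) (hq' : q'.card ≤ r)
    (hqG : ∀ e ∈ q', e.1 ∈ Gs.edgeSet) :
    ∑ i ∈ D, (((av i).image (M.E i)).filter (fun q => mcConf ω q q')).card ≤
      r * (Δc * (Δ + 1) ^ r) := by
  rw [← Finset.card_sigma]
  have h1 : (D.sigma (fun i => ((av i).image (M.E i)).filter (fun q => mcConf ω q q'))).card ≤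
      (q'.biUnion (fun e' => (univ.filter (fun e : Edge n => ω e = ω e')).biUnion
        (fun e => mcBall Gs r (Quot.out e.1).1))).card := by
    refine Finset.card_le_card_of_forall_subsingleton
      (fun (iq : Σ _ : F.ConnectedComponent, Finset (Edge n)) (x : Fin n) =>
        F.connectedComponentMk x = iq.1 ∧ x ∈ vts iq.2) ?_ ?_
    · rintro ⟨i, q⟩ hiq
      rw [Finset.mem_sigma] at hiq
      obtain ⟨hi, hq⟩ := hiq
      obtain ⟨hqA, e, he, e', he', hne, hee⟩ := Finset.mem_filter.mp hq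
      obtain ⟨j, hj, hjq⟩ := Finset.mem_image.mp hqA
      simp only at hi hjq he
      subst hjq
      refine ⟨M.x i j, ?_, M.hx i (hD hi) j, (M.link i (hD hi) j).hx⟩
      refine Finset.mem_biUnion.mpr ⟨e', he', Finset.mem_biUnion.mpr ⟨e, ?_, ?_⟩⟩
      · exact Finset.mem_filter.mpr ⟨Finset.mem_univ _, hee⟩
      · exact mc_link_ball (M.link i (hD hi) j) (mc_mem_vts he (Sym2.out_fst_mem _))
    · rintro x - ⟨i, q⟩ ⟨h1, h2, h3⟩ ⟨i', q''⟩ ⟨h1', h2', h3'⟩
      simp only at h2 h3 h2' h3'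
      have hii : i = i' := h2.symm.trans h2'
      subst hii
      have h1 := Finset.mem_sigma.mp (Finset.mem_coe.mp h1)
      have h1' := Finset.mem_sigma.mp (Finset.mem_coe.mp h1')
      obtain ⟨j, hj, hjq⟩ := Finset.mem_image.mp (Finset.mem_filter.mp h1.2).1
      obtain ⟨j', hj', hjq'⟩ := Finset.mem_image.mp (Finset.mem_filter.mp h1'.2).1
      simp only at hjq hjq'
      subst hjq; subst hjq'
      have : j = j' := mc_E_eq M i (hD h1.1) j j' h3 h3'
      subst this
      rfl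
  refine h1.trans ?_
  refine Finset.card_biUnion_le.trans ?_
  calc _ ≤ ∑ _e' ∈ q', Δc * (Δ + 1) ^ r := by
        refine Finset.sum_le_sum (fun e' he' => ?_)
        refine Finset.card_biUnion_le.trans ?_
        have h2 : (univ.filter (fun e : Edge n => ω e = ω e')).card ≤ Δc := by
          have hp : ω e' ≠ none := by
            have h3 := hqG e' he'
            have h4 : e'.1 ∈ (gr ω).edgeSet := SimpleGraph.edgeSet_mono hGs h3
            rw [mem_gr_edgeSet, col_coe] at h4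
            exact h4
          obtain ⟨k, hk⟩ := Option.ne_none_iff_exists'.mp hp
          have h5 := hcls e' (hqG e' he') k hk
          unfold cls at h5
          rw [hk]
          exact h5
        calc _ ≤ ∑ _e ∈ univ.filter (fun e : Edge n => ω e = ω e'), (Δ + 1) ^ r :=
              Finset.sum_le_sum (fun e _ => mcBall_card Gs Δ hdeg r _)
          _ = (univ.filter (fun e : Edge n => ω e = ω e')).card * (Δ + 1) ^ r := by
              rw [Finset.sum_const, smul_eq_mul]
          _ ≤ _ := Nat.mul_le_mul_right _ h2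
    _ = q'.card * (Δc * (Δ + 1) ^ r) := by rw [Finset.sum_const, smul_eq_mul]
    _ ≤ _ := Nat.mul_le_mul_right _ hq'

/-- number of vertices of a nontrivial component -/
noncomputable def mcW (F : SimpleGraph (Fin n)) (i : F.ConnectedComponent) : ℕ :=
  (univ.filter (fun v => v ∈ F.support ∧ F.connectedComponentMk v = i)).card

theorem mc_sum_W (F : SimpleGraph (Fin n)) (S : Finset F.ConnectedComponent) :
    ∑ i ∈ S, mcW F i =
      (univ.filter (fun v => v ∈ F.support ∧ F.connectedComponentMk v ∈ S)).card := by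
  unfold mcW
  rw [← Finset.card_biUnion]
  · congr 1
    ext v
    simp only [Finset.mem_biUnion, Finset.mem_filter, Finset.mem_univ, true_and]
    constructor
    · rintro ⟨i, hi, h1, rfl⟩
      exact ⟨h1, hi⟩
    · rintro ⟨h1, h2⟩
      exact ⟨_, h2, h1, rfl⟩
  · intro i _ j _ hij
    refine Finset.disjoint_left.mpr ?_
    intro v hv hv'
    simp only [Finset.mem_filter, Finset.mem_univ, true_and] at hv hv'
    exact hij (hv.2.symm.trans hv'.2)

theorem mc_sum_univ (F : SimpleGraph (Fin n)) :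
    ∑ i, mcW F i = F.support.ncard := by
  rw [mc_sum_W, Set.ncard_eq_toFinset_card']
  congr 1
  ext v
  simp

/-- the merged graph -/
def mcF (F : SimpleGraph (Fin n)) (R : Finset F.ConnectedComponent)
    (Q : Finset (Finset (Edge n))) : SimpleGraph (Fin n) where
  Adj u v := (F.Adj u v ∧ F.connectedComponentMk u ∉ R) ∨ ∃ q ∈ Q, ∃ e ∈ q, e.1 = s(u, v)
  symm := ⟨fun u v h => by
    rcases h with ⟨h1, h2⟩ | ⟨q, hq, e, he, h1⟩
    · refine Or.inl ⟨h1.symm, ?_⟩
      rwa [← mc_reach.mpr h1.reachable]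
    · exact Or.inr ⟨q, hq, e, he, by rw [h1, Sym2.eq_swap]⟩⟩
  loopless := ⟨fun v h => by
    rcases h with ⟨h1, _⟩ | ⟨q, hq, e, he, h1⟩
    · exact h1.ne rfl
    · exact e.2 (by rw [h1]; simp)⟩

theorem mc_F_adj {F : SimpleGraph (Fin n)} {R : Finset F.ConnectedComponent}
    {Q : Finset (Finset (Edge n))} {u v : Fin n} : (mcF F R Q).Adj u v ↔
      (F.Adj u v ∧ F.connectedComponentMk u ∉ R) ∨ ∃ q ∈ Q, ∃ e ∈ q, e.1 = s(u, v) := Iff.rfl

theorem mc_F_edge {F : SimpleGraph (Fin n)} {R : Finset F.ConnectedComponent}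
    {Q : Finset (Finset (Edge n))} {e : Sym2 (Fin n)} (h : e ∈ (mcF F R Q).edgeSet) :
    (e ∈ F.edgeSet ∧ ∃ v ∈ e, F.connectedComponentMk v ∉ R) ∨ ∃ q ∈ Q, ∃ e' ∈ q, e'.1 = e := by
  induction e using Sym2.ind with
  | _ a b =>
    rw [SimpleGraph.mem_edgeSet, mc_F_adj] at h
    rcases h with ⟨h1, h2⟩ | h
    · exact Or.inl ⟨h1, a, by simp, h2⟩
    · exact Or.inr h

section Fam2

variable {ω : Conf n c} {F Gs : SimpleGraph (Fin n)} {r s Kp m : ℕ}
  {Rh : Finset F.ConnectedComponent}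

theorem mc_RB (std : Std ω F Gs r s Kp) (M : McFam F Gs r m Rh)
    (R D' : Finset F.ConnectedComponent) (hD' : D' ⊆ Rh)
    (ch : F.ConnectedComponent → Finset (Edge n))
    (hch : ∀ i ∈ D', ∃ j, M.E i j = ch i ∧ F.connectedComponentMk (M.y i j) ∉ R ∧
      mcB ω F (M.E i j) ⊆ R)
    (hconf : ∀ i ∈ D', ∀ j ∈ D', i ≠ j → ¬ mcConf ω (ch i) (ch j)) :
    RB ω (mcF F R (D'.image ch)) := by
  have hq : ∀ i ∈ D', ∀ e ∈ ch i, e.1 ∈ Gs.edgeSet := by
    intro i hi e he
    obtain ⟨j, hj, -, -⟩ := hch i hi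
    rw [← hj] at he
    exact (M.link i (hD' hi) j).inG e he
  have hcol : ∀ i ∈ D', ∀ e ∈ ch i, ∀ f : Sym2 (Fin n), f ∈ F.edgeSet →
      (∃ v ∈ f, F.connectedComponentMk v ∉ R) → col ω f ≠ col ω e.1 := by
    rintro i hi e he f hf ⟨v, hv, hvR⟩ hcol
    obtain ⟨j, hj, -, hB⟩ := hch i hi
    apply hvR
    apply hB
    have hfd : ¬ f.IsDiag := F.not_isDiag_of_mem_edgeSet hf
    refine Finset.mem_filter.mpr ⟨Finset.mem_univ _, e, hj ▸ he, ⟨f, hfd⟩, hf, ?_, v, hv, rfl⟩
    rw [← col_coe ω ⟨f, hfd⟩, ← col_coe ω e]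
    exact hcol
  constructor
  · intro u v huv
    rw [mc_F_adj] at huv
    rcases huv with ⟨h1, _⟩ | ⟨q, hqQ, e, he, h1⟩
    · exact std.rb.1 h1
    · obtain ⟨i, hi, rfl⟩ := Finset.mem_image.mp hqQ
      have := hq i hi e he
      rw [h1, SimpleGraph.mem_edgeSet] at this
      exact std.le this
  · intro e he e' he' hee
    rcases mc_F_edge he with ⟨h1, h2⟩ | ⟨q, hqQ, e1, he1, rfl⟩
    · rcases mc_F_edge he' with ⟨h1', h2'⟩ | ⟨q', hqQ', e1', he1', rfl⟩
      · exact std.rb.2 h1 h1' hee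
      · obtain ⟨i, hi, rfl⟩ := Finset.mem_image.mp hqQ'
        exact absurd hee (hcol i hi e1' he1' e h1 h2)
    · rcases mc_F_edge he' with ⟨h1', h2'⟩ | ⟨q', hqQ', e1', he1', rfl⟩
      · obtain ⟨i, hi, rfl⟩ := Finset.mem_image.mp hqQ
        exact absurd hee.symm (hcol i hi e1 he1 e' h1' h2')
      · obtain ⟨i, hi, rfl⟩ := Finset.mem_image.mp hqQ
        obtain ⟨i', hi', rfl⟩ := Finset.mem_image.mp hqQ'
        rw [col_coe, col_coe] at hee
        by_cases hii : i = i'
        · subst hii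
          obtain ⟨j, hj, -, -⟩ := hch i hi
          have h3 := link_inj std (M.link i (hD' hi) j)
          rw [hj] at h3
          exact congrArg Subtype.val (h3 (Finset.mem_coe.mpr he1) (Finset.mem_coe.mpr he1') hee)
        · by_contra hne
          apply hconf i hi i' hi' hii
          exact ⟨e1, he1, e1', he1', fun h => hne (congrArg Subtype.val h), hee⟩

theorem mc_reach_F {R : Finset F.ConnectedComponent} {Q : Finset (Finset (Edge n))}
    {u v : Fin n} (h : F.Reachable u v) (hu : F.connectedComponentMk u ∉ R) :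
    (mcF F R Q).Reachable u v := by
  obtain ⟨p⟩ := h
  induction p with
  | nil => exact Reachable.refl _
  | cons h q ih =>
    have h1 : (mcF F R Q).Adj _ _ := mc_F_adj.mpr (Or.inl ⟨h, hu⟩)
    refine h1.reachable.trans (ih ?_)
    rwa [← mc_reach.mpr h.reachable]

theorem mc_big (std : Std ω F Gs r s Kp) {K : ℕ} (M : McFam F Gs r m Rh)
    (hFK : ∀ v ∈ F.support, K ≤ (F.connectedComponentMk v).supp.ncard)
    (R : Finset F.ConnectedComponent) (Q : Finset (Finset (Edge n)))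
    (i : F.ConnectedComponent) (hi : i ∈ Rh) (hiR : i ∉ R) (j : Fin m) (hj : M.E i j ∈ Q)
    (hJ : F.connectedComponentMk (M.y i j) ∉ R) (v : Fin n) (hv : F.connectedComponentMk v = i) :
    v ∈ bigV (mcF F R Q) (2 * K) := by
  have hL := M.link i hi j
  have hxi := M.hx i hi j
  have h1 : i.supp ⊆ ((mcF F R Q).connectedComponentMk v).supp := by
    intro w hw
    rw [SimpleGraph.ConnectedComponent.mem_supp_iff] at hw ⊢
    refine SimpleGraph.ConnectedComponent.eq.mpr ?_
    refine mc_reach_F (mc_reach.mp (hw.trans hv.symm)) ?_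
    rwa [hw]
  have hle : eg (M.E i j) ≤ mcF F R Q := by
    intro a b hab
    obtain ⟨e, he, h'⟩ := mc_eg_adj.mp hab
    exact mc_F_adj.mpr (Or.inr ⟨_, hj, e, he, h'⟩)
  have hxy : (mcF F R Q).Reachable (M.x i j) (M.y i j) := (hL.conn _ hL.hy).mono hle
  have hvx : (mcF F R Q).Reachable v (M.x i j) :=
    mc_reach_F (mc_reach.mp (hv.trans hxi.symm)) (by rwa [hv])
  have h2 : (F.connectedComponentMk (M.y i j)).supp ⊆
      ((mcF F R Q).connectedComponentMk v).supp := by
    intro w hw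
    rw [SimpleGraph.ConnectedComponent.mem_supp_iff] at hw ⊢
    refine SimpleGraph.ConnectedComponent.eq.mpr ?_
    have h3 : (mcF F R Q).Reachable (M.y i j) w :=
      mc_reach_F (mc_reach.mp hw.symm) hJ
    exact ((hvx.trans hxy).trans h3).symm
  have h3 : Disjoint i.supp (F.connectedComponentMk (M.y i j)).supp := by
    rw [Set.disjoint_left]
    intro w hw hw'
    rw [SimpleGraph.ConnectedComponent.mem_supp_iff] at hw hw'
    exact link_other std hL (mc_reach.mp (hxi.trans (hw.symm.trans hw')))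
  have h4 := Set.ncard_le_ncard (Set.union_subset h1 h2) (Set.toFinite _)
  rw [Set.ncard_union_eq h3 (Set.toFinite _) (Set.toFinite _)] at h4
  have h5 := hFK _ hL.xF
  have h6 := hFK _ hL.yF
  rw [hxi] at h5
  show 2 * K ≤ _
  omega

end Fam2

theorem mc_sum_union_le {ι : Type*} (s t : Finset ι) (f : ι → ℝ) (hf : ∀ i, 0 ≤ f i) :
    ∑ i ∈ s ∪ t, f i ≤ ∑ i ∈ s, f i + ∑ i ∈ t, f i := by
  rw [← Finset.sum_union_inter]
  have := Finset.sum_nonneg (s := s ∩ t) (fun i _ => hf i)
  linarith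

theorem merge_core (ω : Conf n c) (F Gs : SimpleGraph (Fin n)) (ρ η : ℝ)
    (K Kp r s m Δ Δc : ℕ) (std : Std ω F Gs r s Kp)
    (hFK : ∀ v ∈ F.support, K ≤ (F.connectedComponentMk v).supp.ncard)
    (hdeg : ∀ v, (Gs.neighborSet v).ncard ≤ Δ)
    (hcls : ∀ e : Edge n, e.1 ∈ Gs.edgeSet → ∀ k, ω e = some k → cls ω k ≤ Δc)
    (hη0 : 0 < η) (hη1 : η ≤ 1 / 2) (hm : 0 < m)
    (hrich : ∀ X : Finset (Fin n), (∀ x ∈ X, x ∈ F.support) →
      (∀ x ∈ X, ∀ y, F.Reachable x y → y ∈ X) → ρ * n ≤ X.card → X.Nonempty →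
      ∃ x₀ ∈ X, Rich F Gs r m x₀) (hρ : 0 ≤ ρ) :
    (F.support.ncard : ℝ) ≤ L (2 * K) ω +
      (ρ + η + 4 / ((1 - η) * η ^ r * m) +
        2 * (r * Δc * ((Δ : ℝ) + 1) ^ (r + 1)) / ((1 - η) * η ^ r * m)) * n := by
  have hmR : (0 : ℝ) < m := by exact_mod_cast hm
  have hq : 0 < (1 - η) * η ^ r * m := by
    have : 0 < 1 - η := by linarith
    positivity
  have hy : 0 < (1 - η) * η ^ r * m / 2 := by positivity
  -- the rich components
  set Rh : Finset F.ConnectedComponent :=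
    univ.filter (fun i => ∃ x₀, F.connectedComponentMk x₀ = i ∧ Rich F Gs r m x₀) with hRh
  obtain ⟨M⟩ := mc_exists_fam F Gs r m Rh (fun i hi => (Finset.mem_filter.mp hi).2)
  -- not rich
  have hNR : ((∑ i ∈ univ \ Rh, mcW F i : ℕ) : ℝ) ≤ ρ * n := by
    rw [mc_sum_W]
    by_contra hcon
    push Not at hcon
    set X := univ.filter (fun v => v ∈ F.support ∧ F.connectedComponentMk v ∈ univ \ Rh) with hX
    have hne : X.Nonempty := by
      rw [← Finset.card_pos]
      have : (0 : ℝ) < X.card := lt_of_le_of_lt (by positivity) hcon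
      exact_mod_cast this
    obtain ⟨x₀, hx₀, hr⟩ := hrich X (fun x hx => (Finset.mem_filter.mp hx).2.1) (by
      intro x hx y hxy
      have h1 := (Finset.mem_filter.mp hx).2
      refine Finset.mem_filter.mpr ⟨Finset.mem_univ _, ?_, ?_⟩
      · by_cases hxy' : x = y
        · subst hxy'; exact h1.1
        · obtain ⟨p⟩ := hxy.symm
          cases p with
          | nil => exact absurd rfl hxy'
          | cons h q => exact ⟨_, h⟩
      · rw [← mc_reach.mpr hxy]; exact h1.2) hcon.le hne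
    have h1 := (Finset.mem_filter.mp hx₀).2.2
    rw [Finset.mem_sdiff] at h1
    exact h1.2 (Finset.mem_filter.mpr ⟨Finset.mem_univ _, x₀, rfl, hr⟩)
  -- removal
  obtain ⟨R, hR⟩ := removal (fun i => (mcW F i : ℝ)) (fun i => by positivity) η hη0 hη1 r m hm Rh
    (fun i j => F.connectedComponentMk (M.y i j)) (fun i j => mcB ω F (M.E i j))
    (fun i hi j => (mcB_card std.rb _).trans (M.link i hi j).card_le)
    (fun i hi j => mc_JB std M i hi j) (fun i hi j j' hjj => mc_dis std M i hi j j' hjj)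
  set av : F.ConnectedComponent → Finset (Fin m) := fun i =>
    univ.filter (fun j => F.connectedComponentMk (M.y i j) ∉ R ∧ mcB ω F (M.E i j) ⊆ R) with hav
  set few := Rh.filter (fun i => ((av i).card : ℝ) < (1 - η) * η ^ r * m / 2) with hfew
  set D := Rh.filter (fun i => i ∉ R ∧ (1 - η) * η ^ r * m / 2 ≤ ((av i).card : ℝ)) with hD
  have hDR : D ⊆ Rh := Finset.filter_subset _ _
  obtain ⟨D', hD'D, ch, hch, hconf, hloss⟩ := greedy D (mcW F)
    (fun i => (av i).image (M.E i)) ((1 - η) * η ^ r * m / 2) hy (by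
      intro i hi
      have h1 := (Finset.mem_filter.mp hi).2.2
      rw [Finset.card_image_of_injOn]
      · exact h1
      · intro j _ j' _ h
        exact mc_E_inj M i (hDR hi) j j' h) (mcConf ω) (mcConf_symm ω)
    (r * Δc * ((Δ : ℝ) + 1) ^ (r + 1)) (by
      intro i' hi' q' hq'
      obtain ⟨j, hj, rfl⟩ := Finset.mem_image.mp hq'
      have hl := M.link i' (hDR hi') j
      have h1 := mc_conf_bound ω Δ Δc std.le hdeg hcls M D hDR av (M.E i' j) hl.card_le hl.inG
      have h2 : ((∑ i ∈ D, (((av i).image (M.E i)).filter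
          (fun q => mcConf ω q (M.E i' j))).card : ℕ) : ℝ) ≤
          ((r * (Δc * (Δ + 1) ^ r) : ℕ) : ℝ) := by exact_mod_cast h1
      push_cast at h2
      refine h2.trans ?_
      have h3 : ((Δ : ℝ) + 1) ^ r ≤ ((Δ : ℝ) + 1) ^ (r + 1) :=
        pow_le_pow_right₀ (by linarith [(Nat.cast_nonneg Δ : (0 : ℝ) ≤ Δ)]) (Nat.le_succ r)
      calc (r : ℝ) * (Δc * (Δ + 1) ^ r) = (r * Δc) * (Δ + 1) ^ r := by ring
        _ ≤ (r * Δc) * ((Δ : ℝ) + 1) ^ (r + 1) :=
            mul_le_mul_of_nonneg_left h3 (by positivity))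
  have hch' : ∀ i ∈ D', ∃ j, M.E i j = ch i ∧ F.connectedComponentMk (M.y i j) ∉ R ∧
      mcB ω F (M.E i j) ⊆ R := by
    intro i hi
    obtain ⟨j, hj, hji⟩ := Finset.mem_image.mp (hch i hi)
    have := (Finset.mem_filter.mp hj).2
    exact ⟨j, hji, this.1, this.2⟩
  have hRB := mc_RB std M R D' (hD'D.trans hDR) ch hch' hconf
  have hbig : (∑ i ∈ D', mcW F i) ≤ L (2 * K) ω := by
    refine le_trans ?_ (le_L hRB (2 * K))
    rw [mc_sum_W, Set.ncard_eq_toFinset_card']
    refine Finset.card_le_card ?_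
    intro v hv
    obtain ⟨-, hv1, hv2⟩ := Finset.mem_filter.mp hv
    rw [Set.mem_toFinset]
    obtain ⟨j, hj, hJ, -⟩ := hch' _ hv2
    refine mc_big std M hFK R (D'.image ch) _ (hDR (hD'D hv2))
      (Finset.mem_filter.mp (hD'D hv2)).2.1 j ?_ hJ v rfl
    rw [hj]
    exact Finset.mem_image_of_mem _ hv2
  -- the sum
  have hsplit : (∑ i ∈ Rh, (mcW F i : ℝ)) ≤ ∑ i ∈ R, (mcW F i : ℝ) +
      ∑ i ∈ few, (mcW F i : ℝ) + ∑ i ∈ D, (mcW F i : ℝ) := by
    have hsub : Rh ⊆ R ∪ few ∪ D := by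
      intro i hi
      rw [Finset.mem_union, Finset.mem_union]
      by_cases h1 : i ∈ R
      · exact Or.inl (Or.inl h1)
      · by_cases h2 : ((av i).card : ℝ) < (1 - η) * η ^ r * m / 2
        · exact Or.inl (Or.inr (Finset.mem_filter.mpr ⟨hi, h2⟩))
        · exact Or.inr (Finset.mem_filter.mpr ⟨hi, h1, not_lt.mp h2⟩)
    refine (Finset.sum_le_sum_of_subset_of_nonneg hsub (fun i _ _ => by positivity)).trans ?_
    refine (mc_sum_union_le _ _ _ (fun i => by positivity)).trans ?_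
    exact add_le_add (mc_sum_union_le _ _ _ (fun i => by positivity)) le_rfl
  have htot : (F.support.ncard : ℝ) = ((∑ i ∈ univ \ Rh, mcW F i : ℕ) : ℝ) +
      ∑ i ∈ Rh, (mcW F i : ℝ) := by
    rw [← mc_sum_univ]
    push_cast
    rw [Finset.sum_sdiff (Finset.subset_univ Rh)]
  have hn : (F.support.ncard : ℝ) ≤ n := by
    have := Set.ncard_le_card F.support
    simp only [Nat.card_eq_fintype_card, Fintype.card_fin] at this
    exact_mod_cast this
  have hsum : (∑ i, (mcW F i : ℝ)) = F.support.ncard := by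
    rw [← mc_sum_univ]; push_cast; rfl
  have hDsplit : ∑ i ∈ D, (mcW F i : ℝ) = ∑ i ∈ D \ D', (mcW F i : ℝ) +
      ∑ i ∈ D', (mcW F i : ℝ) := (Finset.sum_sdiff hD'D).symm
  have hD'L : ∑ i ∈ D', (mcW F i : ℝ) ≤ L (2 * K) ω := by exact_mod_cast hbig
  have hD'n : ∑ i ∈ D', (mcW F i : ℝ) ≤ n := by
    refine le_trans (Finset.sum_le_univ_sum_of_nonneg (fun i => by positivity)) ?_
    rw [hsum]; exact hn
  have hB0 : (0 : ℝ) ≤ r * Δc * ((Δ : ℝ) + 1) ^ (r + 1) := by positivity
  have hloss2 : ∑ i ∈ D \ D', (mcW F i : ℝ) ≤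
      2 * (r * Δc * ((Δ : ℝ) + 1) ^ (r + 1)) / ((1 - η) * η ^ r * m) * n := by
    have h1 : (1 - η) * η ^ r * m / 2 * ∑ i ∈ D \ D', (mcW F i : ℝ) ≤
        r * Δc * ((Δ : ℝ) + 1) ^ (r + 1) * n :=
      hloss.trans (mul_le_mul_of_nonneg_left hD'n hB0)
    rw [div_mul_eq_mul_div, le_div_iff₀ hq]
    linarith
  have hRn : ∑ i ∈ R, (mcW F i : ℝ) + ∑ i ∈ few, (mcW F i : ℝ) ≤
      (η + 4 / ((1 - η) * η ^ r * m)) * n := by
    refine le_trans hR ?_
    rw [hsum]
    exact mul_le_mul_of_nonneg_left hn (by positivity)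
  have hfin : (ρ + η + 4 / ((1 - η) * η ^ r * m) +
        2 * (r * Δc * ((Δ : ℝ) + 1) ^ (r + 1)) / ((1 - η) * η ^ r * m)) * n =
      ρ * n + (η + 4 / ((1 - η) * η ^ r * m)) * n +
        2 * (r * Δc * ((Δ : ℝ) + 1) ^ (r + 1)) / ((1 - η) * η ^ r * m) * n := by ring
  rw [hfin]
  linarith

end Pool.Agent.Lib.MP_fdca68_pr
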