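import Pool.Agent.Lib.MP_fdca68_pr.Basic

/-!
# Connecting the components by sprinkled edges (deterministic part)
-/

namespace Pool.Agent.Lib.MP_fdca68_pr

open Finset SimpleGraph
open scoped Classical

variable {n c : ℕ}

/-- the colours not used by `F` -/
noncomputable def freeCol (ω : Conf n c) (F : SimpleGraph (Fin n)) : Finset (Fin c) :=
  univ.filter (fun k => ∀ e ∈ F.edgeSet, col ω e ≠ some k)

/-- pairs between two sets of vertices, absent in `ω` -/
noncomputable def crossE (ω : Conf n c) (X Y : Finset (Fin n)) : Finset (Edge n) :=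
  univ.filter (fun e => ω e = none ∧ (∃ v ∈ e.1, v ∈ X) ∧ (∃ v ∈ e.1, v ∈ Y))

/-- adding the pairs of `S` to `F` -/
def sprG (F : SimpleGraph (Fin n)) (S : Finset (Edge n)) : SimpleGraph (Fin n) :=
  F ⊔ SimpleGraph.fromEdgeSet ((fun e : Edge n => e.1) '' (S : Set (Edge n)))

theorem spr_adj (F : SimpleGraph (Fin n)) (S : Finset (Edge n)) (u v : Fin n) :
    (sprG F S).Adj u v ↔ F.Adj u v ∨ ∃ e ∈ S, e.1 = s(u, v) := by
  unfold sprG
  rw [SimpleGraph.sup_adj, SimpleGraph.fromEdgeSet_adj]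
  constructor
  · rintro (h | ⟨⟨e, he, h⟩, -⟩)
    · exact Or.inl h
    · exact Or.inr ⟨e, he, h⟩
  · rintro (h | ⟨e, he, h⟩)
    · exact Or.inl h
    · refine Or.inr ⟨⟨e, he, h⟩, ?_⟩
      rintro rfl
      apply e.2
      rw [h]
      simp

theorem spr_mem_edgeSet (F : SimpleGraph (Fin n)) (S : Finset (Edge n)) (e : Sym2 (Fin n)) :
    e ∈ (sprG F S).edgeSet ↔ e ∈ F.edgeSet ∨ ∃ e' ∈ S, e'.1 = e := by
  induction e using Sym2.ind with
  | _ u v =>
    rw [SimpleGraph.mem_edgeSet, SimpleGraph.mem_edgeSet, spr_adj]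

theorem spr_mono (F : SimpleGraph (Fin n)) {S S' : Finset (Edge n)} (h : S ⊆ S') :
    sprG F S ≤ sprG F S' := by
  intro u v huv
  rw [spr_adj] at huv ⊢
  rcases huv with h1 | ⟨e, he, h1⟩
  · exact Or.inl h1
  · exact Or.inr ⟨e, h he, h1⟩

theorem spr_le (F : SimpleGraph (Fin n)) (S : Finset (Edge n)) : F ≤ sprG F S := by
  intro u v huv
  rw [spr_adj]
  exact Or.inl huv

/-- admissible sets of sprinkled pairs -/
structure SprOk (ω₁ ω₂ : Conf n c) (F : SimpleGraph (Fin n)) (N : ℕ) (S : Finset (Edge n)) :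
    Prop where
  abs : ∀ e ∈ S, ω₁ e = none
  free : ∀ e ∈ S, ∃ k ∈ freeCol ω₁ F, ω₂ e = some k
  supp : ∀ e ∈ S, ∀ v ∈ e.1, v ∈ F.support
  inj : ∀ e ∈ S, ∀ e' ∈ S, ω₂ e = ω₂ e' → e = e'
  reps : ∃ R : Finset (Fin n), R.card + S.card ≤ N ∧
    ∀ v ∈ F.support, ∃ x ∈ R, (sprG F S).Reachable x v

theorem spr_RB {ω₁ ω₂ : Conf n c} {F : SimpleGraph (Fin n)} (hF : RB ω₁ F) {N : ℕ}
    {S : Finset (Edge n)} (hS : SprOk ω₁ ω₂ F N S) : RB (comb ω₁ ω₂) (sprG F S) := by
  have h1 : ∀ e ∈ F.edgeSet, col (comb ω₁ ω₂) e = col ω₁ e ∧ col ω₁ e ≠ none := by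
    intro e he
    have h2 : col ω₁ e ≠ none := by
      rw [← mem_gr_edgeSet]
      exact SimpleGraph.edgeSet_mono hF.1 he
    refine ⟨?_, h2⟩
    unfold col at h2 ⊢
    by_cases hd : e.IsDiag
    · simp [hd] at h2
    · simp only [hd, dif_neg, not_false_iff] at h2 ⊢
      unfold comb
      cases h3 : ω₁ ⟨e, hd⟩ with
      | none => exact absurd h3 h2
      | some k => rfl
  have h2 : ∀ e ∈ S, col (comb ω₁ ω₂) e.1 = ω₂ e ∧ ∃ k ∈ freeCol ω₁ F, ω₂ e = some k := by
    intro e he
    refine ⟨?_, hS.free e he⟩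
    rw [col_coe]
    unfold comb
    rw [hS.abs e he]
    rfl
  constructor
  · intro u v huv
    rw [gr_adj]
    rw [spr_adj] at huv
    rcases huv with h | ⟨e, he, h⟩
    · rw [(h1 s(u, v) h).1]
      exact (h1 s(u, v) h).2
    · rw [← h, (h2 e he).1]
      obtain ⟨k, -, hk⟩ := (h2 e he).2
      rw [hk]
      simp
  · intro e he e' he' hee
    rw [spr_mem_edgeSet] at he he'
    rcases he with h | ⟨d, hd, rfl⟩ <;> rcases he' with h' | ⟨d', hd', rfl⟩
    · rw [(h1 e h).1, (h1 e' h').1] at hee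
      exact hF.2 h h' hee
    · exfalso
      rw [(h1 e h).1, (h2 d' hd').1] at hee
      obtain ⟨k, hk, hk'⟩ := (h2 d' hd').2
      rw [hk'] at hee
      unfold freeCol at hk
      exact (mem_filter.1 hk).2 e h hee
    · exfalso
      rw [(h1 e' h').1, (h2 d hd).1] at hee
      obtain ⟨k, hk, hk'⟩ := (h2 d hd).2
      rw [hk'] at hee
      unfold freeCol at hk
      exact (mem_filter.1 hk).2 e' h' hee.symm
    · rw [(h2 d hd).1, (h2 d' hd').1] at hee
      rw [hS.inj d hd d' hd' hee]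

theorem spr_reach_supp (F : SimpleGraph (Fin n)) (S : Finset (Edge n))
    (hS : ∀ e ∈ S, ∀ v ∈ e.1, v ∈ F.support) {x y : Fin n} (hx : x ∈ F.support)
    (h : (sprG F S).Reachable x y) : y ∈ F.support := by
  rw [SimpleGraph.reachable_iff_reflTransGen] at h
  induction h with
  | refl => exact hx
  | tail _ hbc _ =>
    rw [spr_adj] at hbc
    rcases hbc with h | ⟨e, he, h⟩
    · exact F.mem_support.2 ⟨_, h.symm⟩
    · apply hS e he
      rw [h]
      simp

theorem spr_insert_reps (F : SimpleGraph (Fin n)) (S : Finset (Edge n)) (R : Finset (Fin n))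
    (hR : ∀ v ∈ F.support, ∃ x ∈ R, (sprG F S).Reachable x v) (e : Edge n) (u v : Fin n)
    (he : e.1 = s(u, v)) (hu : u ∈ F.support) (hv : v ∈ F.support)
    (huv : ¬ (sprG F S).Reachable u v) :
    ∃ R' : Finset (Fin n), R'.card + 1 ≤ R.card ∧
      ∀ w ∈ F.support, ∃ x ∈ R', (sprG F (insert e S)).Reachable x w := by
  obtain ⟨xu, hxu, h1⟩ := hR u hu
  obtain ⟨xv, hxv, h2⟩ := hR v hv
  have hne : xu ≠ xv := by
    rintro rfl
    exact huv (h1.symm.trans h2)
  have hm : sprG F S ≤ sprG F (insert e S) := spr_mono F (subset_insert _ _)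
  refine ⟨R.erase xv, ?_, ?_⟩
  · rw [card_erase_of_mem hxv]
    have : 0 < R.card := card_pos.2 ⟨xv, hxv⟩
    omega
  · intro w hw
    obtain ⟨x, hx, h3⟩ := hR w hw
    by_cases hxx : x = xv
    · subst hxx
      refine ⟨xu, mem_erase.2 ⟨hne, hxu⟩, ?_⟩
      have h4 : (sprG F (insert e S)).Adj u v := by
        rw [spr_adj]
        exact Or.inr ⟨e, mem_insert_self _ _, he⟩
      exact (((h1.mono hm).trans h4.reachable).trans (h2.mono hm).symm).trans (h3.mono hm)
    · exact ⟨x, mem_erase.2 ⟨hxx, hx⟩, h3.mono hm⟩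

/-- splitting a vertex set into two unions of components -/
theorem spr_split (G : SimpleGraph (Fin n)) (U : Finset (Fin n)) (a : ℝ) (ha : 0 ≤ a)
    (hU : ∀ x ∈ U, ∀ y, G.Reachable x y → y ∈ U) (hbig : 3 * a < U.card)
    (hsmall : ∀ v ∈ U, ((G.connectedComponentMk v).supp.ncard : ℝ) + 3 * a < U.card) :
    ∃ X : Finset (Fin n), X ⊆ U ∧ (∀ x ∈ X, ∀ y, G.Reachable x y → y ∈ X) ∧ a ≤ X.card ∧
      a ≤ (U \ X).card := by
  have hne : ((U.powerset).filter (fun Z : Finset (Fin n) =>
      (∀ x ∈ Z, ∀ y, G.Reachable x y → y ∈ Z) ∧ a ≤ (Z.card : ℝ))).Nonempty := by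
    refine ⟨U, ?_⟩
    rw [mem_filter, mem_powerset]
    exact ⟨Subset.refl _, hU, by linarith⟩
  obtain ⟨X, hX, hmin⟩ := Finset.exists_min_image _ (fun Z : Finset (Fin n) => Z.card) hne
  rw [mem_filter, mem_powerset] at hX
  obtain ⟨hXU, hXc, hXa⟩ := hX
  rcases X.eq_empty_or_nonempty with h0 | ⟨v, hv⟩
  · refine ⟨X, hXU, hXc, hXa, ?_⟩
    rw [h0, sdiff_empty]
    linarith
  · have hvU : v ∈ U := hXU hv
    set C : Finset (Fin n) := univ.filter (fun w => G.Reachable v w) with hC
    have hCc : (C.card : ℝ) = ((G.connectedComponentMk v).supp.ncard : ℝ) := by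
      have : (G.connectedComponentMk v).supp = (C : Set (Fin n)) := by
        ext w
        rw [SimpleGraph.ConnectedComponent.mem_supp_iff, SimpleGraph.ConnectedComponent.eq]
        simp only [hC, coe_filter, mem_univ, true_and, Set.mem_ofPred_eq]
        exact ⟨fun h => h.symm, fun h => h.symm⟩
      rw [this, Set.ncard_coe_finset]
    have hCX : C ⊆ X := by
      intro w hw
      rw [hC, mem_filter] at hw
      exact hXc v hv w hw.2
    have hCcl : ∀ x ∈ C, ∀ y, G.Reachable x y → y ∈ C := by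
      intro x hx y hxy
      rw [hC, mem_filter] at hx ⊢
      exact ⟨mem_univ _, hx.2.trans hxy⟩
    have hCs := hsmall v hvU
    rw [← hCc] at hCs
    by_cases hCa : a ≤ (C.card : ℝ)
    · refine ⟨C, hCX.trans hXU, hCcl, hCa, ?_⟩
      have : ((U \ C).card : ℝ) = U.card - C.card := by
        rw [card_sdiff_of_subset (hCX.trans hXU), Nat.cast_sub (card_le_card (hCX.trans hXU))]
      rw [this]
      linarith
    · push Not at hCa
      have h3 : ((X \ C).card : ℝ) < a := by
        by_contra hcon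
        push Not at hcon
        have h4 := hmin (X \ C) (by
          rw [mem_filter, mem_powerset]
          refine ⟨sdiff_subset.trans hXU, ?_, hcon⟩
          intro x hx y hxy
          rw [mem_sdiff] at hx ⊢
          exact ⟨hXc x hx.1 y hxy, fun hy => hx.2 (hCcl y hy x hxy.symm)⟩)
        have h5 : (X \ C).card < X.card := by
          apply card_lt_card
          rw [ssubset_iff_of_subset sdiff_subset]
          refine ⟨v, hv, ?_⟩
          rw [mem_sdiff]
          rintro ⟨-, h⟩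
          apply h
          rw [hC, mem_filter]
          exact ⟨mem_univ _, SimpleGraph.Reachable.refl v⟩
        omega
      have h6 : ((X \ C).card : ℝ) = X.card - C.card := by
        rw [card_sdiff_of_subset hCX, Nat.cast_sub (card_le_card hCX)]
      refine ⟨X, hXU, hXc, hXa, ?_⟩
      have : ((U \ X).card : ℝ) = U.card - X.card := by
        rw [card_sdiff_of_subset hXU, Nat.cast_sub (card_le_card hXU)]
      rw [this]
      linarith

theorem spr_det (ω₁ ω₂ : Conf n c) (F : SimpleGraph (Fin n)) (hF : RB ω₁ F) (N : ℕ) (W a : ℝ)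
    (ha : 0 ≤ a)
    (hN : ∃ R : Finset (Fin n), R.card ≤ N ∧ ∀ v ∈ F.support, ∃ x ∈ R, F.Reachable x v)
    (hW : ∀ S : Finset (Fin c), S.card ≤ N → (∑ k ∈ S, (cls ω₂ k : ℝ)) ≤ W)
    (hcross : ∀ X Y : Finset (Fin n), (∀ x ∈ X, x ∈ F.support) → (∀ y ∈ Y, y ∈ F.support) →
      (∀ x ∈ X, ∀ y, F.Reachable x y → y ∈ X) → (∀ x ∈ Y, ∀ y, F.Reachable x y → y ∈ Y) →
      Disjoint X Y → (∀ v ∈ F.support, v ∈ X ∨ v ∈ Y) → a ≤ X.card → a ≤ Y.card →
      W < (((crossE ω₁ X Y).filter (fun e => ∃ k ∈ freeCol ω₁ F, ω₂ e = some k)).card : ℝ)) :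
    (F.support.ncard : ℝ) ≤ T (comb ω₁ ω₂) + 3 * a := by
  have hne : ((univ : Finset (Finset (Edge n))).filter (fun S => SprOk ω₁ ω₂ F N S)).Nonempty := by
    refine ⟨∅, ?_⟩
    rw [mem_filter]
    refine ⟨mem_univ _, ?_, ?_, ?_, ?_, ?_⟩
    · simp
    · simp
    · simp
    · simp
    · obtain ⟨R, hR, h⟩ := hN
      refine ⟨R, by simpa using hR, ?_⟩
      intro v hv
      obtain ⟨x, hx, hxv⟩ := h v hv
      exact ⟨x, hx, hxv.mono (spr_le F ∅)⟩
  obtain ⟨S, hS, hmax⟩ := Finset.exists_max_image _ (fun S : Finset (Edge n) => S.card) hne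
  rw [mem_filter] at hS
  replace hS := hS.2
  set G := sprG F S with hG
  set U : Finset (Fin n) := univ.filter (fun v => v ∈ F.support) with hU
  have hUc : F.support.ncard = U.card := by
    have : F.support = (U : Set (Fin n)) := by
      ext v
      simp [hU]
    rw [this, Set.ncard_coe_finset]
  rw [hUc]
  by_contra hcon
  push Not at hcon
  have hRB := spr_RB hF hS
  have hTn : (0 : ℝ) ≤ T (comb ω₁ ω₂) := Nat.cast_nonneg _
  have hUcl : ∀ x ∈ U, ∀ y, G.Reachable x y → y ∈ U := by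
    intro x hx y hxy
    rw [hU, mem_filter] at hx ⊢
    exact ⟨mem_univ _, spr_reach_supp F S hS.supp hx.2 hxy⟩
  obtain ⟨X, hXU, hXc, hXa, hYa⟩ := spr_split G U a ha hUcl (by linarith) (by
    intro v hv
    have h1 := le_T hRB v
    have h2 : ((G.connectedComponentMk v).supp.ncard : ℝ) ≤ T (comb ω₁ ω₂) := by
      exact_mod_cast h1
    linarith)
  have hFG : F ≤ G := spr_le F S
  have hYc : ∀ x ∈ U \ X, ∀ y, G.Reachable x y → y ∈ U \ X := by
    intro x hx y hxy
    rw [mem_sdiff] at hx ⊢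
    exact ⟨hUcl x hx.1 y hxy, fun hy => hx.2 (hXc y hy x hxy.symm)⟩
  have hmemU : ∀ v, v ∈ U ↔ v ∈ F.support := by
    intro v
    rw [hU, mem_filter]
    simp
  have key := hcross X (U \ X) (fun x hx => (hmemU x).1 (hXU hx))
    (fun x hx => (hmemU x).1 (mem_sdiff.1 hx).1)
    (fun x hx y hxy => hXc x hx y (hxy.mono hFG))
    (fun x hx y hxy => hYc x hx y (hxy.mono hFG)) disjoint_sdiff
    (fun v hv => by
      by_cases h : v ∈ X
      · exact Or.inl h
      · exact Or.inr (mem_sdiff.2 ⟨(hmemU v).2 hv, h⟩)) hXa hYa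
  set D : Finset (Fin c) := univ.filter (fun k => ∃ e ∈ S, ω₂ e = some k) with hD
  have hDc : D.card ≤ N := by
    have h1 : (D.image (fun k => (some k : Option (Fin c)))) ⊆ S.image ω₂ := by
      intro o ho
      rw [mem_image] at ho
      obtain ⟨k, hk, rfl⟩ := ho
      rw [hD, mem_filter] at hk
      obtain ⟨-, e, he, hek⟩ := hk
      rw [mem_image]
      exact ⟨e, he, hek⟩
    have h2 : (D.image (fun k => (some k : Option (Fin c)))).card = D.card :=
      card_image_of_injective _ (Option.some_injective _)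
    have h3 := card_le_card h1
    have h4 : (S.image ω₂).card ≤ S.card := card_image_le
    obtain ⟨R, hR, -⟩ := hS.reps
    omega
  have hsub : ((crossE ω₁ X (U \ X)).filter (fun e => ∃ k ∈ freeCol ω₁ F, ω₂ e = some k)) ⊆
      D.biUnion (fun k => univ.filter (fun e : Edge n => ω₂ e = some k)) := by
    intro e he
    rw [mem_filter] at he
    obtain ⟨he1, k, hk, hek⟩ := he
    rw [mem_biUnion]
    refine ⟨k, ?_, by rw [mem_filter]; exact ⟨mem_univ _, hek⟩⟩
    rw [hD, mem_filter]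
    refine ⟨mem_univ _, ?_⟩
    by_contra hno
    push Not at hno
    unfold crossE at he1
    rw [mem_filter] at he1
    obtain ⟨-, he0, ⟨u, hue, huX⟩, ⟨v, hve, hvY⟩⟩ := he1
    have hvY' := mem_sdiff.1 hvY
    have huv : u ≠ v := by
      rintro rfl
      exact hvY'.2 huX
    have hes : e.1 = s(u, v) := by
      exact (Sym2.mem_and_mem_iff huv).1 ⟨hue, hve⟩
    have hnr : ¬ G.Reachable u v := fun h => hvY'.2 (hXc u huX v h)
    have heS : e ∉ S := fun h => hno e h hek
    obtain ⟨R, hRc, hR⟩ := hS.reps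
    have huS : u ∈ F.support := (hmemU u).1 (hXU huX)
    have hvS : v ∈ F.support := (hmemU v).1 hvY'.1
    obtain ⟨R', hR'c, hR'⟩ := spr_insert_reps F S R hR e u v hes huS hvS hnr
    have hok : SprOk ω₁ ω₂ F N (insert e S) := by
      refine ⟨?_, ?_, ?_, ?_, ?_⟩
      · intro d hd
        rcases mem_insert.1 hd with rfl | h
        · exact he0
        · exact hS.abs d h
      · intro d hd
        rcases mem_insert.1 hd with rfl | h
        · exact ⟨k, hk, hek⟩
        · exact hS.free d h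
      · intro d hd w hw
        rcases mem_insert.1 hd with rfl | h
        · rw [hes, Sym2.mem_iff] at hw
          rcases hw with rfl | rfl
          · exact huS
          · exact hvS
        · exact hS.supp d h w hw
      · intro d hd d' hd' hdd
        rcases mem_insert.1 hd with rfl | h <;> rcases mem_insert.1 hd' with rfl | h'
        · rfl
        · exact absurd (hdd.symm.trans hek) (hno d' h')
        · exact absurd (hdd.trans hek) (hno d h)
        · exact hS.inj d h d' h' hdd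
      · refine ⟨R', ?_, hR'⟩
        rw [card_insert_of_notMem heS]
        omega
    have := hmax (insert e S) (by rw [mem_filter]; exact ⟨mem_univ _, hok⟩)
    rw [card_insert_of_notMem heS] at this
    omega
  have h1 : (((crossE ω₁ X (U \ X)).filter
      (fun e => ∃ k ∈ freeCol ω₁ F, ω₂ e = some k)).card : ℝ) ≤ ∑ k ∈ D, (cls ω₂ k : ℝ) := by
    have h2 := (card_le_card hsub).trans card_biUnion_le
    have h3 : (∑ k ∈ D, (cls ω₂ k : ℝ)) = ((∑ k ∈ D, cls ω₂ k : ℕ) : ℝ) := by
      push_cast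
      rfl
    rw [h3]
    exact_mod_cast h2
  have h2 := hW D hDc
  linarith

end Pool.Agent.Lib.MP_fdca68_pr
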