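import Pool.Agent.Lib.MP_fdca68_pr.Basic

/-!
# Labelled trees: bounds on their number by a dual probability argument
-/

namespace Pool.Agent.Lib.MP_fdca68_pr

open Finset SimpleGraph
open scoped Classical

/-- number of labelled trees on `k` vertices -/
noncomputable def tr (k : ℕ) : ℕ := Fintype.card {H : SimpleGraph (Fin k) // H.IsTree}

/-- `tr k / (k-1)!` -/
noncomputable def ak (k : ℕ) : ℝ := (tr k : ℝ) / (k - 1).factorial

/-! ### The events -/

/-- the increasing enumeration of a finite set of vertices -/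
noncomputable def tree_emb {n : ℕ} (S : Finset (Fin n)) : Fin S.card ↪ Fin n :=
  (S.orderEmbOfFin rfl).toEmbedding

theorem tree_emb_mem {n : ℕ} (S : Finset (Fin n)) (i : Fin S.card) : tree_emb S i ∈ S :=
  S.orderEmbOfFin_mem rfl i

theorem tree_emb_surj {n : ℕ} (S : Finset (Fin n)) {v : Fin n} (hv : v ∈ S) :
    ∃ i, tree_emb S i = v := by
  have h := S.range_orderEmbOfFin rfl
  have h1 : v ∈ Set.range (S.orderEmbOfFin rfl) := by rw [h]; exact hv
  exact h1

/-- pairs present -/
noncomputable def tree_P {n : ℕ} (S : Finset (Fin n)) (G : SimpleGraph (Fin S.card)) :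
    Finset (Edge n) := univ.filter fun e => e.1 ∈ (G.map (tree_emb S)).edgeSet

/-- pairs absent -/
noncomputable def tree_Q {n : ℕ} (S : Finset (Fin n)) (G : SimpleGraph (Fin S.card)) :
    Finset (Edge n) :=
  univ.filter fun e => (∃ v ∈ e.1, v ∈ S) ∧ e.1 ∉ (G.map (tree_emb S)).edgeSet

/-- the event that the component of a vertex of `S` is `S` and induces `G` -/
def tree_A {n : ℕ} (S : Finset (Fin n)) (G : SimpleGraph (Fin S.card)) : Set (Conf n 1) :=
  {ω | (∀ e ∈ tree_P S G, ω e ≠ none) ∧ ∀ e ∈ tree_Q S G, ω e = none}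

theorem tree_P_card {n : ℕ} (S : Finset (Fin n)) (G : SimpleGraph (Fin S.card))
    (hG : G.IsTree) : (tree_P S G).card = S.card - 1 := by
  have h1 : (tree_P S G).card = (G.map (tree_emb S)).edgeFinset.card := by
    rw [← Finset.card_map (Function.Embedding.subtype _)]
    congr 1
    ext e
    simp only [tree_P, Finset.mem_map, Finset.mem_filter, Finset.mem_univ, true_and,
      Function.Embedding.subtype_apply, SimpleGraph.mem_edgeFinset]
    constructor
    · rintro ⟨a, ha, rfl⟩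
      exact ha
    · intro he
      exact ⟨⟨e, SimpleGraph.not_isDiag_of_mem_edgeSet _ he⟩, he, rfl⟩
  have h2 : (G.map (tree_emb S)).edgeFinset.card = G.edgeFinset.card := by
    have h := SimpleGraph.card_edgeFinset_map (tree_emb S) G
    simp only [SimpleGraph.edgeFinset, ← Set.ncard_eq_toFinset_card'] at h ⊢
    exact h
  have h3 := hG.card_edgeFinset
  rw [Fintype.card_fin] at h3
  omega

theorem tree_deg_card {n : ℕ} (v : Fin n) :
    ((univ : Finset (Edge n)).filter fun e => v ∈ e.1).card ≤ n := by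
  rw [← Finset.card_map (Function.Embedding.subtype _)]
  calc _ ≤ ((univ : Finset (Fin n)).image fun u => s(v, u)).card := by
        apply Finset.card_le_card
        intro e he
        simp only [Finset.mem_map, Finset.mem_filter, Finset.mem_univ, true_and,
          Function.Embedding.subtype_apply] at he
        obtain ⟨a, ha, rfl⟩ := he
        obtain ⟨u, hu⟩ := ha
        rw [Finset.mem_image]
        exact ⟨u, Finset.mem_univ _, hu.symm⟩
    _ ≤ n := by
        refine Finset.card_image_le.trans ?_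
        simp

theorem tree_Q_card {n : ℕ} (S : Finset (Fin n)) (G : SimpleGraph (Fin S.card)) :
    (tree_Q S G).card ≤ S.card * n := by
  have h1 : tree_Q S G ⊆ S.biUnion fun v => (univ : Finset (Edge n)).filter fun e => v ∈ e.1 := by
    intro e he
    simp only [tree_Q, Finset.mem_filter, Finset.mem_univ, true_and] at he
    obtain ⟨⟨v, hv, hvS⟩, -⟩ := he
    rw [Finset.mem_biUnion]
    exact ⟨v, hvS, by simp [hv]⟩
  refine (Finset.card_le_card h1).trans (Finset.card_biUnion_le.trans ?_)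
  refine (Finset.sum_le_sum fun v _ => tree_deg_card v).trans ?_
  simp

theorem tree_disj {n : ℕ} (S : Finset (Fin n)) (G : SimpleGraph (Fin S.card)) :
    Disjoint (tree_P S G) (tree_Q S G) := by
  rw [Finset.disjoint_left]
  intro e h1 h2
  simp only [tree_P, tree_Q, Finset.mem_filter, Finset.mem_univ, true_and] at h1 h2
  exact h2.2 h1

theorem tree_adj {n : ℕ} {S : Finset (Fin n)} {G : SimpleGraph (Fin S.card)} {ω : Conf n 1}
    (h : ω ∈ tree_A S G) {u w : Fin n} (hu : u ∈ S) :
    (gr ω).Adj u w ↔ (G.map (tree_emb S)).Adj u w := by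
  constructor
  · intro ha
    by_contra hn
    have hne : ¬ (s(u, w)).IsDiag := by
      rw [Sym2.mk_isDiag_iff]
      exact ha.ne
    have h1 := h.2 ⟨s(u, w), hne⟩ (by
      simp only [tree_Q, Finset.mem_filter, Finset.mem_univ, true_and]
      exact ⟨⟨u, Sym2.mem_mk_left u w, hu⟩, hn⟩)
    rw [gr_adj] at ha
    apply ha
    have h2 := col_coe ω ⟨s(u, w), hne⟩
    rw [h1] at h2
    exact h2
  · intro ha
    have hne : ¬ (s(u, w)).IsDiag := by
      rw [Sym2.mk_isDiag_iff]
      exact ha.ne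
    have h1 := h.1 ⟨s(u, w), hne⟩ (by
      simp only [tree_P, Finset.mem_filter, Finset.mem_univ, true_and]
      exact ha)
    rw [gr_adj]
    have h2 := col_coe ω ⟨s(u, w), hne⟩
    intro h3
    apply h1
    rw [← h2]
    exact h3

theorem tree_comp {n : ℕ} {S : Finset (Fin n)} {G : SimpleGraph (Fin S.card)} {ω : Conf n 1}
    (hG : G.IsTree) (h : ω ∈ tree_A S G) {v₀ : Fin n} (h0 : v₀ ∈ S) (v : Fin n) :
    v ∈ S ↔ (gr ω).Reachable v₀ v := by
  constructor
  · intro hv
    obtain ⟨i, rfl⟩ := tree_emb_surj S hv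
    obtain ⟨j, rfl⟩ := tree_emb_surj S h0
    have h1 : G.Reachable j i := hG.connected.preconnected j i
    have hom : G →g gr ω := ⟨tree_emb S, by
      intro a b hab
      rw [tree_adj h (tree_emb_mem S a)]
      exact (SimpleGraph.map_adj_apply).mpr hab⟩
    have hom' : ∀ a b, G.Adj a b → (gr ω).Adj (tree_emb S a) (tree_emb S b) := by
      intro a b hab
      rw [tree_adj h (tree_emb_mem S a)]
      exact (SimpleGraph.map_adj_apply).mpr hab
    exact h1.map (⟨tree_emb S, fun {a b} hab => hom' a b hab⟩ : G →g gr ω)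
  · rintro ⟨w⟩
    induction w with
    | nil => exact h0
    | cons ha _ ih =>
      apply ih
      rw [tree_adj h h0] at ha
      rw [SimpleGraph.map_adj] at ha
      obtain ⟨a, b, _, _, rfl⟩ := ha
      exact tree_emb_mem S b

theorem tree_uniq {n : ℕ} {S S' : Finset (Fin n)} {G : SimpleGraph (Fin S.card)}
    {G' : SimpleGraph (Fin S'.card)} {ω : Conf n 1} (hG : G.IsTree) (hG' : G'.IsTree)
    (h : ω ∈ tree_A S G) (h' : ω ∈ tree_A S' G') {v₀ : Fin n} (h0 : v₀ ∈ S) (h0' : v₀ ∈ S') :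
    S = S' := by
  ext v
  rw [tree_comp hG h h0, tree_comp hG' h' h0']

theorem tree_uniq' {n : ℕ} {S : Finset (Fin n)} {G G' : SimpleGraph (Fin S.card)}
    {ω : Conf n 1} (h : ω ∈ tree_A S G) (h' : ω ∈ tree_A S G') : G = G' := by
  ext a b
  rw [← SimpleGraph.map_adj_apply (f := tree_emb S), ← tree_adj h (tree_emb_mem S a),
    tree_adj h' (tree_emb_mem S a), SimpleGraph.map_adj_apply]

/-- total probability -/
theorem tree_total {n : ℕ} (v₀ : Fin n) (p : ℝ) (h0 : 0 ≤ p) (h1 : p ≤ 1)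
    (𝒮 : Finset (Finset (Fin n))) (h𝒮 : ∀ S ∈ 𝒮, v₀ ∈ S) :
    ∑ S ∈ 𝒮, ∑ G : {H : SimpleGraph (Fin S.card) // H.IsTree}, Pr n 1 p (tree_A S G.1) ≤ 1 := by
  rw [← sum_wt (n := n) one_pos p]
  unfold Pr
  have e1 : ∑ S ∈ 𝒮, ∑ G : {H : SimpleGraph (Fin S.card) // H.IsTree},
      ∑ ω : Conf n 1, (if ω ∈ tree_A S G.1 then wt n 1 p ω else 0) =
      ∑ ω : Conf n 1, ∑ S ∈ 𝒮, ∑ G : {H : SimpleGraph (Fin S.card) // H.IsTree},
        (if ω ∈ tree_A S G.1 then wt n 1 p ω else 0) := by
    rw [Finset.sum_comm]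
    refine Finset.sum_congr rfl fun S _ => ?_
    rw [Finset.sum_comm]
  rw [e1]
  refine Finset.sum_le_sum fun ω _ => ?_
  have hw : 0 ≤ wt n 1 p ω := wt_nonneg h0 h1 ω
  by_cases hex : ∃ S ∈ 𝒮, ∃ G : {H : SimpleGraph (Fin S.card) // H.IsTree}, ω ∈ tree_A S G.1
  · obtain ⟨S, hS, G, hG⟩ := hex
    rw [Finset.sum_eq_single_of_mem S hS]
    · rw [Finset.sum_eq_single_of_mem G (Finset.mem_univ _)]
      · rw [if_pos hG]
      · intro G' _ hne
        rw [if_neg]
        intro h'
        exact hne (Subtype.ext (tree_uniq' h' hG))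
    · intro S' hS' hne
      refine Finset.sum_eq_zero fun G' _ => ?_
      rw [if_neg]
      intro h'
      exact hne (tree_uniq G'.2 G.2 h' hG (h𝒮 S' hS') (h𝒮 S hS))
  · rw [Finset.sum_eq_zero]
    · exact hw
    · intro S hS
      refine Finset.sum_eq_zero fun G _ => ?_
      rw [if_neg]
      intro h'
      exact hex ⟨S, hS, G, h'⟩

theorem tree_finite {n : ℕ} (v₀ : Fin n) (p : ℝ) (h0 : 0 ≤ p) (h1 : p ≤ 1) (K : ℕ) :
    ∑ k ∈ Finset.Icc 1 K, ((n - 1).choose (k - 1) : ℝ) * tr k * p ^ (k - 1) *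
      (1 - p) ^ (k * n) ≤ 1 := by
  set 𝒮 : Finset (Finset (Fin n)) := univ.filter fun S => v₀ ∈ S ∧ S.card ≤ K with h𝒮
  refine le_trans ?_ (tree_total v₀ p h0 h1 𝒮 (by
    intro S hS
    rw [h𝒮, Finset.mem_filter] at hS
    exact hS.2.1))
  have hq : 0 ≤ 1 - p := by linarith
  have hterm : ∀ S ∈ 𝒮, (tr S.card : ℝ) * p ^ (S.card - 1) * (1 - p) ^ (S.card * n) ≤
      ∑ G : {H : SimpleGraph (Fin S.card) // H.IsTree}, Pr n 1 p (tree_A S G.1) := by
    intro S _
    have hc : (tr S.card : ℝ) * p ^ (S.card - 1) * (1 - p) ^ (S.card * n) =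
        ∑ _G : {H : SimpleGraph (Fin S.card) // H.IsTree},
          p ^ (S.card - 1) * (1 - p) ^ (S.card * n) := by
      rw [Finset.sum_const, nsmul_eq_mul, mul_assoc]
      rfl
    rw [hc]
    refine Finset.sum_le_sum fun G _ => ?_
    have h2 := Pr_pres_abs (n := n) (p := p) one_pos (tree_P S G.1) (tree_Q S G.1)
      (tree_disj S G.1)
    unfold tree_A
    rw [h2, tree_P_card S G.1 G.2]
    refine mul_le_mul_of_nonneg_left ?_ (pow_nonneg h0 _)
    exact pow_le_pow_of_le_one hq (by linarith) (tree_Q_card S G.1)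
  refine le_trans ?_ (Finset.sum_le_sum hterm)
  have hmaps : ∀ S ∈ 𝒮, S.card ∈ Finset.Icc 1 K := by
    intro S hS
    rw [h𝒮, Finset.mem_filter] at hS
    rw [Finset.mem_Icc]
    exact ⟨Finset.card_pos.mpr ⟨v₀, hS.2.1⟩, hS.2.2⟩
  rw [← Finset.sum_fiberwise_of_maps_to hmaps]
  refine Finset.sum_le_sum fun k hk => ?_
  rw [Finset.mem_Icc] at hk
  have hcard : ((n - 1).choose (k - 1)) ≤ (𝒮.filter fun S => S.card = k).card := by
    have h3 : (Finset.powersetCard (k - 1) ((univ : Finset (Fin n)).erase v₀)).card =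
        (n - 1).choose (k - 1) := by
      rw [Finset.card_powersetCard, Finset.card_erase_of_mem (Finset.mem_univ _),
        Finset.card_univ, Fintype.card_fin]
    rw [← h3]
    refine Finset.card_le_card_of_injOn (fun T => insert v₀ T) ?_ ?_
    · intro T hT
      have hT' := Finset.mem_powersetCard.mp hT
      have hv : v₀ ∉ T := fun h => by simpa using hT'.1 h
      have hc : (insert v₀ T).card = k := by
        rw [Finset.card_insert_of_notMem hv, hT'.2]
        omega
      simp only [Finset.coe_filter, Set.mem_ofPred_eq, h𝒮, Finset.mem_filter, Finset.mem_univ,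
        true_and, Finset.mem_insert_self, hc, and_true]
      exact hk.2
    · intro T hT T' hT' heq
      have hT1 := Finset.mem_powersetCard.mp hT
      have hT2 := Finset.mem_powersetCard.mp hT'
      have hv : v₀ ∉ T := fun h => by simpa using hT1.1 h
      have hv' : v₀ ∉ T' := fun h => by simpa using hT2.1 h
      have : (insert v₀ T).erase v₀ = (insert v₀ T').erase v₀ := congrArg (fun S => S.erase v₀) heq
      rwa [Finset.erase_insert hv, Finset.erase_insert hv'] at this
  have hs : ∑ S ∈ 𝒮.filter (fun S => S.card = k),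
      (tr S.card : ℝ) * p ^ (S.card - 1) * (1 - p) ^ (S.card * n) =
      (𝒮.filter fun S => S.card = k).card * ((tr k : ℝ) * p ^ (k - 1) * (1 - p) ^ (k * n)) := by
    rw [← nsmul_eq_mul, ← Finset.sum_const]
    refine Finset.sum_congr rfl fun S hS => ?_
    rw [(Finset.mem_filter.mp hS).2]
  rw [hs]
  have hnn : 0 ≤ (tr k : ℝ) * p ^ (k - 1) * (1 - p) ^ (k * n) := by positivity
  calc ((n - 1).choose (k - 1) : ℝ) * tr k * p ^ (k - 1) * (1 - p) ^ (k * n)
      = ((n - 1).choose (k - 1) : ℝ) * ((tr k : ℝ) * p ^ (k - 1) * (1 - p) ^ (k * n)) := by ring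
    _ ≤ _ := mul_le_mul_of_nonneg_right (by exact_mod_cast hcard) hnn

/-- the probability that the component of a vertex of `G(n,x/n)` is a tree with at most `K`
vertices is at most one; in the limit -/
theorem tree_sum_le (x : ℝ) (h0 : 0 < x) (K : ℕ) :
    ∑ k ∈ Finset.Icc 1 K, ak k * x ^ (k - 1) * Real.exp (-(x * k)) ≤ 1 := by
  -- the finite inequality with a polynomial lower bound for the binomial coefficient
  have hfin : ∀ n : ℕ, x ≤ n → 1 ≤ n → K ≤ n →
      ∑ k ∈ Finset.Icc 1 K, ak k * x ^ (k - 1) *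
        ((1 + (-((k : ℝ) - 1)) / n) ^ (k - 1) * ((1 + (-x) / n) ^ n) ^ k) ≤ 1 := by
    intro n hxn hn hKn
    have hn' : (0 : ℝ) < n := by exact_mod_cast hn
    have hp0 : 0 ≤ x / n := by positivity
    have hp1 : x / n ≤ 1 := (div_le_one hn').mpr hxn
    refine le_trans ?_ (tree_finite (n := n) ⟨0, hn⟩ (x / n) hp0 hp1 K)
    refine Finset.sum_le_sum fun k hk => ?_
    rw [Finset.mem_Icc] at hk
    have hb := Nat.pow_le_choose (α := ℝ) (k - 1) (n - 1)
    have hcast : (((n - 1 + 1 - (k - 1) : ℕ) : ℝ)) = n - ((k : ℝ) - 1) := by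
      have : n - 1 + 1 - (k - 1) = n - (k - 1) := by omega
      rw [this, Nat.cast_sub (by omega), Nat.cast_sub hk.1, Nat.cast_one]
    rw [hcast] at hb
    have hq : 0 ≤ 1 - x / n := by linarith
    have e2 : (1 + (-x) / (n : ℝ)) = 1 - x / n := by ring
    have e3 : (1 + (-((k : ℝ) - 1)) / n) = (n - ((k : ℝ) - 1)) / n := by
      field_simp
      ring
    rw [e2, e3, ← pow_mul, mul_comm n k, div_pow, div_pow]
    unfold ak
    have hT : (0 : ℝ) ≤ tr k := Nat.cast_nonneg _
    have hX : 0 ≤ (tr k : ℝ) * (x ^ (k - 1) / (n : ℝ) ^ (k - 1)) * (1 - x / n) ^ (k * n) := by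
      positivity
    calc (tr k : ℝ) / (k - 1).factorial * x ^ (k - 1) *
          ((n - ((k : ℝ) - 1)) ^ (k - 1) / (n : ℝ) ^ (k - 1) * (1 - x / n) ^ (k * n))
        = ((n - ((k : ℝ) - 1)) ^ (k - 1) / (k - 1).factorial) *
          ((tr k : ℝ) * (x ^ (k - 1) / (n : ℝ) ^ (k - 1)) * (1 - x / n) ^ (k * n)) := by ring
      _ ≤ ((n - 1).choose (k - 1) : ℝ) *
          ((tr k : ℝ) * (x ^ (k - 1) / (n : ℝ) ^ (k - 1)) * (1 - x / n) ^ (k * n)) :=
          mul_le_mul_of_nonneg_right hb hX
      _ = _ := by ring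
  have hlim : Filter.Tendsto (fun n : ℕ => ∑ k ∈ Finset.Icc 1 K, ak k * x ^ (k - 1) *
      ((1 + (-((k : ℝ) - 1)) / n) ^ (k - 1) * ((1 + (-x) / n) ^ n) ^ k)) Filter.atTop
      (nhds (∑ k ∈ Finset.Icc 1 K, ak k * x ^ (k - 1) *
        ((1 + 0) ^ (k - 1) * (Real.exp (-x)) ^ k))) := by
    refine tendsto_finsetSum _ fun k _ => ?_
    refine Filter.Tendsto.const_mul _ ?_
    refine Filter.Tendsto.mul ?_ ?_
    · refine Filter.Tendsto.pow ?_ _
      exact (tendsto_const_div_atTop_nhds_zero_nat _).const_add 1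
    · exact (Real.tendsto_one_add_div_pow_exp (-x)).pow k
  have h1 : ∑ k ∈ Finset.Icc 1 K, ak k * x ^ (k - 1) *
        ((1 + 0) ^ (k - 1) * (Real.exp (-x)) ^ k) ≤ 1 := by
    refine le_of_tendsto hlim ?_
    obtain ⟨N, hN⟩ := exists_nat_ge x
    filter_upwards [Filter.eventually_ge_atTop (max N (max 1 K))] with n hn
    refine hfin n ?_ ?_ ?_
    · exact hN.trans (by exact_mod_cast (le_max_left _ _).trans hn)
    · exact (le_max_left 1 K).trans ((le_max_right _ _).trans hn)
    · exact (le_max_right 1 K).trans ((le_max_right _ _).trans hn)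
  refine le_trans (le_of_eq ?_) h1
  refine Finset.sum_congr rfl fun k _ => ?_
  rw [add_zero, one_pow, one_mul, ← Real.exp_nat_mul]
  congr 2
  ring

theorem tree_ak_nonneg (k : ℕ) : 0 ≤ ak k := by
  unfold ak
  positivity

theorem ak_le (k : ℕ) (hk : 1 ≤ k) : ak k ≤ Real.exp k := by
  have h := tree_sum_le 1 one_pos k
  have h1 : ak k * 1 ^ (k - 1) * Real.exp (-(1 * k)) ≤ 1 := by
    refine le_trans ?_ h
    exact Finset.single_le_sum (f := fun k : ℕ => ak k * (1 : ℝ) ^ (k - 1) *
      Real.exp (-(1 * k))) (fun i _ => by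
        have := tree_ak_nonneg i
        positivity) (Finset.mem_Icc.mpr ⟨hk, le_rfl⟩)
  rw [one_pow, mul_one, one_mul, Real.exp_neg, ← div_eq_mul_inv,
    div_le_one (Real.exp_pos _)] at h1
  exact h1

/-- for `lam > 1` the mass of finite trees is bounded away from one -/
theorem tree_sum_lt (lam : ℝ) (hl : 1 < lam) : ∃ β : ℝ, β < 1 ∧ ∀ K : ℕ,
    ∑ k ∈ Finset.Icc 1 K, ak k * lam ^ (k - 1) * Real.exp (-(lam * k)) ≤ β := by
  have hl0 : 0 < lam := by linarith
  -- the dual parameter
  obtain ⟨x, hx, hxe⟩ : ∃ x ∈ Set.Icc (0 : ℝ) 1, x * Real.exp (-x) = lam * Real.exp (-lam) := by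
    have hcont : ContinuousOn (fun t : ℝ => t * Real.exp (-t)) (Set.Icc 0 1) := by fun_prop
    have h := intermediate_value_Icc (zero_le_one) hcont
    refine h ⟨?_, ?_⟩
    · simp only [zero_mul]
      positivity
    · have h2 := Real.add_one_le_exp (lam - 1)
      have h3 : Real.exp (lam - 1) = Real.exp lam * Real.exp (-1) := by
        rw [← Real.exp_add]
        ring_nf
      rw [h3] at h2
      have h4 : lam ≤ Real.exp lam * Real.exp (-1) := by linarith
      calc lam * Real.exp (-lam) ≤ (Real.exp lam * Real.exp (-1)) * Real.exp (-lam) :=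
            mul_le_mul_of_nonneg_right h4 (Real.exp_pos _).le
        _ = 1 * Real.exp (-1) := by
            rw [mul_right_comm, ← Real.exp_add]
            simp
  have hx0 : 0 < x := by
    rcases hx.1.eq_or_lt with h | h
    · exfalso
      rw [← h] at hxe
      have : 0 < lam * Real.exp (-lam) := by positivity
      linarith
    · exact h
  refine ⟨x / lam, (div_lt_one hl0).mpr (by linarith [hx.2]), ?_⟩
  intro K
  have hs := tree_sum_le x hx0 K
  have heq : ∑ k ∈ Finset.Icc 1 K, ak k * lam ^ (k - 1) * Real.exp (-(lam * k)) =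
      (x / lam) * ∑ k ∈ Finset.Icc 1 K, ak k * x ^ (k - 1) * Real.exp (-(x * k)) := by
    rw [Finset.mul_sum]
    refine Finset.sum_congr rfl fun k hk => ?_
    rw [Finset.mem_Icc] at hk
    have e1 : Real.exp (-(lam * k)) = Real.exp (-lam) ^ k := by
      rw [← Real.exp_nat_mul]
      congr 1
      ring
    have e2 : Real.exp (-(x * k)) = Real.exp (-x) ^ k := by
      rw [← Real.exp_nat_mul]
      congr 1
      ring
    have e3 : lam ^ k * Real.exp (-lam) ^ k = x ^ k * Real.exp (-x) ^ k := by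
      rw [← mul_pow, ← mul_pow, hxe]
    obtain ⟨j, rfl⟩ : ∃ j, k = j + 1 := ⟨k - 1, by omega⟩
    rw [e1, e2]
    rw [Nat.add_sub_cancel]
    rw [pow_succ lam, pow_succ x] at e3
    field_simp
    linear_combination (ak (j + 1)) * e3
  rw [heq]
  calc (x / lam) * ∑ k ∈ Finset.Icc 1 K, ak k * x ^ (k - 1) * Real.exp (-(x * k)) ≤
        (x / lam) * 1 := mul_le_mul_of_nonneg_left hs (by positivity)
    _ = x / lam := mul_one _

end Pool.Agent.Lib.MP_fdca68_pr
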